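import Pool.Agent.H95RU.FamAB
import Pool.Agent.Y810.SQ.Law2

set_option autoImplicit false

/-!
# Project RU: almost primes
-/

namespace Pool.Agent.H95RU

open Finset

lemma V_bounds : ∃ c : ℝ, 0 < c ∧ ∀ y : ℕ, 2 ≤ y → c / Real.log y ≤ V y := by
  obtain ⟨c, C, hc, hC, h⟩ := Pool.Agent.Y810.SQ.V1_bounds
  exact ⟨c, hc, fun y hy => (h y hy).1⟩

/-- the parameters -/
lemma param (K κ : ℝ) (K₀ y₀ M : ℕ) (hκ : 0 < κ) (hM : 1 ≤ M) : ∃ r : ℕ, 1 ≤ r ∧ ∃ X₀ : ℕ, ∀ X : ℕ, X₀ ≤ X →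
    ∃ y : ℕ, y₀ ≤ y ∧ y ^ K₀ ≤ X / M ∧ X < (y + 1) ^ r ∧ ∀ N : ℕ, κ * Real.log X ≤ N → K ≤ N * V y := by
  obtain ⟨c, hc, hV⟩ := V_bounds
  obtain ⟨r1, hr1⟩ := exists_nat_ge (K / (κ * c))
  obtain ⟨r, hr⟩ : ∃ r, r = r1 + 2 * K₀ + 1 := ⟨_, rfl⟩
  have hr0 : 1 ≤ r := by omega
  have hrr : (0 : ℝ) < r := by exact_mod_cast hr0
  have hpow : Filter.Tendsto (fun X : ℕ => (X : ℝ) ^ (1 / (r : ℝ))) Filter.atTop Filter.atTop :=
    (tendsto_rpow_atTop (by positivity)).comp tendsto_natCast_atTop_atTop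
  obtain ⟨X1, hX1⟩ := Filter.eventually_atTop.1 (hpow.eventually_ge_atTop ((y₀ : ℝ) + 2))
  refine ⟨r, hr0, max X1 (4 * M ^ 2 + 2), fun X hX => ?_⟩
  have hXX := hX1 X ((le_max_left _ _).trans hX)
  have hX4 : 4 * M ^ 2 + 2 ≤ X := (le_max_right _ _).trans hX
  have hX1' : (1 : ℝ) < X := by exact_mod_cast (by omega : 1 < X)
  have hX0 : (0 : ℝ) < X := by linarith
  refine ⟨⌊(X : ℝ) ^ (1 / (r : ℝ))⌋₊, ?_, ?_, ?_, ?_⟩
  · apply Nat.le_floor
    linarith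
  · have h1 : ((⌊(X : ℝ) ^ (1 / (r : ℝ))⌋₊ : ℕ) : ℝ) ^ K₀ ≤ √(X : ℝ) := by
      calc ((⌊(X : ℝ) ^ (1 / (r : ℝ))⌋₊ : ℕ) : ℝ) ^ K₀ ≤ ((X : ℝ) ^ (1 / (r : ℝ))) ^ K₀ :=
            pow_le_pow_left₀ (Nat.cast_nonneg _) (Nat.floor_le (by positivity)) _
        _ = (X : ℝ) ^ (1 / (r : ℝ) * K₀) := by rw [← Real.rpow_natCast, ← Real.rpow_mul hX0.le]
        _ ≤ (X : ℝ) ^ (1 / 2 : ℝ) := by
            apply Real.rpow_le_rpow_of_exponent_le hX1'.le
            rw [one_div, inv_mul_le_iff₀ hrr]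
            have : (2 * K₀ : ℝ) ≤ r := by
              rw [hr]
              push_cast
              have : (0 : ℝ) ≤ r1 := Nat.cast_nonneg _
              linarith
            linarith
        _ = √(X : ℝ) := by rw [Real.sqrt_eq_rpow]
    have hMr : (1 : ℝ) ≤ M := by exact_mod_cast hM
    have h2 : 2 * (M : ℝ) ≤ √(X : ℝ) := by
      apply Real.le_sqrt_of_sq_le
      have : ((4 * M ^ 2 + 2 : ℕ) : ℝ) ≤ X := by exact_mod_cast hX4
      push_cast at this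
      nlinarith
    have h3 : √(X : ℝ) ≤ X / M - 1 := by
      have h4 : √(X : ℝ) * √(X : ℝ) = X := Real.mul_self_sqrt hX0.le
      have h5 : 2 * √(X : ℝ) ≤ X / M := by
        rw [le_div_iff₀ (by linarith)]
        calc 2 * √(X : ℝ) * M = √(X : ℝ) * (2 * M) := by ring
          _ ≤ √(X : ℝ) * √(X : ℝ) := mul_le_mul_of_nonneg_left h2 (Real.sqrt_nonneg _)
          _ = X := h4
      have : 1 ≤ √(X : ℝ) := by linarith
      linarith
    have h4 : (X : ℝ) / M - 1 < ((X / M : ℕ) : ℝ) := by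
      have := Nat.lt_floor_add_one ((X : ℝ) / (M : ℝ))
      rw [Nat.floor_div_eq_div] at this
      linarith
    have h5 : (((⌊(X : ℝ) ^ (1 / (r : ℝ))⌋₊) ^ K₀ : ℕ) : ℝ) ≤ ((X / M : ℕ) : ℝ) := by
      push_cast
      linarith
    exact_mod_cast h5
  · have h1 : (X : ℝ) ^ (1 / (r : ℝ)) < (⌊(X : ℝ) ^ (1 / (r : ℝ))⌋₊ : ℝ) + 1 := Nat.lt_floor_add_one _
    have h2 : (X : ℝ) < ((⌊(X : ℝ) ^ (1 / (r : ℝ))⌋₊ : ℝ) + 1) ^ r := by
      calc (X : ℝ) = ((X : ℝ) ^ (1 / (r : ℝ))) ^ r := by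
            rw [← Real.rpow_natCast, ← Real.rpow_mul hX0.le, one_div, inv_mul_cancel₀ hrr.ne', Real.rpow_one]
        _ < _ := pow_lt_pow_left₀ h1 (by positivity) (by omega)
    exact_mod_cast h2
  · intro N hN
    have hy2 : 2 ≤ ⌊(X : ℝ) ^ (1 / (r : ℝ))⌋₊ := by
      apply Nat.le_floor
      have : (0 : ℝ) ≤ y₀ := Nat.cast_nonneg _
      push_cast
      linarith
    have h1 := hV _ hy2
    have hlogX : 0 < Real.log X := Real.log_pos hX1'
    have hy2' : (2 : ℝ) ≤ ((⌊(X : ℝ) ^ (1 / (r : ℝ))⌋₊ : ℕ) : ℝ) := by exact_mod_cast hy2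
    have hlogy : 0 < Real.log (⌊(X : ℝ) ^ (1 / (r : ℝ))⌋₊ : ℕ) := Real.log_pos (by linarith)
    have h2 : Real.log (⌊(X : ℝ) ^ (1 / (r : ℝ))⌋₊ : ℕ) ≤ Real.log X / r := by
      calc Real.log (⌊(X : ℝ) ^ (1 / (r : ℝ))⌋₊ : ℕ) ≤ Real.log ((X : ℝ) ^ (1 / (r : ℝ))) :=
            Real.log_le_log (by linarith) (Nat.floor_le (by positivity))
        _ = Real.log X / r := by rw [Real.log_rpow hX0]; ring
    have h3 : c * r / Real.log X ≤ V ⌊(X : ℝ) ^ (1 / (r : ℝ))⌋₊ := by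
      refine le_trans ?_ h1
      rw [div_le_div_iff₀ hlogX hlogy]
      rw [le_div_iff₀ hrr] at h2
      calc c * r * Real.log (⌊(X : ℝ) ^ (1 / (r : ℝ))⌋₊ : ℕ) =
            c * (Real.log (⌊(X : ℝ) ^ (1 / (r : ℝ))⌋₊ : ℕ) * r) := by ring
        _ ≤ c * Real.log X := mul_le_mul_of_nonneg_left h2 hc.le
    have h4 : K ≤ κ * c * r := by
      rw [div_le_iff₀ (by positivity)] at hr1
      have : (r1 : ℝ) ≤ r := by exact_mod_cast (by omega : r1 ≤ r)
      calc K ≤ r1 * (κ * c) := hr1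
        _ ≤ r * (κ * c) := mul_le_mul_of_nonneg_right this (by positivity)
        _ = κ * c * r := by ring
    calc K ≤ κ * c * r := h4
      _ = κ * Real.log X * (c * r / Real.log X) := by field_simp
      _ ≤ N * V ⌊(X : ℝ) ^ (1 / (r : ℝ))⌋₊ :=
          mul_le_mul hN h3 (by positivity) (Nat.cast_nonneg N)

/-- the number of prime factors -/
lemma few_factors (y r B X m : ℕ) (hm : 1 ≤ m) (hr : 1 ≤ r) (hB : 1 ≤ B) (hX : X < (y + 1) ^ r) (hmX : m ≤ X ^ B)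
    (h : Rough y m) : m.primeFactorsList.length ≤ r * B ∧ ∀ p : ℕ, p.Prime → p ∣ m → X < p ^ (r * B) := by
  have hp1 : ∀ p : ℕ, p.Prime → p ∣ m → y + 1 ≤ p := by
    intro p hp hpm
    by_contra hcon
    exact h p hp (by omega) hpm
  constructor
  · by_contra hcon
    push Not at hcon
    have h1 : (y + 1) ^ m.primeFactorsList.length ≤ m.primeFactorsList.prod := by
      apply List.pow_card_le_prod
      intro p hp
      exact hp1 p (Nat.prime_of_mem_primeFactorsList hp) (Nat.dvd_of_mem_primeFactorsList hp)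
    rw [Nat.prod_primeFactorsList (by omega)] at h1
    have h2 : (y + 1) ^ (r * B) ≤ (y + 1) ^ m.primeFactorsList.length :=
      Nat.pow_le_pow_right (by omega) hcon.le
    have h3 : X ^ B < ((y + 1) ^ r) ^ B := Nat.pow_lt_pow_left hX (by omega)
    rw [← pow_mul] at h3
    omega
  · intro p hp hpm
    have h1 := hp1 p hp hpm
    calc X < (y + 1) ^ r := hX
      _ ≤ p ^ r := Nat.pow_le_pow_left h1 r
      _ ≤ p ^ (r * B) := Nat.pow_le_pow_right hp.pos (Nat.le_mul_of_pos_right r hB)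

open Classical in
/-- the exceptional elements of a residue class -/
lemma class_card (X M k₀ : ℕ) (hM : 1 ≤ M) (hk₀ : k₀ < M) (Q : ℕ → Prop) :
    ((range (X + 1)).filter (fun k => k ≡ k₀ [MOD M] ∧ Q k)).card ≤
      1 + ((Ioc 0 (0 + X / M)).filter (fun j => Q (k₀ + M * j))).card := by
  have hsub : (range (X + 1)).filter (fun k => k ≡ k₀ [MOD M] ∧ Q k) ⊆
      insert k₀ (((Ioc 0 (0 + X / M)).filter (fun j => Q (k₀ + M * j))).image (fun j => k₀ + M * j)) := by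
    intro k hk
    rw [mem_filter, mem_range] at hk
    obtain ⟨h1, h2, h3⟩ := hk
    have h4 : k % M = k₀ := by
      have : k % M = k₀ % M := h2
      rw [this, Nat.mod_eq_of_lt hk₀]
    have h5 : k₀ + M * (k / M) = k := by
      have := Nat.mod_add_div k M
      omega
    rw [mem_insert, mem_image]
    rcases Nat.eq_zero_or_pos (k / M) with h6 | h6
    · left
      rw [h6] at h5
      omega
    · right
      refine ⟨k / M, ?_, h5⟩
      rw [mem_filter, mem_Ioc, h5]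
      exact ⟨⟨h6, by rw [zero_add]; exact Nat.div_le_div_right (by omega)⟩, h3⟩
  refine (card_le_card hsub).trans ((card_insert_le _ _).trans ?_)
  have := card_image_le (s := (Ioc 0 (0 + X / M)).filter (fun j => Q (k₀ + M * j))) (f := fun j => k₀ + M * j)
  omega

end Pool.Agent.H95RU
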