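import Pool.Agent.H95RU.Stm

set_option autoImplicit false

/-!
# Stub AVX of project RU: the average of the sums `xw b w h`
-/

namespace Pool.Agent.H95RU

open Finset

lemma AVX_not_dvd {b h p : ℕ} (hh : 1 ≤ h) (hp : p.Prime) (hb : 2 ≤ b) (hd : p ∣ b ^ h - 1) : ¬ p ∣ b := by
  intro hpb
  have h1 : p ∣ b ^ h := dvd_pow hpb (by omega)
  have h2 : 1 ≤ b ^ h := Nat.one_le_pow _ _ (by omega)
  have h3 : p ∣ 1 := by
    have := (Nat.dvd_sub h1 hd)
    rwa [Nat.sub_sub_self h2] at this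
  exact hp.one_lt.ne' (Nat.dvd_one.mp h3)

lemma AVX_order {b h p : ℕ} (hb : 2 ≤ b) (hd : p ∣ b ^ h - 1) : orderOf (b : ZMod p) ∣ h := by
  have h2 : 1 ≤ b ^ h := Nat.one_le_pow _ _ (by omega)
  rw [orderOf_dvd_iff_pow_eq_one]
  have h3 : ((b ^ h - 1 : ℕ) : ZMod p) = 0 := (ZMod.natCast_eq_zero_iff _ _).mpr hd
  rw [Nat.cast_sub h2] at h3
  push_cast at h3
  exact sub_eq_zero.mp h3

theorem t_AVX (h : S_TAU) : S_AVX := by
  intro b hb
  obtain ⟨C, hC, hT⟩ := h b hb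
  refine ⟨C, hC, fun w hw N => ?_⟩
  classical
  set P : Finset ℕ := (Icc 1 N).biUnion (pf b w) with hP
  have hPp : ∀ p ∈ P, p.Prime ∧ w < p ∧ ¬ p ∣ b := by
    intro p hp
    rw [hP, mem_biUnion] at hp
    obtain ⟨k, hk, hpk⟩ := hp
    rw [mem_Icc] at hk
    unfold pf at hpk
    rw [mem_filter, Nat.mem_primeFactors] at hpk
    exact ⟨hpk.1.1, hpk.2, AVX_not_dvd hk.1 hpk.1.1 hb hpk.1.2.1⟩
  have h1 : ∀ k ∈ Icc 1 N, xw b w k = ∑ p ∈ P, if p ∈ pf b w k then 1 / (p : ℝ) else 0 := by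
    intro k hk
    unfold xw
    rw [← sum_filter]
    apply sum_congr _ (fun _ _ => rfl)
    ext p
    rw [mem_filter]
    constructor
    · intro hp
      exact ⟨mem_biUnion.mpr ⟨k, hk, hp⟩, hp⟩
    · exact fun hp => hp.2
  rw [sum_congr rfl h1, sum_comm]
  have h2 : ∀ p ∈ P, (∑ k ∈ Icc 1 N, if p ∈ pf b w k then 1 / (p : ℝ) else 0) ≤
      N * (1 / ((p : ℝ) * (orderOf (b : ZMod p) : ℝ))) := by
    intro p hp
    rw [← sum_filter, sum_const, nsmul_eq_mul]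
    have h3 : (((Icc 1 N).filter (fun k => p ∈ pf b w k)).card : ℝ) ≤
        (N : ℝ) / (orderOf (b : ZMod p) : ℝ) := by
      have h4 : ((Icc 1 N).filter (fun k => p ∈ pf b w k)).card ≤ N / orderOf (b : ZMod p) := by
        rw [← Nat.Ioc_filter_dvd_card_eq_div]
        apply card_le_card
        intro k hk
        rw [mem_filter, mem_Icc] at hk
        rw [mem_filter, mem_Ioc]
        refine ⟨⟨by omega, hk.1.2⟩, ?_⟩
        have := hk.2
        unfold pf at this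
        rw [mem_filter, Nat.mem_primeFactors] at this
        exact AVX_order hb this.1.2.1
      exact (Nat.cast_le.mpr h4).trans Nat.cast_div_le
    calc (((Icc 1 N).filter (fun k => p ∈ pf b w k)).card : ℝ) * (1 / (p : ℝ))
        ≤ ((N : ℝ) / (orderOf (b : ZMod p) : ℝ)) * (1 / (p : ℝ)) := by
          apply mul_le_mul_of_nonneg_right h3
          positivity
      _ = N * (1 / ((p : ℝ) * (orderOf (b : ZMod p) : ℝ))) := by
          rw [div_mul_div_comm, mul_one_div, mul_one, mul_comm (p : ℝ)]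
  calc (∑ p ∈ P, ∑ k ∈ Icc 1 N, if p ∈ pf b w k then 1 / (p : ℝ) else 0)
      ≤ ∑ p ∈ P, N * (1 / ((p : ℝ) * (orderOf (b : ZMod p) : ℝ))) := sum_le_sum h2
    _ = N * ∑ p ∈ P, (1 / ((p : ℝ) * (orderOf (b : ZMod p) : ℝ))) := by rw [mul_sum]
    _ ≤ N * (C / (w : ℝ) ^ (1 / 4 : ℝ)) := by
        apply mul_le_mul_of_nonneg_left (hT w hw P hPp)
        positivity
    _ = C * N / (w : ℝ) ^ (1 / 4 : ℝ) := by ring

end Pool.Agent.H95RU
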