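import Pool.Agent.H95RU.Stm
import Pool.Agent.Y810.SQ.Law2

set_option autoImplicit false

/-!
# Project RU (MP_adea1b_nt), stub CNT: many rough repunits
-/

namespace Pool.Agent.H95RU

open Finset

namespace CNT

lemma R_succ (b n : ℕ) : R b (n + 1) = R b n + b ^ n := by
  unfold R
  rw [Finset.sum_range_succ]

lemma R_succ' (b n : ℕ) : R b (n + 1) = b * R b n + 1 := by
  induction n with
  | zero => simp [R]
  | succ n ih =>
    calc R b (n + 1 + 1) = R b (n + 1) + b ^ (n + 1) := R_succ b (n + 1)
      _ = b * R b n + 1 + b ^ (n + 1) := by rw [ih]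
      _ = b * (R b n + b ^ n) + 1 := by ring
      _ = b * R b (n + 1) + 1 := by rw [R_succ b n]

lemma R_mul (b n : ℕ) (hb : 1 ≤ b) : (b - 1) * R b n + 1 = b ^ n := by
  obtain ⟨a, rfl⟩ : ∃ a, b = a + 1 := ⟨b - 1, by omega⟩
  induction n with
  | zero => simp [R]
  | succ n ih =>
    simp only [Nat.add_sub_cancel] at ih ⊢
    rw [R_succ, pow_succ]
    calc a * (R (a + 1) n + (a + 1) ^ n) + 1 = (a * R (a + 1) n + 1) + a * (a + 1) ^ n := by ring
      _ = (a + 1) ^ n + a * (a + 1) ^ n := by rw [ih]
      _ = (a + 1) ^ n * (a + 1) := by ring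

/-- (i) -/
lemma rough_R {b w m : ℕ} (hb : 2 ≤ b) (hm : 1 ≤ m) (h : Rough w m) : Rough w (R b m) := by
  intro p hp hpw hd
  have : Fact p.Prime := ⟨hp⟩
  have hpb : ¬ p ∣ b := by
    intro hpb
    obtain ⟨n, rfl⟩ : ∃ n, m = n + 1 := ⟨m - 1, by omega⟩
    rw [R_succ'] at hd
    have h1 : p ∣ 1 := (Nat.dvd_add_right (Dvd.dvd.mul_right hpb _)).1 hd
    exact hp.one_lt.ne' (Nat.dvd_one.1 h1)
  have hR0 : ((R b m : ℕ) : ZMod p) = 0 := (ZMod.natCast_eq_zero_iff _ _).2 hd
  by_cases h1 : (b : ZMod p) = 1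
  · have h2 : ((R b m : ℕ) : ZMod p) = m := by
      unfold R
      push_cast
      simp [h1]
    rw [h2] at hR0
    exact h p hp hpw ((ZMod.natCast_eq_zero_iff _ _).1 hR0)
  · have h3 : (b : ZMod p) ^ m = 1 := by
      have h4 := R_mul b m (by omega)
      have h5 : (((b - 1) * R b m + 1 : ℕ) : ZMod p) = ((b ^ m : ℕ) : ZMod p) := by rw [h4]
      push_cast at h5
      rw [hR0, mul_zero, zero_add] at h5
      exact h5.symm
    have h4 : orderOf (b : ZMod p) ∣ m := orderOf_dvd_of_pow_eq_one h3
    have hb0 : (b : ZMod p) ≠ 0 := by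
      intro h0
      exact hpb ((ZMod.natCast_eq_zero_iff _ _).1 h0)
    have h5 : orderOf (b : ZMod p) ∣ p - 1 := orderOf_dvd_of_pow_eq_one (ZMod.pow_card_sub_one_eq_one hb0)
    have h6 : orderOf (b : ZMod p) ≠ 1 := by
      intro h6
      exact h1 (orderOf_eq_one_iff.1 h6)
    obtain ⟨q, hq, hqd⟩ := Nat.exists_prime_and_dvd h6
    have h7 : q ≤ p - 1 := Nat.le_of_dvd (by have := hp.two_le; omega) (hqd.trans h5)
    exact h q hq (by omega) (hqd.trans h4)

/-- (ii) -/
lemma coprime_card (P k q : ℕ) :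
    P.totient * q = ((Ico k (k + P * q)).filter (fun x => P.Coprime x)).card := by
  induction q with
  | zero => simp
  | succ q ih =>
    have h1 : Ico k (k + P * (q + 1)) = Ico k (k + P * q) ∪ Ico (k + P * q) (k + P * q + P) := by
      rw [Finset.Ico_union_Ico_eq_Ico (by omega) (by omega)]
      congr 1
      ring
    have h2 : Disjoint (Ico k (k + P * q)) (Ico (k + P * q) (k + P * q + P)) :=
      Finset.Ico_disjoint_Ico_consecutive _ _ _
    rw [h1, Finset.filter_union, Finset.card_union_of_disjoint (Finset.disjoint_filter_filter h2), ← ih,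
      Nat.filter_coprime_Ico_eq_totient]
    ring

lemma coprime_card_le (P k N : ℕ) :
    P.totient * (N / P) ≤ ((Ico k (k + N)).filter (fun x => P.Coprime x)).card := by
  rw [coprime_card P k (N / P)]
  apply Finset.card_le_card
  apply Finset.filter_subset_filter
  apply Finset.Ico_subset_Ico le_rfl
  have := Nat.mul_div_le N P
  omega

lemma primorial_V (w : ℕ) : ((primorial w).totient : ℝ) = primorial w * V w := by
  have h := Nat.totient_eq_mul_prod_factors (primorial w)
  have h2 : (((primorial w).totient : ℚ) : ℝ) =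
    (((primorial w : ℚ) * ∏ p ∈ (primorial w).primeFactors, (1 - (p : ℚ)⁻¹) : ℚ) : ℝ) := by rw [h]
  push_cast at h2
  rw [h2, V]
  congr 1
  have h3 : (primorial w).primeFactors = (Icc 1 w).filter Nat.Prime := by
    rw [primeFactors_primorial]
    ext p
    simp only [Nat.mem_primesLE, Finset.mem_filter, Finset.mem_Icc]
    constructor
    · rintro ⟨h4, h5⟩
      exact ⟨⟨h5.one_lt.le, h4⟩, h5⟩
    · rintro ⟨⟨_, h4⟩, h5⟩
      exact ⟨h4, h5⟩
  rw [h3]
  apply Finset.prod_congr rfl
  intro p _
  rw [one_div]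

lemma coprime_rough {w m : ℕ} (h : (primorial w).Coprime m) : Rough w m := by
  intro p hp hpw hd
  have h1 : p ∣ primorial w := by
    have : p ∈ (primorial w).primeFactors := by
      rw [primeFactors_primorial]
      simp only [Nat.mem_primesLE]
      exact ⟨hpw, hp⟩
    exact Nat.dvd_of_mem_primeFactors this
  exact Nat.Prime.not_coprime_iff_dvd.2 ⟨p, hp, h1, hd⟩ h

end CNT

open CNT in
theorem t_CNT : S_CNT := by
  classical
  intro b hb
  obtain ⟨c, C, hc, hC, hV⟩ := Pool.Agent.Y810.SQ.V1_bounds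
  refine ⟨c / 2, by positivity, ?_⟩
  intro w hw
  refine ⟨2 * primorial w, ?_⟩
  intro N hN s hs
  have hP : 0 < primorial w := primorial_pos w
  have h1 : (primorial w).totient * (N / primorial w) ≤
      ((Icc 1 N).filter (fun n => Rough w (R b (n + s)))).card := by
    refine (coprime_card_le (primorial w) (s + 1) N).trans ?_
    apply Finset.card_le_card_of_injOn (fun x => x - s)
    · intro x hx
      have hx' := Finset.mem_filter.1 (Finset.mem_coe.1 hx)
      have hx1 := Finset.mem_Ico.1 hx'.1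
      apply Finset.mem_coe.2
      have h2 : x - s + s = x := by omega
      refine Finset.mem_filter.2 ⟨Finset.mem_Icc.2 ⟨?_, ?_⟩, ?_⟩
      · show 1 ≤ x - s
        omega
      · show x - s ≤ N
        omega
      show Rough w (R b (x - s + s))
      rw [h2]
      exact rough_R hb (by omega) (coprime_rough hx'.2)
    · intro x hx y hy hxy
      have hx' := Finset.mem_Ico.1 (Finset.mem_filter.1 (Finset.mem_coe.1 hx)).1
      have hy' := Finset.mem_Ico.1 (Finset.mem_filter.1 (Finset.mem_coe.1 hy)).1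
      simp only at hxy
      omega
  have h2 : c / Real.log w ≤ V w := (hV w hw).1
  have hw1 : (1 : ℝ) < w := by
    have : (2 : ℝ) ≤ w := by exact_mod_cast hw
    linarith
  have hlog : 0 < Real.log w := Real.log_pos hw1
  have hV0 : 0 ≤ V w := le_trans (by positivity) h2
  have hPr : (0 : ℝ) < primorial w := by exact_mod_cast hP
  have h3 : (N : ℝ) / (2 * primorial w) ≤ ((N / primorial w : ℕ) : ℝ) := by
    have h4 : N < primorial w * (N / primorial w + 1) := Nat.lt_mul_div_succ N hP
    have h5 : 2 * primorial w ≤ N := hN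
    have h4' : (N : ℝ) < primorial w * (((N / primorial w : ℕ) : ℝ) + 1) := by exact_mod_cast h4
    have h5' : 2 * (primorial w : ℝ) ≤ N := by exact_mod_cast h5
    rw [div_le_iff₀ (by positivity)]
    nlinarith
  have h4 : ((primorial w).totient : ℝ) * ((N / primorial w : ℕ) : ℝ) ≤
      (((Icc 1 N).filter (fun n => Rough w (R b (n + s)))).card : ℝ) := by exact_mod_cast h1
  refine le_trans ?_ h4
  rw [primorial_V]
  calc c / 2 * N / Real.log w = N / 2 * (c / Real.log w) := by ring
    _ ≤ N / 2 * V w := by gcongr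
    _ = primorial w * V w * (N / (2 * primorial w)) := by field_simp
    _ ≤ primorial w * V w * ((N / primorial w : ℕ) : ℝ) := by gcongr

end Pool.Agent.H95RU
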