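import Pool.Agent.H95RU.Stm2

set_option autoImplicit false

/-!
# Project RU: stub COMB
-/

namespace Pool.Agent.H95RU

open Finset

lemma comb_prod (s : Finset (ℕ × ℕ)) (m : ℕ) (hs : s.card ≤ m) (d : ℕ × ℕ → ℝ) (hd : ∀ x, 1 ≤ d x) :
    ∏ x ∈ s, d x - 1 ≤ ∑ x ∈ s, (d x ^ m - 1) := by
  have hnn : ∀ x ∈ s, 0 ≤ d x ^ m - 1 := fun x _ => by
    have := one_le_pow₀ (n := m) (hd x)
    linarith
  rcases s.eq_empty_or_nonempty with rfl | hne
  · simp
  · obtain ⟨y, hy, hmax⟩ := s.exists_max_image d hne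
    have h1 : ∏ x ∈ s, d x ≤ ∏ _x ∈ s, d y :=
      prod_le_prod (fun x _ => zero_le_one.trans (hd x)) (fun x hx => hmax x hx)
    rw [prod_const] at h1
    have h2 : d y ^ s.card ≤ d y ^ m := pow_le_pow_right₀ (hd y) hs
    have h3 : d y ^ m - 1 ≤ ∑ x ∈ s, (d x ^ m - 1) := single_le_sum hnn hy
    linarith

lemma prs_card (T : Finset ℕ) : (prs T).card ≤ T.card ^ 2 := by
  unfold prs
  refine (card_filter_le _ _).trans ?_
  rw [card_product, sq]

lemma mem_prs {T : Finset ℕ} {x : ℕ × ℕ} : x ∈ prs T ↔ x.1 ∈ T ∧ x.2 ∈ T ∧ x.1 < x.2 := by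
  unfold prs
  rw [mem_filter, mem_product, and_assoc]

lemma count_sets (k : ℕ) (hk : 2 ≤ k) (G : Finset ℕ) (x : ℕ × ℕ) :
    ((powersetCard k G).filter (fun T => x ∈ prs T)).card ≤ G.card ^ (k - 2) := by
  have h1 : ((powersetCard k G).filter (fun T => x ∈ prs T)).card ≤ (powersetCard (k - 2) G).card := by
    refine card_le_card_of_injOn (fun T => (T.erase x.1).erase x.2) ?_ ?_
    · intro T hT
      rw [mem_coe, mem_filter, mem_powersetCard, mem_prs] at hT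
      obtain ⟨⟨hTG, hTk⟩, hx1, hx2, hlt⟩ := hT
      rw [mem_coe, mem_powersetCard]
      refine ⟨((erase_subset _ _).trans (erase_subset _ _)).trans hTG, ?_⟩
      have h2 : x.2 ∈ T.erase x.1 := mem_erase.2 ⟨hlt.ne', hx2⟩
      show ((T.erase x.1).erase x.2).card = k - 2
      rw [card_erase_of_mem h2, card_erase_of_mem hx1]
      omega
    · intro T hT T' hT' h
      rw [mem_coe, mem_filter, mem_powersetCard, mem_prs] at hT hT'
      obtain ⟨_, hx1, hx2, hlt⟩ := hT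
      obtain ⟨_, hx1', hx2', _⟩ := hT'
      simp only at h
      have h2 : x.2 ∈ T.erase x.1 := mem_erase.2 ⟨hlt.ne', hx2⟩
      have h2' : x.2 ∈ T'.erase x.1 := mem_erase.2 ⟨hlt.ne', hx2'⟩
      have e1 : T.erase x.1 = T'.erase x.1 := by
        rw [← insert_erase h2, ← insert_erase h2', h]
      rw [← insert_erase hx1, ← insert_erase hx1', e1]
  refine h1.trans ?_
  rw [card_powersetCard]
  exact Nat.choose_le_pow _ _

lemma count_pairs (N : ℕ) (G : Finset ℕ) (hG : G ⊆ Icc 1 N) (f : ℕ → ℝ) (hf : ∀ h, 0 ≤ f h) :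
    ∑ x ∈ prs G, f (x.2 - x.1) ≤ N * ∑ h ∈ Icc 1 N, f h := by
  have h1 : ∑ x ∈ prs G, f (x.2 - x.1) ≤ ∑ z ∈ Icc 1 N ×ˢ Icc 1 N, f z.2 := by
    have e : ∑ x ∈ prs G, f (x.2 - x.1) =
        ∑ z ∈ (prs G).image (fun x : ℕ × ℕ => (x.1, x.2 - x.1)), f z.2 := by
      rw [sum_image]
      intro x hx y hy h
      rw [mem_coe, mem_prs] at hx hy
      simp only [Prod.mk.injEq] at h
      refine Prod.ext h.1 ?_
      have := hx.2.2
      have := hy.2.2
      omega
    rw [e]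
    refine sum_le_sum_of_subset_of_nonneg ?_ (fun z _ _ => hf _)
    intro z hz
    rw [mem_image] at hz
    obtain ⟨x, hx, rfl⟩ := hz
    rw [mem_prs] at hx
    have h2 := mem_Icc.1 (hG hx.1)
    have h3 := mem_Icc.1 (hG hx.2.1)
    have h4 := hx.2.2
    rw [mem_product, mem_Icc, mem_Icc]
    refine ⟨h2, ?_, ?_⟩
    · show 1 ≤ x.2 - x.1
      omega
    · show x.2 - x.1 ≤ N
      omega
  refine h1.trans (le_of_eq ?_)
  rw [sum_product]
  simp only
  rw [sum_const, Nat.card_Icc, nsmul_eq_mul]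
  simp

theorem t_COMB : S_COMB := by
  intro k hk N G hG Dd hD
  have hnn : ∀ h, 0 ≤ Dd h ^ (k ^ 2) - 1 := fun h => by
    have := one_le_pow₀ (n := k ^ 2) (hD h)
    linarith
  have hS : 0 ≤ ∑ h ∈ Icc 1 N, (Dd h ^ (k ^ 2) - 1) := sum_nonneg fun h _ => hnn h
  have h1 : ∀ T ∈ powersetCard k G, (∏ x ∈ prs T, Dd (x.2 - x.1) - 1) ≤
      ∑ x ∈ prs T, (Dd (x.2 - x.1) ^ (k ^ 2) - 1) := by
    intro T hT
    have hc : T.card = k := (mem_powersetCard.1 hT).2
    refine comb_prod (prs T) (k ^ 2) ?_ (fun x => Dd (x.2 - x.1)) (fun x => hD _)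
    have := prs_card T
    rwa [hc] at this
  refine (sum_le_sum h1).trans ?_
  rcases Nat.lt_or_ge k 2 with hk2 | hk2
  · have hk1 : k = 1 := by omega
    subst hk1
    have h0 : ∀ T ∈ powersetCard 1 G, ∑ x ∈ prs T, (Dd (x.2 - x.1) ^ (1 ^ 2) - 1) = 0 := by
      intro T hT
      have hc : T.card = 1 := (mem_powersetCard.1 hT).2
      obtain ⟨a, rfl⟩ := card_eq_one.1 hc
      refine sum_eq_zero fun x hx => ?_
      rw [mem_prs, mem_singleton, mem_singleton] at hx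
      have := hx.2.2
      omega
    rw [sum_congr rfl h0, sum_const_zero]
    positivity
  · have h2 : ∑ T ∈ powersetCard k G, ∑ x ∈ prs T, (Dd (x.2 - x.1) ^ (k ^ 2) - 1) =
        ∑ x ∈ prs G, ∑ T ∈ (powersetCard k G).filter (fun T => x ∈ prs T),
          (Dd (x.2 - x.1) ^ (k ^ 2) - 1) := by
      refine sum_comm' ?_
      intro T x
      rw [mem_filter]
      constructor
      · rintro ⟨hT, hx⟩
        have hsub := (mem_powersetCard.1 hT).1
        rw [mem_prs] at hx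
        exact ⟨⟨hT, mem_prs.2 hx⟩, mem_prs.2 ⟨hsub hx.1, hsub hx.2.1, hx.2.2⟩⟩
      · rintro ⟨⟨hT, hx⟩, _⟩
        exact ⟨hT, hx⟩
    rw [h2]
    have h3 : ∑ x ∈ prs G, ∑ T ∈ (powersetCard k G).filter (fun T => x ∈ prs T),
          (Dd (x.2 - x.1) ^ (k ^ 2) - 1) ≤
        ∑ x ∈ prs G, (G.card : ℝ) ^ (k - 2) * (Dd (x.2 - x.1) ^ (k ^ 2) - 1) := by
      refine sum_le_sum fun x _ => ?_
      rw [sum_const, nsmul_eq_mul]
      refine mul_le_mul_of_nonneg_right ?_ (hnn _)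
      exact_mod_cast count_sets k hk2 G x
    refine h3.trans ?_
    rw [← mul_sum]
    refine mul_le_mul_of_nonneg_left ?_ (by positivity)
    exact count_pairs N G hG (fun h => Dd h ^ (k ^ 2) - 1) hnn

end Pool.Agent.H95RU
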