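import Pool.Agent.H95RU.Stm4
import Pool.Agent.H95RU.COMB

set_option autoImplicit false

/-!
# Project RU: stub COMBP
-/

namespace Pool.Agent.H95RU

open Finset

theorem t_COMBP : S_COMBP := by
  intro k hk G Dd hD
  have hnn : ∀ h, 0 ≤ Dd h ^ (k ^ 2) - 1 := fun h => by
    have := one_le_pow₀ (n := k ^ 2) (hD h)
    linarith
  have hS : 0 ≤ ∑ x ∈ prs G, (Dd (x.2 - x.1) ^ (k ^ 2) - 1) := sum_nonneg fun x _ => hnn _
  have h1 : ∀ T ∈ powersetCard k G, (∏ x ∈ prs T, Dd (x.2 - x.1) - 1) ≤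
      ∑ x ∈ prs T, (Dd (x.2 - x.1) ^ (k ^ 2) - 1) := by
    intro T hT
    have hc : T.card = k := (mem_powersetCard.1 hT).2
    refine comb_prod (prs T) (k ^ 2) ?_ (fun x => Dd (x.2 - x.1)) (fun x => hD _)
    have := prs_card T
    rwa [hc] at this
  refine (sum_le_sum h1).trans ?_
  rcases Nat.lt_or_ge k 2 with hk2 | hk2
  · have hk1 : k = 1 := by omega
    subst hk1
    have h0 : ∀ T ∈ powersetCard 1 G, ∑ x ∈ prs T, (Dd (x.2 - x.1) ^ (1 ^ 2) - 1) = 0 := by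
      intro T hT
      have hc : T.card = 1 := (mem_powersetCard.1 hT).2
      obtain ⟨a, rfl⟩ := card_eq_one.1 hc
      refine sum_eq_zero fun x hx => ?_
      rw [mem_prs, mem_singleton, mem_singleton] at hx
      have := hx.2.2
      omega
    rw [sum_congr rfl h0, sum_const_zero]
    positivity
  · have h2 : ∑ T ∈ powersetCard k G, ∑ x ∈ prs T, (Dd (x.2 - x.1) ^ (k ^ 2) - 1) =
        ∑ x ∈ prs G, ∑ T ∈ (powersetCard k G).filter (fun T => x ∈ prs T),
          (Dd (x.2 - x.1) ^ (k ^ 2) - 1) := by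
      refine sum_comm' ?_
      intro T x
      rw [mem_filter]
      constructor
      · rintro ⟨hT, hx⟩
        have hsub := (mem_powersetCard.1 hT).1
        rw [mem_prs] at hx
        exact ⟨⟨hT, mem_prs.2 hx⟩, mem_prs.2 ⟨hsub hx.1, hsub hx.2.1, hx.2.2⟩⟩
      · rintro ⟨⟨hT, hx⟩, _⟩
        exact ⟨hT, hx⟩
    rw [h2]
    have h3 : ∑ x ∈ prs G, ∑ T ∈ (powersetCard k G).filter (fun T => x ∈ prs T),
          (Dd (x.2 - x.1) ^ (k ^ 2) - 1) ≤
        ∑ x ∈ prs G, (G.card : ℝ) ^ (k - 2) * (Dd (x.2 - x.1) ^ (k ^ 2) - 1) := by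
      refine sum_le_sum fun x _ => ?_
      rw [sum_const, nsmul_eq_mul]
      refine mul_le_mul_of_nonneg_right ?_ (hnn _)
      exact_mod_cast count_sets k hk2 G x
    refine h3.trans ?_
    rw [← mul_sum]

end Pool.Agent.H95RU
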