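import Pool.Agent.H95RU.Stm3

set_option autoImplicit false

/-!
# Project RU, stub CON (helper67; the file name CON.lean is reserved): the conductor of a real character
-/

namespace Pool.Agent.H95RU.CONaux

open Finset

/-- integers congruent to one modulo eight are squares modulo the powers of two -/
lemma sq8 (u : ℤ) (hu : (8 : ℤ) ∣ u - 1) (a : ℕ) : ∃ v : ℤ, (2 : ℤ) ^ (a + 3) ∣ v ^ 2 - u := by
  induction a with
  | zero =>
    obtain ⟨t, ht⟩ := hu
    exact ⟨1, -t, by linear_combination -ht⟩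
  | succ a ih =>
    obtain ⟨v, t, hv⟩ := ih
    obtain ⟨s, hs⟩ := hu
    have hvodd : Odd v := by
      rcases Int.even_or_odd v with h | h
      · exfalso
        obtain ⟨w, hw⟩ := h
        have h1 : (w + w) ^ 2 - u = 2 ^ (a + 3) * t := by rw [← hw]; exact hv
        have h2 : (2 : ℤ) ^ (a + 3) = 8 * 2 ^ a := by rw [pow_add]; ring
        rw [h2] at h1
        have h3 : 4 * w ^ 2 - 8 * s - 8 * (2 ^ a * t) = 1 := by linear_combination h1 + hs
        omega
      · exact h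
    rcases Int.even_or_odd t with ⟨w, hw⟩ | ⟨w, hw⟩
    · exact ⟨v, w, by rw [hv, hw]; ring⟩
    · obtain ⟨z, hz⟩ := hvodd
      refine ⟨v + 2 ^ (a + 2), w + z + 1 + 2 ^ a, ?_⟩
      have h4 : (v + 2 ^ (a + 2)) ^ 2 - u = 2 ^ (a + 3) * (t + v) + 2 ^ (2 * a + 4) := by
        have : (v + 2 ^ (a + 2)) ^ 2 - u = (v ^ 2 - u) + 2 ^ (a + 3) * v + 2 ^ (2 * a + 4) := by
          ring
        rw [this, hv]
        ring
      rw [h4, hw]
      linear_combination (2 ^ (a + 3)) * hz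

/-- a number divides a power of its radical -/
lemma dvd_rad_pow (m : ℕ) (hm : m ≠ 0) : m ∣ (∏ p ∈ m.primeFactors, p) ^ m := by
  rw [← Finset.prod_pow]
  conv_lhs => rw [← Nat.prod_factorization_pow_eq_self hm]
  rw [Finsupp.prod, Nat.support_factorization]
  refine Finset.prod_dvd_prod_of_dvd _ _ fun p hp => ?_
  exact pow_dvd_pow p (Nat.factorization_lt p hm).le

lemma rad_dvd (m : ℕ) : (∏ p ∈ m.primeFactors, p) ∣ m := Nat.prod_primeFactors_dvd m

end Pool.Agent.H95RU.CONaux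

namespace Pool.Agent.H95RU

open Finset CONaux

theorem t_CON : S_CON := by
  intro q _ χ hχ
  have hq : q ≠ 0 := NeZero.ne q
  set D : ℕ := Nat.gcd (8 * ∏ p ∈ q.primeFactors, p) q with hD
  have hDq : D ∣ q := Nat.gcd_dvd_right _ _
  refine (χ.conductor_dvd_of_mem_conductorSet (d := D) ?_).trans (Nat.gcd_dvd_left _ _)
  change χ.FactorsThrough D
  rw [DirichletCharacter.factorsThrough_iff_ker_unitsMap hDq]
  intro u hu
  rw [MonoidHom.mem_ker] at hu ⊢
  -- integer representative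
  set x : ℤ := ((u : ZMod q).val : ℤ) with hx
  have hxu : (x : ZMod q) = u := by
    rw [hx, Int.cast_natCast, ZMod.natCast_zmod_val]
  have hxD : (D : ℤ) ∣ x - 1 := by
    rw [Units.ext_iff, ZMod.unitsMap_val, ← ZMod.natCast_val, Units.val_one] at hu
    rw [← ZMod.intCast_zmod_eq_zero_iff_dvd]
    push_cast
    rw [hx, Int.cast_natCast, hu, sub_self]
  -- decomposition of q
  obtain ⟨a, m, hmodd, hqam⟩ := Nat.exists_eq_two_pow_mul_odd hq
  have hm0 : m ≠ 0 := by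
    rintro rfl
    rw [mul_zero] at hqam
    exact hq hqam
  have hmq : m ∣ q := ⟨2 ^ a, by rw [hqam, mul_comm]⟩
  set ρ : ℕ := ∏ p ∈ m.primeFactors, p with hρ
  have hρD : ρ ∣ D := by
    refine Nat.dvd_gcd ?_ ((rad_dvd m).trans hmq)
    refine Dvd.dvd.mul_left ?_ _
    exact Finset.prod_dvd_prod_of_subset _ _ _ (Nat.primeFactors_mono hmq hq)
  have hρodd : Odd ρ := by
    rw [Nat.odd_iff, ← Nat.not_even_iff, even_iff_two_dvd]
    intro h
    have h1 := h.trans (rad_dvd m)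
    rw [← even_iff_two_dvd, ← Nat.not_odd_iff_even] at h1
    exact h1 hmodd
  set n : ℕ := ρ ^ m with hn
  have hnodd : Odd n := hρodd.pow
  set W : ℤ := x ^ n with hW
  have hρx : (ρ : ℤ) ∣ x - 1 := (Int.natCast_dvd_natCast.2 hρD).trans hxD
  have hmW : (m : ℤ) ∣ W - 1 := by
    have h1 : ((ρ : ℤ) ^ (m + 1)) ∣ x ^ ρ ^ m - 1 ^ ρ ^ m :=
      dvd_sub_pow_of_dvd_sub hρx m
    rw [one_pow] at h1
    have h2 : (m : ℤ) ∣ (ρ : ℤ) ^ (m + 1) := by
      have h3 : m ∣ ρ ^ (m + 1) := (dvd_rad_pow m hm0).trans (pow_dvd_pow _ (Nat.le_succ m))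
      exact_mod_cast h3
    exact h2.trans h1
  -- the part at two
  have hxW : (x - 1) ∣ W - 1 := by
    have := sub_dvd_pow_sub_pow x 1 n
    rwa [one_pow] at this
  have h2 : ∃ v : ℤ, (2 : ℤ) ^ a ∣ v ^ 2 - W := by
    rcases Nat.lt_or_ge a 3 with h3 | h3
    · refine ⟨1, ?_⟩
      have h4 : 2 ^ a ∣ D := by
        refine Nat.dvd_gcd ?_ ⟨m, hqam⟩
        refine Dvd.dvd.mul_right ?_ _
        exact (pow_dvd_pow 2 h3.le).trans (by norm_num)
      have h5 : (2 : ℤ) ^ a ∣ x - 1 := by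
        have : ((2 ^ a : ℕ) : ℤ) ∣ x - 1 := (Int.natCast_dvd_natCast.2 h4).trans hxD
        exact_mod_cast this
      have h6 := h5.trans hxW
      rw [one_pow, ← neg_sub, dvd_neg]
      exact h6
    · obtain ⟨b, rfl⟩ : ∃ b, a = b + 3 := ⟨a - 3, by omega⟩
      have h4 : 8 ∣ D := by
        refine Nat.dvd_gcd (Dvd.intro _ rfl) ?_
        rw [hqam, pow_add]
        exact Dvd.intro_left (2 ^ b) rfl |>.mul_right m
      have h5 : (8 : ℤ) ∣ x - 1 := by
        have : ((8 : ℕ) : ℤ) ∣ x - 1 := (Int.natCast_dvd_natCast.2 h4).trans hxD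
        exact_mod_cast this
      exact sq8 W (h5.trans hxW) b
  obtain ⟨v0, hv0⟩ := h2
  have hcop : IsCoprime ((2 : ℤ) ^ a) (m : ℤ) := by
    have : Nat.Coprime (2 ^ a) m := Nat.Coprime.pow_left a (Nat.coprime_two_left.2 hmodd)
    have := Nat.isCoprime_iff_coprime.2 this
    exact_mod_cast this
  obtain ⟨s, t, hst⟩ := hcop
  set v : ℤ := v0 * (t * m) + s * 2 ^ a with hv
  have hv1 : (2 : ℤ) ^ a ∣ v - v0 := ⟨s * (1 - v0), by rw [hv]; linear_combination v0 * hst⟩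
  have hv2 : (m : ℤ) ∣ v - 1 := ⟨t * (v0 - 1), by rw [hv]; linear_combination hst⟩
  have hq1 : (2 : ℤ) ^ a ∣ v ^ 2 - W := by
    have : v ^ 2 - W = (v - v0) * (v + v0) + (v0 ^ 2 - W) := by ring
    rw [this]
    exact dvd_add (hv1.mul_right _) hv0
  have hq2 : (m : ℤ) ∣ v ^ 2 - W := by
    have : v ^ 2 - W = (v - 1) * (v + 1) - (W - 1) := by ring
    rw [this]
    exact dvd_sub (hv2.mul_right _) hmW
  have hqv : (q : ℤ) ∣ v ^ 2 - W := by
    rw [hqam]
    push_cast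
    exact IsCoprime.mul_dvd ⟨s, t, hst⟩ hq1 hq2
  have hvW : (v : ZMod q) ^ 2 = (u : ZMod q) ^ n := by
    have h3 := (ZMod.intCast_zmod_eq_zero_iff_dvd (v ^ 2 - W) q).2 hqv
    push_cast at h3
    rw [hW] at h3
    push_cast at h3
    rw [hxu] at h3
    exact sub_eq_zero.1 h3
  have hvu : IsUnit (v : ZMod q) := by
    have h3 : IsUnit ((v : ZMod q) ^ 2) := by
      rw [hvW]
      exact u.isUnit.pow n
    exact (isUnit_pow_iff two_ne_zero).1 h3
  have hsq : ∀ z : ZMod q, IsUnit z → χ z ^ 2 = 1 := by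
    intro z hz
    have h3 : (χ ^ 2) z = 1 := by
      rw [hχ, MulChar.one_apply hz]
    rwa [MulChar.pow_apply' χ two_ne_zero] at h3
  have h4 : χ (u : ZMod q) ^ n = 1 := by
    rw [← map_pow, ← hvW, map_pow]
    exact hsq _ hvu
  obtain ⟨k, hk⟩ := hnodd
  have h5 : χ (u : ZMod q) = 1 := by
    rw [hk, pow_succ, pow_mul, hsq _ u.isUnit, one_pow, one_mul] at h4
    exact h4
  rw [Units.ext_iff, MulChar.coe_toUnitHom, Units.val_one]
  exact h5

end Pool.Agent.H95RU
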