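import Pool.Agent.H95RU.Stm3

set_option autoImplicit false

namespace Pool.Agent.H95RU

open Finset

open Classical in
theorem csw_row (G : Finset ℕ) (N : ℕ) (Dd : ℕ → ℝ) (S : ℝ)
    (hD : ∀ h, 1 ≤ Dd h) (hS : ∑ h ∈ Icc 1 N, (Dd h - 1) ≤ S) (H : Finset ℕ) (hH : H ⊆ G)
    (e : ℕ → ℕ) (he : Set.InjOn e H) (heI : ∀ m ∈ H, e m ∈ Icc 1 N) :
    ∑ m ∈ H, Dd (e m) ≤ G.card + S := by
  have h1 : ∑ m ∈ H, Dd (e m) = H.card + ∑ m ∈ H, (Dd (e m) - 1) := by
    rw [Finset.sum_sub_distrib]
    simp
  have h2 : ∑ m ∈ H, (Dd (e m) - 1) = ∑ h ∈ H.image e, (Dd h - 1) := by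
    rw [Finset.sum_image he]
  have h3 : ∑ h ∈ H.image e, (Dd h - 1) ≤ ∑ h ∈ Icc 1 N, (Dd h - 1) := by
    apply Finset.sum_le_sum_of_subset_of_nonneg
    · intro x hx
      obtain ⟨m, hm, rfl⟩ := Finset.mem_image.mp hx
      exact heI m hm
    · intro x _ _
      linarith [hD x]
  have h4 : (H.card : ℝ) ≤ G.card := by exact_mod_cast Finset.card_le_card hH
  rw [h1, h2]
  linarith

open Classical in
theorem t_CSW : S_CSW := by
  intro J G N hG g ω Dd A B C₁ S hω hA hB hC hD hS h1 h2 h3
  set a : ℕ → ℝ := fun k => ∑ n ∈ G, (if g n k then (1 : ℝ) else 0) with ha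
  set W : ℝ := ∑ k ∈ J.filter (fun k => ∃ n ∈ G, g n k), ω k with hW
  have hW0 : 0 ≤ W := Finset.sum_nonneg (fun k _ => hω k)
  have ha0 : ∀ k, 0 ≤ a k := by
    intro k
    apply Finset.sum_nonneg
    intro n _
    split_ifs <;> norm_num
  -- first moment
  have hS1 : ∑ k ∈ J, ω k * a k = ∑ n ∈ G, ∑ k ∈ J.filter (fun k => g n k), ω k := by
    simp only [ha, Finset.mul_sum]
    rw [Finset.sum_comm]
    apply Finset.sum_congr rfl
    intro n _
    rw [Finset.sum_filter]
    apply Finset.sum_congr rfl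
    intro k _
    split_ifs <;> simp
  have hlow : (G.card : ℝ) * A ≤ ∑ k ∈ J, ω k * a k := by
    rw [hS1]
    calc (G.card : ℝ) * A = ∑ n ∈ G, A := by simp
      _ ≤ _ := Finset.sum_le_sum h1
  -- the part where a k is not zero
  have hsub : ∑ k ∈ J, ω k * a k = ∑ k ∈ J.filter (fun k => ∃ n ∈ G, g n k), ω k * a k := by
    rw [Finset.sum_filter]
    apply Finset.sum_congr rfl
    intro k _
    split_ifs with h
    · rfl
    · have : a k = 0 := by
        simp only [ha]
        apply Finset.sum_eq_zero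
        intro n hn
        rw [if_neg]
        intro hg
        exact h ⟨n, hn, hg⟩
      rw [this, mul_zero]
  -- Cauchy-Schwarz
  have hCS : (∑ k ∈ J, ω k * a k) ^ 2 ≤ W * ∑ k ∈ J, ω k * a k ^ 2 := by
    rw [hsub]
    have e1 : ∑ k ∈ J.filter (fun k => ∃ n ∈ G, g n k), ω k * a k =
        ∑ k ∈ J.filter (fun k => ∃ n ∈ G, g n k), Real.sqrt (ω k) * (Real.sqrt (ω k) * a k) := by
      apply Finset.sum_congr rfl
      intro k _
      rw [← mul_assoc, Real.mul_self_sqrt (hω k)]
    rw [e1]
    refine (Finset.sum_mul_sq_le_sq_mul_sq _ _ _).trans ?_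
    have e2 : ∑ k ∈ J.filter (fun k => ∃ n ∈ G, g n k), Real.sqrt (ω k) ^ 2 = W := by
      apply Finset.sum_congr rfl
      intro k _
      exact Real.sq_sqrt (hω k)
    have e3 : ∑ k ∈ J.filter (fun k => ∃ n ∈ G, g n k), (Real.sqrt (ω k) * a k) ^ 2 ≤
        ∑ k ∈ J, ω k * a k ^ 2 := by
      have : ∀ k, (Real.sqrt (ω k) * a k) ^ 2 = ω k * a k ^ 2 := by
        intro k
        rw [mul_pow, Real.sq_sqrt (hω k)]
      simp only [this]
      apply Finset.sum_le_sum_of_subset_of_nonneg (Finset.filter_subset _ _)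
      intro k _ _
      exact mul_nonneg (hω k) (sq_nonneg _)
    rw [e2]
    exact mul_le_mul_of_nonneg_left e3 hW0
  -- second moment
  have hS2 : ∑ k ∈ J, ω k * a k ^ 2 =
      ∑ n ∈ G, ∑ m ∈ G, ∑ k ∈ J.filter (fun k => g n k ∧ g m k), ω k := by
    have e1 : ∀ k, ω k * a k ^ 2 = ∑ n ∈ G, ∑ m ∈ G, if g n k ∧ g m k then ω k else 0 := by
      intro k
      simp only [ha]
      rw [sq, Finset.sum_mul_sum, Finset.mul_sum]
      apply Finset.sum_congr rfl
      intro n _
      rw [Finset.mul_sum]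
      apply Finset.sum_congr rfl
      intro m _
      by_cases p : g n k <;> by_cases q : g m k <;> simp [p, q]
    simp only [e1]
    rw [Finset.sum_comm]
    apply Finset.sum_congr rfl
    intro n _
    rw [Finset.sum_comm]
    apply Finset.sum_congr rfl
    intro m _
    rw [Finset.sum_filter]
  have hrow : ∀ n ∈ G, ∑ m ∈ G, ∑ k ∈ J.filter (fun k => g n k ∧ g m k), ω k ≤
      B + 2 * C₁ * (G.card + S) := by
    intro n hn
    have hn' := Finset.mem_Icc.mp (hG hn)
    have split : ∑ m ∈ G, ∑ k ∈ J.filter (fun k => g n k ∧ g m k), ω k ≤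
        ∑ m ∈ G, ((if m = n then B else 0) + (if n < m then C₁ * Dd (m - n) else 0) +
          (if m < n then C₁ * Dd (n - m) else 0)) := by
      apply Finset.sum_le_sum
      intro m hm
      rcases lt_trichotomy n m with h | h | h
      · rw [if_neg (by omega), if_pos h, if_neg (by omega)]
        simpa using h3 n hn m hm h
      · subst h
        rw [if_pos rfl, if_neg (lt_irrefl n)]
        simpa using h2 n hn
      · rw [if_neg (by omega), if_neg (by omega), if_pos h]
        have := h3 m hm n hn h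
        simp only [zero_add]
        refine le_trans (le_of_eq ?_) this
        apply Finset.sum_congr _ (fun _ _ => rfl)
        apply Finset.filter_congr
        intro k _
        exact and_comm
    refine split.trans ?_
    rw [Finset.sum_add_distrib, Finset.sum_add_distrib]
    have b1 : ∑ m ∈ G, (if m = n then B else 0) ≤ B := by
      rw [Finset.sum_ite_eq' G n (fun _ => B), if_pos hn]
    have b2 : ∑ m ∈ G, (if n < m then C₁ * Dd (m - n) else 0) ≤ C₁ * (G.card + S) := by
      rw [← Finset.sum_filter, ← Finset.mul_sum]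
      apply mul_le_mul_of_nonneg_left _ hC
      apply csw_row G N Dd S hD hS (G.filter (fun m => n < m)) (Finset.filter_subset _ _) (fun m => m - n)
      · intro x hx y hy hxy
        have hx' := (Finset.mem_filter.mp (Finset.mem_coe.mp hx)).2
        have hy' := (Finset.mem_filter.mp (Finset.mem_coe.mp hy)).2
        simp only at hxy
        omega
      · intro m hm
        have hm' := Finset.mem_filter.mp hm
        have := Finset.mem_Icc.mp (hG hm'.1)
        rw [Finset.mem_Icc]
        have := hm'.2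
        omega
    have b3 : ∑ m ∈ G, (if m < n then C₁ * Dd (n - m) else 0) ≤ C₁ * (G.card + S) := by
      rw [← Finset.sum_filter, ← Finset.mul_sum]
      apply mul_le_mul_of_nonneg_left _ hC
      apply csw_row G N Dd S hD hS (G.filter (fun m => m < n)) (Finset.filter_subset _ _) (fun m => n - m)
      · intro x hx y hy hxy
        have hx' := (Finset.mem_filter.mp (Finset.mem_coe.mp hx)).2
        have hy' := (Finset.mem_filter.mp (Finset.mem_coe.mp hy)).2
        simp only at hxy
        omega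
      · intro m hm
        have hm' := Finset.mem_filter.mp hm
        have := Finset.mem_Icc.mp (hG hm'.1)
        rw [Finset.mem_Icc]
        have := hm'.2
        omega
    linarith
  have hS2le : ∑ k ∈ J, ω k * a k ^ 2 ≤ G.card * B + 2 * C₁ * ((G.card : ℝ) ^ 2 + G.card * S) := by
    rw [hS2]
    calc _ ≤ ∑ n ∈ G, (B + 2 * C₁ * (G.card + S)) := Finset.sum_le_sum hrow
      _ = _ := by
        rw [Finset.sum_const, nsmul_eq_mul]
        ring
  calc ((G.card : ℝ) * A) ^ 2 ≤ (∑ k ∈ J, ω k * a k) ^ 2 := by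
        apply pow_le_pow_left₀ _ hlow
        positivity
    _ ≤ W * ∑ k ∈ J, ω k * a k ^ 2 := hCS
    _ ≤ _ := mul_le_mul_of_nonneg_left hS2le hW0

end Pool.Agent.H95RU
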