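import Pool.Agent.H95RU.Stm

set_option autoImplicit false

/-! Project RU, stub DAV (helper85). -/

namespace Pool.Agent.H95RU

open Finset

lemma dav_one_le_prod (S : Finset ℕ) : 1 ≤ ∏ p ∈ S, (1 + 1 / (p : ℝ)) := by
  classical
  induction S using Finset.induction_on with
  | empty => simp
  | insert a s ha ih =>
    rw [prod_insert ha]
    have h1 : (0 : ℝ) ≤ 1 / (a : ℝ) := by positivity
    nlinarith

lemma dav_sum_le_prod (S : Finset ℕ) : 1 + ∑ p ∈ S, 1 / (p : ℝ) ≤ ∏ p ∈ S, (1 + 1 / (p : ℝ)) := by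
  classical
  induction S using Finset.induction_on with
  | empty => simp
  | insert a s ha ih =>
    rw [prod_insert ha, sum_insert ha]
    have h1 : (0 : ℝ) ≤ 1 / (a : ℝ) := by positivity
    have h2 := dav_one_le_prod s
    nlinarith

lemma dav_prod_le_exp (S : Finset ℕ) :
    ∏ p ∈ S, (1 + 1 / (p : ℝ)) ≤ Real.exp (∑ p ∈ S, 1 / (p : ℝ)) := by
  rw [Real.exp_sum]
  refine prod_le_prod (fun p _ => by positivity) fun p _ => ?_
  rw [add_comm]
  exact Real.add_one_le_exp _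

lemma dav_sub {S T : Finset ℕ} (h : S ⊆ T) :
    ∏ p ∈ S, (1 + 1 / (p : ℝ)) ≤ ∏ p ∈ T, (1 + 1 / (p : ℝ)) := by
  classical
  rw [← prod_sdiff h]
  have h1 := dav_one_le_prod (T \ S)
  have h2 := dav_one_le_prod S
  nlinarith

theorem t_DAV (h1 : S_AVX) (h2 : S_ROM) : S_DAV := by
  intro b hb
  obtain ⟨C1, hC1, h1⟩ := h1 b hb
  obtain ⟨C2, hC2, h2⟩ := h2 b hb
  refine ⟨C1 + C2, by positivity, fun w hw N => ?_⟩
  have hw' : (0 : ℝ) < w := by exact_mod_cast hw
  set q : ℝ := (w : ℝ) ^ (1 / 8 : ℝ) with hq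
  have hq0 : 0 < q := Real.rpow_pos_of_pos hw' _
  have hqq : (w : ℝ) ^ (1 / 4 : ℝ) = q * q := by
    rw [hq, ← Real.rpow_add hw']
    norm_num
  have key : ∀ h ∈ Icc 1 N, Dw b w h ^ 2 - 1 ≤ q * xw b w h +
      q⁻¹ * (∏ p ∈ (b ^ h - 1).primeFactors, (1 + 1 / (p : ℝ))) ^ 5 := by
    intro h _
    set g : ℝ := ∏ p ∈ (b ^ h - 1).primeFactors, (1 + 1 / (p : ℝ)) with hg
    set D : ℝ := Dw b w h with hD
    set x : ℝ := xw b w h with hx
    have hx0 : 0 ≤ x := by
      rw [hx]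
      exact sum_nonneg fun p _ => by positivity
    have hD1 : 1 ≤ D := dav_one_le_prod _
    have hDg : D ≤ g := dav_sub (filter_subset _ _)
    have hxD : 1 + x ≤ D := dav_sum_le_prod _
    have hDe : D ≤ Real.exp x := dav_prod_le_exp _
    have h3 : D * (1 - x) ≤ 1 := by
      have h4 : 1 - x ≤ Real.exp (-x) := by
        have := Real.add_one_le_exp (-x)
        linarith
      have h5 : D * Real.exp (-x) ≤ 1 := by
        calc D * Real.exp (-x) ≤ Real.exp x * Real.exp (-x) :=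
              mul_le_mul_of_nonneg_right hDe (Real.exp_pos _).le
          _ = 1 := by rw [← Real.exp_add]; simp
      calc D * (1 - x) ≤ D * Real.exp (-x) := mul_le_mul_of_nonneg_left h4 (by linarith)
        _ ≤ 1 := h5
    have h6 : D - 1 ≤ D * x := by linarith
    have h7 : D ^ 2 - 1 ≤ 2 * (D ^ 2 * x) := by
      have e1 : D ^ 2 - 1 = (D - 1) * (D + 1) := by ring
      rw [e1]
      calc (D - 1) * (D + 1) ≤ (D * x) * (2 * D) :=
            mul_le_mul h6 (by linarith) (by linarith) (by positivity)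
        _ = 2 * (D ^ 2 * x) := by ring
    have hg1 : 1 ≤ g := hD1.trans hDg
    have h8 : D ^ 2 * x ≤ g ^ 2 * x := by
      refine mul_le_mul_of_nonneg_right ?_ hx0
      exact pow_le_pow_left₀ (by linarith) hDg 2
    have h9 : 2 * (g ^ 2 * x) ≤ q * x + q⁻¹ * (x * g ^ 4) := by
      have e2 : q * x + q⁻¹ * (x * g ^ 4) - 2 * (g ^ 2 * x) = x * q⁻¹ * (q - g ^ 2) ^ 2 := by
        field_simp
        ring
      have e3 : 0 ≤ x * q⁻¹ * (q - g ^ 2) ^ 2 := by positivity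
      linarith
    have h10 : x * g ^ 4 ≤ g ^ 5 := by
      have : x ≤ g := by linarith
      calc x * g ^ 4 ≤ g * g ^ 4 := mul_le_mul_of_nonneg_right this (by positivity)
        _ = g ^ 5 := by ring
    have h11 : q⁻¹ * (x * g ^ 4) ≤ q⁻¹ * g ^ 5 := mul_le_mul_of_nonneg_left h10 (by positivity)
    linarith
  calc ∑ h ∈ Icc 1 N, (Dw b w h ^ 2 - 1) ≤ ∑ h ∈ Icc 1 N, (q * xw b w h +
        q⁻¹ * (∏ p ∈ (b ^ h - 1).primeFactors, (1 + 1 / (p : ℝ))) ^ 5) := sum_le_sum key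
    _ = q * ∑ h ∈ Icc 1 N, xw b w h +
        q⁻¹ * ∑ h ∈ Icc 1 N, (∏ p ∈ (b ^ h - 1).primeFactors, (1 + 1 / (p : ℝ))) ^ 5 := by
      rw [sum_add_distrib, mul_sum, mul_sum]
    _ ≤ q * (C1 * N / (q * q)) + q⁻¹ * (C2 * N) := by
      refine add_le_add (mul_le_mul_of_nonneg_left ?_ hq0.le)
        (mul_le_mul_of_nonneg_left (h2 N) (by positivity))
      rw [← hqq]
      exact h1 w hw N
    _ = (C1 + C2) * N / q := by
      field_simp

end Pool.Agent.H95RU
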