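import Pool.Agent.H95RU.Stm
import Pool.Agent.Y820.LT.R

set_option autoImplicit false

/-! Project RU, stub ROM (helper85). -/

namespace Pool.Agent.H95RU

open Finset

theorem t_ROM : S_ROM := by
  intro b hb
  obtain ⟨C, hC, h⟩ := Pool.Agent.Y820.LT.t_R b hb 5
  refine ⟨2 * C, by positivity, fun N => ?_⟩
  rcases Nat.eq_zero_or_pos N with rfl | hN
  · simp
  have h1 := h (N + 1) (by omega) (fun _ => 1) (fun j => ⟨one_ne_zero, by
    rw [abs_one]
    exact_mod_cast (show 1 < b by omega)⟩) (Icc 1 N) (by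
      intro x hx
      rw [mem_Icc] at hx
      rw [mem_range]
      omega) (-1) (by
      rw [abs_neg, abs_one]
      exact one_le_pow₀ (by exact_mod_cast (show 1 ≤ b by omega)))
  have h2 : ∑ j ∈ Icc 1 N, (if (1 : ℤ) * (b : ℤ) ^ j + -1 = 0 then 0 else
      Pool.Agent.W93.HD.gg ((1 : ℤ) * (b : ℤ) ^ j + -1).natAbs ^ 5) =
      ∑ h ∈ Icc 1 N, (∏ p ∈ (b ^ h - 1).primeFactors, (1 + 1 / (p : ℝ))) ^ 5 := by
    refine sum_congr rfl fun j hj => ?_
    rw [mem_Icc] at hj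
    have h3 : 2 ≤ b ^ j := by
      calc 2 ≤ b := hb
        _ = b ^ 1 := (pow_one b).symm
        _ ≤ b ^ j := Nat.pow_le_pow_right (by omega) hj.1
    have h4 : (1 : ℤ) * (b : ℤ) ^ j + -1 = ((b ^ j - 1 : ℕ) : ℤ) := by
      rw [Nat.cast_sub (by omega)]
      push_cast
      ring
    have h5 : ((b ^ j - 1 : ℕ) : ℤ) ≠ 0 := by
      have : b ^ j - 1 ≠ 0 := by omega
      exact_mod_cast this
    rw [h4, if_neg h5, Int.natAbs_natCast]
    rfl
  rw [h2] at h1
  refine h1.trans ?_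
  push_cast
  have h6 : (1 : ℝ) ≤ N := by exact_mod_cast hN
  nlinarith

end Pool.Agent.H95RU
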