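import Pool.Agent.H95RU.Stm2
import Pool.Agent.H95RU.ROM
import Pool.Agent.H95RU.DAV

set_option autoImplicit false

/-! Project RU, stub DAVK (helper69). -/

namespace Pool.Agent.H95RU

open Finset

theorem davk_rom (b : ℕ) (hb : 2 ≤ b) (κ : ℕ) : ∃ C : ℝ, 0 ≤ C ∧ ∀ N : ℕ,
    ∑ h ∈ Icc 1 N, (∏ p ∈ (b ^ h - 1).primeFactors, (1 + 1 / (p : ℝ))) ^ κ ≤ C * N := by
  obtain ⟨C, hC, h⟩ := Pool.Agent.Y820.LT.t_R b hb κ
  refine ⟨2 * C, by positivity, fun N => ?_⟩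
  rcases Nat.eq_zero_or_pos N with rfl | hN
  · simp
  have h1 := h (N + 1) (by omega) (fun _ => 1) (fun j => ⟨one_ne_zero, by
    rw [abs_one]
    exact_mod_cast (show 1 < b by omega)⟩) (Icc 1 N) (by
      intro x hx
      rw [mem_Icc] at hx
      rw [mem_range]
      omega) (-1) (by
      rw [abs_neg, abs_one]
      exact one_le_pow₀ (by exact_mod_cast (show 1 ≤ b by omega)))
  have h2 : ∑ j ∈ Icc 1 N, (if (1 : ℤ) * (b : ℤ) ^ j + -1 = 0 then 0 else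
      Pool.Agent.W93.HD.gg ((1 : ℤ) * (b : ℤ) ^ j + -1).natAbs ^ κ) =
      ∑ h ∈ Icc 1 N, (∏ p ∈ (b ^ h - 1).primeFactors, (1 + 1 / (p : ℝ))) ^ κ := by
    refine sum_congr rfl fun j hj => ?_
    rw [mem_Icc] at hj
    have h3 : 2 ≤ b ^ j := by
      calc 2 ≤ b := hb
        _ = b ^ 1 := (pow_one b).symm
        _ ≤ b ^ j := Nat.pow_le_pow_right (by omega) hj.1
    have h4 : (1 : ℤ) * (b : ℤ) ^ j + -1 = ((b ^ j - 1 : ℕ) : ℤ) := by
      rw [Nat.cast_sub (by omega)]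
      push_cast
      ring
    have h5 : ((b ^ j - 1 : ℕ) : ℤ) ≠ 0 := by
      have : b ^ j - 1 ≠ 0 := by omega
      exact_mod_cast this
    rw [h4, if_neg h5, Int.natAbs_natCast]
    rfl
  rw [h2] at h1
  refine h1.trans ?_
  push_cast
  have h6 : (1 : ℝ) ≤ N := by exact_mod_cast hN
  nlinarith

theorem davk_pow (κ : ℕ) {D : ℝ} (hD : 1 ≤ D) : D ^ κ - 1 ≤ κ * ((D - 1) * D ^ κ) := by
  induction κ with
  | zero => simp
  | succ κ ih =>
    have h1 : (1 : ℝ) ≤ D ^ (κ + 1) := one_le_pow₀ hD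
    have h2 : D * (D ^ κ - 1) ≤ D * (κ * ((D - 1) * D ^ κ)) :=
      mul_le_mul_of_nonneg_left ih (by linarith)
    have h3 : (D - 1) * 1 ≤ (D - 1) * D ^ (κ + 1) :=
      mul_le_mul_of_nonneg_left h1 (by linarith)
    push_cast
    have e1 : D ^ (κ + 1) - 1 = D * (D ^ κ - 1) + (D - 1) * 1 := by ring
    have e2 : ((κ : ℝ) + 1) * ((D - 1) * D ^ (κ + 1)) =
        D * (κ * ((D - 1) * D ^ κ)) + (D - 1) * D ^ (κ + 1) := by ring
    rw [e1, e2]
    exact add_le_add h2 h3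

theorem t_DAVK (h : S_AVX) : S_DAVK := by
  intro b hb κ
  obtain ⟨C1, hC1, h1⟩ := h b hb
  obtain ⟨C2, hC2, h2⟩ := davk_rom b hb (2 * (κ + 1) + 1)
  refine ⟨κ * (C1 + C2), by positivity, fun w hw N => ?_⟩
  have hw' : (0 : ℝ) < w := by exact_mod_cast hw
  set q : ℝ := (w : ℝ) ^ (1 / 8 : ℝ) with hq
  have hq0 : 0 < q := Real.rpow_pos_of_pos hw' _
  have hqq : (w : ℝ) ^ (1 / 4 : ℝ) = q * q := by
    rw [hq, ← Real.rpow_add hw']
    norm_num
  have key : ∀ h ∈ Icc 1 N, Dw b w h ^ κ - 1 ≤ κ * (q * xw b w h +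
      q⁻¹ * (∏ p ∈ (b ^ h - 1).primeFactors, (1 + 1 / (p : ℝ))) ^ (2 * (κ + 1) + 1)) := by
    intro h _
    set g : ℝ := ∏ p ∈ (b ^ h - 1).primeFactors, (1 + 1 / (p : ℝ)) with hg
    set D : ℝ := Dw b w h with hD
    set x : ℝ := xw b w h with hx
    have hx0 : 0 ≤ x := by
      rw [hx]
      exact sum_nonneg fun p _ => by positivity
    have hD1 : 1 ≤ D := dav_one_le_prod _
    have hDg : D ≤ g := dav_sub (filter_subset _ _)
    have hxD : 1 + x ≤ D := dav_sum_le_prod _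
    have hDe : D ≤ Real.exp x := dav_prod_le_exp _
    have h3 : D * (1 - x) ≤ 1 := by
      have h4 : 1 - x ≤ Real.exp (-x) := by
        have := Real.add_one_le_exp (-x)
        linarith
      have h5 : D * Real.exp (-x) ≤ 1 := by
        calc D * Real.exp (-x) ≤ Real.exp x * Real.exp (-x) :=
              mul_le_mul_of_nonneg_right hDe (Real.exp_pos _).le
          _ = 1 := by rw [← Real.exp_add]; simp
      calc D * (1 - x) ≤ D * Real.exp (-x) := mul_le_mul_of_nonneg_left h4 (by linarith)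
        _ ≤ 1 := h5
    have h6 : D - 1 ≤ D * x := by linarith
    have hg1 : 1 ≤ g := hD1.trans hDg
    have hg0 : 0 ≤ g := by linarith
    have h7 : (D - 1) * D ^ κ ≤ x * g ^ (κ + 1) := by
      calc (D - 1) * D ^ κ ≤ (D * x) * D ^ κ :=
            mul_le_mul_of_nonneg_right h6 (pow_nonneg (by linarith) _)
        _ = x * D ^ (κ + 1) := by ring
        _ ≤ x * g ^ (κ + 1) :=
            mul_le_mul_of_nonneg_left (pow_le_pow_left₀ (by linarith) hDg _) hx0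
    have h9 : 2 * (x * g ^ (κ + 1)) ≤ q * x + q⁻¹ * (x * g ^ (2 * (κ + 1))) := by
      have e2 : q * x + q⁻¹ * (x * g ^ (2 * (κ + 1))) - 2 * (x * g ^ (κ + 1)) =
          x * q⁻¹ * (q - g ^ (κ + 1)) ^ 2 := by
        rw [pow_mul' g 2 (κ + 1)]
        field_simp
        ring
      have e3 : 0 ≤ x * q⁻¹ * (q - g ^ (κ + 1)) ^ 2 := by positivity
      linarith
    have h10 : x * g ^ (2 * (κ + 1)) ≤ g ^ (2 * (κ + 1) + 1) := by
      have : x ≤ g := by linarith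
      calc x * g ^ (2 * (κ + 1)) ≤ g * g ^ (2 * (κ + 1)) :=
            mul_le_mul_of_nonneg_right this (by positivity)
        _ = g ^ (2 * (κ + 1) + 1) := by ring
    have h11 : q⁻¹ * (x * g ^ (2 * (κ + 1))) ≤ q⁻¹ * g ^ (2 * (κ + 1) + 1) :=
      mul_le_mul_of_nonneg_left h10 (by positivity)
    have h12 : 0 ≤ x * g ^ (κ + 1) := by positivity
    refine (davk_pow κ hD1).trans (mul_le_mul_of_nonneg_left ?_ (Nat.cast_nonneg κ))
    linarith
  calc ∑ h ∈ Icc 1 N, (Dw b w h ^ κ - 1) ≤ ∑ h ∈ Icc 1 N, κ * (q * xw b w h +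
        q⁻¹ * (∏ p ∈ (b ^ h - 1).primeFactors, (1 + 1 / (p : ℝ))) ^ (2 * (κ + 1) + 1)) :=
        sum_le_sum key
    _ = κ * (q * ∑ h ∈ Icc 1 N, xw b w h +
        q⁻¹ * ∑ h ∈ Icc 1 N,
          (∏ p ∈ (b ^ h - 1).primeFactors, (1 + 1 / (p : ℝ))) ^ (2 * (κ + 1) + 1)) := by
      rw [← mul_sum, sum_add_distrib, ← mul_sum, ← mul_sum]
    _ ≤ κ * (q * (C1 * N / (q * q)) + q⁻¹ * (C2 * N)) := by
      refine mul_le_mul_of_nonneg_left (add_le_add (mul_le_mul_of_nonneg_left ?_ hq0.le)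
        (mul_le_mul_of_nonneg_left (h2 N) (by positivity))) (Nat.cast_nonneg κ)
      rw [← hqq]
      exact h1 w hw N
    _ = κ * (C1 + C2) * N / q := by
      field_simp

end Pool.Agent.H95RU
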