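import Pool.Agent.H95RU.Stm3

set_option autoImplicit false

/-! Project RU: stub DYA. -/

namespace Pool.Agent.H95RU

open Finset

open Classical in
lemma dya_dyad {K : ℕ} (hK : 1 ≤ K) (e : ℕ) {B : ℝ} (hB : 0 ≤ B) {X₀ z : ℕ} (hz : 64 ≤ z)
    (hzX : (2 * X₀) ^ 2 ≤ z) (Q : ℕ → Prop)
    (h : ∀ X : ℕ, X₀ ≤ X → (((Ioc X (2 * X)).filter (fun k => Q k)).card : ℝ) ≤ B * X / Real.log X ^ e) :
    ∑ k ∈ (Icc 1 (z ^ K)).filter (fun k => z ≤ k ^ 2 ∧ Q k), (1 : ℝ) / k ≤
      3 * K * Real.log z * (B * 3 ^ e / Real.log z ^ e) := by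
  set L := Real.log z with hL
  have hz' : (64 : ℝ) ≤ z := by exact_mod_cast hz
  have hlog2 : 0.6931471803 < Real.log 2 := Real.log_two_gt_d9
  have hL6 : 6 * Real.log 2 ≤ L := by
    have h64 : Real.log 64 = 6 * Real.log 2 := by
      rw [show (64 : ℝ) = 2 ^ 6 by norm_num, Real.log_pow]
      norm_num
    rw [← h64]
    exact Real.log_le_log (by norm_num) hz'
  have hL0 : 0 < L := by linarith
  have hKr : (1 : ℝ) ≤ K := by exact_mod_cast hK
  set S := (Icc 1 (z ^ K)).filter (fun k => z ≤ k ^ 2 ∧ Q k) with hS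
  set f : ℕ → ℕ := fun k => Nat.log 2 (k - 1) with hf
  have fact : ∀ k ∈ S, 2 ^ f k < k ∧ k ≤ 2 * 2 ^ f k ∧ X₀ ≤ 2 ^ f k ∧ L / 3 ≤ (f k : ℝ) * Real.log 2 ∧
      (f k : ℝ) * Real.log 2 ≤ K * L ∧ Q k := by
    intro k hk
    rw [hS, mem_filter, mem_Icc] at hk
    obtain ⟨⟨h1, h2⟩, h3, h4⟩ := hk
    have hk2 : 2 ≤ k := by
      by_contra hc
      have : k = 1 := by omega
      rw [this] at h3
      omega
    have a1 : 2 ^ f k ≤ k - 1 := Nat.pow_log_le_self 2 (by omega)
    have a2 : k - 1 < 2 ^ (f k + 1) := Nat.lt_pow_succ_log_self (by norm_num) _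
    rw [pow_succ] at a2
    have a3 : k ≤ 2 * 2 ^ f k := by omega
    have a4 : 2 ^ f k < k := by omega
    have a5 : 2 * X₀ ≤ k := by
      by_contra hc
      push Not at hc
      have : k ^ 2 < (2 * X₀) ^ 2 := Nat.pow_lt_pow_left hc (by norm_num)
      omega
    have hk0 : (0 : ℝ) < k := by exact_mod_cast (by omega : 0 < k)
    have b1 : (k : ℝ) ≤ 2 * 2 ^ f k := by exact_mod_cast a3
    have b2 : (z : ℝ) ≤ (k : ℝ) ^ 2 := by exact_mod_cast h3
    have b3 : L ≤ 2 * Real.log k := by
      have := Real.log_le_log (by linarith) b2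
      rw [Real.log_pow] at this
      push_cast at this
      exact this
    have b4 : Real.log k ≤ Real.log 2 + f k * Real.log 2 := by
      have := Real.log_le_log hk0 b1
      rw [Real.log_mul (by norm_num) (by positivity), Real.log_pow] at this
      exact this
    have b5 : ((2 : ℝ) ^ f k) ≤ (z : ℝ) ^ K := by exact_mod_cast (a4.le.trans h2)
    have b6 : (f k : ℝ) * Real.log 2 ≤ K * L := by
      have := Real.log_le_log (by positivity) b5
      rw [Real.log_pow, Real.log_pow] at this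
      exact this
    exact ⟨a4, a3, by omega, by linarith, b6, h4⟩
  have hsum : ∑ k ∈ S, (1 : ℝ) / k = ∑ i ∈ S.image f, ∑ k ∈ S.filter (fun k => f k = i), (1 : ℝ) / k :=
    (sum_fiberwise_of_maps_to (fun k hk => mem_image_of_mem f hk) _).symm
  have inner : ∀ i ∈ S.image f, ∑ k ∈ S.filter (fun k => f k = i), (1 : ℝ) / k ≤ B * 3 ^ e / L ^ e := by
    intro i hi
    obtain ⟨k0, hk0, rfl⟩ := mem_image.1 hi
    obtain ⟨-, -, g3, g4, -, -⟩ := fact k0 hk0
    have p2 : (0 : ℝ) < 2 ^ f k0 := by positivity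
    have c1 : ∑ k ∈ S.filter (fun k => f k = f k0), (1 : ℝ) / k ≤
        ∑ k ∈ S.filter (fun k => f k = f k0), (1 : ℝ) / 2 ^ f k0 := by
      apply sum_le_sum
      intro k hk
      rw [mem_filter] at hk
      obtain ⟨h1, -, -, -, -, -⟩ := fact k hk.1
      rw [hk.2] at h1
      apply one_div_le_one_div_of_le p2
      exact_mod_cast h1.le
    have c2 : S.filter (fun k => f k = f k0) ⊆ (Ioc (2 ^ f k0) (2 * 2 ^ f k0)).filter (fun k => Q k) := by
      intro k hk
      rw [mem_filter] at hk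
      obtain ⟨h1, h2, -, -, -, h6⟩ := fact k hk.1
      rw [hk.2] at h1 h2
      rw [mem_filter, mem_Ioc]
      exact ⟨⟨h1, h2⟩, h6⟩
    have c3 : ((S.filter (fun k => f k = f k0)).card : ℝ) ≤ B * ((2 ^ f k0 : ℕ) : ℝ) /
        Real.log ((2 ^ f k0 : ℕ) : ℝ) ^ e := by
      refine le_trans ?_ (h (2 ^ f k0) g3)
      exact_mod_cast card_le_card c2
    rw [sum_const, nsmul_eq_mul] at c1
    push_cast at c3
    rw [Real.log_pow] at c3
    have d0 : 0 < L / 3 := by positivity
    have c4 : B * 2 ^ f k0 / ((f k0 : ℝ) * Real.log 2) ^ e ≤ B * 2 ^ f k0 / (L / 3) ^ e := by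
      apply div_le_div_of_nonneg_left (by positivity) (by positivity)
      exact pow_le_pow_left₀ d0.le g4 e
    have c5 := mul_le_mul_of_nonneg_right (c3.trans c4) (show (0 : ℝ) ≤ 1 / 2 ^ f k0 by positivity)
    refine c1.trans (c5.trans (le_of_eq ?_))
    rw [div_pow]
    field_simp
  have hcard : ((S.image f).card : ℝ) ≤ 3 * K * L := by
    have hsub : S.image f ⊆ range (⌊(K : ℝ) * L / Real.log 2⌋₊ + 1) := by
      intro i hi
      obtain ⟨k, hk, rfl⟩ := mem_image.1 hi
      obtain ⟨-, -, -, -, g5, -⟩ := fact k hk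
      rw [mem_range, Nat.lt_succ_iff]
      apply Nat.le_floor
      rw [le_div_iff₀ (by linarith)]
      exact g5
    have h1 := card_le_card hsub
    rw [card_range] at h1
    have h2 : ((S.image f).card : ℝ) ≤ (⌊(K : ℝ) * L / Real.log 2⌋₊ : ℝ) + 1 := by exact_mod_cast h1
    have h3 : (⌊(K : ℝ) * L / Real.log 2⌋₊ : ℝ) ≤ (K : ℝ) * L / Real.log 2 := Nat.floor_le (by positivity)
    have h4 : (K : ℝ) * L / Real.log 2 ≤ 2 * (K * L) := by
      rw [div_le_iff₀ (by linarith)]
      have : 0 ≤ (K : ℝ) * L := by positivity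
      nlinarith
    have h5 : 1 ≤ (K : ℝ) * L := by nlinarith
    linarith
  rw [hsum]
  have h1 := sum_le_card_nsmul _ _ _ inner
  rw [nsmul_eq_mul] at h1
  refine h1.trans ?_
  apply mul_le_mul_of_nonneg_right hcard
  positivity

lemma dya_V_nonneg (w : ℕ) : 0 ≤ V w := by
  unfold V
  apply prod_nonneg
  intro p hp
  rw [mem_filter] at hp
  have : (1 : ℝ) ≤ p := by exact_mod_cast hp.2.one_le
  rw [sub_nonneg, div_le_one (by linarith)]
  exact this

open Classical in
theorem t_DYA (h : S_UPP) : S_DYA := by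
  obtain ⟨C, hC, H⟩ := h
  intro K hK
  have hKr : (1 : ℝ) ≤ K := by exact_mod_cast hK
  refine ⟨27 * K * C, by positivity, ?_⟩
  intro b w hb hw
  obtain ⟨X₀, HX⟩ := H b w hb hw
  refine ⟨max 64 ((2 * X₀) ^ 2), ?_⟩
  intro z hz
  have hz1 : 64 ≤ z := (le_max_left _ _).trans hz
  have hz2 : (2 * X₀) ^ 2 ≤ z := (le_max_right _ _).trans hz
  have hz' : (64 : ℝ) ≤ z := by exact_mod_cast hz1
  have hL0 : 0 < Real.log z := Real.log_pos (by linarith)
  have hV := dya_V_nonneg w
  constructor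
  · intro n
    have h1 := dya_dyad hK 1 (B := C / (PP w * V w)) (by positivity) hz1 hz2
      (fun k => k ≡ 1 [MOD PP w] ∧ (fol b k n).Prime) (by
        intro X hX
        have h2 := (HX X hX).1 n
        have e1 : C * X / (PP w * V w * Real.log X) = C / (PP w * V w) * X / Real.log X ^ 1 := by
          rw [pow_one]
          ring
        rw [e1] at h2
        refine le_trans (le_of_eq ?_) h2
        rw [Nat.cast_inj]
        apply congrArg
        ext k
        simp only [mem_filter])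
    have h3 : (3 : ℝ) * K * Real.log z * (C / (PP w * V w) * 3 ^ 1 / Real.log z ^ 1) =
        9 * K * C / (PP w * V w) := by
      rw [pow_one, pow_one]
      field_simp
      ring
    rw [h3] at h1
    have h4 : 9 * K * C / (PP w * V w) ≤ 27 * K * C / (PP w * V w) := by
      apply div_le_div_of_nonneg_right _ (by positivity)
      nlinarith [mul_pos (show (0 : ℝ) < K by linarith) hC]
    refine le_trans (le_of_eq ?_) (h1.trans h4)
    apply sum_congr _ (fun _ _ => rfl)
    ext k
    simp only [mem_filter]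
  · intro n m hnm
    have h1 := dya_dyad hK 2 (B := C * Dw b w (m - n) ^ 2 / (PP w * V w ^ 2)) (by positivity) hz1 hz2
      (fun k => k ≡ 1 [MOD PP w] ∧ (fol b k n).Prime ∧ (fol b k m).Prime) (by
        intro X hX
        have h2 := (HX X hX).2 n m hnm
        have e1 : C * X * Dw b w (m - n) ^ 2 / (PP w * V w ^ 2 * Real.log X ^ 2) =
            C * Dw b w (m - n) ^ 2 / (PP w * V w ^ 2) * X / Real.log X ^ 2 := by
          ring
        rw [e1] at h2
        refine le_trans (le_of_eq ?_) h2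
        rw [Nat.cast_inj]
        apply congrArg
        ext k
        simp only [mem_filter])
    have h3 : (3 : ℝ) * K * Real.log z * (C * Dw b w (m - n) ^ 2 / (PP w * V w ^ 2) * 3 ^ 2 / Real.log z ^ 2) =
        27 * K * C * Dw b w (m - n) ^ 2 / (PP w * V w ^ 2 * Real.log z) := by
      field_simp
      ring
    rw [h3] at h1
    refine le_trans (le_of_eq ?_) h1
    apply sum_congr _ (fun _ _ => rfl)
    ext k
    simp only [mem_filter]

end Pool.Agent.H95RU
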