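import Pool.Agent.H95RU.Stm3

/-!
# Project RU, stub FST: the first moment of the primes near the repunits
-/

set_option autoImplicit false

namespace Pool.Agent.H95RU.FST

open Finset Pool.Agent.H95RU

lemma R_succ (b n : ℕ) : R b (n + 1) = R b n + b ^ n := by
  unfold R
  rw [Finset.sum_range_succ]

lemma R_lt {b : ℕ} (hb : 2 ≤ b) (n : ℕ) : R b n < b ^ n := by
  induction n with
  | zero => simp [R]
  | succ n ih =>
    rw [R_succ, pow_succ]
    nlinarith

lemma PP_pos (w : ℕ) : 0 < PP w :=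
  Finset.prod_pos fun p hp => (Finset.mem_filter.1 hp).2.pos

lemma dvd_PP {p w : ℕ} (hp : p.Prime) (h : p ≤ w) : p ∣ PP w :=
  Finset.dvd_prod_of_mem _ (Finset.mem_filter.2 ⟨Finset.mem_Icc.2 ⟨hp.one_lt.le, h⟩, hp⟩)

lemma le_of_dvd_PP {p w : ℕ} (hp : p.Prime) (h : p ∣ PP w) : p ≤ w := by
  unfold PP at h
  rw [hp.prime.dvd_finsetProd_iff] at h
  obtain ⟨r, hr, hpr⟩ := h
  rw [Finset.mem_filter, Finset.mem_Icc] at hr
  have : p = r := (Nat.prime_dvd_prime_iff_eq hp hr.2).1 hpr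
  omega

lemma V_pos (w : ℕ) : 0 < V w := by
  unfold V
  refine Finset.prod_pos fun p hp => ?_
  have h2 : (2 : ℝ) ≤ p := by exact_mod_cast (Finset.mem_filter.1 hp).2.two_le
  have : 1 / (p : ℝ) ≤ 1 / 2 := one_div_le_one_div_of_le (by norm_num) h2
  linarith

lemma tot {b w n : ℕ} (hb : 2 ≤ b) (hbw : b ≤ w) :
    (((b ^ n * PP w).totient : ℕ) : ℝ) = (b : ℝ) ^ n * (PP w * V w) := by
  have hq : b ^ n * PP w ≠ 0 := by
    have h1 := PP_pos w
    have h2 : 0 < b ^ n := by positivity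
    positivity
  have hpf : (b ^ n * PP w).primeFactors = (Icc 1 w).filter Nat.Prime := by
    ext p
    rw [Nat.mem_primeFactors, Finset.mem_filter, Finset.mem_Icc]
    constructor
    · rintro ⟨hp, hd, -⟩
      refine ⟨⟨hp.one_lt.le, ?_⟩, hp⟩
      rcases (hp.dvd_mul).1 hd with h | h
      · have h1 := hp.dvd_of_dvd_pow h
        exact (Nat.le_of_dvd (by omega) h1).trans hbw
      · exact le_of_dvd_PP hp h
    · rintro ⟨⟨-, h⟩, hp⟩
      exact ⟨hp, (dvd_PP hp h).mul_left _, hq⟩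
  have h := Nat.totient_eq_mul_prod_factors (b ^ n * PP w)
  rw [hpf] at h
  have h2 : (((b ^ n * PP w).totient : ℚ) : ℝ) = (((b ^ n * PP w : ℕ) : ℚ) *
      ∏ p ∈ (Icc 1 w).filter Nat.Prime, (1 - (p : ℚ)⁻¹) : ℚ) := by rw [h]
  push_cast at h2
  rw [h2]
  unfold V
  simp only [one_div]
  ring

theorem t_FST (h : S_LINM) : S_FST := by
  classical
  obtain ⟨K, c, hK, hc, hl⟩ := h
  refine ⟨K, c, hK, hc, fun b w hb hbw => ?_⟩
  obtain ⟨z₀, hz⟩ := hl (PP w) (PP_pos w)
  refine ⟨z₀, fun z hz0 n hn hq hrough => ?_⟩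
  have hB1 : 0 < b ^ n := by positivity
  have hB2 : 2 ≤ b ^ n := hb.trans (Nat.le_self_pow (by omega) b)
  have hP := PP_pos w
  have hq0 : 0 < b ^ n * PP w := Nat.mul_pos hB1 hP
  have hqM : ∀ p : ℕ, p.Prime → p ∣ b ^ n * PP w → p ∣ PP w := by
    intro p hp hd
    rcases (hp.dvd_mul).1 hd with h | h
    · have h1 := hp.dvd_of_dvd_pow h
      exact dvd_PP hp ((Nat.le_of_dvd (by omega) h1).trans hbw)
    · exact h
  have hcop : (R b (n + 1)).Coprime (b ^ n * PP w) := by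
    by_contra hcon
    obtain ⟨p, hp, h1, h2⟩ := Nat.Prime.not_coprime_iff_dvd.1 hcon
    exact hrough p hp (le_of_dvd_PP hp (hqM p hp h2)) h1
  have hmain := hz z hz0 (b ^ n * PP w) (R b (n + 1)) hq0 hq hqM hcop
  -- sizes
  have hBq : (b ^ n) ^ 16 ≤ z := by
    refine le_trans ?_ hq
    exact Nat.pow_le_pow_left (Nat.le_mul_of_pos_right _ hP) 16
  have hB4 : 4 * (b ^ n) ^ 2 ≤ z := by
    refine le_trans ?_ hBq
    have h14 : 4 ≤ (b ^ n) ^ 14 := by
      calc 4 = 2 ^ 2 := by norm_num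
        _ ≤ (b ^ n) ^ 2 := Nat.pow_le_pow_left hB2 2
        _ ≤ (b ^ n) ^ 14 := Nat.pow_le_pow_right hB1 (by norm_num)
    calc 4 * (b ^ n) ^ 2 ≤ (b ^ n) ^ 14 * (b ^ n) ^ 2 := Nat.mul_le_mul_right _ h14
      _ = (b ^ n) ^ 16 := by ring
  have haz : R b (n + 1) < z := by
    calc R b (n + 1) < b ^ (n + 1) := R_lt hb _
      _ ≤ b ^ n * b ^ n := by
          rw [← pow_add]
          exact Nat.pow_le_pow_right (by omega) (by omega)
      _ = (b ^ n) ^ 2 := by ring
      _ ≤ 4 * (b ^ n) ^ 2 := by omega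
      _ ≤ z := hB4
  set S := (Ioc z (z ^ K)).filter (fun p => p.Prime ∧ p ≡ R b (n + 1) [MOD b ^ n * PP w]) with hS
  set T := (Icc 1 (z ^ K)).filter (fun k => z ≤ k ^ 2 ∧ k ≡ 1 [MOD PP w] ∧ (fol b k n).Prime) with hT
  have hsub : S ⊆ T.image (fun k => fol b k n) := by
    intro p hp
    rw [hS, Finset.mem_filter, Finset.mem_Ioc] at hp
    obtain ⟨⟨hpz, hpK⟩, hpp, hpm⟩ := hp
    have hle : R b (n + 1) ≤ p := by omega
    obtain ⟨j, hj⟩ := (Nat.modEq_iff_dvd' hle).1 hpm.symm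
    have hpj : p = fol b (1 + PP w * j) n := by
      unfold fol
      have h1 : p = R b (n + 1) + b ^ n * PP w * j := by omega
      rw [h1, R_succ]
      ring
    rw [Finset.mem_image]
    refine ⟨1 + PP w * j, ?_, hpj.symm⟩
    have hRl := R_lt hb n
    have hkp : (1 + PP w * j) * b ^ n + R b n = p := hpj.symm
    set k := 1 + PP w * j with hk
    have hk1 : 1 ≤ k := by omega
    have hkle : k ≤ p := by
      calc k ≤ k * b ^ n := Nat.le_mul_of_pos_right _ hB1
        _ ≤ p := by omega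
    rw [hT, Finset.mem_filter, Finset.mem_Icc]
    refine ⟨⟨hk1, hkle.trans hpK⟩, ?_, ?_, ?_⟩
    · by_contra hcon
      push Not at hcon
      have h1 : z < (k + 1) * b ^ n := by
        have : (k + 1) * b ^ n = k * b ^ n + b ^ n := by ring
        omega
      have h2 : (k + 1) * b ^ n ≤ 2 * k * b ^ n := Nat.mul_le_mul_right _ (by omega)
      have h3 : z < 2 * k * b ^ n := by omega
      have h4 : z * z < (2 * k * b ^ n) * (2 * k * b ^ n) := Nat.mul_lt_mul'' h3 h3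
      have h5 : (2 * k * b ^ n) * (2 * k * b ^ n) = k ^ 2 * (4 * (b ^ n) ^ 2) := by ring
      have h6 : k ^ 2 * (4 * (b ^ n) ^ 2) ≤ z * z := Nat.mul_le_mul hcon.le hB4
      omega
    · have : k ≡ 1 + 0 [MOD PP w] := by
        rw [hk]
        exact Nat.ModEq.add_left 1 ((Nat.modEq_zero_iff_dvd).2 (dvd_mul_right _ _))
      simpa using this
    · rw [← hpj]
      exact hpp
  have hinj : Set.InjOn (fun k => fol b k n) (T : Set ℕ) := by
    intro k _ k' _ hkk
    unfold fol at hkk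
    simp only at hkk
    have : k * b ^ n = k' * b ^ n := by omega
    exact Nat.eq_of_mul_eq_mul_right hB1 this
  have hstep : (b : ℝ) ^ n * ∑ p ∈ S, (1 : ℝ) / p ≤ ∑ k ∈ T, (1 : ℝ) / k := by
    rw [Finset.mul_sum]
    calc ∑ p ∈ S, (b : ℝ) ^ n * (1 / (p : ℝ))
        ≤ ∑ p ∈ T.image (fun k => fol b k n), (b : ℝ) ^ n * (1 / (p : ℝ)) :=
          Finset.sum_le_sum_of_subset_of_nonneg hsub fun p _ _ => by positivity
      _ = ∑ k ∈ T, (b : ℝ) ^ n * (1 / ((fol b k n : ℕ) : ℝ)) := Finset.sum_image hinj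
      _ ≤ ∑ k ∈ T, (1 : ℝ) / k := by
          refine Finset.sum_le_sum fun k hk => ?_
          rw [hT, Finset.mem_filter, Finset.mem_Icc] at hk
          have hk1 : (0 : ℝ) < k := by exact_mod_cast hk.1.1
          have hf : (k : ℝ) * (b : ℝ) ^ n ≤ ((fol b k n : ℕ) : ℝ) := by
            unfold fol
            push_cast
            have : (0 : ℝ) ≤ (R b n : ℝ) := Nat.cast_nonneg _
            linarith
          have hb0 : (0 : ℝ) < (b : ℝ) ^ n := by positivity
          have hf0 : (0 : ℝ) < ((fol b k n : ℕ) : ℝ) := lt_of_lt_of_le (by positivity) hf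
          rw [mul_one_div, div_le_div_iff₀ hf0 hk1]
          linarith
  refine le_trans ?_ hstep
  have hb0 : (0 : ℝ) < (b : ℝ) ^ n := by positivity
  have e : c / (PP w * V w) = (b : ℝ) ^ n * (c / (((b ^ n * PP w).totient : ℕ) : ℝ)) := by
    rw [tot hb hbw]
    have hV := V_pos w
    have hP' : (0 : ℝ) < PP w := by exact_mod_cast hP
    field_simp
  rw [e]
  exact mul_le_mul_of_nonneg_left hmain hb0.le

end Pool.Agent.H95RU.FST

namespace Pool.Agent.H95RU

theorem t_FST (h : S_LINM) : S_FST := FST.t_FST h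

end Pool.Agent.H95RU
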