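import Pool.Agent.H95RU.Main

set_option autoImplicit false

/-!
# Project RU: the two families near the repunits
-/

namespace Pool.Agent.H95RU

open Finset

/-- the product of the primes up to `w` -/
def P (w : ℕ) : ℕ := ∏ p ∈ (Icc 1 w).filter Nat.Prime, p

lemma P_pos (w : ℕ) : 0 < P w := by
  unfold P
  apply prod_pos
  intro p hp
  exact (mem_filter.1 hp).2.pos

lemma dvd_P {w p : ℕ} (hp : p.Prime) (h : p ≤ w) : p ∣ P w := by
  unfold P
  exact dvd_prod_of_mem _ (mem_filter.2 ⟨mem_Icc.2 ⟨hp.one_lt.le, h⟩, hp⟩)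

lemma le_of_dvd_P {w p : ℕ} (hp : p.Prime) (h : p ∣ P w) : p ≤ w := by
  unfold P at h
  obtain ⟨q, hq, hpq⟩ := (hp.prime.dvd_finsetProd_iff _).1 h
  rw [mem_filter, mem_Icc] at hq
  rw [(Nat.prime_dvd_prime_iff_eq hp hq.2).1 hpq]
  exact hq.1.2

lemma R_succ (b n : ℕ) : R b (n + 1) = b ^ n + R b n := by
  unfold R
  rw [sum_range_succ, add_comm]

lemma R_add (b n m : ℕ) : R b (n + m) = R b n * b ^ m + R b m := by
  induction m with
  | zero => simp [R]
  | succ m ih =>
    rw [← add_assoc, R_succ, ih, R_succ, pow_succ, pow_add]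
    have h : R b (m + 1) = R b m * b + 1 := by
      unfold R
      rw [sum_range_succ']
      simp only [pow_succ, pow_zero]
      rw [sum_mul]
    have h2 : b ^ m + R b m = R b m * b + 1 := by rw [← R_succ, h]
    have h3 : ∀ k : ℕ, b ^ k + R b k = R b k * b + 1 := by
      intro k
      rw [← R_succ]
      unfold R
      rw [sum_range_succ']
      simp only [pow_succ, pow_zero]
      rw [sum_mul]
    have h4 := h3 n
    nlinarith [h4, h2]

lemma R_rec (b k : ℕ) : b ^ k + R b k = R b k * b + 1 := by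
  rw [← R_succ]
  unfold R
  rw [sum_range_succ']
  simp only [pow_succ, pow_zero]
  rw [sum_mul]

/-- `(b - 1) R b h = b ^ h - 1` -/
lemma R_mul (b h : ℕ) (hb : 1 ≤ b) : R b h ∣ b ^ h - 1 := by
  refine ⟨b - 1, ?_⟩
  have h1 := R_rec b h
  obtain ⟨c, rfl⟩ : ∃ c, b = c + 1 := ⟨b - 1, by omega⟩
  rw [Nat.add_sub_cancel]
  have h2 : R (c + 1) h * (c + 1) = R (c + 1) h * c + R (c + 1) h := by ring
  omega

lemma not_dvd_pow {b w : ℕ} (hb : 2 ≤ b) (hw : b ≤ w) {p : ℕ} (hp : p.Prime) (h : w < p) (n : ℕ) :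
    ¬ p ∣ b ^ n := by
  intro h1
  have h2 := Nat.le_of_dvd (by omega) (hp.dvd_of_dvd_pow h1)
  omega

/-- the strings in front of the digits `1` -/
lemma famA {b w : ℕ} (hb : 2 ≤ b) (hw : b ≤ w) : Fam b w 1 (fun n => b ^ n + R b n) (fun n => P w * b ^ n) where
  unit := by
    intro n p hp hwp h
    rcases (hp.dvd_mul).1 h with h1 | h1
    · have := le_of_dvd_P hp h1
      omega
    · exact not_dvd_pow hb hw hp hwp n h1
  coll := by
    intro n m hnm p j hp hwp h1 h2
    obtain ⟨t, rfl⟩ : ∃ t, m = n + t := ⟨m - n, by omega⟩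
    rw [Nat.add_sub_cancel_left]
    have h3 : b ^ (n + t) + R b (n + t) + P w * b ^ (n + t) * j =
        (b ^ n + R b n + P w * b ^ n * j) * b ^ t + R b t := by
      rw [R_add, pow_add]
      ring
    rw [h3] at h2
    have h4 : p ∣ R b t := (Nat.dvd_add_right (h1.mul_right _)).1 h2
    exact h4.trans (R_mul b t (by omega))
  low := by
    intro n p j hp hpw
    rw [R_succ]
    exact (Nat.dvd_add_iff_left (((dvd_P hp hpw).mul_right _).mul_right _)).symm

/-- the strings behind the digits `1` -/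
lemma famB {b w : ℕ} (hb : 2 ≤ b) (hw : b ≤ w) (L : ℕ) :
    Fam b w L (fun n => R b n * b ^ L + R b L) (fun _ => P w) where
  unit := by
    intro n p hp hwp h
    have := le_of_dvd_P hp h
    omega
  coll := by
    intro n m hnm p j hp hwp h1 h2
    obtain ⟨t, rfl⟩ : ∃ t, m = t + n := ⟨m - n, by omega⟩
    rw [Nat.add_sub_cancel]
    have h3 : R b (t + n) * b ^ L + R b L + P w * j =
        R b n * b ^ L + R b L + P w * j + R b t * (b ^ n * b ^ L) := by
      rw [R_add]
      ring
    rw [h3] at h2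
    have h4 : p ∣ R b t * (b ^ n * b ^ L) := (Nat.dvd_add_right h1).1 h2
    rcases (hp.dvd_mul).1 h4 with h5 | h5
    · exact h5.trans (R_mul b t (by omega))
    · exfalso
      rw [← pow_add] at h5
      exact not_dvd_pow hb hw hp hwp _ h5
  low := by
    intro n p j hp hpw
    rw [R_add]
    exact (Nat.dvd_add_iff_left ((dvd_P hp hpw).mul_right _)).symm

end Pool.Agent.H95RU
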