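import Pool.Agent.H95RU.Main4
import Pool.Agent.H95RU.FamAB
import Pool.Agent.H95RU.CNT

set_option autoImplicit false

/-!
# Project RU, fourth part: families indexed by primes
-/

namespace Pool.Agent.H95RU

open Finset

/-- a family indexed by the primes with the property `Q` -/
structure Fam4 (b w : ℕ) (Q : ℕ → Prop) (a c : ℕ → ℕ) : Prop where
  unit : ∀ q : ℕ, q.Prime → Q q → ∀ p : ℕ, p.Prime → w < p → ¬ p ∣ c q
  coll : ∀ n m : ℕ, n.Prime → Q n → m.Prime → Q m → n < m → ∀ p j : ℕ, p.Prime → w < p →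
    p ∣ a n + c n * j → p ∣ a m + c m * j → p ∣ b ^ (m - n) - 1
  low : ∀ q p : ℕ, p.Prime → p ≤ w → p ∣ c q

open Classical in
/-- the primes `q ≤ N` with the property `Q` for which `g q` has no prime factor up to `y` -/
noncomputable def GG (y N : ℕ) (Q : ℕ → Prop) (g : ℕ → ℕ) : Finset ℕ :=
  (Icc 1 N).filter (fun q => q.Prime ∧ Q q ∧ Rough y (g q))

open Classical in
lemma mem_GG {y N : ℕ} {Q : ℕ → Prop} {g : ℕ → ℕ} {q : ℕ} :
    q ∈ GG y N Q g ↔ q ∈ Icc 1 N ∧ q.Prime ∧ Q q ∧ Rough y (g q) := by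
  unfold GG
  exact mem_filter

open Classical in
lemma GG_sub (y N : ℕ) (Q : ℕ → Prop) (g : ℕ → ℕ) : GG y N Q g ⊆ prm N := by
  intro q hq
  unfold GG at hq
  unfold prm
  rw [mem_filter] at hq ⊢
  exact ⟨hq.1, hq.2.1⟩

open Classical in
lemma conv4 {b w y : ℕ} (hwy : w ≤ y) {Q : ℕ → Prop} {a c : ℕ → ℕ} (h : Fam4 b w Q a c) (N j : ℕ) :
    (GG w N Q a).filter (fun q => ∀ p ∈ pw w y, ¬ p ∣ a q + c q * j) = GG y N Q (fun q => a q + c q * j) := by
  ext q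
  unfold GG
  rw [mem_filter, mem_filter, mem_filter]
  constructor
  · rintro ⟨⟨h1, h2, h3, h4⟩, h5⟩
    refine ⟨h1, h2, h3, fun p hp hpy hd => ?_⟩
    rcases Nat.lt_or_ge w p with h6 | h6
    · refine h5 p ?_ hd
      unfold pw
      rw [mem_filter, mem_Icc]
      exact ⟨⟨hp.one_lt.le, hpy⟩, hp, h6⟩
    · exact h4 p hp h6 ((Nat.dvd_add_left ((h.low q p hp h6).mul_right j)).1 hd)
  · rintro ⟨h1, h2, h3, h4⟩
    refine ⟨⟨h1, h2, h3, fun p hp hpw hd => ?_⟩, fun p hp hd => ?_⟩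
    · exact h4 p hp (hpw.trans hwy) ((Nat.dvd_add_left ((h.low q p hp hpw).mul_right j)).2 hd)
    · unfold pw at hp
      rw [mem_filter, mem_Icc] at hp
      exact h4 p hp.2.1 hp.1.2 hd

open Classical in
lemma fam4_unit {b w : ℕ} {Q : ℕ → Prop} {a c : ℕ → ℕ} (h : Fam4 b w Q a c) (N : ℕ) :
    UnitF w c (GG w N Q a) := by
  intro n hn p hp hwp
  unfold GG at hn
  rw [mem_filter] at hn
  exact h.unit n hn.2.1 hn.2.2.1 p hp hwp

open Classical in
lemma fam4_coll {b w : ℕ} {Q : ℕ → Prop} {a c : ℕ → ℕ} (h : Fam4 b w Q a c) (N : ℕ) :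
    CollF b w a c (GG w N Q a) := by
  intro n hn m hm hnm p j hp hwp h1 h2
  unfold GG at hn hm
  rw [mem_filter] at hn hm
  exact h.coll n m hn.2.1 hn.2.2.1 hm.2.1 hm.2.2.1 hnm p j hp hwp h1 h2

open Classical in
/-- the Poisson law for a family -/
theorem genPoi (hM : S_MOMP) (hP : S_PAIR) (b : ℕ) (hb : 2 ≤ b) (x₀ ε : ℝ) (hx₀ : 0 ≤ x₀) (hε : 0 < ε) :
    ∃ w₀ : ℕ, ∀ w : ℕ, w₀ ≤ w → ∃ K₀ y₀ N₀ : ℕ, ∀ Z Y y N : ℕ, y₀ ≤ y → y ^ K₀ ≤ Y → N₀ ≤ N →
      ∀ (Q : ℕ → Prop) (a c : ℕ → ℕ), Fam4 b w Q a c →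
        ((prm N).card : ℝ) ≤ (GG w N Q a).card * (w : ℝ) ^ (1 / 40 : ℝ) →
        Vt w y * (GG w N Q a).card ≤ x₀ → ∀ A : Finset ℕ,
        |(((Ioc Z (Z + Y)).filter (fun j => (GG y N Q (fun q => a q + c q * j)).card ∈ A)).card : ℝ) -
          Y * ∑ i ∈ A, Real.exp (-(Vt w y * (GG w N Q a).card)) * (Vt w y * (GG w N Q a).card) ^ i /
            i.factorial| ≤ ε * Y := by
  obtain ⟨w₀, h⟩ := poiP hM hP b hb x₀ ε hx₀ hε
  refine ⟨w₀, fun w hw => ?_⟩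
  obtain ⟨K₀, y₀, N₀, h⟩ := h w hw
  refine ⟨K₀, y₀ + w, N₀, fun Z Y y N h1 h2 h3 Q a c hF hc hE A => ?_⟩
  have h4 := h Z Y y N (by omega) h2 h3 a c (GG w N Q a) (GG_sub w N Q a) hc (fam4_unit hF N) (fam4_coll hF N)
    hE A
  refine le_of_eq_of_le ?_ h4
  congr 3
  apply congrArg
  ext j
  rw [mem_filter, mem_filter, conv4 (by omega) hF N j]

open Classical in
/-- the law of large numbers for a family -/
theorem genLLN (hM : S_MOMP) (hP : S_PAIR) (b : ℕ) (hb : 2 ≤ b) (ε : ℝ) (hε : 0 < ε) :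
    ∃ (K : ℝ) (w₀ : ℕ), ∀ w : ℕ, w₀ ≤ w → ∃ K₀ y₀ N₀ : ℕ, ∀ Z Y y N : ℕ, y₀ ≤ y → y ^ K₀ ≤ Y → N₀ ≤ N →
      ∀ (Q : ℕ → Prop) (a c : ℕ → ℕ), Fam4 b w Q a c →
        ((prm N).card : ℝ) ≤ (GG w N Q a).card * (w : ℝ) ^ (1 / 40 : ℝ) →
        K ≤ Vt w y * (GG w N Q a).card →
        (((Ioc Z (Z + Y)).filter (fun j => ε * (Vt w y * (GG w N Q a).card) <
          |((GG y N Q (fun q => a q + c q * j)).card : ℝ) - Vt w y * (GG w N Q a).card|)).card : ℝ) ≤ ε * Y := by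
  obtain ⟨K, w₀, h⟩ := llnP hM hP b hb ε hε
  refine ⟨K, w₀, fun w hw => ?_⟩
  obtain ⟨K₀, y₀, N₀, h⟩ := h w hw
  refine ⟨K₀, y₀ + w, N₀, fun Z Y y N h1 h2 h3 Q a c hF hc hE => ?_⟩
  have h4 := h Z Y y N (by omega) h2 h3 a c (GG w N Q a) (GG_sub w N Q a) hc (fam4_unit hF N) (fam4_coll hF N) hE
  refine le_of_eq_of_le ?_ h4
  norm_cast
  apply congrArg
  ext j
  rw [mem_filter, mem_filter, conv4 (by omega) hF N j]

/-- almost all primes belong to the set -/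
lemma notcov4 (w : ℕ) (hw : 2 ≤ w) : ∃ N₁ : ℕ, ∀ N : ℕ, N₁ ≤ N → ∀ G : Finset ℕ,
    (∀ q ∈ prm N, w < q → q ∈ G) → ((prm N).card : ℝ) ≤ G.card * (w : ℝ) ^ (1 / 40 : ℝ) := by
  have hw1 : (1 : ℝ) < w := by exact_mod_cast (by omega : 1 < w)
  obtain ⟨r, hr⟩ : ∃ r, r = (w : ℝ) ^ (1 / 40 : ℝ) := ⟨_, rfl⟩
  have hr1 : 1 < r := by
    rw [hr]
    exact Real.one_lt_rpow hw1 (by norm_num)
  obtain ⟨M, hM⟩ := exists_nat_ge ((w : ℝ) / (r - 1))
  obtain ⟨N₁, h⟩ := prm_large (w + M)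
  refine ⟨N₁, fun N hN G hG => ?_⟩
  have h1 := h N hN
  have h2 : (prm N).card ≤ G.card + w := by
    have h3 : prm N ⊆ G ∪ Icc 1 w := by
      intro q hq
      rw [mem_union, mem_Icc]
      rcases Nat.lt_or_ge w q with h4 | h4
      · exact Or.inl (hG q hq h4)
      · unfold prm at hq
        rw [mem_filter, mem_Icc] at hq
        exact Or.inr ⟨hq.1.1, h4⟩
    have h4 := (Finset.card_le_card h3).trans (Finset.card_union_le _ _)
    rwa [Nat.card_Icc, Nat.add_sub_cancel] at h4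
  have h3 : M ≤ G.card := by omega
  have h4 : (w : ℝ) / (r - 1) ≤ G.card := hM.trans (by exact_mod_cast h3)
  rw [div_le_iff₀ (by linarith)] at h4
  rw [← hr]
  have h5 : ((prm N).card : ℝ) ≤ G.card + w := by exact_mod_cast h2
  linarith

/-- Mersenne numbers: `k 2 ^ q - 1` -/
lemma fam4_M {w : ℕ} (hw : 2 ≤ w) (k₀ : ℕ) (hk : 1 ≤ k₀) :
    Fam4 2 w (fun _ => True) (fun q => k₀ * 2 ^ q - 1) (fun q => P w * 2 ^ q) where
  unit := by
    intro q _ _ p hp hwp h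
    rcases (hp.dvd_mul).1 h with h1 | h1
    · have := le_of_dvd_P hp h1
      omega
    · exact not_dvd_pow le_rfl hw hp hwp q h1
  coll := by
    intro n m _ _ _ _ hnm p j hp hwp h1 h2
    obtain ⟨t, rfl⟩ : ∃ t, m = n + t := ⟨m - n, by omega⟩
    rw [Nat.add_sub_cancel_left]
    have e1 : 1 ≤ k₀ * 2 ^ n := Nat.mul_pos hk (by positivity)
    have e2 : 1 ≤ k₀ * 2 ^ (n + t) := Nat.mul_pos hk (by positivity)
    have e3 : 1 ≤ 2 ^ t := Nat.one_le_two_pow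
    have h3 : k₀ * 2 ^ (n + t) - 1 + P w * 2 ^ (n + t) * j =
        (k₀ * 2 ^ n - 1 + P w * 2 ^ n * j) * 2 ^ t + (2 ^ t - 1) := by
      zify [e1, e2, e3]
      ring
    rw [h3] at h2
    exact (Nat.dvd_add_right (h1.mul_right _)).1 h2
  low := by
    intro q p hp hpw
    exact (dvd_P hp hpw).mul_right _

/-- the Mersenne numbers with large prime exponent have no small prime factors -/
lemma rough_M {w q : ℕ} (hq : q.Prime) (hwq : w < q) : Rough w (1 * 2 ^ q - 1) := by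
  have h1 : Rough w q := by
    intro p hp hpw hd
    have := (Nat.prime_dvd_prime_iff_eq hp hq).1 hd
    omega
  have h2 := CNT.rough_R le_rfl hq.one_lt.le h1
  have h3 := CNT.R_mul 2 q (by norm_num)
  have h4 : 1 * 2 ^ q - 1 = R 2 q := by omega
  rw [h4]
  exact h2

/-- repunits with `q` digits: `k` followed by `q - 1` digits `1` -/
lemma fam4_R {b w : ℕ} (hb : 2 ≤ b) (hw : b ≤ w) (k₀ : ℕ) :
    Fam4 b w (fun _ => True) (fun q => k₀ * b ^ (q - 1) + R b (q - 1)) (fun q => P w * b ^ (q - 1)) where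
  unit := by
    intro q _ _ p hp hwp h
    rcases (hp.dvd_mul).1 h with h1 | h1
    · have := le_of_dvd_P hp h1
      omega
    · exact not_dvd_pow hb hw hp hwp _ h1
  coll := by
    intro n m hn _ hm _ hnm p j hp hwp h1 h2
    have hn1 := hn.one_lt
    obtain ⟨s, rfl⟩ : ∃ s, n = s + 1 := ⟨n - 1, by omega⟩
    obtain ⟨t, rfl⟩ : ∃ t, m = s + t + 1 := ⟨m - s - 1, by omega⟩
    have e0 : s + t + 1 - (s + 1) = t := by omega
    rw [e0]
    simp only [Nat.add_sub_cancel] at h1 h2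
    have h3 : k₀ * b ^ (s + t) + R b (s + t) + P w * b ^ (s + t) * j =
        (k₀ * b ^ s + R b s + P w * b ^ s * j) * b ^ t + R b t := by
      rw [R_add, pow_add]
      ring
    rw [h3] at h2
    have h4 : p ∣ R b t := (Nat.dvd_add_right (h1.mul_right _)).1 h2
    exact h4.trans (R_mul b t (by omega))
  low := by
    intro q p hp hpw
    exact (dvd_P hp hpw).mul_right _

lemma rough_R4 {b w q : ℕ} (hb : 2 ≤ b) (hq : q.Prime) (hwq : w < q) :
    Rough w (1 * b ^ (q - 1) + R b (q - 1)) := by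
  have h1 : Rough w q := by
    intro p hp hpw hd
    have := (Nat.prime_dvd_prime_iff_eq hp hq).1 hd
    omega
  have h2 := CNT.rough_R hb hq.one_lt.le h1
  have h4 : 1 * b ^ (q - 1) + R b (q - 1) = R b q := by
    obtain ⟨s, rfl⟩ : ∃ s, q = s + 1 := ⟨q - 1, by have := hq.one_lt; omega⟩
    rw [Nat.add_sub_cancel, R_succ, one_mul]
  rw [h4]
  exact h2

/-- Wagstaff numbers: `(k b ^ q + 1) / (b + 1)`, `k = 1` modulo `b + 1`, `q` odd -/
lemma dvd_W {b k q : ℕ} (hk : k ≡ 1 [MOD b + 1]) (hq : Odd q) : b + 1 ∣ k * b ^ q + 1 := by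
  have h1 : b + 1 ∣ b ^ q + 1 ^ q := hq.nat_add_dvd_pow_add_pow b 1
  rw [one_pow] at h1
  have h2 : k * b ^ q + 1 ≡ 1 * b ^ q + 1 [MOD b + 1] := (hk.mul_right _).add_right 1
  rw [one_mul] at h2
  exact (h2.dvd_iff dvd_rfl).2 h1

lemma W_add {b k q : ℕ} (hk : k ≡ 1 [MOD b + 1]) (hq : Odd q) (M j : ℕ) :
    ((k + (b + 1) * M * j) * b ^ q + 1) / (b + 1) = (k * b ^ q + 1) / (b + 1) + M * b ^ q * j := by
  obtain ⟨t, ht⟩ := dvd_W hk hq
  rw [ht, Nat.mul_div_cancel_left _ (by omega)]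
  have : (k + (b + 1) * M * j) * b ^ q + 1 = (b + 1) * (t + M * b ^ q * j) := by
    calc (k + (b + 1) * M * j) * b ^ q + 1 = (k * b ^ q + 1) + (b + 1) * (M * b ^ q * j) := by ring
      _ = (b + 1) * (t + M * b ^ q * j) := by rw [ht]; ring
  rw [this, Nat.mul_div_cancel_left _ (by omega)]

lemma fam4_W {b w : ℕ} (hb : 2 ≤ b) (hw : b ≤ w) (k₀ : ℕ) (hk : k₀ ≡ 1 [MOD b + 1]) :
    Fam4 b w (fun q => Odd q) (fun q => (k₀ * b ^ q + 1) / (b + 1)) (fun q => P w * b ^ q) where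
  unit := by
    intro q _ _ p hp hwp h
    rcases (hp.dvd_mul).1 h with h1 | h1
    · have := le_of_dvd_P hp h1
      omega
    · exact not_dvd_pow hb hw hp hwp _ h1
  coll := by
    intro n m _ hn _ hm hnm p j hp hwp h1 h2
    rw [← W_add hk hn] at h1
    rw [← W_add hk hm] at h2
    have hk' : k₀ + (b + 1) * P w * j ≡ 1 [MOD b + 1] := by
      have e1 : (b + 1) * P w * j ≡ 0 [MOD b + 1] :=
        (Nat.modEq_zero_iff_dvd).2 ((Dvd.intro _ rfl : b + 1 ∣ (b + 1) * P w).mul_right j)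
      exact (hk.add e1)
    obtain ⟨k, hkdef⟩ : ∃ k, k = k₀ + (b + 1) * P w * j := ⟨_, rfl⟩
    rw [← hkdef] at h1 h2 hk'
    have g1 : p ∣ k * b ^ n + 1 := h1.trans (Nat.div_dvd_of_dvd (dvd_W hk' hn))
    have g2 : p ∣ k * b ^ m + 1 := h2.trans (Nat.div_dvd_of_dvd (dvd_W hk' hm))
    obtain ⟨t, rfl⟩ : ∃ t, m = n + t := ⟨m - n, by omega⟩
    rw [Nat.add_sub_cancel_left]
    have e3 : 1 ≤ b ^ t := Nat.one_le_pow _ _ (by omega)
    have h3 : (k * b ^ n + 1) * b ^ t = (k * b ^ (n + t) + 1) + (b ^ t - 1) := by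
      zify [e3]
      ring
    have h4 : p ∣ (k * b ^ (n + t) + 1) + (b ^ t - 1) := h3 ▸ g1.mul_right _
    exact (Nat.dvd_add_right g2).1 h4
  low := by
    intro q p hp hpw
    exact (dvd_P hp hpw).mul_right _

/-- the Wagstaff numbers with large prime exponent have no small prime factors -/
lemma rough_W {b w q : ℕ} (hb : 2 ≤ b) (hq : q.Prime) (hq2 : Odd q) (hwq : w < q) :
    Rough w ((1 * b ^ q + 1) / (b + 1)) := by
  rw [one_mul]
  intro p hp hpw hd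
  have : Fact p.Prime := ⟨hp⟩
  have hdv : b + 1 ∣ b ^ q + 1 := by
    have h1 := hq2.nat_add_dvd_pow_add_pow b 1
    rwa [one_pow] at h1
  have h1 : p ∣ b ^ q + 1 := hd.trans (Nat.div_dvd_of_dvd hdv)
  -- `(b ^ 2) ^ q = 1` modulo `p`
  have h2 : (b : ZMod p) ^ q = -1 := by
    have h3 : ((b ^ q + 1 : ℕ) : ZMod p) = 0 := (ZMod.natCast_eq_zero_iff _ _).2 h1
    push_cast at h3
    exact eq_neg_of_add_eq_zero_left h3
  have hb0 : (b : ZMod p) ≠ 0 := by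
    intro h0
    rw [h0, zero_pow hq.ne_zero] at h2
    exact one_ne_zero (neg_eq_zero.1 h2.symm)
  have h4 : ((b : ZMod p) ^ 2) ^ q = 1 := by
    rw [← pow_mul, mul_comm, pow_mul, h2]
    ring
  have h5 : orderOf ((b : ZMod p) ^ 2) ∣ q := orderOf_dvd_of_pow_eq_one h4
  have h6 : orderOf ((b : ZMod p) ^ 2) ∣ p - 1 :=
    orderOf_dvd_of_pow_eq_one (ZMod.pow_card_sub_one_eq_one (pow_ne_zero 2 hb0))
  have hp1 := hp.one_lt
  have h7 : orderOf ((b : ZMod p) ^ 2) = 1 := by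
    rcases (Nat.dvd_prime hq).1 h5 with h8 | h8
    · exact h8
    · exfalso
      rw [h8] at h6
      have := Nat.le_of_dvd (by omega) h6
      omega
  rw [orderOf_eq_one_iff] at h7
  -- `b = -1` modulo `p`
  have h8 : (b : ZMod p) = -1 := by
    obtain ⟨s, hs⟩ := hq2
    rw [hs, pow_succ, pow_mul, h7, one_pow, one_mul] at h2
    exact h2
  -- the quotient is `q` modulo `p`
  have h9 : ∀ s : ℕ, (((b ^ (2 * s + 1) + 1) / (b + 1) : ℕ) : ZMod p) = 2 * s + 1 := by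
    intro s
    induction s with
    | zero =>
      have : (b ^ (2 * 0 + 1) + 1) / (b + 1) = 1 := by
        rw [mul_zero, zero_add, pow_one]
        exact Nat.div_self (by omega)
      rw [this]
      simp
    | succ s ih =>
      have hodd : Odd (2 * s + 1) := ⟨s, rfl⟩
      have hdv1 : b + 1 ∣ b ^ (2 * s + 1) + 1 := by
        have h1 := hodd.nat_add_dvd_pow_add_pow b 1
        rwa [one_pow] at h1
      obtain ⟨t, ht⟩ := hdv1
      have e1 : b ^ (2 * (s + 1) + 1) + 1 = (b + 1) * (t + b ^ (2 * s + 1) * (b - 1)) := by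
        obtain ⟨c, rfl⟩ : ∃ c, b = c + 1 := ⟨b - 1, by omega⟩
        rw [Nat.add_sub_cancel]
        calc (c + 1) ^ (2 * (s + 1) + 1) + 1 =
              ((c + 1) ^ (2 * s + 1) + 1) + (c + 1 + 1) * ((c + 1) ^ (2 * s + 1) * c) := by ring
          _ = (c + 1 + 1) * (t + (c + 1) ^ (2 * s + 1) * c) := by rw [ht]; ring
      rw [e1, Nat.mul_div_cancel_left _ (by omega)]
      rw [ht, Nat.mul_div_cancel_left _ (by omega)] at ih
      have e2 : ((b - 1 : ℕ) : ZMod p) = (b : ZMod p) - 1 := by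
        rw [Nat.cast_sub (by omega), Nat.cast_one]
      push_cast
      rw [ih, e2, pow_succ, pow_mul, h7, one_pow, h8]
      ring
  obtain ⟨s, hs⟩ := hq2
  have h10 := h9 s
  have h11 : (((b ^ q + 1) / (b + 1) : ℕ) : ZMod p) = 0 := (ZMod.natCast_eq_zero_iff _ _).2 hd
  rw [hs] at h11
  rw [h11] at h10
  have h12 : ((2 * s + 1 : ℕ) : ZMod p) = 0 := by
    push_cast
    exact h10.symm
  rw [← hs] at h12
  have h13 := (ZMod.natCast_eq_zero_iff _ _).1 h12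
  have h14 := (Nat.prime_dvd_prime_iff_eq hp hq).1 h13
  omega

end Pool.Agent.H95RU
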