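import Pool.Agent.H95RU.Main2

set_option autoImplicit false

/-!
# Project RU: the two families in all residue classes
-/

namespace Pool.Agent.H95RU

open Finset

/-- the strings in front of the digits `1` -/
lemma famRA {b w : ℕ} (hb : 2 ≤ b) (hw : b ≤ w) (k₀ : ℕ) :
    FamR b w (fun n => k₀ * b ^ n + R b n) (fun n => P w * b ^ n) (fun n => k₀ * b ^ n + R b n) where
  unit := by
    intro n p hp hwp h
    rcases (hp.dvd_mul).1 h with h1 | h1
    · have := le_of_dvd_P hp h1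
      omega
    · exact not_dvd_pow hb hw hp hwp n h1
  coll := by
    intro n m hnm p j hp hwp h1 h2
    obtain ⟨t, rfl⟩ : ∃ t, m = n + t := ⟨m - n, by omega⟩
    rw [Nat.add_sub_cancel_left]
    have h3 : k₀ * b ^ (n + t) + R b (n + t) + P w * b ^ (n + t) * j =
        (k₀ * b ^ n + R b n + P w * b ^ n * j) * b ^ t + R b t := by
      rw [R_add, pow_add]
      ring
    rw [h3] at h2
    have h4 : p ∣ R b t := (Nat.dvd_add_right (h1.mul_right _)).1 h2
    exact h4.trans (R_mul b t (by omega))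
  low := by
    intro n p j hp hpw
    exact (Nat.dvd_add_iff_left (((dvd_P hp hpw).mul_right _).mul_right _)).symm

/-- the strings behind the digits `1` -/
lemma famRB {b w : ℕ} (hb : 2 ≤ b) (hw : b ≤ w) (L k₀ : ℕ) :
    FamR b w (fun n => R b n * b ^ L + k₀) (fun _ => P w) (fun n => R b n * b ^ L + k₀) where
  unit := by
    intro n p hp hwp h
    have := le_of_dvd_P hp h
    omega
  coll := by
    intro n m hnm p j hp hwp h1 h2
    obtain ⟨t, rfl⟩ : ∃ t, m = t + n := ⟨m - n, by omega⟩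
    rw [Nat.add_sub_cancel]
    have h3 : R b (t + n) * b ^ L + k₀ + P w * j =
        R b n * b ^ L + k₀ + P w * j + R b t * (b ^ n * b ^ L) := by
      rw [R_add]
      ring
    rw [h3] at h2
    have h4 : p ∣ R b t * (b ^ n * b ^ L) := (Nat.dvd_add_right h1).1 h2
    rcases (hp.dvd_mul).1 h4 with h5 | h5
    · exact h5.trans (R_mul b t (by omega))
    · exfalso
      rw [← pow_add] at h5
      exact not_dvd_pow hb hw hp hwp _ h5
  low := by
    intro n p j hp hpw
    exact (Nat.dvd_add_iff_left ((dvd_P hp hpw).mul_right _)).symm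

/-- `log w / c` is smaller than a small power of `w` -/
lemma log_small (c : ℝ) (hc : 0 < c) : ∃ w₁ : ℕ, ∀ w : ℕ, w₁ ≤ w → Real.log w ≤ c * (w : ℝ) ^ (1 / 20 : ℝ) := by
  have h1 := (isLittleO_log_rpow_atTop (show (0 : ℝ) < 1 / 20 by norm_num)).bound hc
  obtain ⟨x0, hx0⟩ := Filter.eventually_atTop.1 h1
  obtain ⟨n, hn⟩ := exists_nat_ge x0
  refine ⟨max n 1, fun w hw => ?_⟩
  have hw1 : 1 ≤ w := (le_max_right _ _).trans hw
  have hwn : (n : ℝ) ≤ w := by exact_mod_cast (le_max_left _ _).trans hw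
  have h2 := hx0 w (hn.trans hwn)
  have hlog : 0 ≤ Real.log w := Real.log_nonneg (by exact_mod_cast hw1)
  rw [Real.norm_of_nonneg hlog, Real.norm_of_nonneg (by positivity)] at h2
  exact h2

open Classical in
/-- the residue class of the repunits is not nearly covered -/
theorem repunit_class (hC : S_CNT) (b : ℕ) (hb : 2 ≤ b) : ∃ w₁ : ℕ, ∀ w : ℕ, w₁ ≤ w → ∃ N₁ : ℕ, ∀ N : ℕ, N₁ ≤ N →
    ∀ (s : ℕ) (ρ : ℕ → ℕ), 1 ≤ s → (∀ n p : ℕ, p.Prime → p ≤ w → (p ∣ ρ n ↔ p ∣ R b (n + s))) →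
      (N : ℝ) ≤ ((Icc 1 N).filter (fun n => Rough w (ρ n))).card * (w : ℝ) ^ (1 / 20 : ℝ) := by
  obtain ⟨c, hc, hcnt⟩ := hC b hb
  obtain ⟨w₁, hw₁⟩ := log_small c hc
  refine ⟨max w₁ 2, fun w hw => ?_⟩
  have hw2 : 2 ≤ w := (le_max_right _ _).trans hw
  obtain ⟨N₀, hN₀⟩ := hcnt w hw2
  refine ⟨N₀, fun N hN s ρ hs hρ => ?_⟩
  have h1 := hN₀ N hN s hs
  have h2 := hw₁ w ((le_max_left _ _).trans hw)
  have hw1 : (2 : ℝ) ≤ w := by exact_mod_cast hw2
  have hlog : 0 < Real.log w := Real.log_pos (by linarith)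
  have h3 : (Icc 1 N).filter (fun n => Rough w (ρ n)) = (Icc 1 N).filter (fun n => Rough w (R b (n + s))) := by
    apply filter_congr
    intro n _
    unfold Rough
    constructor
    · intro h p hp hpw
      rw [← hρ n p hp hpw]
      exact h p hp hpw
    · intro h p hp hpw
      rw [hρ n p hp hpw]
      exact h p hp hpw
  rw [h3]
  rw [div_le_iff₀ hlog] at h1
  have h4 : c * N ≤ c * (((Icc 1 N).filter (fun n => Rough w (R b (n + s)))).card * (w : ℝ) ^ (1 / 20 : ℝ)) := by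
    calc c * N ≤ ((Icc 1 N).filter (fun n => Rough w (R b (n + s)))).card * Real.log w := h1
      _ ≤ ((Icc 1 N).filter (fun n => Rough w (R b (n + s)))).card * (c * (w : ℝ) ^ (1 / 20 : ℝ)) :=
          mul_le_mul_of_nonneg_left h2 (Nat.cast_nonneg _)
      _ = _ := by ring
  exact le_of_mul_le_mul_left h4 hc

end Pool.Agent.H95RU
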