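import Pool.Agent.H95RU.Stm3
import Pool.Agent.Y353.PS.Page

/-!
Primes in residue classes modulo `q`, all of whose prime factors divide a fixed `M`: the lower bound of Linnik's
type. Copy of `Pool.Agent.Y353.PS.page`; the real characters have small conductors.
-/

set_option autoImplicit false

open Finset

namespace Pool.Agent.H95RU

open Pool.Agent.H262R3.Lk Pool.Agent.W69.MH Pool.Agent.W215.MH Pool.Agent.Y353.PS

theorem t_LINM (h : S_CON) : S_LINM := by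
  have hSUM := Pool.Agent.W933.MHSum.sum_
  have hFL := Pool.Agent.W333.MH.fl
  have hDIFF := Pool.Agent.W505.MH.diff hFL hSUM
  have hA0 := Pool.Agent.W505.MH.a0 hFL hSUM
  have hCLS := Pool.Agent.W193.MH.Cls.cls hSUM
  have hB0 := Pool.Agent.H262R3.Lk.b0 Pool.Agent.W505.MH.bt hSUM
  have hB2 := Pool.Agent.W440.MH.b2 hSUM
  have hALG := Pool.Agent.H262R3.Lk.alg hSUM
  have hLIN := linP hSUM hDIFF hA0 hB0 hB2 hALG Pool.Agent.W215.MH.eul hCLS
    Pool.Agent.W701.MH.abs_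
  have hTAIL := Pool.Agent.W803.MH.tail Pool.Agent.W505.MH.bt hSUM
  obtain ⟨A, c, lam, hA, hc, hlam, hlam2, z1, h1⟩ := hLIN
  obtain ⟨K, z2, hK, h2⟩ := hTAIL A (c / 2) hA (by positivity)
  have hK0 : (0 : ℝ) < (K : ℝ) := by exact_mod_cast hK
  refine ⟨K, c / (2 * (K : ℝ) ^ 3), hK, by positivity, fun M hM => ?_⟩
  obtain ⟨z3, h3⟩ := Pool.Agent.H262R3.Lk.swq 1
  obtain ⟨z5, h5ev⟩ : ∃ z5 : ℕ, ∀ z : ℕ, z5 ≤ z → (8 * M : ℝ) ≤ Real.log z := by
    refine ⟨⌈Real.exp (8 * M)⌉₊, fun z hz => ?_⟩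
    have e1 : Real.exp (8 * M) ≤ z := (Nat.le_ceil _).trans (by exact_mod_cast hz)
    have e2 := Real.exp_pos (8 * (M : ℝ))
    rw [Real.le_log_iff_exp_le (by linarith)]
    exact e1
  refine ⟨max (max (max z1 z2) (max z3 z5)) 3, ?_⟩
  intro z hz
  simp only [max_le_iff] at hz
  obtain ⟨⟨⟨hz1, hz2⟩, ⟨hz3, hz5⟩⟩, hz4⟩ := hz
  have hlog : (1 : ℝ) ≤ Real.log z := by
    rw [Real.le_log_iff_exp_le (by exact_mod_cast (by omega : 0 < z))]
    have h5 : Real.exp 1 < 2.7182818286 := Real.exp_one_lt_d9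
    have h6 : (3 : ℝ) ≤ (z : ℝ) := by exact_mod_cast hz4
    linarith
  have hAlog : (1 : ℝ) ≤ A * Real.log z := by nlinarith
  have hs0 : (0 : ℝ) < 1 / (A * Real.log z) := by positivity
  have hs1 : 1 / (A * Real.log z) ≤ (1 : ℝ) := by
    rw [div_le_one (by linarith)]
    exact hAlog
  have h8 : ∀ q : ℕ, 0 < q → q ^ 16 ≤ z → q ^ 8 ≤ z := fun q hq h =>
    (Nat.pow_le_pow_right hq (by norm_num)).trans h
  -- it is enough that no real character is exceptional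
  have hmain : ∀ q b : ℕ, 0 < q → q ^ 16 ≤ z → b.Coprime q →
      (∀ χ : DirichletCharacter ℂ q, χ ≠ 1 → χ ^ 2 = 1 →
        lam ≤ ‖Lj z χ 0 (1 / (A * Real.log z))‖) →
      c / (2 * (K : ℝ) ^ 3) / (q.totient : ℝ) ≤
      ∑ p ∈ (Ioc z (z ^ K)).filter (fun p => p.Prime ∧ p ≡ b [MOD q]), (1 : ℝ) / p := by
    intro q b hqpos hq hb hreal
    haveI : NeZero q := ⟨hqpos.ne'⟩
    have hlow := (h1 z q hz1 (h8 q hqpos hq)).1 b hb hreal
    have hup := h2 z q b hz2 hqpos (h8 q hqpos hq) hb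
    have hphi : (0 : ℝ) < (q.totient : ℝ) := by
      exact_mod_cast Nat.totient_pos.2 hqpos
    have hL3 : (0 : ℝ) < (Real.log z) ^ 3 := by positivity
    obtain ⟨S, hS⟩ : ∃ S : ℝ, S = ∑ p ∈ (Ioc z (z ^ K)).filter
      (fun p => p.Prime ∧ p ≡ b [MOD q]), (1 : ℝ) / p := ⟨_, rfl⟩
    rw [← hS] at hup ⊢
    have h5 : c * (Real.log z) ^ 3 / (q.totient : ℝ) ≤
        c / 2 * (Real.log z) ^ 3 / (q.totient : ℝ) + (K : ℝ) ^ 3 * (Real.log z) ^ 3 * S :=
      le_trans hlow hup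
    have h6 : (c / 2 / (q.totient : ℝ)) * (Real.log z) ^ 3 ≤
        ((K : ℝ) ^ 3 * S) * (Real.log z) ^ 3 := by
      have e1 : c * (Real.log z) ^ 3 / (q.totient : ℝ) =
          2 * ((c / 2 / (q.totient : ℝ)) * (Real.log z) ^ 3) := by
        field_simp
      have e2 : c / 2 * (Real.log z) ^ 3 / (q.totient : ℝ) =
          (c / 2 / (q.totient : ℝ)) * (Real.log z) ^ 3 := by
        field_simp
      rw [e1, e2] at h5
      nlinarith
    have h7 : c / 2 / (q.totient : ℝ) ≤ (K : ℝ) ^ 3 * S :=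
      le_of_mul_le_mul_right h6 hL3
    have hK3 : (0 : ℝ) < (K : ℝ) ^ 3 := by positivity
    have e3 : c / (2 * (K : ℝ) ^ 3) / (q.totient : ℝ) =
        (c / 2 / (q.totient : ℝ)) / (K : ℝ) ^ 3 := by
      field_simp
    rw [e3, div_le_iff₀ hK3]
    linarith
  intro q b hq hqz hqM hb
  refine hmain q b hq hqz hb ?_
  intro χ hχ hχ2
  haveI : NeZero q := ⟨hq.ne'⟩
  have hc0 : χ.conductor ≠ 0 := χ.conductor_ne_zero
  have hc1 : χ.conductor ≠ 1 := fun h => hχ (χ.eq_one_iff_conductor_eq_one.2 h)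
  have hcon : (χ.conductor : ℝ) ≤ Real.log z ^ 1 := by
    have g1 := h q χ hχ2
    have g2 : ∏ p ∈ q.primeFactors, p ∣ M :=
      Finset.prod_primes_dvd M (fun p hp => (Nat.prime_of_mem_primeFactors hp).prime)
        (fun p hp => hqM p (Nat.prime_of_mem_primeFactors hp) (Nat.dvd_of_mem_primeFactors hp))
    have g3 : χ.conductor ≤ 8 * M :=
      Nat.le_of_dvd (by omega) (g1.trans (Nat.mul_dvd_mul_left 8 g2))
    have g4 : (χ.conductor : ℝ) ≤ 8 * M := by exact_mod_cast g3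
    rw [pow_one]
    exact g4.trans (h5ev z hz5)
  have g1 := h3 z hz3 χ.conductor (by omega) hcon χ.primitiveCharacter
    χ.primitiveCharacter_isPrimitive _ hs0 hs1
  have hqz' : q ≤ z := (Nat.le_self_pow (by norm_num) _).trans hqz
  have g2 := Pool.Agent.Y835.SC.Lj_lift (z := z) χ.conductor_dvd_level hqz'
    χ.primitiveCharacter (1 / (A * Real.log z))
  rw [DirichletCharacter.changeLevel_primitiveCharacter] at g2
  rw [g2]
  linarith

end Pool.Agent.H95RU
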