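import Pool.Agent.H95RU.Stm
import Pool.Agent.H373R2.T7.Fund

set_option autoImplicit false

/-! Project RU: stubs ONE and TWO. -/

namespace Pool.Agent.H95RU

open Finset Pool.Agent.H373R2.T7

open Classical in
lemma lin_root (Z a c p : ℕ) (hp : p.Prime) (hpc : ¬ p ∣ c) :
    ((range p).filter (fun r => p ∣ a + c * (r + Z))).card = 1 := by
  haveI : Fact p.Prime := ⟨hp⟩
  haveI : NeZero p := ⟨hp.ne_zero⟩
  have hc0 : (c : ZMod p) ≠ 0 := by
    rw [Ne, ZMod.natCast_eq_zero_iff]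
    exact hpc
  rw [card_eq_one]
  refine ⟨(-(a : ZMod p) / c - Z).val, ?_⟩
  ext r
  rw [mem_filter, mem_range, mem_singleton]
  constructor
  · rintro ⟨h1, h2⟩
    rw [← ZMod.natCast_eq_zero_iff] at h2
    push_cast at h2
    have h3 : (r : ZMod p) = -(a : ZMod p) / c - Z := by
      field_simp
      linear_combination h2
    rw [← h3, ZMod.val_natCast_of_lt h1]
  · intro h
    refine ⟨by rw [h]; exact ZMod.val_lt _, ?_⟩
    rw [← ZMod.natCast_eq_zero_iff]
    push_cast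
    rw [h, ZMod.natCast_zmod_val]
    field_simp
    ring

lemma per_lin (Z a c p n : ℕ) : p ∣ a + c * (n + Z) ↔ p ∣ a + c * (n % p + Z) := by
  have h1 : a + c * (n + Z) ≡ a + c * (n % p + Z) [MOD p] := by
    apply Nat.ModEq.add_left
    apply Nat.ModEq.mul_left
    apply Nat.ModEq.add_right
    exact (Nat.mod_modEq n p).symm
  exact Nat.ModEq.dvd_iff h1 (dvd_refl p)

/-- the system of two linear polynomials -/
def Q2 (w Z a c a' c' p n : ℕ) : Prop := w < p ∧ (p ∣ a + c * (n + Z) ∨ p ∣ a' + c' * (n + Z))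

open Classical in
lemma nuB_Q2_le {w Z a c a' c' : ℕ}
    (hc : ∀ p : ℕ, p.Prime → w < p → ¬ p ∣ c ∧ ¬ p ∣ c') {p : ℕ} (hp : p.Prime) :
    nuB (Q2 w Z a c a' c') p ≤ 2 := by
  unfold nuB
  by_cases hw : w < p
  · have h1 : (range p).filter (fun r => Q2 w Z a c a' c' p r) ⊆
        (range p).filter (fun r => p ∣ a + c * (r + Z)) ∪
          (range p).filter (fun r => p ∣ a' + c' * (r + Z)) := by
      intro r hr
      rw [mem_filter] at hr
      rw [mem_union, mem_filter, mem_filter]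
      rcases hr.2.2 with h | h
      · exact Or.inl ⟨hr.1, h⟩
      · exact Or.inr ⟨hr.1, h⟩
    have h2 := (card_le_card h1).trans (card_union_le _ _)
    rw [lin_root Z a c p hp (hc p hp hw).1, lin_root Z a' c' p hp (hc p hp hw).2] at h2
    convert h2 using 1
  · have : ((range p).filter (fun r => Q2 w Z a c a' c' p r)) = ∅ := by
      rw [filter_eq_empty_iff]
      intro r _ h
      exact hw h.1
    have h2 : ((range p).filter (fun r => Q2 w Z a c a' c' p r)).card ≤ 2 := by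
      rw [this]; simp
    convert h2 using 1

lemma Q2_perB {w Z a c a' c' : ℕ} (hc : ∀ p : ℕ, p.Prime → w < p → ¬ p ∣ c ∧ ¬ p ∣ c') :
    PerB (Q2 w Z a c a' c') 2 := by
  refine ⟨fun p n => ?_, fun p hp => nuB_Q2_le hc hp⟩
  unfold Q2
  rw [per_lin Z a c p n, per_lin Z a' c' p n]

open Classical in
lemma nuB_Q2_one {w Z a c a' c' : ℕ}
    (hc : ∀ p : ℕ, p.Prime → w < p → ¬ p ∣ c ∧ ¬ p ∣ c') {p : ℕ} (hp : p.Prime) (hw : w < p) :
    1 ≤ nuB (Q2 w Z a c a' c') p := by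
  have h1 : (range p).filter (fun r => p ∣ a + c * (r + Z)) ⊆
      (range p).filter (fun r => Q2 w Z a c a' c' p r) := by
    intro r hr
    rw [mem_filter] at hr ⊢
    exact ⟨hr.1, hw, Or.inl hr.2⟩
  have h2 := card_le_card h1
  rw [lin_root Z a c p hp (hc p hp hw).1] at h2
  unfold nuB
  convert h2 using 1

open Classical in
lemma nuB_Q2_two {w Z a c a' c' b h : ℕ}
    (hc : ∀ p : ℕ, p.Prime → w < p → ¬ p ∣ c ∧ ¬ p ∣ c')
    (hbh : ∀ p j : ℕ, p.Prime → w < p → p ∣ a + c * j → p ∣ a' + c' * j → p ∣ b ^ h - 1)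
    {p : ℕ} (hp : p.Prime) (hw : w < p) (hpb : ¬ p ∣ b ^ h - 1) :
    nuB (Q2 w Z a c a' c') p = 2 := by
  have h1 : (range p).filter (fun r => Q2 w Z a c a' c' p r) =
      (range p).filter (fun r => p ∣ a + c * (r + Z)) ∪
        (range p).filter (fun r => p ∣ a' + c' * (r + Z)) := by
    ext r
    rw [mem_union, mem_filter, mem_filter, mem_filter]
    unfold Q2
    constructor
    · rintro ⟨h, -, h' | h'⟩
      · exact Or.inl ⟨h, h'⟩
      · exact Or.inr ⟨h, h'⟩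
    · rintro (⟨h, h'⟩ | ⟨h, h'⟩)
      · exact ⟨h, hw, Or.inl h'⟩
      · exact ⟨h, hw, Or.inr h'⟩
  have h2 : ((range p).filter (fun r => Q2 w Z a c a' c' p r)).card = 2 := by
    rw [h1, card_union_of_disjoint, lin_root Z a c p hp (hc p hp hw).1,
      lin_root Z a' c' p hp (hc p hp hw).2]
    rw [disjoint_left]
    intro r hr hr'
    rw [mem_filter] at hr hr'
    exact hpb (hbh p (r + Z) hp hw hr.2 hr'.2)
  unfold nuB
  convert h2 using 1

lemma nuB_Q2_zero {w Z a c a' c' : ℕ} {p : ℕ} (hw : ¬ w < p) :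
    nuB (Q2 w Z a c a' c') p = 0 := by
  classical
  unfold nuB
  rw [card_eq_zero, filter_eq_empty_iff]
  intro r _ h
  exact hw h.1

lemma mem_pw {w y p : ℕ} : p ∈ pw w y ↔ p ≤ y ∧ p.Prime ∧ w < p := by
  unfold pw
  rw [mem_filter, mem_Icc]
  constructor
  · rintro ⟨⟨_, h⟩, h2⟩; exact ⟨h, h2⟩
  · rintro ⟨h, h2⟩; exact ⟨⟨h2.1.one_le, h⟩, h2⟩

lemma prod_pz_pw (f : ℕ → ℝ) (w y : ℕ) (hf : ∀ p, p.Prime → ¬ w < p → f p = 1) :
    ∏ p ∈ pz y, f p = ∏ p ∈ pw w y, f p := by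
  symm
  apply prod_subset
  · intro p hp
    rw [mem_pw] at hp
    exact mem_pz.2 ⟨hp.1, hp.2.1⟩
  · intro p hp hp'
    obtain ⟨h1, h2⟩ := mem_pz.1 hp
    apply hf p h2
    intro hw
    exact hp' (mem_pw.2 ⟨h1, h2, hw⟩)

lemma prod_Q2_le {w Z a c a' c' b h : ℕ} (hb : 2 ≤ b) (hh : 1 ≤ h)
    (hc : ∀ p : ℕ, p.Prime → w < p → ¬ p ∣ c ∧ ¬ p ∣ c')
    (hbh : ∀ p j : ℕ, p.Prime → w < p → p ∣ a + c * j → p ∣ a' + c' * j → p ∣ b ^ h - 1)
    (y : ℕ) :
    ∏ p ∈ pz y, (1 - (nuB (Q2 w Z a c a' c') p : ℝ) / p) ≤ Vt w y ^ 2 * Dw b w h ^ 2 := by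
  classical
  rw [prod_pz_pw _ w y (by
    intro p _ hw
    rw [nuB_Q2_zero hw]
    simp)]
  have hbh0 : b ^ h - 1 ≠ 0 := by
    have : b ^ 1 ≤ b ^ h := Nat.pow_le_pow_right (by omega) hh
    rw [pow_one] at this
    omega
  have h1 : ∏ p ∈ pw w y, (1 - (nuB (Q2 w Z a c a' c') p : ℝ) / p) ≤
      ∏ p ∈ pw w y, ((1 - 1 / (p : ℝ)) ^ 2 *
        (if p ∣ b ^ h - 1 then (1 + 1 / (p : ℝ)) ^ 2 else 1)) := by
    apply prod_le_prod
    · intro p hp
      have hp' := mem_pw.1 hp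
      have hp0 : (0 : ℝ) < p := by exact_mod_cast hp'.2.1.pos
      rw [sub_nonneg, div_le_one hp0]
      exact_mod_cast nuB_le _ _
    · intro p hp
      obtain ⟨h1, h2, h3⟩ := mem_pw.1 hp
      have hp2 : (2 : ℝ) ≤ p := by exact_mod_cast h2.two_le
      have hp0 : (0 : ℝ) < p := by linarith
      set u : ℝ := 1 / (p : ℝ) with hu
      have hu0 : 0 < u := by positivity
      have hu2 : u ≤ 1 / 2 := one_div_le_one_div_of_le (by norm_num) hp2
      split_ifs with hd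
      · have h4 : (1 : ℝ) ≤ (nuB (Q2 w Z a c a' c') p : ℝ) := by
          exact_mod_cast nuB_Q2_one hc h2 h3
        have h5 : (nuB (Q2 w Z a c a' c') p : ℝ) / p = nuB (Q2 w Z a c a' c') p * u := by
          rw [hu]; ring
        rw [h5]
        have h6 : u ≤ nuB (Q2 w Z a c a' c') p * u := by nlinarith
        have h7 : 1 - u ≤ (1 - u) ^ 2 * (1 + u) ^ 2 := by
          have e : (1 - u) ^ 2 * (1 + u) ^ 2 - (1 - u) = (1 - u) * (u * (1 - u - u ^ 2)) := by ring
          have e2 : 0 ≤ (1 - u) * (u * (1 - u - u ^ 2)) := by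
            apply mul_nonneg (by linarith)
            apply mul_nonneg hu0.le
            nlinarith
          linarith
        linarith
      · rw [nuB_Q2_two hc hbh h2 h3 hd, mul_one]
        have h5 : ((2 : ℕ) : ℝ) / p = 2 * u := by rw [hu]; push_cast; ring
        rw [h5]
        nlinarith [sq_nonneg u]
  refine h1.trans ?_
  rw [prod_mul_distrib, prod_pow]
  have hV : 0 ≤ (∏ p ∈ pw w y, (1 - 1 / (p : ℝ))) ^ 2 := by positivity
  unfold Vt
  apply mul_le_mul_of_nonneg_left _ hV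
  rw [← prod_filter]
  unfold Dw
  rw [← prod_pow]
  apply prod_le_prod_of_subset_of_one_le
  · intro p hp
    rw [mem_filter] at hp
    obtain ⟨h1, h2, h3⟩ := mem_pw.1 hp.1
    unfold pf
    rw [mem_filter, Nat.mem_primeFactors]
    exact ⟨⟨h2, hp.2, hbh0⟩, h3⟩
  · intro p _
    positivity
  · intro p _ _
    apply one_le_pow₀
    have : 0 ≤ 1 / (p : ℝ) := by positivity
    linarith

open Classical in
theorem t_TWO : S_TWO := by
  intro η hη
  obtain ⟨K, x0, hK1, H⟩ := sys_fund 2 (by norm_num) η hη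
  refine ⟨K, x0, ?_⟩
  intro w Z Y y hy hyY a c a' c' b h hb hh hc hbh
  have h1 := H Y y hy hyY (Q2 w Z a c a' c') (Q2_perB hc) Y
  have h2 := prod_Q2_le (Z := Z) hb hh hc hbh y
  have h3 := (abs_le.1 h1).2
  have hcard : ((Ioc Z (Z + Y)).filter (fun j => ∀ p ∈ pw w y, ¬ p ∣ a + c * j ∧
      ¬ p ∣ a' + c' * j)).card =
      ((Icc 1 Y).filter (fun n : ℕ => ∀ p ∈ pz y, ¬ Q2 w Z a c a' c' p n)).card := by
    symm
    apply Finset.card_bij (fun n _ => n + Z)
    · intro n hn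
      rw [mem_filter, mem_Icc] at hn
      rw [mem_filter, mem_Ioc]
      refine ⟨by omega, fun p hp => ?_⟩
      obtain ⟨e1, e2, e3⟩ := mem_pw.1 hp
      have h4 := hn.2 p (mem_pz.2 ⟨e1, e2⟩)
      unfold Q2 at h4
      push Not at h4
      exact h4 e3
    · intro n _ n' _ hnn
      omega
    · intro j hj
      rw [mem_filter, mem_Ioc] at hj
      refine ⟨j - Z, ?_, by omega⟩
      rw [mem_filter, mem_Icc]
      refine ⟨by omega, fun p hp hq => ?_⟩
      obtain ⟨e1, e2⟩ := mem_pz.1 hp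
      unfold Q2 at hq
      have h4 := hj.2 p (mem_pw.2 ⟨e1, e2, hq.1⟩)
      have e : j - Z + Z = j := by omega
      rw [e] at hq
      rcases hq.2 with h5 | h5
      · exact h4.1 h5
      · exact h4.2 h5
  rw [hcard]
  have hY0 : (0 : ℝ) ≤ Y := Nat.cast_nonneg _
  have h5 := mul_le_mul_of_nonneg_left h2 hY0
  have h6 := mul_le_mul_of_nonneg_left h5 (show (0 : ℝ) ≤ 1 + η by linarith)
  have h7 : (Y : ℝ) * (Vt w y ^ 2 * Dw b w h ^ 2) = Y * Vt w y ^ 2 * Dw b w h ^ 2 := by ring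
  rw [h7] at h6
  linarith

end Pool.Agent.H95RU
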