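import Pool.Agent.H95RU.Stm2
import Pool.Agent.H95RU.TWO

set_option autoImplicit false

/-! Project RU: stub LOK. -/

namespace Pool.Agent.H95RU

open Finset Pool.Agent.H373R2.T7

/-- the system of the linear polynomials of a family -/
def QT (w Z : ℕ) (a c : ℕ → ℕ) (T : Finset ℕ) (p n : ℕ) : Prop := w < p ∧ ∃ m ∈ T, p ∣ a m + c m * (n + Z)

open Classical in
lemma nuB_QT_le {w Z : ℕ} {a c : ℕ → ℕ} {T : Finset ℕ} (hc : UnitF w c T) {p : ℕ} (hp : p.Prime) :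
    nuB (QT w Z a c T) p ≤ T.card := by
  have key : ∀ [DecidablePred fun r => QT w Z a c T p r],
      ((range p).filter (fun r => QT w Z a c T p r)).card ≤ T.card := by
    intro _
    by_cases hw : w < p
    · have h1 : (range p).filter (fun r => QT w Z a c T p r) ⊆
          T.biUnion (fun m => (range p).filter (fun r => p ∣ a m + c m * (r + Z))) := by
        intro r hr
        rw [mem_filter] at hr
        obtain ⟨h0, -, m, hm, h⟩ := hr
        rw [mem_biUnion]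
        exact ⟨m, hm, mem_filter.2 ⟨h0, h⟩⟩
      have h2 := (card_le_card h1).trans card_biUnion_le
      have h3 : ∑ m ∈ T, ((range p).filter (fun r => p ∣ a m + c m * (r + Z))).card = T.card := by
        rw [sum_congr rfl fun m hm => lin_root Z (a m) (c m) p hp (hc m hm p hp hw)]
        simp
      rw [h3] at h2
      exact h2
    · have : ((range p).filter (fun r => QT w Z a c T p r)) = ∅ := by
        rw [filter_eq_empty_iff]
        intro r _ h
        exact hw h.1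
      rw [this]
      simp
  exact key

lemma QT_perB {w Z : ℕ} {a c : ℕ → ℕ} {T : Finset ℕ} (hc : UnitF w c T) : PerB (QT w Z a c T) T.card := by
  refine ⟨fun p n => ?_, fun p hp => nuB_QT_le hc hp⟩
  unfold QT
  refine and_congr_right fun _ => exists_congr fun m => and_congr_right fun _ => ?_
  exact per_lin Z (a m) (c m) p n

lemma nuB_QT_zero {w Z : ℕ} {a c : ℕ → ℕ} {T : Finset ℕ} {p : ℕ} (hw : ¬ w < p) :
    nuB (QT w Z a c T) p = 0 := by
  classical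
  unfold nuB
  rw [card_eq_zero, filter_eq_empty_iff]
  intro r _ h
  exact hw h.1

lemma one_sub_sum_le (s : Finset ℕ) (f : ℕ → ℝ) (h : ∀ i ∈ s, 0 ≤ f i ∧ f i ≤ 1) :
    1 - ∑ i ∈ s, f i ≤ ∏ i ∈ s, (1 - f i) := by
  classical
  induction s using Finset.induction_on with
  | empty => simp
  | insert i s hi ih =>
    rw [sum_insert hi, prod_insert hi]
    have h1 := ih fun j hj => h j (mem_insert_of_mem hj)
    obtain ⟨h2, h3⟩ := h i (mem_insert_self _ _)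
    have h4 : 0 ≤ ∑ j ∈ s, f j := sum_nonneg fun j hj => (h j (mem_insert_of_mem hj)).1
    have h5 := mul_le_mul_of_nonneg_left h1 (show (0 : ℝ) ≤ 1 - f i by linarith)
    nlinarith [mul_nonneg h2 h4]

lemma factor_ge {k : ℕ} {u t : ℝ} (hu0 : 0 ≤ u) (hu1 : u ≤ 1) (hku : (k : ℝ) * u ≤ 1) (ht : t ≤ k * u) :
    (1 - u) ^ k * (1 - (k : ℝ) ^ 2 * u ^ 2) ≤ 1 - t := by
  have h1 : (1 - u) ^ k * (1 + u) ^ k ≤ 1 := by
    rw [← mul_pow]
    apply pow_le_one₀
    · apply mul_nonneg <;> linarith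
    · nlinarith
  have h2 : 1 + (k : ℝ) * u ≤ (1 + u) ^ k := one_add_mul_le_pow (by linarith) k
  have h3 : 0 ≤ (1 - u) ^ k := pow_nonneg (by linarith) k
  have h4 : (1 - u) ^ k * (1 + k * u) ≤ 1 := (mul_le_mul_of_nonneg_left h2 h3).trans h1
  have hk0 : 0 ≤ (k : ℝ) * u := by positivity
  have e : (1 - u) ^ k * (1 - (k : ℝ) ^ 2 * u ^ 2) = ((1 - u) ^ k * (1 + k * u)) * (1 - k * u) := by ring
  rw [e]
  have h5 := mul_le_mul_of_nonneg_right h4 (show (0 : ℝ) ≤ 1 - k * u by linarith)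
  linarith

lemma sum_pw_le {w y : ℕ} (hw : 1 ≤ w) : ∑ p ∈ pw w y, 1 / (p : ℝ) ^ 2 ≤ 1 / (w : ℝ) := by
  rcases le_or_gt w y with h | h
  · have h1 : ∑ p ∈ pw w y, 1 / (p : ℝ) ^ 2 ≤ ∑ p ∈ Ioc w y, ((p : ℝ) ^ 2)⁻¹ := by
      have h2 : pw w y ⊆ Ioc w y := by
        intro p hp
        obtain ⟨a1, a2, a3⟩ := mem_pw.1 hp
        rw [mem_Ioc]
        exact ⟨a3, a1⟩
      refine (sum_le_sum_of_subset_of_nonneg h2 fun i _ _ => by positivity).trans ?_
      apply le_of_eq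
      exact sum_congr rfl fun i _ => one_div _
    have h3 := sum_Ioc_inv_sq_le_sub (α := ℝ) (show w ≠ 0 by omega) h
    have h4 : (0 : ℝ) ≤ (y : ℝ)⁻¹ := by positivity
    have h5 : (1 : ℝ) / (w : ℝ) = (w : ℝ)⁻¹ := one_div _
    rw [h5]
    linarith
  · have h1 : pw w y = ∅ := by
      rw [eq_empty_iff_forall_notMem]
      intro p hp
      obtain ⟨a1, a2, a3⟩ := mem_pw.1 hp
      omega
    rw [h1, sum_empty]
    positivity

lemma prod_QT_ge {k w Z : ℕ} (hk : 1 ≤ k) (hw : 2 * k ≤ w) {a c : ℕ → ℕ} {T : Finset ℕ} (hT : T.card = k)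
    (hc : UnitF w c T) (y : ℕ) :
    (1 - (k : ℝ) ^ 2 / w) * Vt w y ^ k ≤ ∏ p ∈ pz y, (1 - (nuB (QT w Z a c T) p : ℝ) / p) := by
  classical
  rw [prod_pz_pw _ w y (by
    intro p _ hw
    rw [nuB_QT_zero hw]
    simp)]
  have hkp : ∀ p ∈ pw w y, 0 < (p : ℝ) ∧ 0 ≤ 1 / (p : ℝ) ∧ 1 / (p : ℝ) ≤ 1 ∧ (k : ℝ) * (1 / p) ≤ 1 := by
    intro p hp
    obtain ⟨h1, h2, h3⟩ := mem_pw.1 hp
    have hp0 : (0 : ℝ) < p := by exact_mod_cast h2.pos
    have hkp : (k : ℝ) ≤ p := by exact_mod_cast (show k ≤ p by omega)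
    refine ⟨hp0, by positivity, ?_, ?_⟩
    · rw [div_le_one hp0]
      exact_mod_cast h2.one_le
    · rw [mul_one_div, div_le_one hp0]
      exact hkp
  have h1 : ∏ p ∈ pw w y, ((1 - 1 / (p : ℝ)) ^ k * (1 - (k : ℝ) ^ 2 * (1 / (p : ℝ)) ^ 2)) ≤
      ∏ p ∈ pw w y, (1 - (nuB (QT w Z a c T) p : ℝ) / p) := by
    apply prod_le_prod
    · intro p hp
      obtain ⟨a1, a2, a3, a4⟩ := hkp p hp
      apply mul_nonneg (pow_nonneg (by linarith) k)
      have : 0 ≤ (k : ℝ) * (1 / p) := by positivity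
      nlinarith
    · intro p hp
      obtain ⟨a1, a2, a3, a4⟩ := hkp p hp
      obtain ⟨h1, h2, h3⟩ := mem_pw.1 hp
      apply factor_ge a2 a3 a4
      rw [mul_one_div]
      apply div_le_div_of_nonneg_right _ a1.le
      have := nuB_QT_le (Z := Z) (a := a) hc h2
      rw [hT] at this
      exact_mod_cast this
  refine le_trans ?_ h1
  rw [prod_mul_distrib, prod_pow]
  have hV : 0 ≤ (∏ p ∈ pw w y, (1 - 1 / (p : ℝ))) ^ k := by
    apply pow_nonneg
    apply prod_nonneg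
    intro p hp
    linarith [(hkp p hp).2.2.1]
  unfold Vt
  rw [mul_comm]
  apply mul_le_mul_of_nonneg_left _ hV
  have h2 := one_sub_sum_le (pw w y) (fun p => (k : ℝ) ^ 2 * (1 / (p : ℝ)) ^ 2) (by
    intro p hp
    obtain ⟨a1, a2, a3, a4⟩ := hkp p hp
    refine ⟨by positivity, ?_⟩
    have : 0 ≤ (k : ℝ) * (1 / p) := by positivity
    nlinarith)
  refine le_trans ?_ h2
  have h3 := sum_pw_le (y := y) (show 1 ≤ w by omega)
  have h4 : ∑ p ∈ pw w y, (k : ℝ) ^ 2 * (1 / (p : ℝ)) ^ 2 = (k : ℝ) ^ 2 * ∑ p ∈ pw w y, 1 / (p : ℝ) ^ 2 := by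
    rw [mul_sum]
    exact sum_congr rfl fun p _ => by rw [div_pow, one_pow]
  rw [h4]
  have h5 := mul_le_mul_of_nonneg_left h3 (show (0 : ℝ) ≤ (k : ℝ) ^ 2 by positivity)
  rw [mul_one_div] at h5
  linarith

open Classical in
theorem t_LOK : S_LOK := by
  intro k hk η hη hη1
  obtain ⟨K, x0, hK1, H⟩ := sys_fund k hk η hη
  refine ⟨K, x0, ?_⟩
  intro w Z Y y hy hyY hw a c T hT hc
  have hP : PerB (QT w Z a c T) k := by
    rw [← hT]
    exact QT_perB hc
  have h1 := H Y y hy hyY (QT w Z a c T) hP Y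
  have h2 := prod_QT_ge (Z := Z) (a := a) hk hw hT hc y
  have h3 := (abs_le.1 h1).1
  have hcard : ((Ioc Z (Z + Y)).filter (fun j => ∀ n ∈ T, ∀ p ∈ pw w y, ¬ p ∣ a n + c n * j)).card =
      ((Icc 1 Y).filter (fun n : ℕ => ∀ p ∈ pz y, ¬ QT w Z a c T p n)).card := by
    symm
    apply Finset.card_bij (fun n _ => n + Z)
    · intro n hn
      rw [mem_filter, mem_Icc] at hn
      rw [mem_filter, mem_Ioc]
      refine ⟨by omega, fun m hm p hp hd => ?_⟩
      obtain ⟨e1, e2, e3⟩ := mem_pw.1 hp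
      exact hn.2 p (mem_pz.2 ⟨e1, e2⟩) ⟨e3, m, hm, hd⟩
    · intro n _ n' _ hnn
      omega
    · intro j hj
      rw [mem_filter, mem_Ioc] at hj
      refine ⟨j - Z, ?_, by omega⟩
      rw [mem_filter, mem_Icc]
      refine ⟨by omega, fun p hp hq => ?_⟩
      obtain ⟨e1, e2⟩ := mem_pz.1 hp
      obtain ⟨q1, m, hm, q2⟩ := hq
      have e : j - Z + Z = j := by omega
      rw [e] at q2
      exact hj.2 m hm p (mem_pw.2 ⟨e1, e2, q1⟩) q2
  rw [hcard]
  have hY0 : (0 : ℝ) ≤ Y := Nat.cast_nonneg _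
  have h5 := mul_le_mul_of_nonneg_left h2 hY0
  have h6 := mul_le_mul_of_nonneg_left h5 (show (0 : ℝ) ≤ 1 - η by linarith)
  have h7 : (1 - η) * (1 - (k : ℝ) ^ 2 / w) * (Y * Vt w y ^ k) =
      (1 - η) * ((Y : ℝ) * ((1 - (k : ℝ) ^ 2 / w) * Vt w y ^ k)) := by ring
  rw [h7]
  linarith

end Pool.Agent.H95RU
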