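import Pool.Agent.H95RU.Stm2

set_option autoImplicit false

/-!
# Project RU: the binomial moments
-/

namespace Pool.Agent.H95RU

open Finset

namespace MOMK

theorem Dw_one_le (b w h : ℕ) : 1 ≤ Dw b w h := by
  unfold Dw
  apply Finset.prod_induction _ (fun x : ℝ => 1 ≤ x)
  · intro x y hx hy
    nlinarith
  · exact le_rfl
  · intro p _
    have : (0 : ℝ) ≤ 1 / (p : ℝ) := by positivity
    linarith

theorem Vt_nonneg (w y : ℕ) : 0 ≤ Vt w y := by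
  unfold Vt
  apply Finset.prod_nonneg
  intro p hp
  have h1 := (mem_filter.1 hp).2.1.two_le
  have h2 : (1 : ℝ) ≤ p := by exact_mod_cast (by omega : 1 ≤ p)
  have : 1 / (p : ℝ) ≤ 1 := by
    rw [div_le_one (by linarith)]
    exact h2
  linarith

theorem choose_lower (q k : ℕ) (hk : 1 ≤ k) (hq : k ≤ q) :
    (1 - (k : ℝ) ^ 2 / q) * ((q : ℝ) ^ k / k.factorial) ≤ (q.choose k : ℝ) := by
  have hq0 : (0 : ℝ) < q := by exact_mod_cast (by omega : 0 < q)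
  have hkq : (k : ℝ) ≤ q := by exact_mod_cast hq
  have hf : (0 : ℝ) < k.factorial := by exact_mod_cast k.factorial_pos
  have h1 : (((q + 1 - k : ℕ) : ℝ)) ^ k / k.factorial ≤ (q.choose k : ℝ) := by
    exact Nat.pow_le_choose k q
  refine le_trans ?_ h1
  have h2 : ((q : ℝ) - k) ≤ ((q + 1 - k : ℕ) : ℝ) := by
    rw [Nat.cast_sub (by omega)]
    push_cast
    linarith
  have h3 : ((q : ℝ) - k) ^ k ≤ (((q + 1 - k : ℕ) : ℝ)) ^ k := pow_le_pow_left₀ (by linarith) h2 k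
  have h4 : 1 - (k : ℝ) * (k / q) ≤ (1 - (k : ℝ) / q) ^ k := by
    have := one_add_mul_le_pow (a := -((k : ℝ) / q)) (by
      have : (k : ℝ) / q ≤ 1 := by
        rw [div_le_one hq0]
        exact hkq
      linarith) k
    calc 1 - (k : ℝ) * (k / q) = 1 + (k : ℝ) * (-((k : ℝ) / q)) := by ring
      _ ≤ _ := this
      _ = _ := by ring
  have h5 : ((q : ℝ) - k) ^ k = (q : ℝ) ^ k * (1 - (k : ℝ) / q) ^ k := by
    rw [← mul_pow]
    congr 1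
    field_simp
  have h6 : (1 - (k : ℝ) ^ 2 / q) * (q : ℝ) ^ k ≤ ((q : ℝ) - k) ^ k := by
    rw [h5, mul_comm]
    apply mul_le_mul_of_nonneg_left _ (by positivity)
    calc 1 - (k : ℝ) ^ 2 / q = 1 - (k : ℝ) * (k / q) := by ring
      _ ≤ _ := h4
  calc (1 - (k : ℝ) ^ 2 / q) * ((q : ℝ) ^ k / k.factorial) =
        ((1 - (k : ℝ) ^ 2 / q) * (q : ℝ) ^ k) / k.factorial := by ring
    _ ≤ (((q + 1 - k : ℕ) : ℝ)) ^ k / k.factorial := by
        apply div_le_div_of_nonneg_right (h6.trans h3) hf.le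

open Classical in
theorem moment_eq (Z Y w y k : ℕ) (a c : ℕ → ℕ) (G : Finset ℕ) :
    ∑ j ∈ Ioc Z (Z + Y), (((G.filter (fun n => ∀ p ∈ pw w y, ¬ p ∣ a n + c n * j)).card.choose k : ℕ) : ℝ) =
      ∑ T ∈ powersetCard k G,
        (((Ioc Z (Z + Y)).filter (fun j => ∀ n ∈ T, ∀ p ∈ pw w y, ¬ p ∣ a n + c n * j)).card : ℝ) := by
  have h1 : ∀ T ∈ powersetCard k G,
      (((Ioc Z (Z + Y)).filter (fun j => ∀ n ∈ T, ∀ p ∈ pw w y, ¬ p ∣ a n + c n * j)).card : ℝ) =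
      ∑ j ∈ Ioc Z (Z + Y), if (∀ n ∈ T, ∀ p ∈ pw w y, ¬ p ∣ a n + c n * j) then (1 : ℝ) else 0 := by
    intro T _
    rw [Finset.sum_ite, Finset.sum_const_zero, add_zero, Finset.sum_const, nsmul_eq_mul, mul_one]
  rw [Finset.sum_congr rfl h1, Finset.sum_comm]
  apply Finset.sum_congr rfl
  intro j _
  rw [Finset.sum_ite, Finset.sum_const_zero, add_zero, Finset.sum_const, nsmul_eq_mul, mul_one]
  rw [← Finset.card_powersetCard]
  congr 2
  ext H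
  rw [mem_filter, mem_powersetCard, mem_powersetCard]
  constructor
  · rintro ⟨a1, a2⟩
    exact ⟨⟨fun h hh => (mem_filter.1 (a1 hh)).1, a2⟩, fun h hh => (mem_filter.1 (a1 hh)).2⟩
  · rintro ⟨⟨a1, a2⟩, a3⟩
    exact ⟨fun h hh => mem_filter.2 ⟨a1 hh, a3 h hh⟩, a2⟩

/-- the excess of the products -/
theorem excess (h4 : S_COMB) (b k : ℕ) (hk : 1 ≤ k) (C : ℝ) (hC : 0 ≤ C) (w : ℕ) (hw : 1 ≤ w) (N : ℕ)
    (hD : ∑ h ∈ Icc 1 N, (Dw b w h ^ (2 * k * k ^ 2) - 1) ≤ C * N / (w : ℝ) ^ (1 / 8 : ℝ))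
    (G : Finset ℕ) (hG : G ⊆ Icc 1 N) (hN : (N : ℝ) ≤ G.card * (w : ℝ) ^ (1 / 20 : ℝ)) :
    ∑ T ∈ powersetCard k G, (∏ x ∈ prs T, Dw b w (x.2 - x.1) ^ (2 * k) - 1) ≤
      C / (w : ℝ) ^ (1 / 40 : ℝ) * (G.card : ℝ) ^ k := by
  have hw1 : (1 : ℝ) ≤ w := by exact_mod_cast hw
  have hw0 : (0 : ℝ) < w := by linarith
  rcases Nat.lt_or_ge k 2 with hk2 | hk2
  · have hk1 : k = 1 := by omega
    subst hk1
    have : ∑ T ∈ powersetCard 1 G, (∏ x ∈ prs T, Dw b w (x.2 - x.1) ^ (2 * 1) - 1) = 0 := by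
      apply Finset.sum_eq_zero
      intro T hT
      rw [mem_powersetCard, Finset.card_eq_one] at hT
      obtain ⟨_, n, rfl⟩ := hT
      have : prs {n} = ∅ := by
        unfold prs
        rw [Finset.filter_eq_empty_iff]
        intro x hx
        rw [mem_product, mem_singleton, mem_singleton] at hx
        omega
      rw [this, Finset.prod_empty, sub_self]
    rw [this]
    positivity
  · have h5 := h4 k hk N G hG (fun h => Dw b w h ^ (2 * k)) (fun h => one_le_pow₀ (Dw_one_le b w h))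
    refine h5.trans ?_
    have h6 : ∑ h ∈ Icc 1 N, ((Dw b w h ^ (2 * k)) ^ (k ^ 2) - 1) ≤ C * N / (w : ℝ) ^ (1 / 8 : ℝ) := by
      refine le_trans (le_of_eq ?_) hD
      apply Finset.sum_congr rfl
      intro h _
      rw [← pow_mul]
    have hN0 : (0 : ℝ) ≤ N := Nat.cast_nonneg N
    have hq0 : (0 : ℝ) ≤ G.card := Nat.cast_nonneg _
    have h7 : (N : ℝ) * ∑ h ∈ Icc 1 N, ((Dw b w h ^ (2 * k)) ^ (k ^ 2) - 1) ≤
        C / (w : ℝ) ^ (1 / 40 : ℝ) * (G.card : ℝ) ^ 2 := by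
      calc (N : ℝ) * ∑ h ∈ Icc 1 N, ((Dw b w h ^ (2 * k)) ^ (k ^ 2) - 1) ≤
            N * (C * N / (w : ℝ) ^ (1 / 8 : ℝ)) := mul_le_mul_of_nonneg_left h6 hN0
        _ = (N : ℝ) ^ 2 * (C / (w : ℝ) ^ (1 / 8 : ℝ)) := by ring
        _ ≤ (G.card * (w : ℝ) ^ (1 / 20 : ℝ)) ^ 2 * (C / (w : ℝ) ^ (1 / 8 : ℝ)) := by
            apply mul_le_mul_of_nonneg_right _ (by positivity)
            exact pow_le_pow_left₀ hN0 hN 2
        _ = C / (w : ℝ) ^ (1 / 40 : ℝ) * (G.card : ℝ) ^ 2 := by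
            have e1 : (w : ℝ) ^ (1 / 8 : ℝ) = (w : ℝ) ^ (1 / 40 : ℝ) * ((w : ℝ) ^ (1 / 20 : ℝ)) ^ 2 := by
              rw [← Real.rpow_natCast ((w : ℝ) ^ (1 / 20 : ℝ)) 2, ← Real.rpow_mul hw0.le, ← Real.rpow_add hw0]
              congr 1
              norm_num
            rw [e1]
            have e2 : (w : ℝ) ^ (1 / 40 : ℝ) ≠ 0 := by positivity
            have e3 : (w : ℝ) ^ (1 / 20 : ℝ) ≠ 0 := by positivity
            field_simp
    calc (G.card : ℝ) ^ (k - 2) * (N * ∑ h ∈ Icc 1 N, ((Dw b w h ^ (2 * k)) ^ (k ^ 2) - 1)) ≤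
          (G.card : ℝ) ^ (k - 2) * (C / (w : ℝ) ^ (1 / 40 : ℝ) * (G.card : ℝ) ^ 2) :=
            mul_le_mul_of_nonneg_left h7 (by positivity)
      _ = C / (w : ℝ) ^ (1 / 40 : ℝ) * ((G.card : ℝ) ^ (k - 2) * (G.card : ℝ) ^ 2) := by ring
      _ = C / (w : ℝ) ^ (1 / 40 : ℝ) * (G.card : ℝ) ^ k := by
          rw [← pow_add]
          congr 2
          omega

end MOMK

open MOMK in
open Classical in
/-- **The binomial moments.** -/
theorem t_MOMK (h1 : S_DAVK) (h2 : S_UPK) (h3 : S_LOK) (h4 : S_COMB) : S_MOMK := by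
  intro b hb k hk η hη
  obtain ⟨C, hC, hDAV⟩ := h1 b hb (2 * k * k ^ 2)
  obtain ⟨η', hη'⟩ : ∃ η' : ℝ, η' = min (η / 4) 1 := ⟨_, rfl⟩
  have hη'0 : 0 < η' := by rw [hη']; exact lt_min (by positivity) one_pos
  have hη'1 : η' ≤ 1 := by rw [hη']; exact min_le_right _ _
  have hη'2 : η' ≤ η / 4 := by rw [hη']; exact min_le_left _ _
  obtain ⟨K₁, y₁, hUP⟩ := h2 k hk η' hη'0
  obtain ⟨K₂, y₂, hLO⟩ := h3 k hk η' hη'0 hη'1
  -- the choice of w₀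
  obtain ⟨w₁, hw₁⟩ : ∃ w₁ : ℕ, ∀ w : ℕ, w₁ ≤ w → C / (w : ℝ) ^ (1 / 40 : ℝ) ≤ η / 4 := by
    have ht : Filter.Tendsto (fun w : ℕ => C / (w : ℝ) ^ (1 / 40 : ℝ)) Filter.atTop (nhds 0) := by
      apply Filter.Tendsto.const_div_atTop
      exact (tendsto_rpow_atTop (by norm_num)).comp tendsto_natCast_atTop_atTop
    have := (ht.eventually (gt_mem_nhds (show (0 : ℝ) < η / 4 by positivity)))
    obtain ⟨w₁, h⟩ := Filter.eventually_atTop.1 this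
    exact ⟨w₁, fun w hw => (h w hw).le⟩
  obtain ⟨M, hM⟩ : ∃ M : ℕ, 4 * (k : ℝ) ^ 2 / η ≤ M := exists_nat_ge _
  have hkk : (k : ℝ) ^ 2 / (max M (k ^ 2) : ℕ) ≤ η / 4 ∧ (k : ℝ) ^ 2 / (max M (k ^ 2) : ℕ) ≤ 1 := by
    have hk0 : (1 : ℝ) ≤ k := by exact_mod_cast hk
    have a1 : (M : ℝ) ≤ ((max M (k ^ 2) : ℕ) : ℝ) := by exact_mod_cast le_max_left _ _
    have a2 : ((k ^ 2 : ℕ) : ℝ) ≤ ((max M (k ^ 2) : ℕ) : ℝ) := by exact_mod_cast le_max_right _ _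
    have a3 : (0 : ℝ) < ((max M (k ^ 2) : ℕ) : ℝ) := by
      refine lt_of_lt_of_le ?_ a2
      push_cast
      positivity
    constructor
    · rw [div_le_iff₀ a3]
      rw [div_le_iff₀ hη] at hM
      nlinarith
    · rw [div_le_one a3]
      push_cast at a2
      exact_mod_cast a2
  obtain ⟨L, hL⟩ : ∃ L : ℕ, L = max M (k ^ 2) := ⟨_, rfl⟩
  rw [← hL] at hkk
  have hLk : k ^ 2 ≤ L := by rw [hL]; exact le_max_right _ _
  have hkk1 : k ≤ k ^ 2 := by nlinarith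
  have hmono : ∀ m : ℕ, L ≤ m → (k : ℝ) ^ 2 / m ≤ η / 4 ∧ (k : ℝ) ^ 2 / m ≤ 1 := by
    intro m hm
    have hL0 : (0 : ℝ) < L := by exact_mod_cast (by omega : 0 < L)
    have : (k : ℝ) ^ 2 / m ≤ (k : ℝ) ^ 2 / L := by
      apply div_le_div_of_nonneg_left (by positivity) hL0
      exact_mod_cast hm
    exact ⟨this.trans hkk.1, this.trans hkk.2⟩
  refine ⟨max (max w₁ (2 * k)) L, ?_⟩
  intro w hw
  have hw1 : w₁ ≤ w := le_trans (le_trans (le_max_left _ _) (le_max_left _ _)) hw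
  have hw2 : 2 * k ≤ w := le_trans (le_trans (le_max_right _ _) (le_max_left _ _)) hw
  have hw3 : L ≤ w := le_trans (le_max_right _ _) hw
  have hwpos : 1 ≤ w := by omega
  refine ⟨max K₁ K₂, max (max y₁ y₂) 1, w * L, ?_⟩
  intro Z Y y N hy hyY hN a c G hG hNG hU hCo
  have hy1 : y₁ ≤ y := le_trans (le_trans (le_max_left _ _) (le_max_left _ _)) hy
  have hy2 : y₂ ≤ y := le_trans (le_trans (le_max_right _ _) (le_max_left _ _)) hy
  have hy3 : 1 ≤ y := le_trans (le_max_right _ _) hy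
  have hyY1 : y ^ K₁ ≤ Y := le_trans (Nat.pow_le_pow_right hy3 (le_max_left _ _)) hyY
  have hyY2 : y ^ K₂ ≤ Y := le_trans (Nat.pow_le_pow_right hy3 (le_max_right _ _)) hyY
  have hw1R : (1 : ℝ) ≤ w := by exact_mod_cast hwpos
  -- q is large
  have hqL : L ≤ G.card := by
    have h5 : (w : ℝ) ^ (1 / 20 : ℝ) ≤ w := by
      calc (w : ℝ) ^ (1 / 20 : ℝ) ≤ (w : ℝ) ^ (1 : ℝ) := Real.rpow_le_rpow_of_exponent_le hw1R (by norm_num)
        _ = w := Real.rpow_one _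
    have h6 : ((w * L : ℕ) : ℝ) ≤ G.card * w := by
      calc ((w * L : ℕ) : ℝ) ≤ N := by exact_mod_cast hN
        _ ≤ G.card * (w : ℝ) ^ (1 / 20 : ℝ) := hNG
        _ ≤ G.card * w := mul_le_mul_of_nonneg_left h5 (Nat.cast_nonneg _)
    have h7 : w * L ≤ w * G.card := by
      rw [mul_comm w G.card]
      exact_mod_cast h6
    exact Nat.le_of_mul_le_mul_left h7 (by omega)
  obtain ⟨q, hq⟩ : ∃ q : ℕ, q = G.card := ⟨_, rfl⟩
  rw [← hq] at hqL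
  have hV0 := Vt_nonneg w y
  rw [moment_eq]
  obtain ⟨V, hV⟩ : ∃ V : ℝ, V = Vt w y := ⟨_, rfl⟩
  have hcard : (powersetCard k G).card = q.choose k := by rw [card_powersetCard, hq]
  have hex := excess h4 b k hk C hC w hwpos N (hDAV w hwpos N) G hG hNG
  have hex2 : ∑ T ∈ powersetCard k G, (∏ x ∈ prs T, Dw b w (x.2 - x.1) ^ (2 * k) - 1) ≤ η / 4 * (q : ℝ) ^ k := by
    refine hex.trans ?_
    rw [← hq]
    exact mul_le_mul_of_nonneg_right (hw₁ w hw1) (by positivity)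
  have hup : ∑ T ∈ powersetCard k G,
        (((Ioc Z (Z + Y)).filter (fun j => ∀ n ∈ T, ∀ p ∈ pw w y, ¬ p ∣ a n + c n * j)).card : ℝ) ≤
      (1 + η') * (Y * V ^ k * (∑ T ∈ powersetCard k G, (∏ x ∈ prs T, Dw b w (x.2 - x.1) ^ (2 * k) - 1) +
        q.choose k)) + q.choose k * √(Y : ℝ) := by
    have : ∀ T ∈ powersetCard k G,
        (((Ioc Z (Z + Y)).filter (fun j => ∀ n ∈ T, ∀ p ∈ pw w y, ¬ p ∣ a n + c n * j)).card : ℝ) ≤
        (1 + η') * (Y * V ^ k) * ((∏ x ∈ prs T, Dw b w (x.2 - x.1) ^ (2 * k) - 1) + 1) + √(Y : ℝ) := by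
      intro T hT
      rw [mem_powersetCard] at hT
      have h5 := hUP w Z Y y hy1 hyY1 b hb a c T hT.2 (fun n hn => hU n (hT.1 hn))
        (fun n hn m hm => hCo n (hT.1 hn) m (hT.1 hm))
      refine h5.trans (le_of_eq ?_)
      rw [hV]
      ring
    refine (Finset.sum_le_sum this).trans (le_of_eq ?_)
    rw [Finset.sum_add_distrib, ← Finset.mul_sum, Finset.sum_add_distrib, Finset.sum_const, Finset.sum_const,
      hcard, nsmul_eq_mul, nsmul_eq_mul, mul_one]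
    ring
  have hlo : (q.choose k : ℝ) * ((1 - η') * (1 - (k : ℝ) ^ 2 / w) * (Y * V ^ k)) - q.choose k * √(Y : ℝ) ≤
      ∑ T ∈ powersetCard k G,
        (((Ioc Z (Z + Y)).filter (fun j => ∀ n ∈ T, ∀ p ∈ pw w y, ¬ p ∣ a n + c n * j)).card : ℝ) := by
    have : ∀ T ∈ powersetCard k G, (1 - η') * (1 - (k : ℝ) ^ 2 / w) * (Y * V ^ k) - √(Y : ℝ) ≤
        (((Ioc Z (Z + Y)).filter (fun j => ∀ n ∈ T, ∀ p ∈ pw w y, ¬ p ∣ a n + c n * j)).card : ℝ) := by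
      intro T hT
      rw [mem_powersetCard] at hT
      have h5 := hLO w Z Y y hy2 hyY2 hw2 a c T hT.2 (fun n hn => hU n (hT.1 hn))
      rw [hV]
      exact h5
    refine le_trans (le_of_eq ?_) (Finset.sum_le_sum this)
    rw [Finset.sum_const, hcard, nsmul_eq_mul]
    ring
  rw [← hq, ← hV]
  rw [← hV] at hV0
  have hf : (0 : ℝ) < k.factorial := by exact_mod_cast k.factorial_pos
  have hf1 : (1 : ℝ) ≤ k.factorial := by exact_mod_cast k.factorial_pos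
  have hch1 : (q.choose k : ℝ) ≤ (q : ℝ) ^ k / k.factorial := Nat.choose_le_pow_div k q
  have hch0 : (0 : ℝ) ≤ (q.choose k : ℝ) := Nat.cast_nonneg _
  have hch3 : (q : ℝ) ^ k / k.factorial ≤ (q : ℝ) ^ k := div_le_self (by positivity) hf1
  have hch2 : (1 - (k : ℝ) ^ 2 / q) * ((q : ℝ) ^ k / k.factorial) ≤ (q.choose k : ℝ) :=
    choose_lower q k hk (by omega)
  have hsY := Real.sqrt_nonneg (Y : ℝ)
  have hY0 : (0 : ℝ) ≤ Y := Nat.cast_nonneg Y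
  have hYV : 0 ≤ (Y : ℝ) * V ^ k := by positivity
  have hqk : (0 : ℝ) ≤ (q : ℝ) ^ k := by positivity
  have hsq : (q.choose k : ℝ) * √(Y : ℝ) ≤ (q : ℝ) ^ k * √(Y : ℝ) :=
    mul_le_mul_of_nonneg_right (hch1.trans hch3) hsY
  have e0 : (Y : ℝ) * ((V * q) ^ k / k.factorial) = (Y * V ^ k) * ((q : ℝ) ^ k / k.factorial) := by
    rw [mul_pow]; ring
  have e1 : η * ((Y : ℝ) * (V * q) ^ k) = (Y * V ^ k) * (η * (q : ℝ) ^ k) := by
    rw [mul_pow]; ring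
  rw [e0, e1, abs_le]
  obtain ⟨A, hA⟩ : ∃ A : ℝ, A = (Y : ℝ) * V ^ k := ⟨_, rfl⟩
  obtain ⟨F, hF⟩ : ∃ F : ℝ, F = (q : ℝ) ^ k / k.factorial := ⟨_, rfl⟩
  obtain ⟨Q, hQ⟩ : ∃ Q : ℝ, Q = (q : ℝ) ^ k := ⟨_, rfl⟩
  obtain ⟨E, hE⟩ : ∃ E : ℝ, E = ∑ T ∈ powersetCard k G, (∏ x ∈ prs T, Dw b w (x.2 - x.1) ^ (2 * k) - 1) :=
    ⟨_, rfl⟩
  rw [← hA, ← hE] at hup
  rw [← hA] at hlo hYV
  rw [← hE, ← hQ] at hex2
  rw [← hF] at hch1 hch2 hch3
  rw [← hQ] at hch3 hqk hsq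
  rw [← hA, ← hF, ← hQ]
  have hF0 : 0 ≤ F := by rw [hF]; positivity
  obtain ⟨hw4, hw5⟩ := hmono w hw3
  obtain ⟨hq4, hq5⟩ := hmono q hqL
  have hkw0 : (0 : ℝ) ≤ (k : ℝ) ^ 2 / w := by positivity
  have hkq0 : (0 : ℝ) ≤ (k : ℝ) ^ 2 / q := by positivity
  constructor
  · -- lower bound
    have g1 : (1 - 3 * η / 4) * F ≤ (q.choose k : ℝ) * ((1 - η') * (1 - (k : ℝ) ^ 2 / w)) := by
      have g2 : (1 - (k : ℝ) ^ 2 / q) * F * ((1 - η') * (1 - (k : ℝ) ^ 2 / w)) ≤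
          (q.choose k : ℝ) * ((1 - η') * (1 - (k : ℝ) ^ 2 / w)) := by
        apply mul_le_mul_of_nonneg_right hch2
        apply mul_nonneg <;> linarith
      refine le_trans ?_ g2
      have g3 : 1 - 3 * η / 4 ≤ (1 - (k : ℝ) ^ 2 / q) * ((1 - η') * (1 - (k : ℝ) ^ 2 / w)) := by
        have g4 : 1 - η' - (k : ℝ) ^ 2 / w ≤ (1 - η') * (1 - (k : ℝ) ^ 2 / w) := by
          nlinarith [mul_nonneg hη'0.le hkw0]
        have g5 : (1 - η') * (1 - (k : ℝ) ^ 2 / w) ≤ 1 := by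
          nlinarith [mul_nonneg hη'0.le hkw0, mul_nonneg (sub_nonneg.2 hη'1) hkw0]
        nlinarith [mul_nonneg hkq0 (sub_nonneg.2 g5)]
      nlinarith [mul_nonneg hF0 (sub_nonneg.2 g3)]
    have g6 : A * ((1 - 3 * η / 4) * F) ≤ A * ((q.choose k : ℝ) * ((1 - η') * (1 - (k : ℝ) ^ 2 / w))) :=
      mul_le_mul_of_nonneg_left g1 hYV
    have g7 : A * (3 * η / 4 * F) ≤ A * (η * Q) := by
      apply mul_le_mul_of_nonneg_left _ hYV
      nlinarith [mul_nonneg hη.le hF0, mul_nonneg hη.le (sub_nonneg.2 hch3)]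
    nlinarith [hlo, hsq, g6, g7]
  · -- upper bound
    have g1 : E + (q.choose k : ℝ) ≤ η / 4 * Q + F := add_le_add hex2 hch1
    have g2 : (1 + η') * (A * (E + (q.choose k : ℝ))) ≤ (1 + η') * (A * (η / 4 * Q + F)) := by
      apply mul_le_mul_of_nonneg_left _ (by linarith)
      exact mul_le_mul_of_nonneg_left g1 hYV
    have g3 : (1 + η') * (A * (η / 4 * Q + F)) ≤ A * F + A * (η * Q) := by
      have g4 : (1 + η') * (η / 4 * Q + F) ≤ F + η * Q := by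
        have g5 : η' * F ≤ η / 4 * Q := by
          calc η' * F ≤ η / 4 * F := mul_le_mul_of_nonneg_right hη'2 hF0
            _ ≤ η / 4 * Q := mul_le_mul_of_nonneg_left hch3 (by positivity)
        have g6 : η' * (η / 4 * Q) ≤ 1 * (η / 4 * Q) := mul_le_mul_of_nonneg_right hη'1 (by positivity)
        nlinarith [mul_nonneg hη.le hqk]
      calc (1 + η') * (A * (η / 4 * Q + F)) = A * ((1 + η') * (η / 4 * Q + F)) := by ring
        _ ≤ A * (F + η * Q) := mul_le_mul_of_nonneg_left g4 hYV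
        _ = _ := by ring
    linarith [hup, hsq, g2, g3]

end Pool.Agent.H95RU
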