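import Mathlib

set_option autoImplicit false

/-!
# Project RU: the second moment
-/

namespace Pool.Agent.H95RU

open Finset

open Classical in
/-- the second moment of a sum of indicator functions with small correlations -/
theorem mom2 (J G : Finset ℕ) (N : ℕ) (hG : G ⊆ Icc 1 N) (g : ℕ → ℕ → Prop) (Dd : ℕ → ℝ) (Y v η τ e : ℝ)
    (hY : 0 ≤ Y) (hJ : (J.card : ℝ) = Y) (hv : 0 ≤ v) (hv1 : v ≤ 1) (hη : 0 ≤ η) (hη1 : η ≤ 1) (hτ : 0 ≤ τ)
    (he : 0 ≤ e) (hD : ∀ h, 1 ≤ Dd h) (hS : ∑ h ∈ Icc 1 N, (Dd h - 1) ≤ τ * N)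
    (h1 : ∀ n ∈ G, |((J.filter (fun j => g n j)).card : ℝ) - Y * v| ≤ η * (Y * v) + e)
    (h2 : ∀ n ∈ G, ∀ m ∈ G, n < m →
      ((J.filter (fun j => g n j ∧ g m j)).card : ℝ) ≤ (1 + η) * (Y * v ^ 2 * Dd (m - n)) + e) :
    ∑ j ∈ J, (((G.filter (fun n => g n j)).card : ℝ) - v * G.card) ^ 2 ≤
      Y * v ^ 2 * (4 * τ * (N : ℝ) ^ 2 + 3 * η * (G.card : ℝ) ^ 2) + 2 * Y * v * G.card +
        4 * (G.card : ℝ) ^ 2 * e := by
  obtain ⟨q, hq⟩ : ∃ q : ℝ, q = G.card := ⟨_, rfl⟩
  have hq0 : 0 ≤ q := by rw [hq]; positivity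
  have hGN : (G.card : ℝ) ≤ N := by
    have := card_le_card hG
    rw [Nat.card_Icc, Nat.add_sub_cancel] at this
    exact_mod_cast this
  have hcase : q = 0 ∨ 1 ≤ q := by
    rw [hq]
    rcases Nat.eq_zero_or_pos G.card with h | h
    · left; exact_mod_cast h
    · right; exact_mod_cast h
  -- the indicator
  obtain ⟨I, hI⟩ : ∃ I : ℕ → ℕ → ℝ, ∀ n j, I n j = if g n j then 1 else 0 := ⟨fun n j => _, fun n j => rfl⟩
  have hA : ∀ j, ((G.filter (fun n => g n j)).card : ℝ) = ∑ n ∈ G, I n j := by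
    intro j
    rw [card_filter]
    push_cast
    apply sum_congr rfl
    intro n _
    rw [hI]
  have hB : ∀ n, ∑ j ∈ J, I n j = ((J.filter (fun j => g n j)).card : ℝ) := by
    intro n
    rw [card_filter]
    push_cast
    apply sum_congr rfl
    intro j _
    rw [hI]
  have hC : ∀ n m, ∑ j ∈ J, I n j * I m j = ((J.filter (fun j => g n j ∧ g m j)).card : ℝ) := by
    intro n m
    rw [card_filter]
    push_cast
    apply sum_congr rfl
    intro j _
    rw [hI, hI]
    by_cases a : g n j <;> by_cases b : g m j <;> simp [a, b]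
  have hexp : ∑ j ∈ J, (((G.filter (fun n => g n j)).card : ℝ) - v * G.card) ^ 2 =
      ∑ n ∈ G, ∑ m ∈ G, ∑ j ∈ J, I n j * I m j - 2 * v * q * ∑ n ∈ G, ∑ j ∈ J, I n j +
        Y * (v * q) ^ 2 := by
    have e1 : ∀ j ∈ J, (((G.filter (fun n => g n j)).card : ℝ) - v * G.card) ^ 2 =
        ∑ n ∈ G, ∑ m ∈ G, I n j * I m j - 2 * v * q * ∑ n ∈ G, I n j + (v * q) ^ 2 := by
      intro j _
      rw [hA, ← hq, ← sum_mul_sum]
      ring
    rw [sum_congr rfl e1, sum_add_distrib, sum_sub_distrib, ← mul_sum, sum_const, nsmul_eq_mul, hJ]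
    congr 2
    · rw [sum_comm]
      apply sum_congr rfl
      intro n _
      rw [sum_comm]
    · rw [sum_comm]
  -- the first moment
  have hfirst : q * ((1 - η) * (Y * v) - e) ≤ ∑ n ∈ G, ∑ j ∈ J, I n j := by
    have : ∑ _n ∈ G, ((1 - η) * (Y * v) - e) ≤ ∑ n ∈ G, ∑ j ∈ J, I n j := by
      apply sum_le_sum
      intro n hn
      rw [hB]
      have := (abs_le.1 (h1 n hn)).1
      linarith
    rw [sum_const, nsmul_eq_mul, ← hq] at this
    exact this
  -- one row
  have hupp : ∀ n ∈ G, ∑ m ∈ G.filter (fun m => n < m), (Dd (m - n) - 1) ≤ τ * N := by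
    intro n hn
    refine le_trans ?_ hS
    have hn1 := mem_Icc.1 (hG hn)
    have h3 : ∑ m ∈ G.filter (fun m => n < m), (Dd (m - n) - 1) =
        ∑ h ∈ (G.filter (fun m => n < m)).image (fun m => m - n), (Dd h - 1) := by
      rw [sum_image]
      intro a ha c hc hac
      have ha1 := (mem_filter.1 ha).2
      have hc1 := (mem_filter.1 hc).2
      simp only at hac
      omega
    rw [h3]
    apply sum_le_sum_of_subset_of_nonneg
    · intro h hh
      obtain ⟨m, hm, rfl⟩ := mem_image.1 hh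
      rw [mem_filter] at hm
      have := mem_Icc.1 (hG hm.1)
      rw [mem_Icc]
      omega
    · intro h _ _
      linarith [hD h]
  have hlow : ∀ n ∈ G, ∑ m ∈ G.filter (fun m => m < n), (Dd (n - m) - 1) ≤ τ * N := by
    intro n hn
    refine le_trans ?_ hS
    have hn1 := mem_Icc.1 (hG hn)
    have h3 : ∑ m ∈ G.filter (fun m => m < n), (Dd (n - m) - 1) =
        ∑ h ∈ (G.filter (fun m => m < n)).image (fun m => n - m), (Dd h - 1) := by
      rw [sum_image]
      intro a ha c hc hac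
      have ha1 := (mem_filter.1 ha).2
      have hc1 := (mem_filter.1 hc).2
      simp only at hac
      omega
    rw [h3]
    apply sum_le_sum_of_subset_of_nonneg
    · intro h hh
      obtain ⟨m, hm, rfl⟩ := mem_image.1 hh
      rw [mem_filter] at hm
      have := mem_Icc.1 (hG hm.1)
      rw [mem_Icc]
      omega
    · intro h _ _
      linarith [hD h]
  have hrow : ∀ n ∈ G, ∑ m ∈ G, ∑ j ∈ J, I n j * I m j ≤
      (1 + η) * (Y * v ^ 2 * (q + 2 * (τ * N))) + q * e + (2 * (Y * v) + e) := by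
    intro n hn
    have hpt : ∀ m ∈ G, ∑ j ∈ J, I n j * I m j ≤
        (if n < m then (1 + η) * (Y * v ^ 2 * (Dd (m - n) - 1)) else 0) +
        (if m < n then (1 + η) * (Y * v ^ 2 * (Dd (n - m) - 1)) else 0) +
        ((1 + η) * (Y * v ^ 2) + e) + (if m = n then 2 * (Y * v) + e else 0) := by
      intro m hm
      have hYv : 0 ≤ Y * v ^ 2 := by positivity
      rcases lt_trichotomy n m with h | h | h
      · rw [if_pos h, if_neg (by omega), if_neg (by omega), hC]
        have := h2 n hn m hm h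
        linarith
      · subst h
        rw [if_neg (lt_irrefl n), if_pos rfl, hC]
        have h3 : (J.filter (fun j => g n j ∧ g n j)) = J.filter (fun j => g n j) := by
          apply filter_congr
          intro j _
          simp
        rw [h3]
        have h4 := (abs_le.1 (h1 n hn)).2
        have h5 : 0 ≤ Y * v := by positivity
        have h6 : η * (Y * v) ≤ 1 * (Y * v) := mul_le_mul_of_nonneg_right hη1 h5
        have h7 : 0 ≤ (1 + η) * (Y * v ^ 2) := by positivity
        linarith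
      · rw [if_neg (by omega), if_pos h, if_neg (by omega), hC]
        have := h2 m hm n hn h
        have h3 : (J.filter (fun j => g n j ∧ g m j)) = J.filter (fun j => g m j ∧ g n j) := by
          apply filter_congr
          intro j _
          exact and_comm
        rw [h3]
        linarith
    refine (sum_le_sum hpt).trans ?_
    rw [sum_add_distrib, sum_add_distrib, sum_add_distrib, sum_const, nsmul_eq_mul, ← hq, ← sum_filter,
      ← sum_filter, ← mul_sum, ← mul_sum, ← mul_sum, ← mul_sum, sum_ite_eq' G n, if_pos hn]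
    have k1 := hupp n hn
    have k2 := hlow n hn
    have hYv : 0 ≤ (1 + η) * (Y * v ^ 2) := by positivity
    have k3 := mul_le_mul_of_nonneg_left k1 hYv
    have k4 := mul_le_mul_of_nonneg_left k2 hYv
    calc _ = (1 + η) * (Y * v ^ 2) * ∑ m ∈ G.filter (fun m => n < m), (Dd (m - n) - 1) +
          (1 + η) * (Y * v ^ 2) * ∑ m ∈ G.filter (fun m => m < n), (Dd (n - m) - 1) +
          q * ((1 + η) * (Y * v ^ 2) + e) + (2 * (Y * v) + e) := by ring
      _ ≤ (1 + η) * (Y * v ^ 2) * (τ * N) + (1 + η) * (Y * v ^ 2) * (τ * N) +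
          q * ((1 + η) * (Y * v ^ 2) + e) + (2 * (Y * v) + e) := by linarith
      _ = _ := by ring
  have hsecond : ∑ n ∈ G, ∑ m ∈ G, ∑ j ∈ J, I n j * I m j ≤
      q * ((1 + η) * (Y * v ^ 2 * (q + 2 * (τ * N))) + q * e + (2 * (Y * v) + e)) := by
    refine (sum_le_sum hrow).trans ?_
    rw [sum_const, nsmul_eq_mul, ← hq]
  rw [hexp, ← hq]
  have hqN : q ≤ N := by rw [hq]; exact hGN
  have hN0 : (0 : ℝ) ≤ N := Nat.cast_nonneg N
  have m1 : 2 * v * q * (q * ((1 - η) * (Y * v) - e)) ≤ 2 * v * q * ∑ n ∈ G, ∑ j ∈ J, I n j :=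
    mul_le_mul_of_nonneg_left hfirst (by positivity)
  have m2 : q * ((1 + η) * (Y * v ^ 2 * (2 * (τ * N)))) ≤ Y * v ^ 2 * (4 * τ * (N : ℝ) ^ 2) := by
    have a1 : q * ((1 + η) * (Y * v ^ 2 * (2 * (τ * N)))) = (1 + η) * q * (Y * v ^ 2 * (2 * (τ * N))) := by ring
    have a2 : (1 + η) * q ≤ 2 * N := by nlinarith
    have a3 : 0 ≤ Y * v ^ 2 * (2 * (τ * N)) := by positivity
    rw [a1]
    calc (1 + η) * q * (Y * v ^ 2 * (2 * (τ * N))) ≤ 2 * N * (Y * v ^ 2 * (2 * (τ * N))) :=
          mul_le_mul_of_nonneg_right a2 a3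
      _ = _ := by ring
  have m3 : q * e ≤ q ^ 2 * e := by
    rcases hcase with h | h
    · rw [h]; simp
    · nlinarith [mul_nonneg (mul_nonneg hq0 he) (sub_nonneg.2 h)]
  have m4 : 2 * v * q * (q * e) ≤ 2 * (q ^ 2 * e) := by
    have : 0 ≤ q ^ 2 * e := by positivity
    nlinarith
  nlinarith [m1, m2, m3, m4, hsecond]

open Classical in
/-- Chebyshev -/
theorem cheb (J : Finset ℕ) (A : ℕ → ℝ) (E ε Y S : ℝ) (hE : 0 < E) (hε : 0 < ε)
    (hS : ∑ j ∈ J, (A j - E) ^ 2 ≤ S) (hSY : S ≤ ε ^ 3 * Y * E ^ 2) :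
    ((J.filter (fun j => ε * E < |A j - E|)).card : ℝ) ≤ ε * Y := by
  have h1 : ((J.filter (fun j => ε * E < |A j - E|)).card : ℝ) * (ε * E) ^ 2 ≤ S := by
    refine le_trans ?_ hS
    calc ((J.filter (fun j => ε * E < |A j - E|)).card : ℝ) * (ε * E) ^ 2 =
          ∑ _j ∈ J.filter (fun j => ε * E < |A j - E|), (ε * E) ^ 2 := by
            rw [sum_const, nsmul_eq_mul]
      _ ≤ ∑ j ∈ J.filter (fun j => ε * E < |A j - E|), (A j - E) ^ 2 := by
            apply sum_le_sum
            intro j hj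
            have h2 := (mem_filter.1 hj).2
            rw [← sq_abs (A j - E)]
            exact pow_le_pow_left₀ (by positivity) h2.le 2
      _ ≤ ∑ j ∈ J, (A j - E) ^ 2 :=
            sum_le_sum_of_subset_of_nonneg (filter_subset _ _) (fun _ _ _ => sq_nonneg _)
  have h3 : (0 : ℝ) < (ε * E) ^ 2 := by positivity
  have h4 : ((J.filter (fun j => ε * E < |A j - E|)).card : ℝ) * (ε * E) ^ 2 ≤ ε * Y * (ε * E) ^ 2 :=
    h1.trans (hSY.trans (le_of_eq (by ring)))
  exact le_of_mul_le_mul_right h4 h3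

end Pool.Agent.H95RU
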