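import Pool.Agent.H95RU.AP

set_option autoImplicit false

/-!
# Project RU: the law of large numbers in the residue classes which are not nearly covered
-/

namespace Pool.Agent.H95RU

open Finset

/-- a family of linear polynomials `a n + c n * j` with the reference values `ρ n` -/
structure FamR (b w : ℕ) (a c ρ : ℕ → ℕ) : Prop where
  unit : ∀ n p : ℕ, p.Prime → w < p → ¬ p ∣ c n
  coll : ∀ n m : ℕ, n < m → ∀ p j : ℕ, p.Prime → w < p → p ∣ a n + c n * j → p ∣ a m + c m * j →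
    p ∣ b ^ (m - n) - 1
  low : ∀ n : ℕ, ∀ p j : ℕ, p.Prime → p ≤ w → (p ∣ a n + c n * j ↔ p ∣ ρ n)

/-- the threshold for `w` -/
lemma exists_w0R (C ε : ℝ) (hC : 0 ≤ C) (hε : 0 < ε) :
    ∃ w₀ : ℕ, 2 ≤ w₀ ∧ ∀ w : ℕ, w₀ ≤ w →
      4 * (C / (w : ℝ) ^ (1 / 8 : ℝ)) * ((w : ℝ) ^ (1 / 20 : ℝ)) ^ 2 ≤ ε := by
  have h1 := ((tendsto_rpow_atTop (show (0 : ℝ) < 1 / 40 by norm_num)).comp
    tendsto_natCast_atTop_atTop).eventually_ge_atTop (4 * C / ε)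
  obtain ⟨n, hn⟩ := Filter.eventually_atTop.1 h1
  refine ⟨max n 2, le_max_right _ _, fun w hw => ?_⟩
  have hw2 : 2 ≤ w := (le_max_right _ _).trans hw
  have h2 := hn w ((le_max_left _ _).trans hw)
  simp only [Function.comp] at h2
  have hw0 : (0 : ℝ) < w := by exact_mod_cast (by omega : 0 < w)
  have h3 : ((w : ℝ) ^ (1 / 20 : ℝ)) ^ 2 = (w : ℝ) ^ (1 / 10 : ℝ) := by
    rw [← Real.rpow_natCast, ← Real.rpow_mul hw0.le]
    norm_num
  have h4 : (w : ℝ) ^ (1 / 8 : ℝ) = (w : ℝ) ^ (1 / 10 : ℝ) * (w : ℝ) ^ (1 / 40 : ℝ) := by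
    rw [← Real.rpow_add hw0]
    norm_num
  have h5 : (0 : ℝ) < (w : ℝ) ^ (1 / 10 : ℝ) := Real.rpow_pos_of_pos hw0 _
  have h6 : (0 : ℝ) < (w : ℝ) ^ (1 / 40 : ℝ) := Real.rpow_pos_of_pos hw0 _
  rw [h3, h4]
  rw [div_le_iff₀ hε] at h2
  calc 4 * (C / ((w : ℝ) ^ (1 / 10 : ℝ) * (w : ℝ) ^ (1 / 40 : ℝ))) * (w : ℝ) ^ (1 / 10 : ℝ) =
        4 * C / (w : ℝ) ^ (1 / 40 : ℝ) := by field_simp
    _ ≤ ε := by
        rw [div_le_iff₀ h6]
        linarith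

open Classical in
/-- **the law of large numbers for a family** -/
theorem llnR (hD : S_DAV) (h1 : S_ONE) (h2 : S_TWO) (b : ℕ) (hb : 2 ≤ b) (ε : ℝ) (hε : 0 < ε)
    (hε1 : ε ≤ 1) :
    ∃ w₀ : ℕ, 2 ≤ w₀ ∧ ∀ w : ℕ, w₀ ≤ w → ∃ (K : ℝ) (K₀ y₀ : ℕ), 1 ≤ K ∧ ∀ Z Y y N : ℕ, y₀ ≤ y → y ^ K₀ ≤ Y →
      K ≤ N * V y → ∀ a c ρ : ℕ → ℕ, FamR b w a c ρ →
        (N : ℝ) ≤ ((Icc 1 N).filter (fun n => Rough w (ρ n))).card * (w : ℝ) ^ (1 / 20 : ℝ) →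
        (((Ioc Z (Z + Y)).filter (fun j =>
          ε * (Vt w y * ((Icc 1 N).filter (fun n => Rough w (ρ n))).card) <
            |(((Icc 1 N).filter (fun n => Rough y (a n + c n * j))).card : ℝ) -
              Vt w y * ((Icc 1 N).filter (fun n => Rough w (ρ n))).card|)).card : ℝ) ≤ ε * Y := by
  obtain ⟨C, hC0, hCD⟩ := hD b hb
  obtain ⟨w₀, hw₀, hw⟩ := exists_w0R C (ε ^ 3 / 4) hC0 (by positivity)
  refine ⟨w₀, hw₀, fun w hww => ?_⟩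
  obtain ⟨η, hη⟩ : ∃ η : ℝ, η = ε ^ 3 / 16 := ⟨_, rfl⟩
  have hη0 : 0 < η := by rw [hη]; positivity
  have hε31 : ε ^ 3 ≤ 1 := pow_le_one₀ hε.le hε1
  have hη1 : η ≤ 1 := by rw [hη]; linarith
  obtain ⟨K1, y1, hone⟩ := h1 η hη0
  obtain ⟨K2, y2, htwo⟩ := h2 η hη0
  have hw1 : (2 : ℝ) ≤ w := by exact_mod_cast hw₀.trans hww
  have hlog : 0 < (w : ℝ) ^ (1 / 20 : ℝ) := Real.rpow_pos_of_pos (by linarith) _
  obtain ⟨y3, hy3⟩ := exists_nat_ge (32 / ε ^ 3)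
  refine ⟨max 1 (16 / ε ^ 3 * (w : ℝ) ^ (1 / 20 : ℝ)), K1 + K2 + 6, y1 + y2 + y3 + 2 + w,
    le_max_left _ _, ?_⟩
  intro Z Y y N hy hyY hKN a c ρ hfam hNG
  have hy1 : 1 ≤ y := by omega
  have hyr : (1 : ℝ) ≤ y := by exact_mod_cast hy1
  have hVy := V_ge y hy1
  have hVt := V_le_Vt w y
  have hv0 := Vt_pos w y
  have hv1 := Vt_le_one w y
  have hVy0 : 0 < V y := lt_of_lt_of_le (by positivity) hVy
  obtain ⟨v, hv⟩ : ∃ v : ℝ, v = Vt w y := ⟨_, rfl⟩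
  rw [← hv] at hVt hv0 hv1 ⊢
  have hVy1 : V y ≤ 1 := hVt.trans hv1
  have hNr : (0 : ℝ) ≤ N := Nat.cast_nonneg N
  have hNV : N * V y ≤ N := by nlinarith
  have hN1 : (1 : ℝ) ≤ N := (le_max_left _ _).trans (hKN.trans hNV)
  obtain ⟨G, hG⟩ : ∃ G, G = (Icc 1 N).filter (fun n => Rough w (ρ n)) := ⟨_, rfl⟩
  rw [← hG] at hNG ⊢
  obtain ⟨q, hq⟩ : ∃ q : ℝ, q = G.card := ⟨_, rfl⟩
  have hq0 : 0 < q := by
    by_contra hcon
    have hq1 : 0 ≤ q := by rw [hq]; positivity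
    have hq2 : q = 0 := le_antisymm (not_lt.1 hcon) hq1
    rw [← hq, hq2, zero_mul] at hNG
    linarith
  -- windows
  have hpow : ∀ k ≤ K1 + K2 + 6, y ^ k ≤ Y := fun k hk => (Nat.pow_le_pow_right hy1 hk).trans hyY
  have hYr : (y : ℝ) ^ 6 ≤ Y := by exact_mod_cast hpow 6 (by omega)
  have hsqrt : (y : ℝ) ^ 3 ≤ √(Y : ℝ) := by
    apply Real.le_sqrt_of_sq_le
    calc ((y : ℝ) ^ 3) ^ 2 = (y : ℝ) ^ 6 := by ring
      _ ≤ (Y : ℝ) := hYr
  -- the count as a sum over G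
  have hwy : w ≤ y := by omega
  have hAG : ∀ j : ℕ, (Icc 1 N).filter (fun n => Rough y (a n + c n * j)) =
      (G.filter (fun n => ∀ p ∈ pw w y, ¬ p ∣ a n + c n * j)) := by
    intro j
    ext n
    rw [hG, mem_filter, mem_filter, mem_filter, and_assoc]
    apply and_congr_right
    intro _
    constructor
    · intro h
      refine ⟨fun p hp hpw => ?_, fun p hp => ?_⟩
      · rw [← hfam.low n p j hp hpw]
        exact h p hp (hpw.trans hwy)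
      · unfold pw at hp
        rw [mem_filter, mem_Icc] at hp
        exact h p hp.2.1 hp.1.2
    · rintro ⟨h3, h4⟩ p hp hpy
      rcases Nat.lt_or_ge w p with h5 | h5
      · apply h4 p
        unfold pw
        rw [mem_filter, mem_Icc]
        exact ⟨⟨hp.one_lt.le, hpy⟩, hp, h5⟩
      · rw [hfam.low n p j hp h5]
        exact h3 p hp h5
  obtain ⟨τ, hτ⟩ : ∃ τ : ℝ, τ = C / (w : ℝ) ^ (1 / 8 : ℝ) := ⟨_, rfl⟩
  have hw8 : (0 : ℝ) < (w : ℝ) ^ (1 / 8 : ℝ) := Real.rpow_pos_of_pos (by linarith) _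
  have hτ0 : 0 ≤ τ := by rw [hτ]; positivity
  have hY0 : (0 : ℝ) ≤ Y := Nat.cast_nonneg Y
  have hmom := mom2 (Ioc Z (Z + Y)) G N (by rw [hG]; exact filter_subset _ _)
    (fun n j => ∀ p ∈ pw w y, ¬ p ∣ a n + c n * j) (fun h => Dw b w h ^ 2) Y v η τ (√(Y : ℝ)) hY0
    (by rw [Nat.card_Ioc, Nat.add_sub_cancel_left]) hv0.le hv1 hη0.le hη1 hτ0 (Real.sqrt_nonneg _)
    (fun h => one_le_pow₀ (Dw_ge b w h))
    (by
      have := hCD w (by omega) N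
      rw [hτ]
      calc _ ≤ _ := this
        _ = _ := by ring)
    (by
      intro n _
      have h3 := hone w Z Y y (by omega) (hpow K1 (by omega)) (a n) (c n)
        (fun p hp hwp => hfam.unit n p hp hwp)
      rw [← hv] at h3
      refine le_of_eq_of_le ?_ h3
      congr)
    (by
      intro n hn m hm hnm
      have h3 := htwo w Z Y y (by omega) (hpow K2 (by omega)) (a n) (c n) (a m) (c m) b (m - n) hb
        (by omega) (fun p hp hwp => ⟨hfam.unit n p hp hwp, hfam.unit m p hp hwp⟩)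
        (fun p j hp hwp => hfam.coll n m hnm p j hp hwp)
      rw [← hv] at h3
      refine le_of_eq_of_le ?_ h3
      norm_cast
      apply congrArg
      ext j
      simp only [mem_filter]
      apply and_congr_right
      intro _
      constructor
      · rintro ⟨h4, h5⟩ p hp
        exact ⟨h4 p hp, h5 p hp⟩
      · intro h4
        exact ⟨fun p hp => (h4 p hp).1, fun p hp => (h4 p hp).2⟩)
  rw [← hq] at hmom
  have hE : 0 < v * q := mul_pos hv0 hq0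
  have hNq : (N : ℝ) ≤ q * (w : ℝ) ^ (1 / 20 : ℝ) := by
    rw [hq]
    exact hNG
  have hSY : Y * v ^ 2 * (4 * τ * (N : ℝ) ^ 2 + 3 * η * q ^ 2) + 2 * Y * v * q + 4 * q ^ 2 * √(Y : ℝ) ≤
      ε ^ 3 * Y * (v * q) ^ 2 := by
    have a1 : 4 * τ * (N : ℝ) ^ 2 ≤ ε ^ 3 / 4 * q ^ 2 := by
      calc 4 * τ * (N : ℝ) ^ 2 ≤ 4 * τ * (q * (w : ℝ) ^ (1 / 20 : ℝ)) ^ 2 := by
            apply mul_le_mul_of_nonneg_left _ (by positivity)
            exact pow_le_pow_left₀ hNr hNq 2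
        _ = 4 * τ * ((w : ℝ) ^ (1 / 20 : ℝ)) ^ 2 * q ^ 2 := by ring
        _ ≤ ε ^ 3 / 4 * q ^ 2 := by
            apply mul_le_mul_of_nonneg_right _ (by positivity)
            rw [hτ]
            exact hw w hww
    have a2 : 16 / ε ^ 3 ≤ v * q := by
      have b1 : 16 / ε ^ 3 * (w : ℝ) ^ (1 / 20 : ℝ) ≤ N * V y := (le_max_right _ _).trans hKN
      have b2 : N * V y ≤ q * (w : ℝ) ^ (1 / 20 : ℝ) * v :=
        mul_le_mul hNq hVt hVy0.le (by positivity)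
      have b3 : 0 < (w : ℝ) ^ (1 / 20 : ℝ) := by positivity
      have b4 : 16 / ε ^ 3 * (w : ℝ) ^ (1 / 20 : ℝ) ≤ v * q * (w : ℝ) ^ (1 / 20 : ℝ) := by
        calc _ ≤ _ := b1.trans b2
          _ = _ := by ring
      exact le_of_mul_le_mul_right b4 b3
    have hε3 : 0 < ε ^ 3 := by positivity
    have a3 : 2 * Y * v * q ≤ ε ^ 3 / 8 * (Y * (v * q) ^ 2) := by
      rw [div_le_iff₀ hε3] at a2
      have : 0 ≤ (Y : ℝ) * (v * q) := by positivity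
      nlinarith
    have a4 : 32 / ε ^ 3 ≤ √(Y : ℝ) * v ^ 2 := by
      have b1 : (1 / (y : ℝ)) ^ 2 ≤ v ^ 2 := pow_le_pow_left₀ (by positivity) (hVy.trans hVt) 2
      have b2 : (y : ℝ) ≤ √(Y : ℝ) * v ^ 2 := by
        calc (y : ℝ) = (y : ℝ) ^ 3 * (1 / (y : ℝ)) ^ 2 := by field_simp
          _ ≤ √(Y : ℝ) * v ^ 2 := mul_le_mul hsqrt b1 (by positivity) (Real.sqrt_nonneg _)
      have b3 : (y3 : ℝ) ≤ y := by exact_mod_cast (by omega : y3 ≤ y)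
      linarith
    have a5 : 4 * q ^ 2 * √(Y : ℝ) ≤ ε ^ 3 / 8 * (Y * (v * q) ^ 2) := by
      rw [div_le_iff₀ hε3] at a4
      have b1 : √(Y : ℝ) * √(Y : ℝ) = Y := Real.mul_self_sqrt hY0
      have b2 : 0 ≤ √(Y : ℝ) * q ^ 2 := by positivity
      calc 4 * q ^ 2 * √(Y : ℝ) = 1 / 8 * (√(Y : ℝ) * q ^ 2 * 32) := by ring
        _ ≤ 1 / 8 * (√(Y : ℝ) * q ^ 2 * (√(Y : ℝ) * v ^ 2 * ε ^ 3)) := by
            apply mul_le_mul_of_nonneg_left _ (by norm_num)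
            exact mul_le_mul_of_nonneg_left a4 b2
        _ = ε ^ 3 / 8 * (√(Y : ℝ) * √(Y : ℝ) * (v * q) ^ 2) := by ring
        _ = _ := by rw [b1]
    have a6 : 0 ≤ (Y : ℝ) * v ^ 2 := by positivity
    have a7 := mul_le_mul_of_nonneg_left a1 a6
    have a8 : 0 ≤ ε ^ 3 * (Y * (v * q) ^ 2) := by positivity
    have a9 : Y * v ^ 2 * (3 * η * q ^ 2) = 3 / 16 * (ε ^ 3 * (Y * (v * q) ^ 2)) := by
      rw [hη]
      ring
    calc _ = Y * v ^ 2 * (4 * τ * (N : ℝ) ^ 2) + Y * v ^ 2 * (3 * η * q ^ 2) + 2 * Y * v * q +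
          4 * q ^ 2 * √(Y : ℝ) := by ring
      _ ≤ Y * v ^ 2 * (ε ^ 3 / 4 * q ^ 2) + 3 / 16 * (ε ^ 3 * (Y * (v * q) ^ 2)) +
          ε ^ 3 / 8 * (Y * (v * q) ^ 2) + ε ^ 3 / 8 * (Y * (v * q) ^ 2) := by
            rw [a9]
            linarith
      _ = 11 / 16 * (ε ^ 3 * (Y * (v * q) ^ 2)) := by ring
      _ ≤ ε ^ 3 * (Y * (v * q) ^ 2) := by linarith
      _ = _ := by ring
  have hch := cheb (Ioc Z (Z + Y)) (fun j => ((G.filter (fun n => ∀ p ∈ pw w y, ¬ p ∣ a n + c n * j)).card : ℝ))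
    (v * q) ε Y _ hE hε (by
      refine le_of_eq_of_le (Finset.sum_congr rfl (fun j _ => ?_)) hmom
      congr) hSY
  refine le_of_eq_of_le ?_ hch
  norm_cast
  apply congrArg
  apply filter_congr
  intro j _
  rw [hAG j, hq]

end Pool.Agent.H95RU
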