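import Pool.Agent.H95RU.Stm3
import Pool.Agent.H95RU.AP

set_option autoImplicit false

/-!
# Project RU, third part: primes near the repunits, assembly
-/

namespace Pool.Agent.H95RU

open Finset

lemma core3 {g P V L C c t₀ S M : ℝ} (hg : 0 < g) (hP : 0 < P) (hV : 0 < V) (hL : 0 < L) (hC : 0 < C)
    (hc : 0 < c) (ht₀ : 0 < t₀) (hM : 0 ≤ M) (hS : S ≤ g) (ht : t₀ * (V * L) ≤ g)
    (h : (g * (c / (P * V))) ^ 2 ≤ M * (g * (C / (P * V)) + 2 * (C / (P * V ^ 2 * L)) * (g ^ 2 + g * S))) :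
    c ^ 2 * t₀ / (C * (1 + 4 * t₀)) * L / P ≤ M := by
  obtain ⟨t, htt⟩ : ∃ t, t = g / (V * L) := ⟨_, rfl⟩
  have hVL : 0 < V * L := by positivity
  have hgt : g = t * (V * L) := by
    rw [htt]
    field_simp
  have htpos : 0 < t := by rw [htt]; positivity
  have htt0 : t₀ ≤ t := by
    rw [hgt] at ht
    exact le_of_mul_le_mul_right ht hVL
  have h1 : g * (C / (P * V)) + 2 * (C / (P * V ^ 2 * L)) * (g ^ 2 + g * S) ≤ t * L * C / P * (1 + 4 * t) := by
    have e1 : g * (C / (P * V)) = t * L * C / P := by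
      rw [hgt]
      field_simp
    have e2 : 2 * (C / (P * V ^ 2 * L)) * (g ^ 2 + g * g) = t * L * C / P * (4 * t) := by
      rw [hgt]
      field_simp
      ring
    have e3 : 2 * (C / (P * V ^ 2 * L)) * (g ^ 2 + g * S) ≤ 2 * (C / (P * V ^ 2 * L)) * (g ^ 2 + g * g) := by
      apply mul_le_mul_of_nonneg_left _ (by positivity)
      have := mul_le_mul_of_nonneg_left hS hg.le
      linarith
    rw [e1]
    rw [e2] at e3
    linarith
  have h2 : (t * L / P) * (t * L * c ^ 2 / P) ≤ (t * L / P) * (M * C * (1 + 4 * t)) := by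
    calc (t * L / P) * (t * L * c ^ 2 / P) = (g * (c / (P * V))) ^ 2 := by
          rw [hgt]
          field_simp
      _ ≤ M * (g * (C / (P * V)) + 2 * (C / (P * V ^ 2 * L)) * (g ^ 2 + g * S)) := h
      _ ≤ M * (t * L * C / P * (1 + 4 * t)) := mul_le_mul_of_nonneg_left h1 hM
      _ = (t * L / P) * (M * C * (1 + 4 * t)) := by ring
  have h3 : t * L * c ^ 2 / P ≤ M * C * (1 + 4 * t) := le_of_mul_le_mul_left h2 (by positivity)
  have h4 : t₀ * L * c ^ 2 / P ≤ M * C * (1 + 4 * t₀) := by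
    have hr0 : 0 ≤ t₀ / t := by positivity
    have hr1 : t₀ / t ≤ 1 := by
      rw [div_le_one htpos]
      exact htt0
    have e1 := mul_le_mul_of_nonneg_left h3 hr0
    have e2 : t₀ / t * (t * L * c ^ 2 / P) = t₀ * L * c ^ 2 / P := by
      field_simp
    have e3 : t₀ / t * (M * C * (1 + 4 * t)) = M * C * (t₀ / t + 4 * t₀) := by
      field_simp
    rw [e2, e3] at e1
    refine e1.trans ?_
    apply mul_le_mul_of_nonneg_left _ (by positivity)
    linarith
  have e5 : c ^ 2 * t₀ / (C * (1 + 4 * t₀)) * L / P = (t₀ * L * c ^ 2 / P) / (C * (1 + 4 * t₀)) := by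
    field_simp
  rw [e5, div_le_iff₀ (by positivity)]
  linarith

lemma mf3 (s : Finset ℕ) (p : ℕ → Prop) (inst : DecidablePred p) (a : ℕ) (h : a ∈ @Finset.filter ℕ p inst s) :
    a ∈ s ∧ p a := Finset.mem_filter.1 h

open Classical in
/-- the lower bound with `z ^ K` -/
theorem main3z (hFST : S_FST) (hDYA : S_DYA) (hCSW : S_CSW) (hCNT : S_CNT) (hDAV : S_DAV) (b : ℕ) (hb : 2 ≤ b) :
    ∃ (K : ℕ) (c : ℝ), 1 ≤ K ∧ 0 < c ∧ ∃ w₀ : ℕ, b ≤ w₀ ∧ ∀ w : ℕ, w₀ ≤ w → ∃ z₀ : ℕ, ∀ z : ℕ, z₀ ≤ z →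
      c * Real.log z / PP w ≤
        ∑ k ∈ (Icc 1 (z ^ K)).filter (fun k => k ≡ 1 [MOD PP w] ∧
          ∃ n : ℕ, 1 ≤ n ∧ (n : ℝ) ≤ Real.log k ∧ (fol b k n).Prime), (1 : ℝ) / k := by
  obtain ⟨K, c, hK, hc, hF⟩ := hFST
  obtain ⟨C, hC, hD⟩ := hDYA K hK
  obtain ⟨c₁, hc₁, hN⟩ := hCNT b hb
  obtain ⟨CD, hCD, hS⟩ := hDAV b hb
  obtain ⟨c2, C2, hc2, hC2, hVb⟩ := Pool.Agent.Y810.SQ.V1_bounds
  have hb1 : (2 : ℝ) ≤ b := by exact_mod_cast hb
  have hlb : Real.log 2 ≤ Real.log b := Real.log_le_log (by norm_num) hb1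
  have hl2 : (0.6931471803 : ℝ) < Real.log 2 := Real.log_two_gt_d9
  have hlb0 : 0 < Real.log b := by linarith
  obtain ⟨δ, hδ⟩ : ∃ δ : ℝ, δ = 1 / (32 * Real.log b) := ⟨_, rfl⟩
  have hδ0 : 0 < δ := by rw [hδ]; positivity
  have hδ1 : 2 * δ ≤ 1 := by
    rw [hδ, ← mul_div_assoc, div_le_one (by positivity)]
    linarith
  obtain ⟨t₀, ht₀⟩ : ∃ t₀ : ℝ, t₀ = c₁ * δ / (2 * C2) := ⟨_, rfl⟩
  have ht₀0 : 0 < t₀ := by rw [ht₀]; positivity
  obtain ⟨w1, hw1⟩ : ∃ w1 : ℕ, ∀ w : ℕ, w1 ≤ w → CD * Real.log w ≤ c₁ * (w : ℝ) ^ (1 / 8 : ℝ) := by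
    have e1 := (isLittleO_log_rpow_atTop (r := 1 / 8) (by norm_num)).comp_tendsto
      (tendsto_natCast_atTop_atTop (R := ℝ))
    have e2 := e1.bound (show 0 < c₁ / (CD + 1) by positivity)
    obtain ⟨w1, hw1⟩ := Filter.eventually_atTop.1 e2
    refine ⟨w1 + 1, fun w hw => ?_⟩
    have e3 := hw1 w (by omega)
    simp only [Function.comp_apply] at e3
    have hw' : (1 : ℝ) ≤ w := by exact_mod_cast (by omega : 1 ≤ w)
    rw [Real.norm_of_nonneg (Real.log_nonneg hw'), Real.norm_of_nonneg (by positivity)] at e3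
    have e4 : 0 ≤ Real.log (w : ℝ) := Real.log_nonneg hw'
    calc CD * Real.log w ≤ (CD + 1) * Real.log w := by nlinarith
      _ ≤ (CD + 1) * (c₁ / (CD + 1) * (w : ℝ) ^ (1 / 8 : ℝ)) := mul_le_mul_of_nonneg_left e3 (by positivity)
      _ = c₁ * (w : ℝ) ^ (1 / 8 : ℝ) := by field_simp
  refine ⟨K, c ^ 2 * t₀ / (C * (1 + 4 * t₀)), hK, by positivity, max w1 b, le_max_right _ _, fun w hw => ?_⟩
  have hww1 : w1 ≤ w := (le_max_left _ _).trans hw
  have hbw : b ≤ w := (le_max_right _ _).trans hw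
  have hw2 : 2 ≤ w := hb.trans hbw
  have hw2r : (2 : ℝ) ≤ w := by exact_mod_cast hw2
  have hlw : 0 < Real.log w := Real.log_pos (by linarith)
  obtain ⟨z1, hz1⟩ := hF b w hb hbw
  obtain ⟨z2, hz2⟩ := hD b w hb hbw
  obtain ⟨N₀, hN₀⟩ := hN w hw2
  have hPpos : 0 < PP w := Finset.prod_pos fun p hp => (mem_filter.1 hp).2.pos
  have hPr : (0 : ℝ) < PP w := by exact_mod_cast hPpos
  obtain ⟨hV1, hV2⟩ := hVb w hw2
  have hV1' : c2 / Real.log w ≤ V w := hV1
  have hV2' : V w ≤ C2 / Real.log w := hV2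
  have hV0 : 0 < V w := lt_of_lt_of_le (by positivity) hV1'
  obtain ⟨z3, hz3⟩ := exists_nat_ge (Real.exp ((N₀ + 2) / δ))
  refine ⟨max (max z1 z2) (max z3 (PP w ^ 32 + 2)), fun z hz => ?_⟩
  simp only [max_le_iff] at hz
  obtain ⟨⟨hzz1, hzz2⟩, hzz3, hzz4⟩ := hz
  have hz0 : (0 : ℝ) < z := by exact_mod_cast (by omega : 0 < z)
  have hL : (N₀ + 2) / δ ≤ Real.log z := by
    rw [Real.le_log_iff_exp_le hz0]
    exact hz3.trans (by exact_mod_cast hzz3)
  have hL0 : 0 < Real.log z := lt_of_lt_of_le (by positivity) hL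
  rw [div_le_iff₀ hδ0] at hL
  obtain ⟨N, hNdef⟩ : ∃ N, N = ⌊δ * Real.log z⌋₊ := ⟨_, rfl⟩
  have hNle : (N : ℝ) ≤ δ * Real.log z := by
    rw [hNdef]
    exact Nat.floor_le (by positivity)
  have hNge : δ * Real.log z < N + 1 := by
    rw [hNdef]
    exact Nat.lt_floor_add_one _
  have hNN : (N₀ : ℝ) < N := by linarith
  have hNN' : N₀ ≤ N := by
    have : N₀ < N := by exact_mod_cast hNN
    omega
  have hN2 : δ * Real.log z / 2 ≤ N := by
    have : (0 : ℝ) ≤ N₀ := Nat.cast_nonneg _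
    linarith
  -- the size of the moduli
  have hbN : (b : ℝ) ^ (32 * N) ≤ z := by
    have e1 : ((32 * N : ℕ) : ℝ) * Real.log b ≤ Real.log z := by
      push_cast
      calc 32 * (N : ℝ) * Real.log b = N * (32 * Real.log b) := by ring
        _ ≤ δ * Real.log z * (32 * Real.log b) := mul_le_mul_of_nonneg_right hNle (by positivity)
        _ = Real.log z := by
            rw [hδ]
            field_simp
    rw [← Real.log_pow] at e1
    exact (Real.log_le_log_iff (by positivity) hz0).1 e1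
  have hbN' : b ^ (32 * N) ≤ z := by exact_mod_cast hbN
  have hmod : ∀ n ∈ Icc 1 N, (b ^ n * PP w) ^ 16 ≤ z := by
    intro n hn
    rw [mem_Icc] at hn
    have e1 : ((b ^ n * PP w) ^ 16) ^ 2 ≤ z ^ 2 := by
      calc ((b ^ n * PP w) ^ 16) ^ 2 = b ^ (32 * n) * PP w ^ 32 := by
            rw [← pow_mul, mul_pow, ← pow_mul]
            ring_nf
        _ ≤ b ^ (32 * N) * PP w ^ 32 := by
            apply Nat.mul_le_mul_right
            exact Nat.pow_le_pow_right (by omega) (by omega)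
        _ ≤ z * z := Nat.mul_le_mul hbN' (by omega)
        _ = z ^ 2 := by ring
    exact (Nat.pow_le_pow_iff_left (by norm_num)).1 e1
  -- the set G
  obtain ⟨G, hG⟩ : ∃ G, G = (Icc 1 N).filter (fun n => Rough w (R b (n + 1))) := ⟨_, rfl⟩
  have hGc : c₁ * N / Real.log w ≤ (G.card : ℝ) := by
    rw [hG]
    exact hN₀ N hNN' 1 le_rfl
  have hNpos : (0 : ℝ) < N := lt_of_le_of_lt (Nat.cast_nonneg _) hNN
  have hG0 : (0 : ℝ) < G.card := lt_of_lt_of_le (by positivity) hGc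
  have hSg : CD * N / (w : ℝ) ^ (1 / 8 : ℝ) ≤ G.card := by
    refine le_trans ?_ hGc
    rw [div_le_div_iff₀ (by positivity) hlw]
    have := mul_le_mul_of_nonneg_left (hw1 w hww1) hNpos.le
    linarith
  have htg : t₀ * (V w * Real.log z) ≤ G.card := by
    refine le_trans ?_ hGc
    rw [le_div_iff₀ hlw]
    rw [le_div_iff₀ hlw] at hV2'
    calc t₀ * (V w * Real.log z) * Real.log w = t₀ * Real.log z * (V w * Real.log w) := by ring
      _ ≤ t₀ * Real.log z * C2 := mul_le_mul_of_nonneg_left hV2' (by positivity)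
      _ = c₁ * (δ * Real.log z / 2) := by
          rw [ht₀]
          field_simp
      _ ≤ c₁ * N := mul_le_mul_of_nonneg_left hN2 hc₁.le
  obtain ⟨J, hJ⟩ : ∃ J, J = (Icc 1 (z ^ K)).filter (fun k => z ≤ k ^ 2 ∧ k ≡ 1 [MOD PP w]) := ⟨_, rfl⟩
  obtain ⟨hD1, hD2⟩ := hz2 z hzz2
  have hcs := hCSW J G N (by rw [hG]; exact filter_subset _ _) (fun n k => (fol b k n).Prime)
    (fun k => 1 / (k : ℝ)) (fun h => Dw b w h ^ 2) (c / (PP w * V w)) (C / (PP w * V w))
    (C / (PP w * V w ^ 2 * Real.log z)) (CD * N / (w : ℝ) ^ (1 / 8 : ℝ))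
    (fun k => by positivity) (by positivity) (by positivity) (by positivity)
    (fun h => by
      have h1 : (1 : ℝ) ≤ Dw b w h := by
        unfold Dw
        induction pf b w h using Finset.induction_on with
        | empty => simp
        | insert a S ha ih =>
          rw [prod_insert ha]
          have : (0 : ℝ) ≤ 1 / (a : ℝ) := by positivity
          nlinarith
      exact one_le_pow₀ h1)
    (hS w (by omega) N)
    (fun n hn => by
      rw [hG, mem_filter, mem_Icc] at hn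
      refine (hz1 z hzz1 n hn.1.1 (hmod n (mem_Icc.2 hn.1)) hn.2).trans (le_of_eq ?_)
      refine Finset.sum_congr ?_ fun _ _ => rfl
      ext k
      rw [hJ]
      simp only [mem_filter]
      tauto)
    (fun n _ => by
      refine le_trans (le_of_eq ?_) (hD1 n)
      refine Finset.sum_congr ?_ fun _ _ => rfl
      ext k
      rw [hJ]
      simp only [mem_filter]
      tauto)
    (fun n _ m _ hnm => by
      have e1 := hD2 n m hnm
      have e2 : C * Dw b w (m - n) ^ 2 / (PP w * V w ^ 2 * Real.log z) =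
          C / (PP w * V w ^ 2 * Real.log z) * Dw b w (m - n) ^ 2 := by ring
      rw [e2] at e1
      refine le_trans (le_of_eq ?_) e1
      refine Finset.sum_congr ?_ fun _ _ => rfl
      ext k
      rw [hJ]
      simp only [mem_filter]
      tauto)
  have hfin := core3 hG0 hPr hV0 hL0 hC hc ht₀0 (Finset.sum_nonneg fun k _ => by positivity) hSg htg hcs
  have hle : ∀ T : Finset ℕ, (∀ k ∈ T, k ∈ J ∧ ∃ n ∈ G, (fol b k n).Prime) → ∑ k ∈ T, 1 / (k : ℝ) ≤
      ∑ k ∈ (Icc 1 (z ^ K)).filter (fun k => k ≡ 1 [MOD PP w] ∧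
        ∃ n : ℕ, 1 ≤ n ∧ (n : ℝ) ≤ Real.log k ∧ (fol b k n).Prime), (1 : ℝ) / k := by
    intro T hT
    apply Finset.sum_le_sum_of_subset_of_nonneg
    · intro k hk
      obtain ⟨hk1, n, hn, hp⟩ := hT k hk
      rw [hJ, mem_filter] at hk1
      obtain ⟨hk1, hk2, hk3⟩ := hk1
      rw [hG, mem_filter, mem_Icc] at hn
      rw [mem_filter]
      refine ⟨hk1, hk3, n, hn.1.1, ?_, hp⟩
      rw [mem_Icc] at hk1
      have hk0 : (0 : ℝ) < k := by exact_mod_cast hk1.1
      have e1 : Real.log z ≤ 2 * Real.log k := by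
        have e2 : (z : ℝ) ≤ (k : ℝ) ^ 2 := by exact_mod_cast hk2
        have e3 := Real.log_le_log hz0 e2
        rw [Real.log_pow] at e3
        exact_mod_cast e3
      have e4 : (n : ℝ) ≤ N := by exact_mod_cast hn.1.2
      have e5 : 0 ≤ Real.log (k : ℝ) := by linarith
      calc (n : ℝ) ≤ N := e4
        _ ≤ δ * Real.log z := hNle
        _ ≤ δ * (2 * Real.log k) := mul_le_mul_of_nonneg_left e1 hδ0.le
        _ = (2 * δ) * Real.log k := by ring
        _ ≤ 1 * Real.log k := mul_le_mul_of_nonneg_right hδ1 e5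
        _ = Real.log k := one_mul _
    · intro k _ _
      positivity
  exact hfin.trans (hle _ fun k hk => mf3 _ _ _ _ hk)

open Classical in
/-- **primes near the repunits** -/
theorem main3 (hFST : S_FST) (hDYA : S_DYA) (hCSW : S_CSW) (hCNT : S_CNT) (hDAV : S_DAV) (b : ℕ) (hb : 2 ≤ b) :
    ∃ c : ℝ, 0 < c ∧ ∀ w : ℕ, ∃ X₀ : ℕ, ∀ X : ℕ, X₀ ≤ X →
      c * Real.log X / PP w ≤
        ∑ k ∈ (Icc 1 X).filter (fun k => k ≡ 1 [MOD PP w] ∧
          ∃ n : ℕ, 1 ≤ n ∧ (n : ℝ) ≤ Real.log k ∧ (fol b k n).Prime), (1 : ℝ) / k := by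
  obtain ⟨K, c, hK, hc, w₀, hw₀, hmain⟩ := main3z hFST hDYA hCSW hCNT hDAV b hb
  have hPpos : ∀ w, 0 < PP w := fun w => Finset.prod_pos fun p hp => (mem_filter.1 hp).2.pos
  have hPr : ∀ w, (0 : ℝ) < PP w := fun w => by exact_mod_cast hPpos w
  have hKr : (0 : ℝ) < K := by exact_mod_cast hK
  refine ⟨c / (2 * K * PP w₀), ?_, fun w => ?_⟩
  · have := hPr w₀
    positivity
  have hdvd : PP w ∣ PP (max w w₀) := by
    unfold PP
    apply Finset.prod_dvd_prod_of_subset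
    intro p hp
    rw [mem_filter, mem_Icc] at hp ⊢
    exact ⟨⟨hp.1.1, hp.1.2.trans (le_max_left _ _)⟩, hp.2⟩
  have hPle : PP (max w w₀) ≤ PP w * PP w₀ := by
    rcases le_total w w₀ with h | h
    · rw [max_eq_right h]
      exact Nat.le_mul_of_pos_left _ (hPpos w)
    · rw [max_eq_left h]
      exact Nat.le_mul_of_pos_right _ (hPpos w₀)
  obtain ⟨z₀, hz₀⟩ := hmain (max w w₀) (le_max_right _ _)
  refine ⟨(z₀ + 2) ^ K * 4 ^ K, fun X hX => ?_⟩
  -- z = floor of the K-th root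
  obtain ⟨z, hz1, hz2⟩ : ∃ z : ℕ, z ^ K ≤ X ∧ X < (z + 1) ^ K := by
    refine ⟨Nat.findGreatest (fun z => z ^ K ≤ X) X, ?_, ?_⟩
    · exact Nat.findGreatest_spec (P := fun z => z ^ K ≤ X) (Nat.zero_le X)
        (by rw [zero_pow (by omega)]; exact Nat.zero_le _)
    · by_contra hcon
      push Not at hcon
      have h1 : Nat.findGreatest (fun z => z ^ K ≤ X) X + 1 ≤ X :=
        (Nat.le_self_pow (by omega) _).trans hcon
      have h2 := Nat.le_findGreatest (P := fun z => z ^ K ≤ X) h1 hcon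
      omega
  have hz3 : z₀ + 2 ≤ z := by
    by_contra hcon
    push Not at hcon
    have h1 : (z + 1) ^ K ≤ (z₀ + 2) ^ K := Nat.pow_le_pow_left (by omega) K
    have h2 : (z₀ + 2) ^ K ≤ (z₀ + 2) ^ K * 4 ^ K := Nat.le_mul_of_pos_right _ (by positivity)
    omega
  have hzr : (2 : ℝ) ≤ z := by exact_mod_cast (by omega : 2 ≤ z)
  have hlogX : Real.log X ≤ 2 * K * Real.log z := by
    have h1 : (X : ℝ) ≤ ((z : ℝ) ^ 2) ^ K := by
      have h2 : (z + 1) ^ K ≤ (z ^ 2) ^ K := Nat.pow_le_pow_left (by nlinarith) K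
      have h3 : X ≤ (z ^ 2) ^ K := by omega
      exact_mod_cast h3
    have hX0 : (0 : ℝ) < X := by
      have : 0 < (z₀ + 2) ^ K * 4 ^ K := by positivity
      exact_mod_cast (by omega : 0 < X)
    have h4 := Real.log_le_log hX0 h1
    rw [Real.log_pow, Real.log_pow] at h4
    push_cast at h4
    linarith
  have h5 := hz₀ z (by omega)
  have hlz : 0 ≤ Real.log (z : ℝ) := Real.log_nonneg (by linarith)
  calc c / (2 * K * PP w₀) * Real.log X / PP w ≤ c / (2 * K * PP w₀) * (2 * K * Real.log z) / PP w := by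
        apply div_le_div_of_nonneg_right _ (hPr w).le
        apply mul_le_mul_of_nonneg_left hlogX
        have := hPr w₀
        positivity
    _ = c * Real.log z / (PP w * PP w₀) := by
        have h6 := hPr w₀
        have h7 := hPr w
        field_simp
    _ ≤ c * Real.log z / PP (max w w₀) := by
        apply div_le_div_of_nonneg_left (by positivity) (hPr _)
        exact_mod_cast hPle
    _ ≤ _ := h5
    _ ≤ _ := by
        apply Finset.sum_le_sum_of_subset_of_nonneg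
        · intro k hk
          rw [mem_filter, mem_Icc] at hk ⊢
          exact ⟨⟨hk.1.1, hk.1.2.trans hz1⟩, hk.2.1.of_dvd hdvd, hk.2.2⟩
        · intro k _ _
          positivity

end Pool.Agent.H95RU
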