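import Pool.Agent.H95RU.Stm4
import Pool.Agent.H95RU.Main2
import Pool.Agent.TH464.PO.Comb

set_option autoImplicit false

/-!
# Project RU, fourth part: prime exponents, assembly
-/

namespace Pool.Agent.H95RU

open Finset

lemma Dw_one4 (b w h : ℕ) : 1 ≤ Dw b w h := by
  unfold Dw
  induction pf b w h using Finset.induction_on with
  | empty => simp
  | insert a S ha ih =>
    rw [prod_insert ha]
    have : (0 : ℝ) ≤ 1 / (a : ℝ) := by positivity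
    nlinarith

/-- there are many primes -/
lemma prm_large (M : ℕ) : ∃ N₁ : ℕ, ∀ N : ℕ, N₁ ≤ N → M ≤ (prm N).card := by
  obtain ⟨t, ht, hc⟩ := Nat.infinite_setOf_prime.exists_subset_card_eq M
  refine ⟨t.sup id, fun N hN => ?_⟩
  rw [← hc]
  apply Finset.card_le_card
  intro p hp
  have h1 : p.Prime := ht hp
  have h2 : p ≤ t.sup id := Finset.le_sup (f := id) hp
  unfold prm
  rw [mem_filter, mem_Icc]
  exact ⟨⟨h1.one_lt.le, h2.trans hN⟩, h1⟩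

/-- the size of `G` -/
lemma G_large (w L : ℕ) (hw : 1 ≤ w) : ∃ N₁ : ℕ, ∀ N : ℕ, N₁ ≤ N → ∀ G : Finset ℕ,
    ((prm N).card : ℝ) ≤ G.card * (w : ℝ) ^ (1 / 40 : ℝ) → L ≤ G.card := by
  obtain ⟨N₁, h⟩ := prm_large (w * L)
  refine ⟨N₁, fun N hN G hG => ?_⟩
  have hw1 : (1 : ℝ) ≤ w := by exact_mod_cast hw
  have h5 : (w : ℝ) ^ (1 / 40 : ℝ) ≤ w := by
    calc (w : ℝ) ^ (1 / 40 : ℝ) ≤ (w : ℝ) ^ (1 : ℝ) := Real.rpow_le_rpow_of_exponent_le hw1 (by norm_num)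
      _ = w := Real.rpow_one _
  have h6 : ((w * L : ℕ) : ℝ) ≤ G.card * w := by
    calc ((w * L : ℕ) : ℝ) ≤ (prm N).card := by exact_mod_cast h N hN
      _ ≤ G.card * (w : ℝ) ^ (1 / 40 : ℝ) := hG
      _ ≤ G.card * w := mul_le_mul_of_nonneg_left h5 (Nat.cast_nonneg _)
  have h7 : w * L ≤ w * G.card := by
    rw [mul_comm w G.card]
    exact_mod_cast h6
  exact Nat.le_of_mul_le_mul_left h7 (by omega)

/-- the pair sum -/
lemma pairG (hP : S_PAIR) (b : ℕ) (hb : 2 ≤ b) (κ : ℕ) (θ : ℝ) (hθ : 0 < θ) :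
    ∃ w₀ N₀ : ℕ, ∀ w : ℕ, w₀ ≤ w → ∀ N : ℕ, N₀ ≤ N → ∀ G : Finset ℕ, G ⊆ prm N →
      ((prm N).card : ℝ) ≤ G.card * (w : ℝ) ^ (1 / 40 : ℝ) →
      ∑ x ∈ prs G, (Dw b w (x.2 - x.1) ^ κ - 1) ≤ θ * (G.card : ℝ) ^ 2 := by
  obtain ⟨C, hC, N₀, h⟩ := hP b hb κ
  obtain ⟨w₁, hw₁⟩ : ∃ w₁ : ℕ, ∀ w : ℕ, w₁ ≤ w → C / (w : ℝ) ^ (1 / 80 : ℝ) ≤ θ := by
    have ht : Filter.Tendsto (fun w : ℕ => C / (w : ℝ) ^ (1 / 80 : ℝ)) Filter.atTop (nhds 0) := by
      apply Filter.Tendsto.const_div_atTop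
      exact (tendsto_rpow_atTop (by norm_num)).comp tendsto_natCast_atTop_atTop
    have := (ht.eventually (gt_mem_nhds hθ))
    obtain ⟨w₁, h⟩ := Filter.eventually_atTop.1 this
    exact ⟨w₁, fun w hw => (h w hw).le⟩
  refine ⟨w₁ + 1, N₀, fun w hw N hN G hG hGN => ?_⟩
  have hw0 : (0 : ℝ) < w := by exact_mod_cast (by omega : 0 < w)
  have h1 : ∑ x ∈ prs G, (Dw b w (x.2 - x.1) ^ κ - 1) ≤ ∑ x ∈ prs (prm N), (Dw b w (x.2 - x.1) ^ κ - 1) := by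
    apply Finset.sum_le_sum_of_subset_of_nonneg
    · unfold prs
      apply Finset.filter_subset_filter
      exact Finset.product_subset_product hG hG
    · intro x _ _
      have := one_le_pow₀ (Dw_one4 b w (x.2 - x.1)) (n := κ)
      linarith
  refine h1.trans ((h w (by omega) N hN).trans ?_)
  have e1 : (w : ℝ) ^ (1 / 16 : ℝ) = (w : ℝ) ^ (1 / 80 : ℝ) * ((w : ℝ) ^ (1 / 40 : ℝ)) ^ 2 := by
    rw [← Real.rpow_natCast ((w : ℝ) ^ (1 / 40 : ℝ)) 2, ← Real.rpow_mul hw0.le, ← Real.rpow_add hw0]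
    congr 1
    norm_num
  have e2 : (0 : ℝ) < (w : ℝ) ^ (1 / 80 : ℝ) := by positivity
  have e3 : (0 : ℝ) < (w : ℝ) ^ (1 / 40 : ℝ) := by positivity
  calc C / (w : ℝ) ^ (1 / 16 : ℝ) * ((prm N).card : ℝ) ^ 2 ≤
        C / (w : ℝ) ^ (1 / 16 : ℝ) * (G.card * (w : ℝ) ^ (1 / 40 : ℝ)) ^ 2 := by
        apply mul_le_mul_of_nonneg_left _ (by positivity)
        exact pow_le_pow_left₀ (Nat.cast_nonneg _) hGN 2
    _ = C / (w : ℝ) ^ (1 / 80 : ℝ) * (G.card : ℝ) ^ 2 := by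
        rw [e1]
        field_simp
    _ ≤ θ * (G.card : ℝ) ^ 2 := mul_le_mul_of_nonneg_right (hw₁ w (by omega)) (by positivity)

open Classical in
/-- **the Poisson law for prime exponents** -/
theorem poiP (hM : S_MOMP) (hP : S_PAIR) (b : ℕ) (hb : 2 ≤ b) (x₀ ε : ℝ) (hx₀ : 0 ≤ x₀) (hε : 0 < ε) :
    ∃ w₀ : ℕ, ∀ w : ℕ, w₀ ≤ w → ∃ K₀ y₀ N₀ : ℕ, ∀ Z Y y N : ℕ, y₀ ≤ y → y ^ K₀ ≤ Y → N₀ ≤ N →
      ∀ (a c : ℕ → ℕ) (G : Finset ℕ), G ⊆ prm N → ((prm N).card : ℝ) ≤ G.card * (w : ℝ) ^ (1 / 40 : ℝ) →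
        UnitF w c G → CollF b w a c G → Vt w y * G.card ≤ x₀ → ∀ A : Finset ℕ,
        |(((Ioc Z (Z + Y)).filter (fun j =>
          (G.filter (fun n => ∀ p ∈ pw w y, ¬ p ∣ a n + c n * j)).card ∈ A)).card : ℝ) -
          Y * ∑ i ∈ A, Real.exp (-(Vt w y * G.card)) * (Vt w y * G.card) ^ i / i.factorial| ≤ ε * Y := by
  obtain ⟨R, η, hη, htv⟩ := Pool.Agent.TH464.PO.law_tv x₀ ε hx₀ hε
  obtain ⟨X1, hX1⟩ : ∃ X1 : ℝ, X1 = (1 + x₀) ^ (R + 1) := ⟨_, rfl⟩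
  have hX1pos : 1 ≤ X1 := by rw [hX1]; exact one_le_pow₀ (by linarith)
  obtain ⟨η1, hη1⟩ : ∃ η1 : ℝ, η1 = η / (2 * X1) := ⟨_, rfl⟩
  have hη10 : 0 < η1 := by rw [hη1]; positivity
  have hη12 : η1 * X1 = η / 2 := by
    rw [hη1]
    field_simp
  choose w0 K0 y0 N0 hmom using fun k : ℕ => hM b hb (k + 1) (by omega) η1 hη10
  choose w1 N1 hpair using fun k : ℕ => pairG hP b hb (2 * (k + 1) * (k + 1) ^ 2) (η1 / 4) (by positivity)
  refine ⟨(∑ k ∈ range R, w0 k) + (∑ k ∈ range R, w1 k) + 1, fun w hw => ?_⟩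
  have hwk : ∀ k ∈ range R, w0 k ≤ w ∧ w1 k ≤ w := fun k hk => by
    have h1 := Finset.single_le_sum (f := w0) (fun _ _ => Nat.zero_le _) hk
    have h2 := Finset.single_le_sum (f := w1) (fun _ _ => Nat.zero_le _) hk
    constructor <;> omega
  obtain ⟨y1, hy1⟩ := exists_nat_ge (2 * X1 / η)
  obtain ⟨N2, hN2⟩ := G_large w (∑ k ∈ range R, N0 k) (by omega)
  refine ⟨(∑ k ∈ range R, K0 k) + 2 * R + 4, (∑ k ∈ range R, y0 k) + y1 + w + 1,
    (∑ k ∈ range R, N1 k) + N2, ?_⟩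
  intro Z Y y N hy hyY hN a c G hGN hcG hU hCo hE A
  have hy1' : 1 ≤ y := by omega
  have hwy : w ≤ y := by omega
  have hyr : (1 : ℝ) ≤ y := by exact_mod_cast hy1'
  have hGc := hN2 N (by omega) G hcG
  obtain ⟨x, hxdef⟩ : ∃ x, x = Vt w y * G.card := ⟨_, rfl⟩
  have hv0 := Vt_pos w y
  have hx00 : 0 ≤ x := by rw [hxdef]; positivity
  rw [← hxdef] at hE ⊢
  have hY0 : (0 : ℝ) ≤ Y := Nat.cast_nonneg Y
  have hcard : ((Ioc Z (Z + Y)).card : ℝ) = Y := by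
    rw [Nat.card_Ioc, Nat.add_sub_cancel_left]
  -- the size of G
  have hVt : 1 / (y : ℝ) ≤ Vt w y := (V_ge y hy1').trans (V_le_Vt w y)
  have hq : (G.card : ℝ) ≤ x₀ * y := by
    have h1 : 1 / (y : ℝ) * G.card ≤ x₀ := by
      refine le_trans ?_ hE
      rw [hxdef]
      exact mul_le_mul_of_nonneg_right hVt (Nat.cast_nonneg _)
    rw [one_div, inv_mul_le_iff₀ (by linarith)] at h1
    linarith
  have hsq : (y : ℝ) ^ (R + 1) * √(Y : ℝ) * y ≤ Y := by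
    have h1 : (y : ℝ) ^ (R + 2) ≤ √(Y : ℝ) := by
      apply Real.le_sqrt_of_sq_le
      calc ((y : ℝ) ^ (R + 2)) ^ 2 = (y : ℝ) ^ (2 * R + 4) := by
            rw [← pow_mul]
            congr 1
            ring
        _ ≤ (Y : ℝ) := by
            have h2 : y ^ (2 * R + 4) ≤ Y := (Nat.pow_le_pow_right hy1' (by omega)).trans hyY
            exact_mod_cast h2
    calc (y : ℝ) ^ (R + 1) * √(Y : ℝ) * y = (y : ℝ) ^ (R + 2) * √(Y : ℝ) := by ring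
      _ ≤ √(Y : ℝ) * √(Y : ℝ) := mul_le_mul_of_nonneg_right h1 (Real.sqrt_nonneg _)
      _ = Y := Real.mul_self_sqrt hY0
  have hmain := htv (Ioc Z (Z + Y)) (fun j => (G.filter (fun n => ∀ p ∈ pw w y, ¬ p ∣ a n + c n * j)).card) x
    hx00 hE (by
    intro k hk
    rw [hcard]
    rcases k with _ | k
    · simp
      positivity
    · have hkR : k ∈ range R := mem_range.2 (by omega)
      have hKk : K0 k ≤ ∑ k ∈ range R, K0 k := Finset.single_le_sum (f := K0) (fun _ _ => Nat.zero_le _) hkR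
      have hyk : y0 k ≤ ∑ k ∈ range R, y0 k := Finset.single_le_sum (f := y0) (fun _ _ => Nat.zero_le _) hkR
      have hNk : N0 k ≤ ∑ k ∈ range R, N0 k := Finset.single_le_sum (f := N0) (fun _ _ => Nat.zero_le _) hkR
      have hN1k : N1 k ≤ ∑ k ∈ range R, N1 k := Finset.single_le_sum (f := N1) (fun _ _ => Nat.zero_le _) hkR
      have hpr := hpair k w (hwk k hkR).2 N (by omega) G hGN hcG
      have h1 := hmom k w Z Y y (hwk k hkR).1 (by omega)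
        ((Nat.pow_le_pow_right hy1' (by omega)).trans hyY) a c G (by omega) hpr hU hCo
      rw [← hxdef] at h1
      refine (le_trans (le_of_eq ?_) h1).trans ?_
      · congr
      have h2 : x ^ (k + 1) ≤ X1 := by
        calc x ^ (k + 1) ≤ (1 + x₀) ^ (k + 1) := pow_le_pow_left₀ hx00 (by linarith) _
          _ ≤ (1 + x₀) ^ (R + 1) := pow_le_pow_right₀ (by linarith) (by omega)
          _ = X1 := hX1.symm
      have h3 : (G.card : ℝ) ^ (k + 1) * √(Y : ℝ) ≤ η / 2 * Y := by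
        have a1 : (G.card : ℝ) ^ (k + 1) ≤ X1 * (y : ℝ) ^ (R + 1) := by
          calc (G.card : ℝ) ^ (k + 1) ≤ ((1 + x₀) * y) ^ (k + 1) := by
                apply pow_le_pow_left₀ (Nat.cast_nonneg _)
                nlinarith
            _ ≤ ((1 + x₀) * y) ^ (R + 1) := by
                apply pow_le_pow_right₀ _ (by omega)
                nlinarith
            _ = X1 * (y : ℝ) ^ (R + 1) := by rw [mul_pow, hX1]
        have a2 : 2 * X1 / η ≤ y := hy1.trans (by exact_mod_cast (by omega : y1 ≤ y))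
        rw [div_le_iff₀ hη] at a2
        have a3 : 0 ≤ (y : ℝ) ^ (R + 1) * √(Y : ℝ) := by positivity
        calc (G.card : ℝ) ^ (k + 1) * √(Y : ℝ) ≤ X1 * (y : ℝ) ^ (R + 1) * √(Y : ℝ) :=
              mul_le_mul_of_nonneg_right a1 (Real.sqrt_nonneg _)
          _ = 1 / 2 * ((y : ℝ) ^ (R + 1) * √(Y : ℝ) * (2 * X1)) := by ring
          _ ≤ 1 / 2 * ((y : ℝ) ^ (R + 1) * √(Y : ℝ) * (y * η)) := by
              apply mul_le_mul_of_nonneg_left _ (by norm_num)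
              exact mul_le_mul_of_nonneg_left a2 a3
          _ = η / 2 * ((y : ℝ) ^ (R + 1) * √(Y : ℝ) * y) := by ring
          _ ≤ η / 2 * Y := mul_le_mul_of_nonneg_left hsq (by positivity)
      have h4 : η1 * (Y * x ^ (k + 1)) ≤ η / 2 * Y := by
        calc η1 * (Y * x ^ (k + 1)) ≤ η1 * (Y * X1) :=
              mul_le_mul_of_nonneg_left (mul_le_mul_of_nonneg_left h2 hY0) hη10.le
          _ = η1 * X1 * Y := by ring
          _ = η / 2 * Y := by rw [hη12]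
      linarith) A
  rw [hcard] at hmain
  refine le_of_eq_of_le ?_ hmain
  congr 3

open Classical in
/-- **the law of large numbers for prime exponents** -/
theorem llnP (hM : S_MOMP) (hP : S_PAIR) (b : ℕ) (hb : 2 ≤ b) (ε : ℝ) (hε : 0 < ε) :
    ∃ (K : ℝ) (w₀ : ℕ), ∀ w : ℕ, w₀ ≤ w → ∃ K₀ y₀ N₀ : ℕ, ∀ Z Y y N : ℕ, y₀ ≤ y → y ^ K₀ ≤ Y → N₀ ≤ N →
      ∀ (a c : ℕ → ℕ) (G : Finset ℕ), G ⊆ prm N → ((prm N).card : ℝ) ≤ G.card * (w : ℝ) ^ (1 / 40 : ℝ) →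
        UnitF w c G → CollF b w a c G → K ≤ Vt w y * G.card →
        (((Ioc Z (Z + Y)).filter (fun j => ε * (Vt w y * G.card) <
          |((G.filter (fun n => ∀ p ∈ pw w y, ¬ p ∣ a n + c n * j)).card : ℝ) - Vt w y * G.card|)).card : ℝ) ≤
            ε * Y := by
  obtain ⟨η, hη⟩ : ∃ η : ℝ, η = min (ε ^ 3 / 18) 1 := ⟨_, rfl⟩
  have hη0 : 0 < η := by rw [hη]; exact lt_min (by positivity) one_pos
  have hη1 : η ≤ 1 := by rw [hη]; exact min_le_right _ _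
  have hη2 : η ≤ ε ^ 3 / 18 := by rw [hη]; exact min_le_left _ _
  obtain ⟨w1, K1, y1, N1, hm1⟩ := hM b hb 1 le_rfl η hη0
  obtain ⟨w2, K2, y2, N2, hm2⟩ := hM b hb 2 (by norm_num) η hη0
  obtain ⟨w3, N3, hp1⟩ := pairG hP b hb (2 * 1 * 1 ^ 2) (η / 4) (by positivity)
  obtain ⟨w4, N4, hp2⟩ := pairG hP b hb (2 * 2 * 2 ^ 2) (η / 4) (by positivity)
  obtain ⟨y3, hy3⟩ := exists_nat_ge (1 / η)
  refine ⟨4 / ε ^ 3, w1 + w2 + w3 + w4 + 1, fun w hw => ?_⟩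
  obtain ⟨N5, hN5⟩ := G_large w (N1 + N2 + 1) (by omega)
  refine ⟨K1 + K2 + 6, y1 + y2 + y3 + 1, N3 + N4 + N5, fun Z Y y N hy hyY hN a c G hG hcG hU hCo hE => ?_⟩
  have hy1' : 1 ≤ y := by omega
  have hyr : (1 : ℝ) ≤ y := by exact_mod_cast hy1'
  have hGc := hN5 N (by omega) G hcG
  obtain ⟨E, hEdef⟩ : ∃ E, E = Vt w y * G.card := ⟨_, rfl⟩
  have hv0 := Vt_pos w y
  have hpr1 := hp1 w (by omega) N (by omega) G hG hcG
  have hpr2 := hp2 w (by omega) N (by omega) G hG hcG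
  have h1 := hm1 w Z Y y (by omega) (by omega) ((Nat.pow_le_pow_right hy1' (by omega)).trans hyY) a c G
    (by omega) hpr1 hU hCo
  have h2 := hm2 w Z Y y (by omega) (by omega) ((Nat.pow_le_pow_right hy1' (by omega)).trans hyY) a c G
    (by omega) hpr2 hU hCo
  obtain ⟨B, hB⟩ : ∃ B : ℕ → ℕ, B = fun j => (G.filter (fun n => ∀ p ∈ pw w y, ¬ p ∣ a n + c n * j)).card :=
    ⟨_, rfl⟩
  have hBj : ∀ j, (G.filter (fun n => ∀ p ∈ pw w y, ¬ p ∣ a n + c n * j)).card = B j := fun j => by rw [hB]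
  rw [← hEdef] at hE h1 h2 ⊢
  simp only [hBj] at h1 h2 ⊢
  have hq1 : (1 : ℝ) ≤ G.card := by exact_mod_cast (by omega : 1 ≤ G.card)
  have hE0 : 0 < E := lt_of_lt_of_le (by positivity) hE
  have hY0 : (0 : ℝ) ≤ Y := Nat.cast_nonneg Y
  have hsY := Real.sqrt_nonneg (Y : ℝ)
  have hVt : 1 / (y : ℝ) ≤ Vt w y := (V_ge y hy1').trans (V_le_Vt w y)
  have hVt1 : Vt w y ≤ 1 := by
    unfold Vt
    apply Finset.prod_le_one
    · intro p hp
      unfold pw at hp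
      rw [mem_filter] at hp
      have : (1 : ℝ) ≤ p := by exact_mod_cast hp.2.1.one_lt.le
      have h3 : 1 / (p : ℝ) ≤ 1 := by
        rw [div_le_one (by linarith)]
        exact this
      linarith
    · intro p _
      have : (0 : ℝ) ≤ 1 / (p : ℝ) := by positivity
      linarith
  have hqE : (G.card : ℝ) ≤ E * y := by
    have h3 : 1 / (y : ℝ) * G.card ≤ E := by
      rw [hEdef]
      exact mul_le_mul_of_nonneg_right hVt (Nat.cast_nonneg _)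
    rw [one_div, inv_mul_le_iff₀ (by linarith)] at h3
    linarith
  have hEq : E ≤ G.card := by
    rw [hEdef]
    calc Vt w y * G.card ≤ 1 * G.card := mul_le_mul_of_nonneg_right hVt1 (Nat.cast_nonneg _)
      _ = G.card := one_mul _
  have hsq : (y : ℝ) ^ 2 * √(Y : ℝ) ≤ η * Y := by
    have h3 : (y : ℝ) ^ 3 ≤ √(Y : ℝ) := by
      apply Real.le_sqrt_of_sq_le
      calc ((y : ℝ) ^ 3) ^ 2 = (y : ℝ) ^ 6 := by ring
        _ ≤ (Y : ℝ) := by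
            have h2 : y ^ 6 ≤ Y := (Nat.pow_le_pow_right hy1' (by omega)).trans hyY
            exact_mod_cast h2
    have h4 : 1 / η ≤ y := hy3.trans (by exact_mod_cast (by omega : y3 ≤ y))
    rw [div_le_iff₀ hη0] at h4
    have h5 : (y : ℝ) ^ 3 * √(Y : ℝ) ≤ Y := by
      calc (y : ℝ) ^ 3 * √(Y : ℝ) ≤ √(Y : ℝ) * √(Y : ℝ) := mul_le_mul_of_nonneg_right h3 hsY
        _ = Y := Real.mul_self_sqrt hY0
    calc (y : ℝ) ^ 2 * √(Y : ℝ) = (y : ℝ) ^ 2 * √(Y : ℝ) * 1 := by ring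
      _ ≤ (y : ℝ) ^ 2 * √(Y : ℝ) * (y * η) := mul_le_mul_of_nonneg_left h4 (by positivity)
      _ = η * ((y : ℝ) ^ 3 * √(Y : ℝ)) := by ring
      _ ≤ η * Y := mul_le_mul_of_nonneg_left h5 hη0.le
  have hqq : (G.card : ℝ) ^ 2 * √(Y : ℝ) ≤ η * (Y * E ^ 2) := by
    calc (G.card : ℝ) ^ 2 * √(Y : ℝ) ≤ (E * y) ^ 2 * √(Y : ℝ) := by
          apply mul_le_mul_of_nonneg_right _ hsY
          exact pow_le_pow_left₀ (Nat.cast_nonneg _) hqE 2
      _ = E ^ 2 * ((y : ℝ) ^ 2 * √(Y : ℝ)) := by ring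
      _ ≤ E ^ 2 * (η * Y) := mul_le_mul_of_nonneg_left hsq (by positivity)
      _ = η * (Y * E ^ 2) := by ring
  -- the second moment
  have hsum : ∑ j ∈ Ioc Z (Z + Y), ((B j : ℝ) - E) ^ 2 =
      2 * (∑ j ∈ Ioc Z (Z + Y), (((B j).choose 2 : ℕ) : ℝ)) +
        (1 - 2 * E) * (∑ j ∈ Ioc Z (Z + Y), (((B j).choose 1 : ℕ) : ℝ)) + Y * E ^ 2 := by
    have hcard : (Y : ℝ) = ∑ j ∈ Ioc Z (Z + Y), (1 : ℝ) := by
      rw [Finset.sum_const, Nat.card_Ioc, Nat.add_sub_cancel_left, nsmul_eq_mul, mul_one]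
    rw [hcard, Finset.mul_sum, Finset.mul_sum, Finset.sum_mul, ← Finset.sum_add_distrib,
      ← Finset.sum_add_distrib]
    refine Finset.sum_congr rfl fun j _ => ?_
    rw [Nat.choose_one_right, Nat.cast_choose_two]
    ring
  have hvar : ∑ j ∈ Ioc Z (Z + Y), ((B j : ℝ) - E) ^ 2 ≤ ε ^ 3 * (Y * E ^ 2) := by
    rw [hsum]
    rw [abs_le] at h1 h2
    obtain ⟨h1a, h1b⟩ := h1
    obtain ⟨h2a, h2b⟩ := h2
    simp only [pow_one, Nat.factorial_one, Nat.cast_one, div_one] at h1a h1b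
    have hf2 : ((Nat.factorial 2 : ℕ) : ℝ) = 2 := by norm_num
    rw [hf2] at h2a h2b
    obtain ⟨S1, hS1⟩ : ∃ S1 : ℝ, S1 = ∑ j ∈ Ioc Z (Z + Y), (((B j).choose 1 : ℕ) : ℝ) := ⟨_, rfl⟩
    obtain ⟨S2, hS2⟩ : ∃ S2 : ℝ, S2 = ∑ j ∈ Ioc Z (Z + Y), (((B j).choose 2 : ℕ) : ℝ) := ⟨_, rfl⟩
    rw [← hS1] at h1a h1b ⊢
    rw [← hS2] at h2b ⊢
    have hq2 : (G.card : ℝ) * √(Y : ℝ) ≤ (G.card : ℝ) ^ 2 * √(Y : ℝ) := by
      apply mul_le_mul_of_nonneg_right _ hsY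
      nlinarith
    have hq3 : E * (G.card * √(Y : ℝ)) ≤ (G.card : ℝ) ^ 2 * √(Y : ℝ) := by
      calc E * (G.card * √(Y : ℝ)) ≤ G.card * (G.card * √(Y : ℝ)) :=
            mul_le_mul_of_nonneg_right hEq (by positivity)
        _ = (G.card : ℝ) ^ 2 * √(Y : ℝ) := by ring
    have hKE : Y * E ≤ ε ^ 3 / 4 * (Y * E ^ 2) := by
      rw [div_le_iff₀ (by positivity)] at hE
      have h5 : 0 ≤ (Y : ℝ) * E := by positivity
      have h6 := mul_le_mul_of_nonneg_left hE h5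
      nlinarith
    have hYE : 0 ≤ (Y : ℝ) * E := by positivity
    have hYE2 : 0 ≤ (Y : ℝ) * E ^ 2 := by positivity
    -- upper bounds
    have c1 : 2 * S2 ≤ Y * E ^ 2 + 2 * (η * (Y * E ^ 2)) + 2 * ((G.card : ℝ) ^ 2 * √(Y : ℝ)) := by
      have : (Y : ℝ) * (E ^ 2 / 2) = Y * E ^ 2 / 2 := by ring
      linarith
    have c2 : S1 ≤ Y * E + η * (Y * E) + G.card * √(Y : ℝ) := by linarith
    have c3 : -(2 * E * S1) ≤ -(2 * (Y * E ^ 2)) + 2 * (η * (Y * E ^ 2)) + 2 * (E * (G.card * √(Y : ℝ))) := by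
      have h7 : Y * E - η * (Y * E) - G.card * √(Y : ℝ) ≤ S1 := by linarith
      have h8 := mul_le_mul_of_nonneg_left h7 (by positivity : 0 ≤ 2 * E)
      have h9 : 2 * E * (Y * E - η * (Y * E) - G.card * √(Y : ℝ)) =
          2 * (Y * E ^ 2) - 2 * (η * (Y * E ^ 2)) - 2 * (E * (G.card * √(Y : ℝ))) := by ring
      linarith
    have c4 : η * (Y * E) ≤ Y * E := by
      calc η * (Y * E) ≤ 1 * (Y * E) := mul_le_mul_of_nonneg_right hη1 hYE
        _ = Y * E := one_mul _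
    have c5 : η * (Y * E ^ 2) ≤ ε ^ 3 / 18 * (Y * E ^ 2) := mul_le_mul_of_nonneg_right hη2 hYE2
    have c6 : (1 - 2 * E) * S1 = S1 + -(2 * E * S1) := by ring
    rw [c6]
    linarith
  -- Chebyshev
  have hch : (((Ioc Z (Z + Y)).filter (fun j => ε * E < |(B j : ℝ) - E|)).card : ℝ) * (ε * E) ^ 2 ≤
      ∑ j ∈ Ioc Z (Z + Y), ((B j : ℝ) - E) ^ 2 := by
    rw [← nsmul_eq_mul, ← Finset.sum_const]
    refine (Finset.sum_le_sum (fun j hj => ?_)).trans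
      (Finset.sum_le_sum_of_subset_of_nonneg (Finset.filter_subset _ _) fun j _ _ => sq_nonneg _)
    rw [mem_filter] at hj
    rw [← sq_abs ((B j : ℝ) - E)]
    exact pow_le_pow_left₀ (by positivity) hj.2.le 2
  have hfin := hch.trans hvar
  have h9 : ε ^ 3 * (Y * E ^ 2) = ε * Y * (ε * E) ^ 2 := by ring
  rw [h9] at hfin
  exact le_of_mul_le_mul_right hfin (by positivity)

end Pool.Agent.H95RU
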