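import Pool.Agent.H95RU.TWO

set_option autoImplicit false

/-! Project RU: stub ONE. -/

namespace Pool.Agent.H95RU

open Finset Pool.Agent.H373R2.T7

/-- the system of one linear polynomial -/
def Q1 (w Z a c p n : ℕ) : Prop := w < p ∧ p ∣ a + c * (n + Z)

lemma nuB_Q1_zero {w Z a c : ℕ} {p : ℕ} (hw : ¬ w < p) : nuB (Q1 w Z a c) p = 0 := by
  classical
  unfold nuB
  rw [card_eq_zero, filter_eq_empty_iff]
  intro r _ h
  exact hw h.1

open Classical in
lemma nuB_Q1_one {w Z a c : ℕ} (hc : ∀ p : ℕ, p.Prime → w < p → ¬ p ∣ c) {p : ℕ} (hp : p.Prime)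
    (hw : w < p) : nuB (Q1 w Z a c) p = 1 := by
  have h1 : (range p).filter (fun r => Q1 w Z a c p r) =
      (range p).filter (fun r => p ∣ a + c * (r + Z)) := by
    refine filter_congr fun r _ => ?_
    unfold Q1
    exact ⟨fun h => h.2, fun h => ⟨hw, h⟩⟩
  have h2 : ((range p).filter (fun r => Q1 w Z a c p r)).card = 1 := by
    rw [h1, lin_root Z a c p hp (hc p hp hw)]
  unfold nuB
  convert h2 using 1

lemma Q1_perB {w Z a c : ℕ} (hc : ∀ p : ℕ, p.Prime → w < p → ¬ p ∣ c) :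
    PerB (Q1 w Z a c) 1 := by
  refine ⟨fun p n => ?_, fun p hp => ?_⟩
  · unfold Q1
    rw [per_lin Z a c p n]
  · by_cases hw : w < p
    · exact (nuB_Q1_one hc hp hw).le
    · rw [nuB_Q1_zero hw]
      exact Nat.zero_le _

lemma prod_Q1 {w Z a c : ℕ} (hc : ∀ p : ℕ, p.Prime → w < p → ¬ p ∣ c) (y : ℕ) :
    ∏ p ∈ pz y, (1 - (nuB (Q1 w Z a c) p : ℝ) / p) = Vt w y := by
  rw [prod_pz_pw _ w y (by
    intro p _ hw
    rw [nuB_Q1_zero hw]
    simp)]
  unfold Vt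
  refine prod_congr rfl fun p hp => ?_
  obtain ⟨-, h2, h3⟩ := mem_pw.1 hp
  rw [nuB_Q1_one hc h2 h3, Nat.cast_one]

open Classical in
theorem t_ONE : S_ONE := by
  intro η hη
  obtain ⟨K, x0, hK1, H⟩ := sys_fund 1 (by norm_num) η hη
  refine ⟨K, x0, ?_⟩
  intro w Z Y y hy hyY a c hc
  have h1 := H Y y hy hyY (Q1 w Z a c) (Q1_perB hc) Y
  rw [prod_Q1 hc y] at h1
  have hcard : ((Ioc Z (Z + Y)).filter (fun j => ∀ p ∈ pw w y, ¬ p ∣ a + c * j)).card =
      ((Icc 1 Y).filter (fun n : ℕ => ∀ p ∈ pz y, ¬ Q1 w Z a c p n)).card := by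
    symm
    apply Finset.card_bij (fun n _ => n + Z)
    · intro n hn
      rw [mem_filter, mem_Icc] at hn
      rw [mem_filter, mem_Ioc]
      refine ⟨by omega, fun p hp => ?_⟩
      obtain ⟨e1, e2, e3⟩ := mem_pw.1 hp
      exact fun h => hn.2 p (mem_pz.2 ⟨e1, e2⟩) ⟨e3, h⟩
    · intro n _ n' _ hnn
      omega
    · intro j hj
      rw [mem_filter, mem_Ioc] at hj
      refine ⟨j - Z, ?_, by omega⟩
      rw [mem_filter, mem_Icc]
      refine ⟨by omega, fun p hp hq => ?_⟩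
      obtain ⟨e1, e2⟩ := mem_pz.1 hp
      unfold Q1 at hq
      have h4 := hj.2 p (mem_pw.2 ⟨e1, e2, hq.1⟩)
      have e : j - Z + Z = j := by omega
      rw [e] at hq
      exact h4 hq.2
  rw [hcard]
  exact h1

end Pool.Agent.H95RU
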