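import Pool.Agent.H95RU.Stm4
import Pool.Agent.H684R3.Count

set_option autoImplicit false

/-!
# Project RU, stub PAIR: the collision factors on average over the pairs of primes
-/

namespace Pool.Agent.H95RU

open Finset Pool.Agent.H357R2.SI Pool.Agent.H684R3

theorem PAIR_one_le (b w h : ℕ) : 1 ≤ Dw b w h := by
  unfold Dw
  have h1 : ∏ p ∈ pf b w h, (1 : ℝ) ≤ ∏ p ∈ pf b w h, (1 + 1 / (p : ℝ)) := by
    refine prod_le_prod (fun _ _ => zero_le_one) fun p _ => ?_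
    have : (0 : ℝ) ≤ 1 / (p : ℝ) := by positivity
    linarith
  simpa using h1

theorem PAIR_card (N : ℕ) (hN : 400 ≤ N) : (N : ℝ) / Real.log N ≤ 2 * ((prm N).card : ℝ) := by
  have hNr : (400 : ℝ) ≤ N := by exact_mod_cast hN
  have h1 := Chebyshev.pi_ge N
  have e1 : ((prm N).card : ℝ) = (Nat.primeCounting N : ℝ) := by
    norm_cast
    rw [Nat.primeCounting, Nat.primeCounting', Nat.count_eq_card_filter_range]
    congr 1
    ext p
    simp only [prm, mem_filter, mem_Icc, mem_range]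
    constructor
    · rintro ⟨⟨_, h2⟩, h3⟩
      exact ⟨by omega, h3⟩
    · rintro ⟨h2, h3⟩
      exact ⟨⟨h3.pos, by omega⟩, h3⟩
  have hlog : 0 < Real.log N := Real.log_pos (by linarith)
  have h2 : (0.69 : ℝ) ≤ Real.log 2 := by
    have := Real.log_two_gt_d9
    linarith
  have h3 : Real.log ((N : ℝ) + 1) ≤ 0.19 * N := by
    have hp : (0 : ℝ) < N + 1 := by linarith
    have hs : 0 < √((N : ℝ) + 1) := Real.sqrt_pos.2 hp
    have h4 : Real.log ((N : ℝ) + 1) = 2 * Real.log (√((N : ℝ) + 1)) := by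
      rw [Real.log_sqrt hp.le]
      ring
    have h5 : Real.log (√((N : ℝ) + 1)) ≤ √((N : ℝ) + 1) - 1 := Real.log_le_sub_one_of_pos hs
    have h6 : √((N : ℝ) + 1) ≤ 0.095 * N := by
      rw [Real.sqrt_le_left (by positivity)]
      nlinarith
    linarith
  rw [e1]
  have h7 : (N : ℝ) / 2 / Real.log N ≤ (N * Real.log 2 - Real.log (N + 1)) / Real.log N := by
    refine div_le_div_of_nonneg_right ?_ hlog.le
    nlinarith
  have h8 : (N : ℝ) / Real.log N = 2 * ((N : ℝ) / 2 / Real.log N) := by ring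
  rw [h8]
  linarith [h7.trans h1]

open Classical in
theorem t_PAIR (h : S_DAVK) : S_PAIR := by
  intro b hb κ
  obtain ⟨C1, hC1, hD⟩ := h b hb (2 * κ)
  obtain ⟨C0, hC0, u0, hP⟩ := pair_sieve
  obtain ⟨C2, hC2, h4⟩ := sum_sg_four
  refine ⟨4 * (C0 * (C1 + C2)), by positivity, max u0 400, fun w hw N hN => ?_⟩
  have hN4 : 400 ≤ N := (le_max_right _ _).trans hN
  have hNu : u0 ≤ N := (le_max_left _ _).trans hN
  have hNr : (400 : ℝ) ≤ N := by exact_mod_cast hN4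
  have hlog : 0 < Real.log N := Real.log_pos (by linarith)
  have hwr : (1 : ℝ) ≤ w := by exact_mod_cast hw
  have hw0 : (0 : ℝ) < w := by linarith
  obtain ⟨μ, hμ⟩ : ∃ μ : ℝ, μ = (w : ℝ) ^ (1 / 16 : ℝ) := ⟨_, rfl⟩
  have hμ0 : 0 < μ := by rw [hμ]; exact Real.rpow_pos_of_pos hw0 _
  have hμ2 : (w : ℝ) ^ (1 / 8 : ℝ) = μ * μ := by
    rw [hμ, ← Real.rpow_add hw0]
    norm_num
  have hD1 : ∀ h : ℕ, 1 ≤ Dw b w h ^ κ := fun h => one_le_pow₀ (PAIR_one_le b w h)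
  -- the pairs with a given difference
  have hcount : ∀ h ∈ Icc 1 N, (((prs (prm N)).filter (fun x => x.2 - x.1 = h)).card : ℝ) ≤
      C0 * sg h ^ 2 * N / Real.log N ^ 2 := by
    intro h hh
    have hh0 : 0 < h := (mem_Icc.1 hh).1
    refine le_trans ?_ (pairs_le hP (prm N) N hNu (fun a ha => ?_) h hh0)
    · norm_cast
      refine card_le_card fun x hx => ?_
      simp only [prs, mem_filter, mem_product] at hx ⊢
      obtain ⟨⟨h1, h2⟩, h3⟩ := hx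
      exact ⟨h1, by omega⟩
    · simp only [prm, mem_filter, mem_Icc] at ha
      exact ⟨ha.2, ha.1.2⟩
  have hmaps : ∀ x ∈ prs (prm N), x.2 - x.1 ∈ Icc 1 N := by
    intro x hx
    simp only [prs, prm, mem_filter, mem_product, mem_Icc] at hx ⊢
    omega
  have hsum : ∑ x ∈ prs (prm N), (Dw b w (x.2 - x.1) ^ κ - 1) ≤
      ∑ h ∈ Icc 1 N, (Dw b w h ^ κ - 1) * (C0 * sg h ^ 2 * N / Real.log N ^ 2) := by
    rw [← sum_fiberwise_of_maps_to hmaps]
    refine sum_le_sum fun h hh => ?_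
    have e1 : ∑ x ∈ (prs (prm N)).filter (fun x => x.2 - x.1 = h), (Dw b w (x.2 - x.1) ^ κ - 1) =
        ∑ _x ∈ (prs (prm N)).filter (fun x => x.2 - x.1 = h), (Dw b w h ^ κ - 1) :=
      sum_congr rfl fun x hx => by rw [(mem_filter.1 hx).2]
    rw [e1, sum_const, nsmul_eq_mul, mul_comm]
    exact mul_le_mul_of_nonneg_left (hcount h hh) (by linarith [hD1 h])
  have hterm : ∀ h : ℕ, (Dw b w h ^ κ - 1) * sg h ^ 2 ≤
      μ * (Dw b w h ^ (2 * κ) - 1) + (1 / μ) * sg h ^ 4 := by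
    intro h
    have h1 := hD1 h
    have e1 : Dw b w h ^ (2 * κ) = (Dw b w h ^ κ) ^ 2 := by rw [mul_comm, pow_mul]
    have e2 : sg h ^ 4 = (sg h ^ 2) ^ 2 := by rw [← pow_mul]
    rw [e1, e2]
    generalize Dw b w h ^ κ = D at h1
    generalize sg h ^ 2 = s
    have h2 : μ * (1 / μ) = 1 := by field_simp
    have h3 : 0 ≤ (1 / μ) * (μ * (D - 1) - s) ^ 2 := by positivity
    have h5 : (1 / μ) * (μ * (D - 1) - s) ^ 2 = μ * (D - 1) ^ 2 - 2 * ((D - 1) * s) + (1 / μ) * s ^ 2 := by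
      field_simp
      ring
    have h6 : μ * (D - 1) ^ 2 ≤ μ * (D ^ 2 - 1) := mul_le_mul_of_nonneg_left (by nlinarith) hμ0.le
    have h7 : 0 ≤ μ * (D - 1) ^ 2 := by positivity
    have h8 : 0 ≤ (1 / μ) * s ^ 2 := by positivity
    nlinarith
  have hmain : ∑ h ∈ Icc 1 N, (Dw b w h ^ κ - 1) * sg h ^ 2 ≤ (C1 + C2) * N / μ := by
    calc ∑ h ∈ Icc 1 N, (Dw b w h ^ κ - 1) * sg h ^ 2 ≤
          ∑ h ∈ Icc 1 N, (μ * (Dw b w h ^ (2 * κ) - 1) + (1 / μ) * sg h ^ 4) := sum_le_sum fun h _ => hterm h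
      _ = μ * ∑ h ∈ Icc 1 N, (Dw b w h ^ (2 * κ) - 1) + (1 / μ) * ∑ h ∈ Icc 1 N, sg h ^ 4 := by
        rw [sum_add_distrib, mul_sum, mul_sum]
      _ ≤ μ * (C1 * N / (w : ℝ) ^ (1 / 8 : ℝ)) + (1 / μ) * (C2 * N) :=
        add_le_add (mul_le_mul_of_nonneg_left (hD w hw N) hμ0.le)
          (mul_le_mul_of_nonneg_left (h4 N) (by positivity))
      _ = (C1 + C2) * N / μ := by
        rw [hμ2]
        field_simp
  have hπ := PAIR_card N hN4
  have hπ0 : 0 ≤ (N : ℝ) / Real.log N := by positivity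
  calc ∑ x ∈ prs (prm N), (Dw b w (x.2 - x.1) ^ κ - 1) ≤
        ∑ h ∈ Icc 1 N, (Dw b w h ^ κ - 1) * (C0 * sg h ^ 2 * N / Real.log N ^ 2) := hsum
    _ = (C0 * N / Real.log N ^ 2) * ∑ h ∈ Icc 1 N, (Dw b w h ^ κ - 1) * sg h ^ 2 := by
      rw [mul_sum]
      refine sum_congr rfl fun h _ => ?_
      ring
    _ ≤ (C0 * N / Real.log N ^ 2) * ((C1 + C2) * N / μ) := mul_le_mul_of_nonneg_left hmain (by positivity)
    _ = C0 * (C1 + C2) / μ * ((N : ℝ) / Real.log N) ^ 2 := by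
      field_simp
    _ ≤ C0 * (C1 + C2) / μ * (2 * ((prm N).card : ℝ)) ^ 2 :=
      mul_le_mul_of_nonneg_left (pow_le_pow_left₀ hπ0 hπ 2) (by positivity)
    _ = 4 * (C0 * (C1 + C2)) / (w : ℝ) ^ (1 / 16 : ℝ) * ((prm N).card : ℝ) ^ 2 := by
      rw [← hμ]
      ring

end Pool.Agent.H95RU
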