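import Pool.Agent.H95RU.Stm

set_option autoImplicit false

namespace Pool.Agent.H95RU

open Finset

namespace TAUaux

lemma sqrt_step (m : ℕ) (hm : 1 ≤ m) : √(m : ℝ) / ((m : ℝ) * (m + 1)) ≤ 2 / √(m : ℝ) - 2 / √((m : ℝ) + 1) := by
  have hm0 : (0 : ℝ) < m := by exact_mod_cast hm
  obtain ⟨a, ha⟩ : ∃ a, a = √(m : ℝ) := ⟨_, rfl⟩
  obtain ⟨c, hc⟩ : ∃ c, c = √((m : ℝ) + 1) := ⟨_, rfl⟩
  have ha0 : 0 < a := by rw [ha]; exact Real.sqrt_pos.2 hm0
  have hc0 : 0 < c := by rw [hc]; exact Real.sqrt_pos.2 (by linarith)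
  have ha2 : (m : ℝ) = a ^ 2 := by rw [ha, Real.sq_sqrt hm0.le]
  have hc2 : (m : ℝ) + 1 = c ^ 2 := by rw [hc, Real.sq_sqrt (by linarith)]
  have hac : a ≤ c := by rw [ha, hc]; exact Real.sqrt_le_sqrt (by linarith)
  rw [← ha, ← hc, hc2, ha2]
  have h1 : c ^ 2 - a ^ 2 = 1 := by linarith
  have h2 : a / (a ^ 2 * c ^ 2) = 1 / (a * c ^ 2) := by field_simp
  have h3 : 2 / a - 2 / c = 2 * (c - a) / (a * c) := by field_simp
  rw [h2, h3, div_le_div_iff₀ (by positivity) (by positivity)]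
  have h4 : 1 ≤ 2 * c * (c - a) := by nlinarith
  have h5 : 0 ≤ a * c := by positivity
  calc 1 * (a * c) ≤ (2 * c * (c - a)) * (a * c) := mul_le_mul_of_nonneg_right h4 h5
    _ = _ := by ring

/-- partial summation -/
lemma abel_sum (α : ℕ → ℝ) (C : ℝ) (hC : 0 ≤ C)
    (hA : ∀ m : ℕ, 1 ≤ m → ∑ o ∈ Icc 1 m, α o ≤ C * √(m : ℝ)) (n : ℕ) :
    ∑ o ∈ Icc 1 n, α o / o ≤ (∑ o ∈ Icc 1 n, α o) / (n + 1) + C * (2 - 2 / √((n : ℝ) + 1)) := by
  induction n with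
  | zero =>
    simp
  | succ n ih =>
    rw [sum_Icc_succ_top (by omega), sum_Icc_succ_top (by omega)]
    have h1 := hA (n + 1) (by omega)
    rw [sum_Icc_succ_top (by omega)] at h1
    obtain ⟨S, hS⟩ : ∃ S, S = ∑ o ∈ Icc 1 n, α o := ⟨_, rfl⟩
    rw [← hS] at h1 ih ⊢
    have hs := sqrt_step (n + 1) (by omega)
    have hn0 : (0 : ℝ) ≤ n := Nat.cast_nonneg _
    have h2 : (S + α (n + 1)) / (((n + 1 : ℕ) : ℝ) * (((n + 1 : ℕ) : ℝ) + 1)) ≤ C * (2 / √((n + 1 : ℕ) : ℝ) - 2 / √(((n + 1 : ℕ) : ℝ) + 1)) := by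
      calc (S + α (n + 1)) / (((n + 1 : ℕ) : ℝ) * (((n + 1 : ℕ) : ℝ) + 1)) ≤
            (C * √((n + 1 : ℕ) : ℝ)) / (((n + 1 : ℕ) : ℝ) * (((n + 1 : ℕ) : ℝ) + 1)) :=
            div_le_div_of_nonneg_right h1 (by positivity)
        _ = C * (√((n + 1 : ℕ) : ℝ) / (((n + 1 : ℕ) : ℝ) * (((n + 1 : ℕ) : ℝ) + 1))) := by ring
        _ ≤ _ := mul_le_mul_of_nonneg_left hs hC
    have h3 : (S + α (n + 1)) / (((n + 1 : ℕ) : ℝ)) = (S + α (n + 1)) / (((n + 1 : ℕ) : ℝ) + 1) +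
        (S + α (n + 1)) / (((n + 1 : ℕ) : ℝ) * (((n + 1 : ℕ) : ℝ) + 1)) := by
      have : ((n + 1 : ℕ) : ℝ) ≠ 0 := by positivity
      have : ((n + 1 : ℕ) : ℝ) + 1 ≠ 0 := by positivity
      field_simp
    have h4 : √((n : ℝ) + 1) = √((n + 1 : ℕ) : ℝ) := by push_cast; rfl
    have h5 : S / ((n : ℝ) + 1) = S / ((n + 1 : ℕ) : ℝ) := by push_cast; rfl
    rw [h4, h5] at ih
    have h6 : (S + α (n + 1)) / (((n + 1 : ℕ) : ℝ)) = S / ((n + 1 : ℕ) : ℝ) + α (n + 1) / ((n + 1 : ℕ) : ℝ) := by ring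
    linarith

lemma inv_le_log (n : ℕ) (hn : 1 ≤ n) :
    1 / (((n + 1 : ℕ)) : ℝ) ≤ Real.log ((n + 1 : ℕ) : ℝ) - Real.log (n : ℝ) := by
  have hn0 : (0 : ℝ) < n := by exact_mod_cast hn
  have hn1 : (0 : ℝ) < ((n + 1 : ℕ) : ℝ) := by positivity
  have h := Real.log_le_sub_one_of_pos (div_pos hn0 hn1)
  rw [Real.log_div hn0.ne' hn1.ne'] at h
  have e : (n : ℝ) / ((n + 1 : ℕ) : ℝ) - 1 = -(1 / ((n + 1 : ℕ) : ℝ)) := by
    field_simp
    push_cast
    ring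
  rw [e] at h
  linarith

lemma harm (w k : ℕ) (hw : 1 ≤ w) :
    ∑ n ∈ Ioc w (w + k), 1 / (n : ℝ) ≤ Real.log ((w + k : ℕ) : ℝ) - Real.log (w : ℝ) := by
  induction k with
  | zero => simp
  | succ k ih =>
    rw [← Nat.add_assoc, Finset.sum_Ioc_succ_top (by omega)]
    have := inv_le_log (w + k) (by omega)
    linarith

lemma real_bound (x : ℝ) (hx : 0 ≤ x) (z : ℝ) (hz1 : z ≤ x) (hz2 : z ≤ 1) :
    Real.log (1 + x) + z ≤ 9 * x ^ (1 / 4 : ℝ) := by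
  have hx4 : 0 ≤ x ^ (1 / 4 : ℝ) := Real.rpow_nonneg hx _
  rcases le_total x 1 with h | h
  · have h1 : x ≤ x ^ (1 / 4 : ℝ) := by
      calc x = x ^ (1 : ℝ) := (Real.rpow_one x).symm
        _ ≤ x ^ (1 / 4 : ℝ) := Real.rpow_le_rpow_of_exponent_ge' hx h (by norm_num) (by norm_num)
    have h2 : Real.log (1 + x) ≤ x := by
      have := Real.log_le_sub_one_of_pos (show 0 < 1 + x by linarith)
      linarith
    linarith
  · have h1 : 1 ≤ x ^ (1 / 4 : ℝ) := Real.one_le_rpow h (by norm_num)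
    have h2 : Real.log (1 + x) ≤ (1 + x) ^ (1 / 4 : ℝ) / (1 / 4) :=
      Real.log_le_rpow_div (by linarith) (by norm_num)
    have h3 : (1 + x) ^ (1 / 4 : ℝ) ≤ (2 * x) ^ (1 / 4 : ℝ) :=
      Real.rpow_le_rpow (by linarith) (by linarith) (by norm_num)
    have h4 : (2 * x) ^ (1 / 4 : ℝ) = 2 ^ (1 / 4 : ℝ) * x ^ (1 / 4 : ℝ) :=
      Real.mul_rpow (by norm_num) hx
    have h5 : (2 : ℝ) ^ (1 / 4 : ℝ) ≤ 2 := by
      calc (2 : ℝ) ^ (1 / 4 : ℝ) ≤ 2 ^ (1 : ℝ) := Real.rpow_le_rpow_of_exponent_le (by norm_num) (by norm_num)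
        _ = 2 := Real.rpow_one 2
    have h6 : (2 : ℝ) ^ (1 / 4 : ℝ) * x ^ (1 / 4 : ℝ) ≤ 2 * x ^ (1 / 4 : ℝ) :=
      mul_le_mul_of_nonneg_right h5 hx4
    have h7 : (1 + x) ^ (1 / 4 : ℝ) / (1 / 4) = 4 * (1 + x) ^ (1 / 4 : ℝ) := by ring
    rw [h7] at h2
    linarith

lemma set_sum (S : Finset ℕ) (w : ℕ) (hw : 1 ≤ w) (hS : ∀ p ∈ S, w < p) :
    ∑ p ∈ S, 1 / (p : ℝ) ≤ 9 * (((S.card : ℕ) : ℝ) / w) ^ (1 / 4 : ℝ) := by
  classical
  have hw0 : (0 : ℝ) < w := by exact_mod_cast hw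
  have hc0 : (0 : ℝ) ≤ S.card := Nat.cast_nonneg _
  rw [← Finset.sum_filter_add_sum_filter_not S (fun p => p ≤ w + S.card)]
  have h1 : ∑ p ∈ S.filter (fun p => p ≤ w + S.card), 1 / (p : ℝ) ≤
      Real.log (1 + (S.card : ℝ) / w) := by
    have hsub : S.filter (fun p => p ≤ w + S.card) ⊆ Ioc w (w + S.card) := by
      intro p hp
      rw [Finset.mem_filter] at hp
      rw [Finset.mem_Ioc]
      exact ⟨hS p hp.1, hp.2⟩
    refine le_trans (Finset.sum_le_sum_of_subset_of_nonneg hsub (fun i _ _ => by positivity)) ?_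
    refine le_trans (harm w S.card hw) (le_of_eq ?_)
    rw [← Real.log_div (by positivity) hw0.ne']
    congr 1
    push_cast
    field_simp
  have h2 : ∑ p ∈ S.filter (fun p => ¬ p ≤ w + S.card), 1 / (p : ℝ) ≤
      (S.card : ℝ) / (w + S.card) := by
    have h3 : ∀ p ∈ S.filter (fun p => ¬ p ≤ w + S.card), 1 / (p : ℝ) ≤ 1 / ((w : ℝ) + S.card) := by
      intro p hp
      rw [Finset.mem_filter] at hp
      apply one_div_le_one_div_of_le (by positivity)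
      have : w + S.card ≤ p := by omega
      exact_mod_cast this
    refine le_trans (Finset.sum_le_sum h3) ?_
    rw [Finset.sum_const, nsmul_eq_mul, div_eq_mul_one_div (S.card : ℝ)]
    apply mul_le_mul_of_nonneg_right _ (by positivity)
    exact_mod_cast Finset.card_filter_le _ _
  refine le_trans (add_le_add h1 h2) (real_bound _ (by positivity) _ ?_ ?_)
  · apply div_le_div_of_nonneg_left hc0 hw0
    linarith
  · rw [div_le_one (by positivity)]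
    linarith

lemma ord_pos (b p : ℕ) (hp : p.Prime) (hb : ¬ p ∣ b) : 1 ≤ orderOf (b : ZMod p) := by
  haveI : Fact p.Prime := ⟨hp⟩
  have hu : (b : ZMod p) ≠ 0 := by
    rw [Ne, ZMod.natCast_eq_zero_iff]
    exact hb
  have : orderOf (b : ZMod p) = orderOf (Units.mk0 (b : ZMod p) hu) := by
    rw [← orderOf_units]
    rfl
  rw [this]
  exact orderOf_pos _

lemma card_le (b : ℕ) (hb : 2 ≤ b) (P : Finset ℕ) (hP : ∀ p ∈ P, p.Prime ∧ ¬ p ∣ b) (t : ℕ) :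
    (P.filter (fun p => orderOf (b : ZMod p) ≤ t)).card ≤ b * t ^ 2 := by
  set S := P.filter (fun p => orderOf (b : ZMod p) ≤ t) with hS
  have hdvd : ∀ p ∈ S, p ∣ ∏ s ∈ Icc 1 t, (b ^ s - 1) := by
    intro p hp
    rw [hS, Finset.mem_filter] at hp
    obtain ⟨hp1, hp2⟩ := hp
    have h1 := ord_pos b p (hP p hp1).1 (hP p hp1).2
    have h2 : p ∣ b ^ orderOf (b : ZMod p) - 1 := by
      rw [← ZMod.natCast_eq_zero_iff, Nat.cast_sub (Nat.one_le_pow _ _ (by omega)), Nat.cast_pow,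
        pow_orderOf_eq_one]
      simp
    exact h2.trans (Finset.dvd_prod_of_mem (fun s => b ^ s - 1) (Finset.mem_Icc.mpr ⟨h1, hp2⟩))
  have hprod : ∏ p ∈ S, p ∣ ∏ s ∈ Icc 1 t, (b ^ s - 1) := by
    apply Finset.prod_primes_dvd
    · intro p hp
      rw [hS, Finset.mem_filter] at hp
      exact (hP p hp.1).1.prime
    · exact hdvd
  have hpos : 0 < ∏ s ∈ Icc 1 t, (b ^ s - 1) := by
    apply Finset.prod_pos
    intro s hs
    rw [Finset.mem_Icc] at hs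
    have : 1 < b ^ s := Nat.one_lt_pow (by omega) (by omega)
    omega
  have hle : ∏ s ∈ Icc 1 t, (b ^ s - 1) ≤ (b ^ t) ^ t := by
    calc ∏ s ∈ Icc 1 t, (b ^ s - 1) ≤ ∏ s ∈ Icc 1 t, b ^ t := by
          apply Finset.prod_le_prod
          · intro i _
            exact Nat.zero_le _
          · intro i hi
            rw [Finset.mem_Icc] at hi
            have : b ^ i ≤ b ^ t := Nat.pow_le_pow_right (by omega) hi.2
            omega
      _ = (b ^ t) ^ t := by rw [Finset.prod_const, Nat.card_Icc, Nat.add_sub_cancel]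
  have h2S : 2 ^ S.card ≤ ∏ p ∈ S, p := by
    calc 2 ^ S.card = ∏ p ∈ S, 2 := by rw [Finset.prod_const]
      _ ≤ ∏ p ∈ S, p := by
          apply Finset.prod_le_prod
          · intro i _
            exact Nat.zero_le _
          · intro p hp
            rw [hS, Finset.mem_filter] at hp
            exact (hP p hp.1).1.two_le
  have h3 : 2 ^ S.card ≤ 2 ^ (b * t ^ 2) := by
    calc 2 ^ S.card ≤ ∏ p ∈ S, p := h2S
      _ ≤ ∏ s ∈ Icc 1 t, (b ^ s - 1) := Nat.le_of_dvd hpos hprod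
      _ ≤ (b ^ t) ^ t := hle
      _ = b ^ (t ^ 2) := by rw [← pow_mul, sq]
      _ ≤ (2 ^ b) ^ (t ^ 2) := Nat.pow_le_pow_left (Nat.lt_two_pow_self).le _
      _ = 2 ^ (b * t ^ 2) := by rw [← pow_mul]
  exact (Nat.pow_le_pow_iff_right (by norm_num)).mp h3

end TAUaux

open TAUaux in
theorem t_TAU : S_TAU := by
  intro b hb
  refine ⟨27 * (b : ℝ) ^ (1 / 4 : ℝ), by positivity, ?_⟩
  intro w hw P hP
  have hw0 : (0 : ℝ) < w := by exact_mod_cast hw
  obtain ⟨e, he⟩ : ∃ e : ℕ → ℕ, e = fun p => orderOf (b : ZMod p) := ⟨_, rfl⟩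
  have he1 : ∀ p ∈ P, 1 ≤ e p := by
    intro p hp
    rw [he]
    exact ord_pos b p (hP p hp).1 (hP p hp).2.2
  obtain ⟨α, hα⟩ : ∃ α : ℕ → ℝ, α = fun o => ∑ p ∈ P.filter (fun p => e p = o), 1 / (p : ℝ) := ⟨_, rfl⟩
  obtain ⟨C', hC'⟩ : ∃ C' : ℝ, C' = 9 * (b : ℝ) ^ (1 / 4 : ℝ) / (w : ℝ) ^ (1 / 4 : ℝ) := ⟨_, rfl⟩
  have hC'0 : 0 ≤ C' := by rw [hC']; positivity
  have hA : ∀ m : ℕ, 1 ≤ m → ∑ o ∈ Icc 1 m, α o ≤ C' * √(m : ℝ) := by
    intro m hm
    have h1 : ∑ o ∈ Icc 1 m, α o = ∑ p ∈ P.filter (fun p => e p ≤ m), 1 / (p : ℝ) := by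
      rw [← Finset.sum_fiberwise_of_maps_to (s := P.filter (fun p => e p ≤ m)) (t := Icc 1 m) (g := e)
        (fun p hp => by
          rw [Finset.mem_filter] at hp
          rw [Finset.mem_Icc]
          exact ⟨he1 p hp.1, hp.2⟩)]
      refine Finset.sum_congr rfl fun o ho => ?_
      rw [Finset.mem_Icc] at ho
      rw [hα, Finset.filter_filter]
      refine Finset.sum_congr (Finset.filter_congr fun p _ => ?_) fun _ _ => rfl
      constructor
      · intro h; exact ⟨by omega, h⟩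
      · intro h; exact h.2
    rw [h1]
    have h2 := set_sum (P.filter (fun p => e p ≤ m)) w hw (fun p hp => by
      rw [Finset.mem_filter] at hp
      exact (hP p hp.1).2.1)
    have h3 : (P.filter (fun p => e p ≤ m)).card ≤ b * m ^ 2 := by
      rw [he]
      exact card_le b hb P (fun p hp => ⟨(hP p hp).1, (hP p hp).2.2⟩) m
    refine h2.trans ?_
    have h4 : (((P.filter (fun p => e p ≤ m)).card : ℝ) / w) ^ (1 / 4 : ℝ) ≤
        (((b * m ^ 2 : ℕ) : ℝ) / w) ^ (1 / 4 : ℝ) := by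
      apply Real.rpow_le_rpow (by positivity) _ (by norm_num)
      apply div_le_div_of_nonneg_right _ hw0.le
      exact_mod_cast h3
    have h5 : (((b * m ^ 2 : ℕ) : ℝ) / w) ^ (1 / 4 : ℝ) =
        (b : ℝ) ^ (1 / 4 : ℝ) * √(m : ℝ) / (w : ℝ) ^ (1 / 4 : ℝ) := by
      push_cast
      rw [Real.div_rpow (by positivity) hw0.le, Real.mul_rpow (by positivity) (by positivity)]
      congr 2
      rw [Real.sqrt_eq_rpow, ← Real.rpow_natCast, ← Real.rpow_mul (by positivity)]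
      norm_num
    rw [h5] at h4
    calc 9 * (((P.filter (fun p => e p ≤ m)).card : ℝ) / w) ^ (1 / 4 : ℝ)
        ≤ 9 * ((b : ℝ) ^ (1 / 4 : ℝ) * √(m : ℝ) / (w : ℝ) ^ (1 / 4 : ℝ)) := by linarith
      _ = C' * √(m : ℝ) := by rw [hC']; ring
  obtain ⟨T, hT⟩ : ∃ T : ℕ, T = P.sup e := ⟨_, rfl⟩
  have hmain : ∑ p ∈ P, 1 / ((p : ℝ) * (orderOf (b : ZMod p) : ℝ)) = ∑ o ∈ Icc 1 T, α o / o := by
    rw [← Finset.sum_fiberwise_of_maps_to (s := P) (t := Icc 1 T) (g := e)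
        (fun p hp => by
          rw [Finset.mem_Icc]
          exact ⟨he1 p hp, by rw [hT]; exact Finset.le_sup hp⟩)]
    refine Finset.sum_congr rfl fun o _ => ?_
    rw [hα, Finset.sum_div]
    refine Finset.sum_congr rfl fun p hp => ?_
    rw [Finset.mem_filter] at hp
    have : (orderOf (b : ZMod p) : ℝ) = o := by
      rw [← hp.2, he]
    rw [this]
    rw [div_div]
  rw [hmain]
  have hfin : ∑ o ∈ Icc 1 T, α o / o ≤ 3 * C' := by
    rcases Nat.eq_zero_or_pos T with h0 | h0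
    · rw [h0]
      simp
      linarith
    · have h1 := abel_sum α C' hC'0 hA T
      have hT0 : (1 : ℝ) ≤ T := by exact_mod_cast h0
      have h2 : (∑ o ∈ Icc 1 T, α o) / ((T : ℝ) + 1) ≤ C' := by
        rw [div_le_iff₀ (by positivity)]
        refine (hA T h0).trans ?_
        apply mul_le_mul_of_nonneg_left _ hC'0
        rw [Real.sqrt_le_left (by positivity)]
        nlinarith
      have h3 : C' * (2 - 2 / √((T : ℝ) + 1)) ≤ C' * 2 := by
        apply mul_le_mul_of_nonneg_left _ hC'0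
        have : 0 ≤ 2 / √((T : ℝ) + 1) := by positivity
        linarith
      linarith
  refine hfin.trans (le_of_eq ?_)
  rw [hC']
  ring

end Pool.Agent.H95RU
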