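import Pool.Agent.H95RU.Stm2
import Pool.Agent.H95RU.TWO

set_option autoImplicit false

/-! Project RU: stub UPK. -/

namespace Pool.Agent.H95RU

namespace UPK

open Finset Pool.Agent.H373R2.T7

/-- the system of the linear polynomials of the family -/
def QT (w Z : ℕ) (a c : ℕ → ℕ) (T : Finset ℕ) (p n : ℕ) : Prop := w < p ∧ ∃ m ∈ T, p ∣ a m + c m * (n + Z)

open Classical in
lemma filter_eq {w Z : ℕ} {a c : ℕ → ℕ} {T : Finset ℕ} {p : ℕ} (hw : w < p) :
    (range p).filter (fun r => QT w Z a c T p r) =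
      T.biUnion (fun m => (range p).filter (fun r => p ∣ a m + c m * (r + Z))) := by
  ext r
  rw [mem_filter, mem_biUnion]
  unfold QT
  constructor
  · rintro ⟨h1, _, m, hm, h2⟩
    exact ⟨m, hm, mem_filter.2 ⟨h1, h2⟩⟩
  · rintro ⟨m, hm, h⟩
    rw [mem_filter] at h
    exact ⟨h.1, hw, m, hm, h.2⟩

lemma nuB_zero {w Z : ℕ} {a c : ℕ → ℕ} {T : Finset ℕ} {p : ℕ} (hw : ¬ w < p) :
    nuB (QT w Z a c T) p = 0 := by
  classical
  unfold nuB
  rw [card_eq_zero, filter_eq_empty_iff]
  intro r _ h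
  exact hw h.1

lemma nuB_le_card {w Z : ℕ} {a c : ℕ → ℕ} {T : Finset ℕ} (hc : UnitF w c T) {p : ℕ} (hp : p.Prime) :
    nuB (QT w Z a c T) p ≤ T.card := by
  classical
  by_cases hw : w < p
  · have h2 : ((range p).filter (fun r => QT w Z a c T p r)).card ≤ T.card := by
      rw [filter_eq hw]
      refine (card_biUnion_le_card_mul T _ 1 ?_).trans (by simp)
      intro m hm
      rw [lin_root Z (a m) (c m) p hp (hc m hm p hp hw)]
    unfold nuB
    convert h2 using 1
  · rw [nuB_zero hw]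
    exact Nat.zero_le _

lemma perB {w Z : ℕ} {a c : ℕ → ℕ} {T : Finset ℕ} (hc : UnitF w c T) :
    PerB (QT w Z a c T) T.card := by
  refine ⟨fun p n => ?_, fun p hp => nuB_le_card hc hp⟩
  unfold QT
  constructor
  · rintro ⟨h, m, hm, h1⟩
    exact ⟨h, m, hm, (per_lin Z (a m) (c m) p n).1 h1⟩
  · rintro ⟨h, m, hm, h1⟩
    exact ⟨h, m, hm, (per_lin Z (a m) (c m) p n).2 h1⟩

lemma one_le_nuB {w Z : ℕ} {a c : ℕ → ℕ} {T : Finset ℕ} (hT : T.Nonempty) (hc : UnitF w c T) {p : ℕ}
    (hp : p.Prime) (hw : w < p) : 1 ≤ nuB (QT w Z a c T) p := by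
  classical
  obtain ⟨m, hm⟩ := hT
  have h1 : (range p).filter (fun r => p ∣ a m + c m * (r + Z)) ⊆
      (range p).filter (fun r => QT w Z a c T p r) := by
    intro r hr
    rw [mem_filter] at hr ⊢
    exact ⟨hr.1, hw, m, hm, hr.2⟩
  have h2 := card_le_card h1
  rw [lin_root Z (a m) (c m) p hp (hc m hm p hp hw)] at h2
  unfold nuB
  convert h2 using 1

lemma nuB_full {b w Z : ℕ} {a c : ℕ → ℕ} {T : Finset ℕ} (hc : UnitF w c T) (hcol : CollF b w a c T) {p : ℕ}
    (hp : p.Prime) (hw : w < p) (hno : ∀ x ∈ prs T, ¬ p ∣ b ^ (x.2 - x.1) - 1) :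
    nuB (QT w Z a c T) p = T.card := by
  classical
  have key : ∀ m ∈ T, ∀ m' ∈ T, m < m' →
      Disjoint ((range p).filter (fun r => p ∣ a m + c m * (r + Z)))
        ((range p).filter (fun r => p ∣ a m' + c m' * (r + Z))) := by
    intro m hm m' hm' hlt
    rw [disjoint_left]
    intro r hr hr'
    rw [mem_filter] at hr hr'
    have h1 := hcol m hm m' hm' hlt p (r + Z) hp hw hr.2 hr'.2
    exact hno (m, m') (by
      unfold prs
      rw [mem_filter, mem_product]
      exact ⟨⟨hm, hm'⟩, hlt⟩) h1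
  have h2 : ((range p).filter (fun r => QT w Z a c T p r)).card = T.card := by
    rw [filter_eq hw, card_biUnion]
    · rw [Finset.sum_congr rfl (fun m hm => lin_root Z (a m) (c m) p hp (hc m hm p hp hw))]
      simp
    · intro m hm m' hm' hne
      rcases lt_or_gt_of_ne hne with h | h
      · exact key m hm m' hm' h
      · exact (key m' hm' m hm h).symm
  unfold nuB
  convert h2 using 1

lemma prod_le {b w Z : ℕ} {a c : ℕ → ℕ} {T : Finset ℕ} (hb : 2 ≤ b) (hT : T.Nonempty) (hc : UnitF w c T)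
    (hcol : CollF b w a c T) (y : ℕ) :
    ∏ p ∈ pz y, (1 - (nuB (QT w Z a c T) p : ℝ) / p) ≤
      Vt w y ^ T.card * ∏ x ∈ prs T, Dw b w (x.2 - x.1) ^ (2 * T.card) := by
  classical
  rw [prod_pz_pw _ w y (by
    intro p _ hw
    rw [nuB_zero hw]
    simp)]
  have h1 : ∏ p ∈ pw w y, (1 - (nuB (QT w Z a c T) p : ℝ) / p) ≤
      ∏ p ∈ pw w y, ((1 - 1 / (p : ℝ)) ^ T.card *
        ∏ x ∈ prs T, (if p ∣ b ^ (x.2 - x.1) - 1 then (1 + 1 / (p : ℝ)) ^ (2 * T.card) else 1)) := by
    apply prod_le_prod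
    · intro p hp
      have hp' := mem_pw.1 hp
      have hp0 : (0 : ℝ) < p := by exact_mod_cast hp'.2.1.pos
      rw [sub_nonneg, div_le_one hp0]
      exact_mod_cast nuB_le _ _
    · intro p hp
      obtain ⟨h1, h2, h3⟩ := mem_pw.1 hp
      have hp2 : (2 : ℝ) ≤ p := by exact_mod_cast h2.two_le
      have hp0 : (0 : ℝ) < p := by linarith
      set u : ℝ := 1 / (p : ℝ) with hu
      have hu0 : 0 < u := by positivity
      have hu2 : u ≤ 1 / 2 := one_div_le_one_div_of_le (by norm_num) hp2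
      by_cases hd : ∃ x ∈ prs T, p ∣ b ^ (x.2 - x.1) - 1
      · obtain ⟨x, hx, hxd⟩ := hd
        have h4 : (1 : ℝ) ≤ (nuB (QT w Z a c T) p : ℝ) := by
          exact_mod_cast one_le_nuB hT hc h2 h3
        have h5 : (nuB (QT w Z a c T) p : ℝ) / p = nuB (QT w Z a c T) p * u := by
          rw [hu]; ring
        rw [h5]
        have h6 : u ≤ nuB (QT w Z a c T) p * u := by nlinarith
        have h7 : (1 + u) ^ (2 * T.card) ≤
            ∏ x ∈ prs T, (if p ∣ b ^ (x.2 - x.1) - 1 then (1 + u) ^ (2 * T.card) else 1) := by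
          have h8 : ∏ x' ∈ ({x} : Finset (ℕ × ℕ)),
              (if p ∣ b ^ (x'.2 - x'.1) - 1 then (1 + u) ^ (2 * T.card) else 1) ≤
              ∏ x ∈ prs T, (if p ∣ b ^ (x.2 - x.1) - 1 then (1 + u) ^ (2 * T.card) else 1) := by
            apply prod_le_prod_of_subset_of_one_le
            · exact singleton_subset_iff.2 hx
            · intro i _
              split_ifs
              · positivity
              · exact zero_le_one
            · intro i _ _
              split_ifs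
              · exact one_le_pow₀ (by linarith)
              · exact le_refl _
          rw [prod_singleton, if_pos hxd] at h8
          exact h8
        have h9 : 1 ≤ (1 - u) * (1 + u) ^ 2 := by
          have e : (1 - u) * (1 + u) ^ 2 - 1 = u * (1 - u - u ^ 2) := by ring
          have e2 : 0 ≤ u * (1 - u - u ^ 2) := by
            apply mul_nonneg hu0.le
            nlinarith
          linarith
        have h10 : 1 ≤ (1 - u) ^ T.card * (1 + u) ^ (2 * T.card) := by
          have e : (1 - u) ^ T.card * (1 + u) ^ (2 * T.card) = ((1 - u) * (1 + u) ^ 2) ^ T.card := by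
            rw [mul_pow, ← pow_mul]
          rw [e]
          exact one_le_pow₀ h9
        have h11 : (0 : ℝ) ≤ (1 - u) ^ T.card := pow_nonneg (by linarith) _
        have h12 := mul_le_mul_of_nonneg_left h7 h11
        linarith
      · push Not at hd
        rw [nuB_full hc hcol h2 h3 hd]
        have h4 : ∏ x ∈ prs T, (if p ∣ b ^ (x.2 - x.1) - 1 then (1 + u) ^ (2 * T.card) else 1) = 1 := by
          apply prod_eq_one
          intro x hx
          rw [if_neg (hd x hx)]
        rw [h4, mul_one]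
        have h5 : ((T.card : ℕ) : ℝ) / p = T.card * u := by rw [hu]; ring
        rw [h5]
        have h6 := one_add_mul_le_pow (show (-2 : ℝ) ≤ -u by linarith) T.card
        have h7 : (1 + -u) = 1 - u := by ring
        rw [h7] at h6
        linarith
  refine h1.trans ?_
  rw [prod_mul_distrib, prod_pow]
  have hV : 0 ≤ (∏ p ∈ pw w y, (1 - 1 / (p : ℝ))) ^ T.card := by
    apply pow_nonneg
    apply prod_nonneg
    intro p hp
    obtain ⟨h1, h2, h3⟩ := mem_pw.1 hp
    have hp2 : (1 : ℝ) ≤ p := by exact_mod_cast h2.one_le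
    rw [sub_nonneg]
    rw [div_le_one (by linarith)]
    exact hp2
  unfold Vt
  apply mul_le_mul_of_nonneg_left _ hV
  rw [prod_comm]
  apply prod_le_prod
  · intro x _
    apply prod_nonneg
    intro p _
    split_ifs
    · positivity
    · exact zero_le_one
  · intro x hx
    have hx' : x.1 < x.2 := by
      unfold prs at hx
      rw [mem_filter] at hx
      exact hx.2
    have hbh0 : b ^ (x.2 - x.1) - 1 ≠ 0 := by
      have : b ^ 1 ≤ b ^ (x.2 - x.1) := Nat.pow_le_pow_right (by omega) (by omega)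
      rw [pow_one] at this
      omega
    rw [← prod_filter]
    unfold Dw
    rw [← prod_pow]
    apply prod_le_prod_of_subset_of_one_le
    · intro p hp
      rw [mem_filter] at hp
      obtain ⟨h1, h2, h3⟩ := mem_pw.1 hp.1
      unfold pf
      rw [mem_filter, Nat.mem_primeFactors]
      exact ⟨⟨h2, hp.2, hbh0⟩, h3⟩
    · intro p _
      positivity
    · intro p _ _
      apply one_le_pow₀
      have : 0 ≤ 1 / (p : ℝ) := by positivity
      linarith

open Classical in
lemma card_shift (w Z Y y : ℕ) (a c : ℕ → ℕ) (T : Finset ℕ) :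
    ((Ioc Z (Z + Y)).filter (fun j => ∀ n ∈ T, ∀ p ∈ pw w y, ¬ p ∣ a n + c n * j)).card =
      ((Icc 1 Y).filter (fun n : ℕ => ∀ p ∈ pz y, ¬ QT w Z a c T p n)).card := by
  symm
  apply Finset.card_bij (fun n _ => n + Z)
  · intro n hn
    rw [mem_filter, mem_Icc] at hn
    rw [mem_filter, mem_Ioc]
    refine ⟨by omega, fun m hm p hp hdiv => ?_⟩
    obtain ⟨e1, e2, e3⟩ := mem_pw.1 hp
    exact hn.2 p (mem_pz.2 ⟨e1, e2⟩) ⟨e3, m, hm, hdiv⟩
  · intro n _ n' _ hnn
    omega
  · intro j hj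
    rw [mem_filter, mem_Ioc] at hj
    refine ⟨j - Z, ?_, by omega⟩
    rw [mem_filter, mem_Icc]
    refine ⟨by omega, fun p hp hq => ?_⟩
    obtain ⟨e1, e2⟩ := mem_pz.1 hp
    obtain ⟨hw, m, hm, hdiv⟩ := hq
    have e : j - Z + Z = j := by omega
    rw [e] at hdiv
    exact hj.2 m hm p (mem_pw.2 ⟨e1, e2, hw⟩) hdiv

end UPK

open Classical Finset Pool.Agent.H373R2.T7 in
theorem t_UPK : S_UPK := by
  intro k hk η hη
  obtain ⟨K, x0, hK1, H⟩ := sys_fund k hk η hη
  refine ⟨K, x0, ?_⟩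
  intro w Z Y y hy hyY b hb a c T hT hc hcol
  have hTne : T.Nonempty := by
    rw [← card_pos]; omega
  have h1 := H Y y hy hyY (UPK.QT w Z a c T) (hT ▸ UPK.perB hc) Y
  have h2 := UPK.prod_le (Z := Z) hb hTne hc hcol y
  rw [hT] at h2
  have h3 := (abs_le.1 h1).2
  rw [UPK.card_shift]
  have hY0 : (0 : ℝ) ≤ Y := Nat.cast_nonneg _
  have h5 := mul_le_mul_of_nonneg_left h2 hY0
  have h6 := mul_le_mul_of_nonneg_left h5 (show (0 : ℝ) ≤ 1 + η by linarith)
  have h7 : (Y : ℝ) * (Vt w y ^ k * ∏ x ∈ prs T, Dw b w (x.2 - x.1) ^ (2 * k)) =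
      Y * Vt w y ^ k * ∏ x ∈ prs T, Dw b w (x.2 - x.1) ^ (2 * k) := by ring
  rw [h7] at h6
  linarith

end Pool.Agent.H95RU
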