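import Pool.Agent.H95RU.Stm2
import Pool.Agent.H95RU.Main2
import Pool.Agent.TH464.PO.Comb

set_option autoImplicit false

/-!
# Project RU: the Poisson law for a family
-/

namespace Pool.Agent.H95RU

open Finset

open Classical in
/-- **the Poisson law for a family** -/
theorem poiR (hM : S_MOMK) (b : ℕ) (hb : 2 ≤ b) (x₀ ε : ℝ) (hx₀ : 0 ≤ x₀) (hε : 0 < ε) :
    ∃ w₀ : ℕ, ∀ w : ℕ, w₀ ≤ w → ∃ K₀ y₀ N₀ : ℕ, ∀ Z Y y N : ℕ, y₀ ≤ y → y ^ K₀ ≤ Y → N₀ ≤ N →
      ∀ a c ρ : ℕ → ℕ, FamR b w a c ρ →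
        (N : ℝ) ≤ ((Icc 1 N).filter (fun n => Rough w (ρ n))).card * (w : ℝ) ^ (1 / 20 : ℝ) →
        Vt w y * ((Icc 1 N).filter (fun n => Rough w (ρ n))).card ≤ x₀ → ∀ A : Finset ℕ,
        |(((Ioc Z (Z + Y)).filter (fun j =>
          ((Icc 1 N).filter (fun n => Rough y (a n + c n * j))).card ∈ A)).card : ℝ) -
          Y * ∑ i ∈ A, Real.exp (-(Vt w y * ((Icc 1 N).filter (fun n => Rough w (ρ n))).card)) *
            (Vt w y * ((Icc 1 N).filter (fun n => Rough w (ρ n))).card) ^ i / i.factorial| ≤ ε * Y := by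
  obtain ⟨R, η, hη, htv⟩ := Pool.Agent.TH464.PO.law_tv x₀ ε hx₀ hε
  obtain ⟨X1, hX1⟩ : ∃ X1 : ℝ, X1 = (1 + x₀) ^ (R + 1) := ⟨_, rfl⟩
  have hX1pos : 1 ≤ X1 := by rw [hX1]; exact one_le_pow₀ (by linarith)
  obtain ⟨η1, hη1⟩ : ∃ η1 : ℝ, η1 = η / (2 * X1) := ⟨_, rfl⟩
  have hη10 : 0 < η1 := by rw [hη1]; positivity
  have hη12 : η1 * X1 = η / 2 := by
    rw [hη1]
    field_simp
  choose w0 hw0 using fun k : ℕ => hM b hb (k + 1) (by omega) η1 hη10
  refine ⟨∑ k ∈ range R, w0 k, fun w hw => ?_⟩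
  have hwk : ∀ k ∈ range R, w0 k ≤ w := fun k hk =>
    (Finset.single_le_sum (f := w0) (fun _ _ => Nat.zero_le _) hk).trans hw
  have hch : ∀ k : ℕ, ∃ K₀ y₀ N₀ : ℕ, k ∈ range R → ∀ Z Y y N : ℕ, y₀ ≤ y → y ^ K₀ ≤ Y → N₀ ≤ N →
      ∀ (a c : ℕ → ℕ) (G : Finset ℕ), G ⊆ Icc 1 N →
      (N : ℝ) ≤ G.card * (w : ℝ) ^ (1 / 20 : ℝ) → UnitF w c G → CollF b w a c G →
        |∑ j ∈ Ioc Z (Z + Y), (((G.filter (fun n => ∀ p ∈ pw w y, ¬ p ∣ a n + c n * j)).card.choose (k + 1) : ℕ) : ℝ) -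
          Y * ((Vt w y * G.card) ^ (k + 1) / (k + 1).factorial)| ≤
          η1 * (Y * (Vt w y * G.card) ^ (k + 1)) + (G.card : ℝ) ^ (k + 1) * √(Y : ℝ) := by
    intro k
    by_cases hk : k ∈ range R
    · obtain ⟨K₀, y₀, N₀, h⟩ := hw0 k w (hwk k hk)
      exact ⟨K₀, y₀, N₀, fun _ => h⟩
    · exact ⟨0, 0, 0, fun h => absurd h hk⟩
  choose K0 y0 N0 hmom using hch
  obtain ⟨y1, hy1⟩ := exists_nat_ge (2 * X1 / η)
  refine ⟨(∑ k ∈ range R, K0 k) + 2 * R + 4, (∑ k ∈ range R, y0 k) + y1 + w + 1, ∑ k ∈ range R, N0 k, ?_⟩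
  intro Z Y y N hy hyY hN a c ρ hfam hNG hE A
  have hy1' : 1 ≤ y := by omega
  have hwy : w ≤ y := by omega
  have hyr : (1 : ℝ) ≤ y := by exact_mod_cast hy1'
  obtain ⟨G, hG⟩ : ∃ G, G = (Icc 1 N).filter (fun n => Rough w (ρ n)) := ⟨_, rfl⟩
  rw [← hG] at hNG hE ⊢
  obtain ⟨x, hxdef⟩ : ∃ x, x = Vt w y * G.card := ⟨_, rfl⟩
  have hv0 := Vt_pos w y
  have hx00 : 0 ≤ x := by rw [hxdef]; positivity
  rw [← hxdef] at hE ⊢
  have hAG : ∀ j : ℕ, (Icc 1 N).filter (fun n => Rough y (a n + c n * j)) =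
      (G.filter (fun n => ∀ p ∈ pw w y, ¬ p ∣ a n + c n * j)) := by
    intro j
    ext n
    rw [hG, mem_filter, mem_filter, mem_filter, and_assoc]
    apply and_congr_right
    intro _
    constructor
    · intro h
      refine ⟨fun p hp hpw => ?_, fun p hp => ?_⟩
      · rw [← hfam.low n p j hp hpw]
        exact h p hp (hpw.trans hwy)
      · unfold pw at hp
        rw [mem_filter, mem_Icc] at hp
        exact h p hp.2.1 hp.1.2
    · rintro ⟨h3, h4⟩ p hp hpy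
      rcases Nat.lt_or_ge w p with h5 | h5
      · apply h4 p
        unfold pw
        rw [mem_filter, mem_Icc]
        exact ⟨⟨hp.one_lt.le, hpy⟩, hp, h5⟩
      · rw [hfam.low n p j hp h5]
        exact h3 p hp h5
  have hY0 : (0 : ℝ) ≤ Y := Nat.cast_nonneg Y
  have hcard : ((Ioc Z (Z + Y)).card : ℝ) = Y := by
    rw [Nat.card_Ioc, Nat.add_sub_cancel_left]
  -- the size of G
  have hVt : 1 / (y : ℝ) ≤ Vt w y := (V_ge y hy1').trans (V_le_Vt w y)
  have hq : (G.card : ℝ) ≤ x₀ * y := by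
    have h1 : 1 / (y : ℝ) * G.card ≤ x₀ := by
      refine le_trans ?_ hE
      rw [hxdef]
      exact mul_le_mul_of_nonneg_right hVt (Nat.cast_nonneg _)
    rw [one_div, inv_mul_le_iff₀ (by linarith)] at h1
    linarith
  have hsq : (y : ℝ) ^ (R + 1) * √(Y : ℝ) * y ≤ Y := by
    have h1 : (y : ℝ) ^ (R + 2) ≤ √(Y : ℝ) := by
      apply Real.le_sqrt_of_sq_le
      calc ((y : ℝ) ^ (R + 2)) ^ 2 = (y : ℝ) ^ (2 * R + 4) := by
            rw [← pow_mul]
            congr 1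
            ring
        _ ≤ (Y : ℝ) := by
            have h2 : y ^ (2 * R + 4) ≤ Y := (Nat.pow_le_pow_right hy1' (by omega)).trans hyY
            exact_mod_cast h2
    calc (y : ℝ) ^ (R + 1) * √(Y : ℝ) * y = (y : ℝ) ^ (R + 2) * √(Y : ℝ) := by ring
      _ ≤ √(Y : ℝ) * √(Y : ℝ) := mul_le_mul_of_nonneg_right h1 (Real.sqrt_nonneg _)
      _ = Y := Real.mul_self_sqrt hY0
  have hmain := htv (Ioc Z (Z + Y)) (fun j => (G.filter (fun n => ∀ p ∈ pw w y, ¬ p ∣ a n + c n * j)).card) x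
    hx00 hE (by
    intro k hk
    rw [hcard]
    rcases k with _ | k
    · simp
      positivity
    · have hkR : k ∈ range R := mem_range.2 (by omega)
      have hKk : K0 k ≤ ∑ k ∈ range R, K0 k := Finset.single_le_sum (f := K0) (fun _ _ => Nat.zero_le _) hkR
      have hyk : y0 k ≤ ∑ k ∈ range R, y0 k := Finset.single_le_sum (f := y0) (fun _ _ => Nat.zero_le _) hkR
      have hNk : N0 k ≤ ∑ k ∈ range R, N0 k := Finset.single_le_sum (f := N0) (fun _ _ => Nat.zero_le _) hkR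
      have h1 := hmom k hkR Z Y y N (by omega)
        ((Nat.pow_le_pow_right hy1' (by omega)).trans hyY) (by omega) a c G
        (by rw [hG]; exact filter_subset _ _) hNG (fun n _ p hp hwp => hfam.unit n p hp hwp)
        (fun n _ m _ hnm p j hp hwp => hfam.coll n m hnm p j hp hwp)
      rw [← hxdef] at h1
      refine (le_trans (le_of_eq ?_) h1).trans ?_
      · congr
      have h2 : x ^ (k + 1) ≤ X1 := by
        calc x ^ (k + 1) ≤ (1 + x₀) ^ (k + 1) := pow_le_pow_left₀ hx00 (by linarith) _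
          _ ≤ (1 + x₀) ^ (R + 1) := pow_le_pow_right₀ (by linarith) (by omega)
          _ = X1 := hX1.symm
      have h3 : (G.card : ℝ) ^ (k + 1) * √(Y : ℝ) ≤ η / 2 * Y := by
        have a1 : (G.card : ℝ) ^ (k + 1) ≤ X1 * (y : ℝ) ^ (R + 1) := by
          calc (G.card : ℝ) ^ (k + 1) ≤ ((1 + x₀) * y) ^ (k + 1) := by
                apply pow_le_pow_left₀ (Nat.cast_nonneg _)
                nlinarith
            _ ≤ ((1 + x₀) * y) ^ (R + 1) := by
                apply pow_le_pow_right₀ _ (by omega)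
                nlinarith
            _ = X1 * (y : ℝ) ^ (R + 1) := by rw [mul_pow, hX1]
        have a2 : 2 * X1 / η ≤ y := hy1.trans (by exact_mod_cast (by omega : y1 ≤ y))
        rw [div_le_iff₀ hη] at a2
        have a3 : 0 ≤ (y : ℝ) ^ (R + 1) * √(Y : ℝ) := by positivity
        calc (G.card : ℝ) ^ (k + 1) * √(Y : ℝ) ≤ X1 * (y : ℝ) ^ (R + 1) * √(Y : ℝ) :=
              mul_le_mul_of_nonneg_right a1 (Real.sqrt_nonneg _)
          _ = 1 / 2 * ((y : ℝ) ^ (R + 1) * √(Y : ℝ) * (2 * X1)) := by ring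
          _ ≤ 1 / 2 * ((y : ℝ) ^ (R + 1) * √(Y : ℝ) * (y * η)) := by
              apply mul_le_mul_of_nonneg_left _ (by norm_num)
              exact mul_le_mul_of_nonneg_left a2 a3
          _ = η / 2 * ((y : ℝ) ^ (R + 1) * √(Y : ℝ) * y) := by ring
          _ ≤ η / 2 * Y := mul_le_mul_of_nonneg_left hsq (by positivity)
      have h4 : η1 * (Y * x ^ (k + 1)) ≤ η / 2 * Y := by
        calc η1 * (Y * x ^ (k + 1)) ≤ η1 * (Y * X1) :=
              mul_le_mul_of_nonneg_left (mul_le_mul_of_nonneg_left h2 hY0) hη10.le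
          _ = η1 * X1 * Y := by ring
          _ = η / 2 * Y := by rw [hη12]
      linarith) A
  rw [hcard] at hmain
  refine le_of_eq_of_le ?_ hmain
  congr 3
  apply congrArg
  apply filter_congr
  intro j _
  rw [hAG j]

end Pool.Agent.H95RU
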