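import Mathlib

set_option autoImplicit false

/-!
# Project RU (MP_adea1b_nt): numbers near the repunits, statements of the stubs

`R b n` is the repunit with `n` digits in base `b`. The project: for almost all `k = 1` modulo the product of the
primes `p ≤ w` the numbers whose digits are those of `k` followed by `n` digits `1`, `n ≤ N`, contain the expected
number of almost primes (law of large numbers, `N` of the size of `log k`).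
-/

namespace Pool.Agent.H95RU

open Finset

/-- the repunit with `n` digits in base `b` -/
def R (b n : ℕ) : ℕ := ∑ i ∈ range n, b ^ i

/-- `m` has no prime factor up to `y` -/
def Rough (y m : ℕ) : Prop := ∀ p : ℕ, p.Prime → p ≤ y → ¬ p ∣ m

/-- the product of `1 - 1 / p` over the primes up to `y` -/
noncomputable def V (y : ℕ) : ℝ := ∏ p ∈ (Icc 1 y).filter Nat.Prime, (1 - 1 / (p : ℝ))

/-- the primes in `(w, y]` -/
def pw (w y : ℕ) : Finset ℕ := (Icc 1 y).filter (fun p => p.Prime ∧ w < p)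

/-- the product of `1 - 1 / p` over the primes in `(w, y]` -/
noncomputable def Vt (w y : ℕ) : ℝ := ∏ p ∈ pw w y, (1 - 1 / (p : ℝ))

/-- the prime factors of `b ^ h - 1` above `w` -/
def pf (b w h : ℕ) : Finset ℕ := (b ^ h - 1).primeFactors.filter (fun p => w < p)

/-- the sum of their reciprocals -/
noncomputable def xw (b w h : ℕ) : ℝ := ∑ p ∈ pf b w h, 1 / (p : ℝ)

/-- the collision factor -/
noncomputable def Dw (b w h : ℕ) : ℝ := ∏ p ∈ pf b w h, (1 + 1 / (p : ℝ))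

/-- Stub TAU. Proof: fix `b`, `w`, `P`. Let `e p = orderOf (b : ZMod p) ≥ 1` (as `p` does not divide `b`) and
`S t = {p ∈ P | e p ≤ t}`. The product of the primes in `S t` divides `∏_{s = 1}^{t} (b ^ s - 1)`, which is positive
and at most `b ^ (t ^ 2)`; so `2 ^ |S t| ≤ b ^ (t ^ 2)` and `|S t| ≤ b t ^ 2` (`b ≤ 2 ^ b`). The elements of `S t` are
distinct integers above `w`, so `∑_{p ∈ S t} 1 / p ≤ ∑_{i = 1}^{|S t|} 1 / (w + i) ≤ log (1 + |S t| / w) ≤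
4 (|S t| / w) ^ (1 / 4) ≤ 4 b ^ (1 / 4) t ^ (1 / 2) w ^ (-1 / 4)`. By partial summation (`1 / e p = ∑_{t ≥ e p}
(1 / t - 1 / (t + 1))`; with a finite upper limit `T ≥` all `e p`: `1 / e p = ∑_{t = e p}^{T} 1 / (t (t + 1)) +
1 / (T + 1)`), `∑_p 1 / (p e p) ≤ ∑_{t ≤ T} (1 / (t (t + 1))) ∑_{p ∈ S t} 1 / p + (1 / (T + 1)) ∑_{p ∈ S T} 1 / p`,
and `∑ t ^ (1 / 2) / t ^ 2` converges. (Compare `abel_sum` in `Pool/Agent/W93/HD2.lean`: it is the lemma needed: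
if `∑_{o ≤ m} α o ≤ C √m` for all `m ≥ 1` then `∑_{o ≤ n} α o / o ≤ ...  + C (2 - 2 / √(n + 1))`, here with
`α o = ∑_{p ∈ P, e p = o} 1 / p`.) -/
def S_TAU : Prop := ∀ b : ℕ, 2 ≤ b → ∃ C : ℝ, 0 ≤ C ∧ ∀ w : ℕ, 1 ≤ w → ∀ P : Finset ℕ,
  (∀ p ∈ P, p.Prime ∧ w < p ∧ ¬ p ∣ b) →
    ∑ p ∈ P, 1 / ((p : ℝ) * (orderOf (b : ZMod p) : ℝ)) ≤ C / (w : ℝ) ^ (1 / 4 : ℝ)

/-- Stub AVX, `theorem t_AVX (h : S_TAU) : S_AVX`. Proof: exchange the summations; for a prime `p` not dividing `b`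
the number of the `h` in `[1, N]` with `p ∣ b ^ h - 1`, that is `orderOf (b : ZMod p) ∣ h`, is
`N / orderOf (b : ZMod p)` (a prime factor of `b ^ h - 1`, `h ≥ 1`, does not divide `b`). Take for `P` the union
of the `pf b w h`. -/
def S_AVX : Prop := ∀ b : ℕ, 2 ≤ b → ∃ C : ℝ, 0 ≤ C ∧ ∀ w : ℕ, 1 ≤ w → ∀ N : ℕ,
  ∑ h ∈ Icc 1 N, xw b w h ≤ C * N / (w : ℝ) ^ (1 / 4 : ℝ)

/-- Stub ROM. Proof: `Pool.Agent.Y820.LT.t_R : S_R` (file `Pool/Agent/Y820/LT/R.lean`) for `e = 1` (constant),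
`s = -1`, `κ = 5`, `K = N + 1` (`N ≥ 1`) and `J = Icc 1 N`; there `gg h = ∏ p ∈ h.primeFactors, (1 + 1 / p)`
(`Pool.Agent.W93.HD.gg`), and `1 ≤ |s|`, `b ^ h + s ≠ 0` for `h ≥ 1`, `b ≥ 2`. -/
def S_ROM : Prop := ∀ b : ℕ, 2 ≤ b → ∃ C : ℝ, 0 ≤ C ∧ ∀ N : ℕ,
  ∑ h ∈ Icc 1 N, (∏ p ∈ (b ^ h - 1).primeFactors, (1 + 1 / (p : ℝ))) ^ 5 ≤ C * N

/-- Stub DAV, `theorem t_DAV (h1 : S_AVX) (h2 : S_ROM) : S_DAV`. Proof: put `x = xw b w h`, `D = Dw b w h` and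
`g = ∏ p ∈ (b ^ h - 1).primeFactors, (1 + 1 / p)`. Then `1 ≤ D ≤ g`, `x ≤ g` (as `∏ (1 + a) ≥ 1 + ∑ a`), and
`D ≤ exp x`, so `D - 1 ≤ D x` (from `exp (-x) ≥ 1 - x`). Hence `D ^ 2 - 1 = (D - 1) (D + 1) ≤ 2 D ^ 2 x ≤ 2 g ^ 2 x`.
For `λ > 0`: `2 g ^ 2 x = 2 (√x) (√x g ^ 2) ≤ x / λ + λ x g ^ 4 ≤ x / λ + λ g ^ 5`. Take `λ = w ^ (-1 / 8)` and sum
over `h`. -/
def S_DAV : Prop := ∀ b : ℕ, 2 ≤ b → ∃ C : ℝ, 0 ≤ C ∧ ∀ w : ℕ, 1 ≤ w → ∀ N : ℕ,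
  ∑ h ∈ Icc 1 N, (Dw b w h ^ 2 - 1) ≤ C * N / (w : ℝ) ^ (1 / 8 : ℝ)

open Classical in
/-- Stub CNT. Proof: (i) if `m ≥ 2` has no prime factor `≤ w` then `R b m` has none: let `p ≤ w` be a prime with
`p ∣ R b m`. `p` does not divide `b` (`R b m = 1` modulo `b`). If `b = 1` modulo `p`, then `R b m = m` modulo `p`,
so `p ∣ m`, impossible. Otherwise `p ∣ b ^ m - 1` (`(b - 1) R b m = b ^ m - 1`), `orderOf (b : ZMod p)` is a divisor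
of `m`, it is `≥ 2` and `≤ p - 1 < w`, so it has a prime factor `≤ w` which divides `m`, impossible.
(ii) for `s ≥ 1` and `N ≥ 2 P`, `P` the product of the primes up to `w`, the number of the `m` in `(s, s + N]`
without prime factor up to `w` is at least `(N / P) φ(P) ≥ N V(w) / 2` (the number in each interval of length `P` is
`φ(P) = P V(w)`). (iii) `V w ≥ c / log w` for `w ≥ 2`: `Pool.Agent.Y810.SQ.V1_bounds` (file
`Pool/Agent/Y810/SQ/Law2.lean`; `V` is `Pool.Agent.Y862.SQ.V1` by `rfl`). -/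
def S_CNT : Prop := ∀ b : ℕ, 2 ≤ b → ∃ c : ℝ, 0 < c ∧ ∀ w : ℕ, 2 ≤ w → ∃ N₀ : ℕ, ∀ N : ℕ, N₀ ≤ N →
  ∀ s : ℕ, 1 ≤ s →
    c * N / Real.log w ≤ (((Icc 1 N).filter (fun n => Rough w (R b (n + s)))).card : ℝ)

open Classical in
/-- Stub ONE. The fundamental lemma for one linear polynomial `a + c j`. Proof:
`Pool.Agent.H373R2.T7.sys_fund` (file `Pool/Agent/H373R2/T7/Fund.lean`) with `c = 1` and the system
`Q p n := w < p ∧ p ∣ a + c (n + Z)`; `nuB Q p = 1` for the primes `p > w` (the only class is `-a / c - Z`), `0` for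
the primes `p ≤ w`. See `Pool/Agent/Y486/SQ/Law.lean` for a similar use. Shift `Ioc Z (Z + Y)` to `Icc 1 Y`. -/
def S_ONE : Prop := ∀ η : ℝ, 0 < η → ∃ K₀ y₀ : ℕ, ∀ w Z Y y : ℕ, y₀ ≤ y → y ^ K₀ ≤ Y →
  ∀ a c : ℕ, (∀ p : ℕ, p.Prime → w < p → ¬ p ∣ c) →
    |(((Ioc Z (Z + Y)).filter (fun j => ∀ p ∈ pw w y, ¬ p ∣ a + c * j)).card : ℝ) - Y * Vt w y| ≤
      η * (Y * Vt w y) + √(Y : ℝ)

open Classical in
/-- Stub TWO. The upper bound of the fundamental lemma for two linear polynomials `a + c j`, `a' + c' j`. Proof: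
`Pool.Agent.H373R2.T7.sys_fund` with `c = 2` and the system
`Q p n := w < p ∧ (p ∣ a + c (n + Z) ∨ p ∣ a' + c' (n + Z))`. For a prime `p > w` we have `nuB Q p = 2` if
`p` does not divide `b ^ h - 1` (then the two classes are different, by the hypothesis), and `nuB Q p ≥ 1` in any
case; so `1 - nuB Q p / p ≤ (1 - 1 / p) ^ 2` in the first case (also for `p = 2`), and
`1 - nuB Q p / p ≤ 1 - 1 / p ≤ (1 - 1 / p) ^ 2 (1 + 1 / p) ^ 2` if `p ∣ b ^ h - 1`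
(`1 ≤ (1 - 1 / p) (1 + 1 / p) ^ 2 = 1 + 1 / p - 1 / p ^ 2 - 1 / p ^ 3` for `p ≥ 2`). The product is at most
`Vt w y ^ 2 * Dw b w h ^ 2` (the factors `(1 + 1 / p) ^ 2` with `p > y` are `≥ 1`). -/
def S_TWO : Prop := ∀ η : ℝ, 0 < η → ∃ K₀ y₀ : ℕ, ∀ w Z Y y : ℕ, y₀ ≤ y → y ^ K₀ ≤ Y →
  ∀ a c a' c' b h : ℕ, 2 ≤ b → 1 ≤ h → (∀ p : ℕ, p.Prime → w < p → ¬ p ∣ c ∧ ¬ p ∣ c') →
    (∀ p j : ℕ, p.Prime → w < p → p ∣ a + c * j → p ∣ a' + c' * j → p ∣ b ^ h - 1) →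
    (((Ioc Z (Z + Y)).filter (fun j => ∀ p ∈ pw w y, ¬ p ∣ a + c * j ∧ ¬ p ∣ a' + c' * j)).card : ℝ) ≤
      (1 + η) * (Y * Vt w y ^ 2 * Dw b w h ^ 2) + √(Y : ℝ)

end Pool.Agent.H95RU
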