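import Pool.Agent.H95RU.Stm

set_option autoImplicit false

/-!
# Project RU, second part: the Poisson law, statements of the stubs
-/

namespace Pool.Agent.H95RU

open Finset

/-- the pairs of elements of `T` -/
def prs (T : Finset ℕ) : Finset (ℕ × ℕ) := (T ×ˢ T).filter (fun x => x.1 < x.2)

/-- the coefficients of the family are units above `w` -/
def UnitF (w : ℕ) (c : ℕ → ℕ) (T : Finset ℕ) : Prop := ∀ n ∈ T, ∀ p : ℕ, p.Prime → w < p → ¬ p ∣ c n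

/-- the collisions of the family above `w` -/
def CollF (b w : ℕ) (a c : ℕ → ℕ) (T : Finset ℕ) : Prop := ∀ n ∈ T, ∀ m ∈ T, n < m → ∀ p j : ℕ, p.Prime → w < p →
  p ∣ a n + c n * j → p ∣ a m + c m * j → p ∣ b ^ (m - n) - 1

/-- Stub DAVK. Proof: as `t_ROM` (file `ROM.lean`, there `κ = 5`; `t_R` holds for all `κ`) and `t_DAV` (file
`DAV.lean`): with `x = xw b w h`, `D = Dw b w h`, `g = ∏ p ∈ (b ^ h - 1).primeFactors, (1 + 1 / p)`: `1 ≤ D ≤ g`,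
`x ≤ g`, `D - 1 ≤ x D`, so `D ^ κ - 1 ≤ κ (D - 1) D ^ (κ - 1) ≤ κ x D ^ κ ≤ κ x g ^ κ` and, for `μ > 0`,
`x g ^ κ ≤ x / μ + μ x g ^ (2 κ) ≤ x / μ + μ g ^ (2 κ + 1)`; take `μ = w ^ (-1 / 8)` and sum over `h` (`S_AVX`, and
Romanoff's sum with the power `2 κ + 1`). `theorem t_DAVK (h : S_AVX) : S_DAVK`. -/
def S_DAVK : Prop := ∀ b : ℕ, 2 ≤ b → ∀ κ : ℕ, ∃ C : ℝ, 0 ≤ C ∧ ∀ w : ℕ, 1 ≤ w → ∀ N : ℕ,
  ∑ h ∈ Icc 1 N, (Dw b w h ^ κ - 1) ≤ C * N / (w : ℝ) ^ (1 / 8 : ℝ)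

open Classical in
/-- Stub UPK. The upper bound of the fundamental lemma for `k` linear polynomials. Proof (compare `TWO.lean`, the case
`k = 2`): `Pool.Agent.H373R2.T7.sys_fund` with `c = k` and the system
`Q p n := w < p ∧ ∃ m ∈ T, p ∣ a m + c m * (n + Z)`. For a prime `p > w`: `1 ≤ nuB Q p ≤ k`, and `nuB Q p = k` if `p`
divides no `b ^ (x.2 - x.1) - 1`, `x ∈ prs T` (then the `k` classes are different). In the second case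
`1 - k / p ≤ (1 - 1 / p) ^ k` (Bernoulli; if `k > p` there is no such `p`, as there are only `p` classes), in the
other case `1 - nuB Q p / p ≤ 1 - 1 / p ≤ (1 - 1 / p) ^ k ((1 + 1 / p) ^ 2) ^ k` (as
`1 ≤ (1 - 1 / p) (1 + 1 / p) ^ 2`), and `(1 + 1 / p) ^ (2 k)` is a factor of
`∏ x ∈ prs T, Dw b w (x.2 - x.1) ^ (2 k)`. (Do the product over `p` as: each factor `1 - nuB Q p / p` is at most
`(1 - 1 / p) ^ k * ∏ x ∈ prs T, (if p ∣ b ^ (x.2 - x.1) - 1 then (1 + 1 / p) ^ (2 k) else 1)`, exchange the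
products.) -/
def S_UPK : Prop := ∀ k : ℕ, 1 ≤ k → ∀ η : ℝ, 0 < η → ∃ K₀ y₀ : ℕ, ∀ w Z Y y : ℕ, y₀ ≤ y → y ^ K₀ ≤ Y →
  ∀ b : ℕ, 2 ≤ b → ∀ (a c : ℕ → ℕ) (T : Finset ℕ), T.card = k → UnitF w c T → CollF b w a c T →
    (((Ioc Z (Z + Y)).filter (fun j => ∀ n ∈ T, ∀ p ∈ pw w y, ¬ p ∣ a n + c n * j)).card : ℝ) ≤
      (1 + η) * (Y * Vt w y ^ k * ∏ x ∈ prs T, Dw b w (x.2 - x.1) ^ (2 * k)) + √(Y : ℝ)

open Classical in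
/-- Stub LOK. The lower bound for `k` linear polynomials. Proof: `Pool.Agent.H373R2.T7.sys_fund` as in UPK,
`nuB Q p ≤ k` for the primes `p > w`, `nuB Q p = 0` for `p ≤ w`, so `1 - nuB Q p / p ≥ 1 - k / p ≥
(1 - 1 / p) ^ k (1 - k ^ 2 / p ^ 2)` for `p > w ≥ 2 k` (as `(1 - x) ^ k ≤ 1 - k x + k ^ 2 x ^ 2 / 2` for `0 ≤ x ≤ 1`),
and `∏ (1 - k ^ 2 / p ^ 2) ≥ 1 - ∑_{p > w} k ^ 2 / p ^ 2 ≥ 1 - k ^ 2 / w`. -/
def S_LOK : Prop := ∀ k : ℕ, 1 ≤ k → ∀ η : ℝ, 0 < η → η ≤ 1 → ∃ K₀ y₀ : ℕ, ∀ w Z Y y : ℕ, y₀ ≤ y → y ^ K₀ ≤ Y →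
  2 * k ≤ w → ∀ (a c : ℕ → ℕ) (T : Finset ℕ), T.card = k → UnitF w c T →
    (1 - η) * (1 - (k : ℝ) ^ 2 / w) * (Y * Vt w y ^ k) - √(Y : ℝ) ≤
      (((Ioc Z (Z + Y)).filter (fun j => ∀ n ∈ T, ∀ p ∈ pw w y, ¬ p ∣ a n + c n * j)).card : ℝ)

/-- Stub COMB. Proof: let `d i ≥ 1` (`i` in a finite set of `m ≤ k ^ 2` elements); then
`∏ d i - 1 ≤ ∑ (d i ^ (k ^ 2) - 1)`: if `M` is the largest `d i`, `∏ d i ≤ M ^ m ≤ M ^ (k ^ 2)` (for the empty set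
both sides are `0`). Apply it to the pairs of `T` (`|prs T| ≤ k ^ 2`) and exchange the sums: a pair `x ∈ prs G` lies in
at most `|G| ^ (k - 2)` sets `T ∈ powersetCard k G` (for `k ≥ 2`; for `k = 1` the left side is `0`), and for each
difference `h` there are at most `N` pairs `x ∈ prs G` with `x.2 - x.1 = h`, `1 ≤ h ≤ N`. -/
def S_COMB : Prop := ∀ k : ℕ, 1 ≤ k → ∀ (N : ℕ) (G : Finset ℕ), G ⊆ Icc 1 N → ∀ Dd : ℕ → ℝ, (∀ h, 1 ≤ Dd h) →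
  ∑ T ∈ powersetCard k G, (∏ x ∈ prs T, Dd (x.2 - x.1) - 1) ≤
    (G.card : ℝ) ^ (k - 2) * (N * ∑ h ∈ Icc 1 N, (Dd h ^ (k ^ 2) - 1))

open Classical in
/-- Stub MOMK, `theorem t_MOMK (h1 : S_DAVK) (h2 : S_UPK) (h3 : S_LOK) (h4 : S_COMB) : S_MOMK`. Proof: with
`q = |G|`, `V = Vt w y`, the sum on the left is `∑_{T ∈ powersetCard k G} #{j | ∀ n ∈ T, ∀ p ∈ pw w y, ...}` (see
`moment_eq'` in `Pool/Agent/Y486/SQ/Law.lean`).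
Upper bound: `≤ (1 + η') Y V ^ k (∑_T (∏ ... - 1) + q.choose k) + q ^ k √Y` and, by COMB with `Dd = Dw b w ^ (2 k)` and
DAVK with `κ = 2 k * k ^ 2`, `∑_T (...) ≤ q ^ (k - 2) N (C N / w ^ (1 / 8)) ≤ C q ^ k w ^ (1 / 10 - 1 / 8)` (for
`k ≥ 2`, as `N ≤ q w ^ (1 / 20)`; it is `≤ 0` for `k = 1` since `prs T` is empty), and
`q.choose k ≤ q ^ k / k!`. Lower bound: `≥ (1 - η') (1 - k ^ 2 / w) Y V ^ k (q.choose k) - q ^ k √Y` and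
`q.choose k ≥ (q - k) ^ k / k! ≥ (1 - k ^ 2 / q) q ^ k / k!`, where `q ≥ N₀ / w ^ (1 / 20)` is large. Choose `w₀` first
(`C w₀ ^ (-1 / 40)` and `k ^ 2 / w₀` small), then `N₀` depending on `w`. -/
def S_MOMK : Prop := ∀ b : ℕ, 2 ≤ b → ∀ k : ℕ, 1 ≤ k → ∀ η : ℝ, 0 < η → ∃ w₀ : ℕ, ∀ w : ℕ, w₀ ≤ w →
  ∃ K₀ y₀ N₀ : ℕ, ∀ Z Y y N : ℕ, y₀ ≤ y → y ^ K₀ ≤ Y → N₀ ≤ N → ∀ (a c : ℕ → ℕ) (G : Finset ℕ), G ⊆ Icc 1 N →
    (N : ℝ) ≤ G.card * (w : ℝ) ^ (1 / 20 : ℝ) → UnitF w c G → CollF b w a c G →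
      |∑ j ∈ Ioc Z (Z + Y), (((G.filter (fun n => ∀ p ∈ pw w y, ¬ p ∣ a n + c n * j)).card.choose k : ℕ) : ℝ) -
        Y * ((Vt w y * G.card) ^ k / k.factorial)| ≤
        η * (Y * (Vt w y * G.card) ^ k) + (G.card : ℝ) ^ k * √(Y : ℝ)

end Pool.Agent.H95RU
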