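import Pool.Agent.H95RU.Stm

set_option autoImplicit false

/-!
# Project RU, third part: primes near the repunits, statements of the stubs
-/

namespace Pool.Agent.H95RU

open Finset

/-- the product of the primes up to `w` (same as `P` in `FamAB.lean`) -/
def PP (w : ℕ) : ℕ := ∏ p ∈ (Icc 1 w).filter Nat.Prime, p

/-- the digits of `k` followed by `n` digits `1` -/
def fol (b k n : ℕ) : ℕ := k * b ^ n + R b n

/-- Stub CON. Proof: put `d = 8 * rad q`, `rad q = ∏ p ∈ q.primeFactors, p`, and `d' = gcd d q`. It is enough that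
`χ` factors through `d'` (`DirichletCharacter.factorsThrough_iff_ker_unitsMap`; the conductor divides every level
through which `χ` factors: `DirichletCharacter.conductor_dvd_of_factorsThrough` or `conductor_le`...; `d' ∣ d`). Let
`u` be a unit modulo `q` with `u = 1` modulo `d'`; we show that `u` is a square modulo `q`, then
`χ u = χ v ^ 2 = 1`. Write `q = 2 ^ a * m`, `m` odd. Modulo `m`: `u = 1` modulo every prime `p ∣ m`, so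
`u ^ (p ^ (e - 1)) = 1` modulo `p ^ e` (`p ^ e` the exact power in `m`; Mathlib: `dvd_sub_pow_of_dvd_sub`), so
`u ^ m = 1` modulo `m` (`p ^ (e - 1) ∣ m`), and `u = (u ^ ((m + 1) / 2)) ^ 2` modulo `m`. Modulo `2 ^ a`: `u = 1`
modulo `min (8, 2 ^ a)` and there is `v` with `v ^ 2 = u` modulo `2 ^ a`: for `a ≤ 3` take `v = 1`, and from
`v ^ 2 = u` modulo `2 ^ a`, `a ≥ 3`, either `v` or `v + 2 ^ (a - 1)` works modulo `2 ^ (a + 1)`. Chinese remainder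
theorem (`Nat.chineseRemainder`). -/
def S_CON : Prop := ∀ (q : ℕ) [NeZero q] (χ : DirichletCharacter ℂ q), χ ^ 2 = 1 →
  χ.conductor ∣ 8 * ∏ p ∈ q.primeFactors, p

/-- Stub LINM, `theorem t_LINM (h : S_CON) : S_LINM`. Proof: copy of `Pool.Agent.Y353.PS.page` (file
`Pool/Agent/Y353/PS/Page.lean`, lines 321 to the end; the part `hmain` shows that it is enough that no real character
modulo `q` is exceptional: `lam ≤ ‖Lj z χ 0 s‖`). Here this is true for all real `χ ≠ 1` modulo `q` if `z` is large: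
by CON the conductor of `χ` divides `8 * ∏ p ∈ q.primeFactors, p ≤ 8 * M`, which is `≤ (log z) ^ 1`, so that
`Pool.Agent.H262R3.Lk.swq 1` and `Pool.Agent.Y835.SC.Lj_lift` give the bound exactly as in the proof of `page` for the
small conductors. -/
def S_LINM : Prop := ∃ (K : ℕ) (c : ℝ), 1 ≤ K ∧ 0 < c ∧ ∀ M : ℕ, 1 ≤ M → ∃ z₀ : ℕ, ∀ z : ℕ, z₀ ≤ z →
  ∀ q a : ℕ, 0 < q → q ^ 16 ≤ z → (∀ p : ℕ, p.Prime → p ∣ q → p ∣ M) → a.Coprime q →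
    c / (q.totient : ℝ) ≤ ∑ p ∈ (Ioc z (z ^ K)).filter (fun p => p.Prime ∧ p ≡ a [MOD q]), (1 : ℝ) / p

open Classical in
/-- Stub FST, `theorem t_FST (h : S_LINM) : S_FST`. Proof: `K`, `c` from LINM, `M = PP w` (all prime factors of `b` are
`≤ b ≤ w`), `q = b ^ n * PP w`, `a = R b (n + 1)`, which is coprime to `q` (`Rough`). A prime `p = a` modulo `q`,
`p > z ≥ q ^ 16`, satisfies `p > a` (`R b (n + 1) < b ^ (n + 1) ≤ b ^ n * PP w`, as `b ≤ PP w`: if `b = 2, 3` clear, in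
general a prime factor is not enough, so use instead `b ^ (n + 1) ≤ (b ^ n) ^ 2 ≤ z` for `n ≥ 1`), so
`p = a + q j`, `p = fol b k n` with `k = 1 + PP w * j`. Here `k b ^ n ≤ p`, so `1 / k ≥ b ^ n / p`; `k ≤ p ≤ z ^ K`, and
`k ≥ (z - b ^ n) / b ^ n ≥ z ^ (15 / 16) - 1 ≥ √z`. Different `p` give different `k`. Finally
`φ(b ^ n * PP w) = b ^ n * PP w * V w` (the primes dividing it are those up to `w`), so the sum over `k` is at least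
`b ^ n * c / φ(q) = c / (PP w * V w)`. -/
def S_FST : Prop := ∃ (K : ℕ) (c : ℝ), 1 ≤ K ∧ 0 < c ∧ ∀ b w : ℕ, 2 ≤ b → b ≤ w → ∃ z₀ : ℕ, ∀ z : ℕ, z₀ ≤ z →
  ∀ n : ℕ, 1 ≤ n → (b ^ n * PP w) ^ 16 ≤ z → Rough w (R b (n + 1)) →
    c / (PP w * V w) ≤ ∑ k ∈ (Icc 1 (z ^ K)).filter (fun k => z ≤ k ^ 2 ∧ k ≡ 1 [MOD PP w] ∧ (fol b k n).Prime),
      (1 : ℝ) / k

open Classical in
/-- Stub UPP, `theorem t_UPP (h1 : S_ONE) (h2 : S_TWO) : S_UPP`. Proof: `η = 1` in ONE and TWO, let `K₀ ≥ 1`, `y₀` be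
valid for both; `y = ⌊X ^ (1 / (2 K₀ + 2))⌋`. The `k = 1` modulo `PP w` in `(X, 2 X]` are `k = 1 + PP w * j` with
`Z < j ≤ Z + Y`, where `Z = (X - 1) / PP w` and `Z + Y = (2 X - 1) / PP w`, so `Y ≤ X / PP w + 1` and `Y ≥ y ^ K₀` for
large `X`. `fol b k n = (b ^ n + R b n) + (PP w * b ^ n) * j` is larger than `X ≥ y`, so if it is prime it has no
prime factor in `(w, y]`. The hypotheses of ONE and TWO hold as in `famRA` (file `FamR.lean`; collisions: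
`p ∣ fol b k n`, `p ∣ fol b k m` give `p ∣ R b (m - n) ∣ b ^ (m - n) - 1`). `Vt w y = V y / V w` for `w ≤ y`, and
`V y ≤ C / log y` (`Pool.Agent.Y810.SQ.V1_bounds`, see `V_bounds` in `AP.lean`; `V` is `V1` by `rfl`). The terms `√Y`
are smaller than the main terms for `X ≥ X₀(w)` (`V w ≤ 1`, `Dw ≥ 1`). -/
def S_UPP : Prop := ∃ C : ℝ, 0 < C ∧ ∀ b w : ℕ, 2 ≤ b → b ≤ w → ∃ X₀ : ℕ, ∀ X : ℕ, X₀ ≤ X →
  (∀ n : ℕ, (((Ioc X (2 * X)).filter (fun k => k ≡ 1 [MOD PP w] ∧ (fol b k n).Prime)).card : ℝ) ≤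
    C * X / (PP w * V w * Real.log X)) ∧
  ∀ n m : ℕ, n < m →
    (((Ioc X (2 * X)).filter (fun k => k ≡ 1 [MOD PP w] ∧ (fol b k n).Prime ∧ (fol b k m).Prime)).card : ℝ) ≤
      C * X * Dw b w (m - n) ^ 2 / (PP w * V w ^ 2 * Real.log X ^ 2)

open Classical in
/-- Stub DYA, `theorem t_DYA (h : S_UPP) : S_DYA`. Proof: dyadic decomposition `k ∈ (2 ^ i, 2 ^ (i + 1)]`,
`1 / k ≤ 2 ^ (-i)`; the `i` which occur satisfy `√z ≤ 2 ^ (i + 1)` and `2 ^ i < z ^ K`, so there are at most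
`K log z / log 2 + 1` of them and `log (2 ^ i) ≥ (1 / 3) log z`. Sum the bounds of UPP with `X = 2 ^ i`. -/
def S_DYA : Prop := ∀ K : ℕ, 1 ≤ K → ∃ C : ℝ, 0 < C ∧ ∀ b w : ℕ, 2 ≤ b → b ≤ w → ∃ z₀ : ℕ, ∀ z : ℕ, z₀ ≤ z →
  (∀ n : ℕ, ∑ k ∈ (Icc 1 (z ^ K)).filter (fun k => z ≤ k ^ 2 ∧ k ≡ 1 [MOD PP w] ∧ (fol b k n).Prime), (1 : ℝ) / k ≤
    C / (PP w * V w)) ∧
  ∀ n m : ℕ, n < m →
    ∑ k ∈ (Icc 1 (z ^ K)).filter (fun k => z ≤ k ^ 2 ∧ k ≡ 1 [MOD PP w] ∧ (fol b k n).Prime ∧ (fol b k m).Prime),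
      (1 : ℝ) / k ≤ C * Dw b w (m - n) ^ 2 / (PP w * V w ^ 2 * Real.log z)

open Classical in
/-- Stub CSW (weighted Cauchy-Schwarz). Proof: `(∑ ω k * a k) ^ 2 ≤ (∑_{a k ≥ 1} ω k) (∑ ω k * a k ^ 2)`, where
`a k = #{n ∈ G | g n k}`, `∑ ω k * a k = ∑_{n ∈ G} ∑_{g n k} ω k ≥ |G| A` and
`∑ ω k * a k ^ 2 = ∑_{n, m ∈ G} ∑_{g n k, g m k} ω k ≤ |G| B + 2 ∑_{n < m} C₁ Dd (m - n)
≤ |G| B + 2 C₁ (|G| ^ 2 + |G| ∑_{h ≤ N} (Dd h - 1))` (compare `mom2` in `Mom.lean`). -/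
def S_CSW : Prop := ∀ (J G : Finset ℕ) (N : ℕ), G ⊆ Icc 1 N → ∀ (g : ℕ → ℕ → Prop) (ω Dd : ℕ → ℝ) (A B C₁ S : ℝ),
  (∀ k, 0 ≤ ω k) → 0 ≤ A → 0 ≤ B → 0 ≤ C₁ → (∀ h, 1 ≤ Dd h) → ∑ h ∈ Icc 1 N, (Dd h - 1) ≤ S →
  (∀ n ∈ G, A ≤ ∑ k ∈ J.filter (fun k => g n k), ω k) →
  (∀ n ∈ G, ∑ k ∈ J.filter (fun k => g n k), ω k ≤ B) →
  (∀ n ∈ G, ∀ m ∈ G, n < m → ∑ k ∈ J.filter (fun k => g n k ∧ g m k), ω k ≤ C₁ * Dd (m - n)) →
    ((G.card : ℝ) * A) ^ 2 ≤ (∑ k ∈ J.filter (fun k => ∃ n ∈ G, g n k), ω k) *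
      (G.card * B + 2 * C₁ * ((G.card : ℝ) ^ 2 + G.card * S))

end Pool.Agent.H95RU
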