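import Pool.Agent.H95RU.Stm2

set_option autoImplicit false

/-!
# Project RU, fourth part: prime exponents, statements of the stubs
-/

namespace Pool.Agent.H95RU

open Finset

/-- the primes up to `N` -/
def prm (N : ℕ) : Finset ℕ := (Icc 1 N).filter Nat.Prime

open Classical in
/-- Stub COMBP. Proof: as `t_COMB` (file `COMB.lean`), without the last step: a pair `x ∈ prs G` lies in at most
`|G| ^ (k - 2)` sets `T ∈ powersetCard k G` (for `k ≥ 2`; for `k = 1` the left side is `0` and the right side is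
`≥ 0`). -/
def S_COMBP : Prop := ∀ k : ℕ, 1 ≤ k → ∀ (G : Finset ℕ), ∀ Dd : ℕ → ℝ, (∀ h, 1 ≤ Dd h) →
  ∑ T ∈ powersetCard k G, (∏ x ∈ prs T, Dd (x.2 - x.1) - 1) ≤
    (G.card : ℝ) ^ (k - 2) * ∑ x ∈ prs G, (Dd (x.2 - x.1) ^ (k ^ 2) - 1)

open Classical in
/-- Stub MOMP, `theorem t_MOMP (h2 : S_UPK) (h3 : S_LOK) (h4 : S_COMBP) : S_MOMP`. Proof: as `t_MOMK` (file
`MOMK.lean`): there the hypothesis `N ≤ |G| w ^ (1 / 20)` is used only for `L ≤ |G|` (here `N₀ = L`) and in `excess`,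
which is here COMBP with `Dd = Dw b w ^ (2 * k)` and the hypothesis on the pairs. -/
def S_MOMP : Prop := ∀ b : ℕ, 2 ≤ b → ∀ k : ℕ, 1 ≤ k → ∀ η : ℝ, 0 < η → ∃ w₀ K₀ y₀ N₀ : ℕ,
  ∀ w Z Y y : ℕ, w₀ ≤ w → y₀ ≤ y → y ^ K₀ ≤ Y → ∀ (a c : ℕ → ℕ) (G : Finset ℕ), N₀ ≤ G.card →
    ∑ x ∈ prs G, (Dw b w (x.2 - x.1) ^ (2 * k * k ^ 2) - 1) ≤ η / 4 * (G.card : ℝ) ^ 2 →
    UnitF w c G → CollF b w a c G →
      |∑ j ∈ Ioc Z (Z + Y), (((G.filter (fun n => ∀ p ∈ pw w y, ¬ p ∣ a n + c n * j)).card.choose k : ℕ) : ℝ) -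
        Y * ((Vt w y * G.card) ^ k / k.factorial)| ≤
        η * (Y * (Vt w y * G.card) ^ k) + (G.card : ℝ) ^ k * √(Y : ℝ)

/-- Stub PAIR, `theorem t_PAIR (h : S_DAVK) : S_PAIR`. Proof: for `1 ≤ h ≤ N` the number of the pairs of primes
`p < p' ≤ N` with `p' - p = h` is at most `C g(h) N / (log N) ^ 2`, `g(h) = ∏ p ∈ h.primeFactors, (1 + 1 / p)` (upper
bound of the sieve, in the libraries; for odd `h` there is at most one pair). With `D = Dw b w h ≥ 1`, for `μ > 0`: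
`(D ^ κ - 1) g ≤ (D ^ κ - 1) ^ 2 / μ + μ g ^ 2 ≤ (D ^ (2 κ) - 1) / μ + μ g ^ 2`; take `μ = w ^ (-1 / 16)`, use DAVK
with `2 κ` and `∑_{h ≤ N} g(h) ^ 2 ≤ C N` (elementary, in the libraries, for instance `Pool.Agent.W93.HD`). So the sum
is at most `C' w ^ (-1 / 16) N ^ 2 / (log N) ^ 2`, and `N / log N ≤ 2 π(N)` or `≤ C π(N)` (Chebyshev). -/
def S_PAIR : Prop := ∀ b : ℕ, 2 ≤ b → ∀ κ : ℕ, ∃ C : ℝ, 0 ≤ C ∧ ∃ N₀ : ℕ, ∀ w : ℕ, 1 ≤ w → ∀ N : ℕ, N₀ ≤ N →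
  ∑ x ∈ prs (prm N), (Dw b w (x.2 - x.1) ^ κ - 1) ≤ C / (w : ℝ) ^ (1 / 16 : ℝ) * ((prm N).card : ℝ) ^ 2

end Pool.Agent.H95RU
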