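import Pool.Agent.H95RU.Stm3
import Pool.Agent.H95RU.FamR
import Pool.Agent.H95RU.AP

set_option autoImplicit false

/-!
# Project RU: upper bounds for the primes near the repunits
-/

namespace Pool.Agent.H95RU

open Finset

namespace UPP

theorem V_split {w y : ℕ} (h : w ≤ y) : V y = V w * Vt w y := by
  unfold V Vt pw
  rw [← Finset.prod_union]
  · apply Finset.prod_congr _ (fun _ _ => rfl)
    ext p
    simp only [mem_union, mem_filter, mem_Icc]
    constructor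
    · rintro ⟨⟨h1, h2⟩, h3⟩
      rcases Nat.lt_or_ge w p with h4 | h4
      · exact Or.inr ⟨⟨h1, h2⟩, h3, h4⟩
      · exact Or.inl ⟨⟨h1, h4⟩, h3⟩
    · rintro (⟨⟨h1, h2⟩, h3⟩ | ⟨⟨h1, h2⟩, h3, h4⟩)
      · exact ⟨⟨h1, by omega⟩, h3⟩
      · exact ⟨⟨h1, h2⟩, h3⟩
  · rw [Finset.disjoint_left]
    intro p h1 h2
    rw [mem_filter, mem_Icc] at h1
    rw [mem_filter] at h2
    have := h1.1.2
    have := h2.2.2
    omega

theorem V_pos (w : ℕ) : 0 < V w := by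
  unfold V
  apply Finset.prod_pos
  intro p hp
  have h1 := (mem_filter.1 hp).2.two_le
  have h2 : (2 : ℝ) ≤ p := by exact_mod_cast h1
  have : 1 / (p : ℝ) ≤ 1 / 2 := one_div_le_one_div_of_le (by norm_num) h2
  linarith

theorem V_le_one (w : ℕ) : V w ≤ 1 := by
  unfold V
  apply Finset.prod_le_one
  · intro p hp
    have h1 := (mem_filter.1 hp).2.two_le
    have h2 : (2 : ℝ) ≤ p := by exact_mod_cast h1
    have : 1 / (p : ℝ) ≤ 1 / 2 := one_div_le_one_div_of_le (by norm_num) h2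
    linarith
  · intro p _
    have : (0 : ℝ) ≤ 1 / (p : ℝ) := by positivity
    linarith

theorem D_one_le (b w h : ℕ) : 1 ≤ Dw b w h := by
  unfold Dw
  apply Finset.prod_induction _ (fun x : ℝ => 1 ≤ x)
  · intro x y hx hy
    nlinarith
  · exact le_rfl
  · intro p _
    have : (0 : ℝ) ≤ 1 / (p : ℝ) := by positivity
    linarith

theorem growth (M : ℕ) : ∃ X₀ : ℕ, ∀ X : ℕ, X₀ ≤ X → 1 ≤ Real.log X ∧
    √(2 * (X : ℝ)) * M * Real.log X ^ 2 ≤ X := by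
  have h1 := (isLittleO_log_rpow_atTop (show (0 : ℝ) < 1 / 8 by norm_num)).bound one_pos
  have h2 := tendsto_natCast_atTop_atTop (R := ℝ) |>.eventually h1
  have h3 := ((tendsto_rpow_atTop (show (0 : ℝ) < 1 / 4 by norm_num)).comp
    (tendsto_natCast_atTop_atTop (R := ℝ))).eventually_ge_atTop (2 * (M : ℝ))
  have h4 := (Real.tendsto_log_atTop.comp (tendsto_natCast_atTop_atTop (R := ℝ))).eventually_ge_atTop 1
  obtain ⟨X₀, hX₀⟩ := Filter.eventually_atTop.1 ((h2.and h3).and (h4.and (Filter.eventually_ge_atTop 1)))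
  refine ⟨X₀, fun X hX => ?_⟩
  obtain ⟨⟨g1, g2⟩, g3, g4⟩ := hX₀ X hX
  simp only [Function.comp_apply] at g2 g3
  refine ⟨g3, ?_⟩
  have hX1 : (1 : ℝ) ≤ X := by exact_mod_cast g4
  have hX0 : (0 : ℝ) < X := by linarith
  rw [one_mul, Real.norm_eq_abs, Real.norm_eq_abs, abs_of_nonneg (by linarith), abs_of_nonneg (by positivity)] at g1
  have g5 : Real.log X ^ 2 ≤ (X : ℝ) ^ (1 / 4 : ℝ) := by
    calc Real.log X ^ 2 ≤ ((X : ℝ) ^ (1 / 8 : ℝ)) ^ 2 := pow_le_pow_left₀ (by linarith) g1 2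
      _ = (X : ℝ) ^ (1 / 4 : ℝ) := by
          rw [← Real.rpow_natCast, ← Real.rpow_mul hX0.le]
          norm_num
  have g6 : √(2 * (X : ℝ)) ≤ 2 * (X : ℝ) ^ (1 / 2 : ℝ) := by
    rw [← Real.sqrt_eq_rpow, Real.sqrt_mul (by norm_num)]
    apply mul_le_mul_of_nonneg_right _ (Real.sqrt_nonneg _)
    rw [Real.sqrt_le_left (by norm_num)]
    norm_num
  calc √(2 * (X : ℝ)) * M * Real.log X ^ 2 ≤ (2 * (X : ℝ) ^ (1 / 2 : ℝ)) * M * (X : ℝ) ^ (1 / 4 : ℝ) := by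
        gcongr
    _ = (2 * M) * ((X : ℝ) ^ (1 / 2 : ℝ) * (X : ℝ) ^ (1 / 4 : ℝ)) := by ring
    _ = (2 * M) * (X : ℝ) ^ (3 / 4 : ℝ) := by
        rw [← Real.rpow_add hX0]
        norm_num
    _ ≤ (X : ℝ) ^ (1 / 4 : ℝ) * (X : ℝ) ^ (3 / 4 : ℝ) := mul_le_mul_of_nonneg_right g2 (by positivity)
    _ = X := by
        rw [← Real.rpow_add hX0]
        norm_num

/-- the parameters, uniformly in `M` -/
theorem paramU (K₀ y₀ : ℕ) : ∃ r : ℕ, 1 ≤ r ∧ ∀ M : ℕ, 1 ≤ M → ∃ X₀ : ℕ, ∀ X : ℕ, X₀ ≤ X →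
    ∃ y : ℕ, y₀ ≤ y ∧ y ^ K₀ ≤ X / M ∧ X < (y + 1) ^ r := by
  obtain ⟨r, hr⟩ : ∃ r, r = 2 * K₀ + 1 := ⟨_, rfl⟩
  have hr0 : 1 ≤ r := by omega
  have hrr : (0 : ℝ) < r := by exact_mod_cast hr0
  refine ⟨r, hr0, fun M hM => ?_⟩
  have hpow : Filter.Tendsto (fun X : ℕ => (X : ℝ) ^ (1 / (r : ℝ))) Filter.atTop Filter.atTop :=
    (tendsto_rpow_atTop (by positivity)).comp tendsto_natCast_atTop_atTop
  obtain ⟨X1, hX1⟩ := Filter.eventually_atTop.1 (hpow.eventually_ge_atTop ((y₀ : ℝ) + 2))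
  refine ⟨max X1 (4 * M ^ 2 + 2), fun X hX => ?_⟩
  have hXX := hX1 X ((le_max_left _ _).trans hX)
  have hX4 : 4 * M ^ 2 + 2 ≤ X := (le_max_right _ _).trans hX
  have hX1' : (1 : ℝ) < X := by exact_mod_cast (by omega : 1 < X)
  have hX0 : (0 : ℝ) < X := by linarith
  refine ⟨⌊(X : ℝ) ^ (1 / (r : ℝ))⌋₊, ?_, ?_, ?_⟩
  · apply Nat.le_floor
    linarith
  · have h1 : ((⌊(X : ℝ) ^ (1 / (r : ℝ))⌋₊ : ℕ) : ℝ) ^ K₀ ≤ √(X : ℝ) := by
      calc ((⌊(X : ℝ) ^ (1 / (r : ℝ))⌋₊ : ℕ) : ℝ) ^ K₀ ≤ ((X : ℝ) ^ (1 / (r : ℝ))) ^ K₀ :=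
            pow_le_pow_left₀ (Nat.cast_nonneg _) (Nat.floor_le (by positivity)) _
        _ = (X : ℝ) ^ (1 / (r : ℝ) * K₀) := by rw [← Real.rpow_natCast, ← Real.rpow_mul hX0.le]
        _ ≤ (X : ℝ) ^ (1 / 2 : ℝ) := by
            apply Real.rpow_le_rpow_of_exponent_le hX1'.le
            rw [one_div, inv_mul_le_iff₀ hrr]
            have : (2 * K₀ : ℝ) ≤ r := by
              rw [hr]
              push_cast
              linarith
            linarith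
        _ = √(X : ℝ) := by rw [Real.sqrt_eq_rpow]
    have hMr : (1 : ℝ) ≤ M := by exact_mod_cast hM
    have h2 : 2 * (M : ℝ) ≤ √(X : ℝ) := by
      apply Real.le_sqrt_of_sq_le
      have : ((4 * M ^ 2 + 2 : ℕ) : ℝ) ≤ X := by exact_mod_cast hX4
      push_cast at this
      nlinarith
    have h3 : √(X : ℝ) ≤ X / M - 1 := by
      have h4 : √(X : ℝ) * √(X : ℝ) = X := Real.mul_self_sqrt hX0.le
      have h5 : 2 * √(X : ℝ) ≤ X / M := by
        rw [le_div_iff₀ (by linarith)]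
        calc 2 * √(X : ℝ) * M = √(X : ℝ) * (2 * M) := by ring
          _ ≤ √(X : ℝ) * √(X : ℝ) := mul_le_mul_of_nonneg_left h2 (Real.sqrt_nonneg _)
          _ = X := h4
      have : 1 ≤ √(X : ℝ) := by linarith
      linarith
    have h4 : (X : ℝ) / M - 1 < ((X / M : ℕ) : ℝ) := by
      have := Nat.lt_floor_add_one ((X : ℝ) / (M : ℝ))
      rw [Nat.floor_div_eq_div] at this
      linarith
    have h5 : (((⌊(X : ℝ) ^ (1 / (r : ℝ))⌋₊) ^ K₀ : ℕ) : ℝ) ≤ ((X / M : ℕ) : ℝ) := by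
      push_cast
      linarith
    exact_mod_cast h5
  · have h1 : (X : ℝ) ^ (1 / (r : ℝ)) < (⌊(X : ℝ) ^ (1 / (r : ℝ))⌋₊ : ℝ) + 1 := Nat.lt_floor_add_one _
    have h2 : (X : ℝ) < ((⌊(X : ℝ) ^ (1 / (r : ℝ))⌋₊ : ℝ) + 1) ^ r := by
      calc (X : ℝ) = ((X : ℝ) ^ (1 / (r : ℝ))) ^ r := by
            rw [← Real.rpow_natCast, ← Real.rpow_mul hX0.le, one_div, inv_mul_cancel₀ hrr.ne', Real.rpow_one]
        _ < _ := pow_lt_pow_left₀ h1 (by positivity) (by omega)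
    exact_mod_cast h2

/-- the change of variables `k = 1 + M j` -/
theorem cnt (M X : ℕ) (hM : 1 ≤ M) (hX : M ≤ X) : ∃ Z Y : ℕ, X / M ≤ Y ∧ (Y : ℝ) ≤ 2 * ((X : ℝ) / M) ∧
    ∀ S T : Finset ℕ, (∀ k ∈ S, X < k ∧ k ≤ 2 * X ∧ k ≡ 1 [MOD M]) →
      (∀ j ∈ Ioc Z (Z + Y), 1 + M * j ∈ S → j ∈ T) → (S.card : ℝ) ≤ T.card := by
  have hadd : (X - 1) / M + X / M ≤ (2 * X - 1) / M := by
    have : (X - 1) / M + X / M ≤ (X - 1 + X) / M := Nat.div_add_div_le_add_div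
    rwa [show X - 1 + X = 2 * X - 1 by omega] at this
  have hle : (X - 1) / M ≤ (2 * X - 1) / M := (Nat.le_add_right _ _).trans hadd
  refine ⟨(X - 1) / M, (2 * X - 1) / M - (X - 1) / M, by omega, ?_, ?_⟩
  · have hM0 : (1 : ℝ) ≤ M := by exact_mod_cast hM
    have hXM : (M : ℝ) ≤ X := by exact_mod_cast hX
    rw [Nat.cast_sub hle]
    have h1 : (((2 * X - 1) / M : ℕ) : ℝ) ≤ ((2 * X - 1 : ℕ) : ℝ) / M := Nat.cast_div_le
    have h2 : (((X - 1 : ℕ) : ℝ)) / M < (((X - 1) / M : ℕ) : ℝ) + 1 := by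
      have := Nat.lt_floor_add_one (((X - 1 : ℕ) : ℝ) / (M : ℝ))
      rwa [Nat.floor_div_eq_div] at this
    rw [Nat.cast_sub (by omega)] at h1 h2
    push_cast at h1 h2
    have h3 : (1 : ℝ) ≤ X / M := by
      rw [one_le_div (by linarith)]
      exact hXM
    have h4 : (2 * (X : ℝ) - 1) / M - (X - 1) / M = X / M := by ring
    linarith
  · intro S T hS hT
    have hinj : ∀ k ∈ S, ∃ j, k = 1 + M * j ∧ (k - 1) / M = j := by
      intro k hk
      obtain ⟨h1, h2, h3⟩ := hS k hk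
      have h4 : M ∣ k - 1 := (Nat.modEq_iff_dvd' (by omega)).1 h3.symm
      obtain ⟨j, hj⟩ := h4
      refine ⟨j, by omega, ?_⟩
      rw [hj]
      exact Nat.mul_div_cancel_left j (by omega)
    have : S.card ≤ T.card := by
      apply Finset.card_le_card_of_injOn (fun k => (k - 1) / M)
      · intro k hk
        obtain ⟨j, hj, hj2⟩ := hinj k hk
        obtain ⟨h1, h2, h3⟩ := hS k hk
        simp only [Finset.mem_coe]
        rw [hj2]
        apply hT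
        · rw [mem_Ioc]
          constructor
          · rw [Nat.div_lt_iff_lt_mul (by omega), mul_comm]
            omega
          · rw [Nat.add_sub_cancel' hle, Nat.le_div_iff_mul_le (by omega), mul_comm]
            omega
        · rw [← hj]
          exact hk
      · intro k hk k' hk' h
        obtain ⟨j, hj, hj2⟩ := hinj k hk
        obtain ⟨j', hj', hj2'⟩ := hinj k' hk'
        simp only at h
        rw [hj2, hj2'] at h
        rw [hj, hj', h]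
    exact_mod_cast this

end UPP

open UPP in
open Classical in
/-- **Upper bounds of the right order.** -/
theorem t_UPP (h1 : S_ONE) (h2 : S_TWO) : S_UPP := by
  obtain ⟨K₁, y₁, hone⟩ := h1 1 one_pos
  obtain ⟨K₂, y₂, htwo⟩ := h2 1 one_pos
  obtain ⟨c, CV, hc, hCV, hV⟩ := Pool.Agent.Y810.SQ.V1_bounds
  obtain ⟨r, hr, hpar⟩ := paramU (K₁ + K₂ + 1) (y₁ + y₂ + 2)
  have hr1 : (1 : ℝ) ≤ r := by exact_mod_cast hr
  refine ⟨8 * r * CV + 16 * r ^ 2 * CV ^ 2 + 2, by positivity, ?_⟩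
  intro b w hb hw
  have hM : 1 ≤ P w := P_pos w
  have hPP : PP w = P w := rfl
  obtain ⟨X₁, hX₁⟩ := hpar (P w) hM
  obtain ⟨X₂, hX₂⟩ := growth (P w)
  refine ⟨X₁ + X₂ + P w + (w + 1) ^ r + 1, ?_⟩
  intro X hX
  obtain ⟨y, hy0, hyK, hXy⟩ := hX₁ X (by omega)
  obtain ⟨hlog, hgr⟩ := hX₂ X (by omega)
  obtain ⟨Z, Y, hY1, hY2, hcnt⟩ := cnt (P w) X hM (by omega)
  rw [hPP]
  obtain ⟨M, hMd⟩ : ∃ M, M = P w := ⟨_, rfl⟩
  have hMR : (1 : ℝ) ≤ M := by rw [hMd]; exact_mod_cast hM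
  have hwy : w ≤ y := by
    by_contra hcon
    push Not at hcon
    have h5 : (y + 1) ^ r ≤ (w + 1) ^ r := Nat.pow_le_pow_left (by omega) r
    omega
  have hy2 : 2 ≤ y := by omega
  have hyR : (2 : ℝ) ≤ y := by exact_mod_cast hy2
  have hyX : y ≤ X := by
    calc y ≤ y ^ (K₁ + K₂ + 1) := Nat.le_self_pow (by omega) y
      _ ≤ X / P w := hyK
      _ ≤ X := Nat.div_le_self _ _
  have hyY1 : y ^ K₁ ≤ Y := (Nat.pow_le_pow_right (by omega) (by omega)).trans (hyK.trans hY1)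
  have hyY2 : y ^ K₂ ≤ Y := (Nat.pow_le_pow_right (by omega) (by omega)).trans (hyK.trans hY1)
  -- the bound for Vt
  have hlogy : 0 < Real.log y := Real.log_pos (by linarith)
  have hX1R : (1 : ℝ) ≤ X := by exact_mod_cast (by omega : 1 ≤ X)
  have hX0 : (0 : ℝ) < X := by linarith
  have hlogX : Real.log X ≤ 2 * r * Real.log y := by
    have h5 : (X : ℝ) ≤ ((y : ℝ) ^ 2) ^ r := by
      have h6 : (X : ℝ) < ((y : ℝ) + 1) ^ r := by exact_mod_cast hXy
      refine h6.le.trans (pow_le_pow_left₀ (by positivity) ?_ r)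
      nlinarith
    have h7 := Real.log_le_log hX0 h5
    rw [Real.log_pow, Real.log_pow] at h7
    push_cast at h7
    linarith
  have hVw := V_pos w
  have hVw1 := V_le_one w
  have hL0 : 0 < Real.log X := by linarith
  obtain ⟨L, hL⟩ : ∃ L, L = Real.log X := ⟨_, rfl⟩
  obtain ⟨v, hv⟩ : ∃ v, v = V w := ⟨_, rfl⟩
  have hVt : Vt w y ≤ 2 * r * CV / (v * L) := by
    have h5 := V_split hwy
    have h6 : V y ≤ CV / Real.log y := (hV y hy2).2
    have h7 : CV / Real.log y ≤ 2 * r * CV / L := by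
      rw [hL, div_le_div_iff₀ hlogy hL0]
      nlinarith [mul_le_mul_of_nonneg_left hlogX hCV.le]
    rw [hv, hL, le_div_iff₀ (by positivity)]
    have h8 : Vt w y * V w ≤ 2 * r * CV / Real.log X := by
      rw [mul_comm, ← h5, ← hL]
      exact h6.trans h7
    calc Vt w y * (V w * Real.log X) = (Vt w y * V w) * Real.log X := by ring
      _ ≤ (2 * r * CV / Real.log X) * Real.log X := mul_le_mul_of_nonneg_right h8 hL0.le
      _ = _ := by field_simp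
  have hVt0 : 0 ≤ Vt w y := (Vt_pos w y).le
  rw [← hL] at hlog hgr
  rw [← hv] at hVw hVw1
  rw [← hMd] at hgr hY2 hcnt
  rw [← hL, ← hv, ← hMd]
  have hLpos : 0 < L := by linarith
  have hsq : √(Y : ℝ) ≤ X / (M * L ^ 2) := by
    rw [le_div_iff₀ (by positivity)]
    have h5 : √(Y : ℝ) ≤ √(2 * (X : ℝ)) := by
      apply Real.sqrt_le_sqrt
      refine hY2.trans ?_
      apply mul_le_mul_of_nonneg_left _ (by norm_num)
      exact div_le_self hX0.le hMR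
    calc √(Y : ℝ) * (M * L ^ 2) ≤ √(2 * (X : ℝ)) * (M * L ^ 2) := mul_le_mul_of_nonneg_right h5 (by positivity)
      _ = √(2 * (X : ℝ)) * M * L ^ 2 := by ring
      _ ≤ X := hgr
  have hY0 : (0 : ℝ) ≤ Y := Nat.cast_nonneg Y
  have hfol : ∀ n j : ℕ, fol b (1 + M * j) n = 1 * b ^ n + R b n + P w * b ^ n * j := by
    intro n j
    unfold fol
    rw [hMd]
    ring
  have hbig : ∀ n j : ℕ, X < 1 + M * j → (fol b (1 + M * j) n).Prime → ∀ p ∈ pw w y,
      ¬ p ∣ 1 * b ^ n + R b n + P w * b ^ n * j := by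
    intro n j hj hp p hpw hdvd
    have h5 := mem_filter.1 hpw
    have h6 := (mem_Icc.1 h5.1).2
    rw [← hfol] at hdvd
    have h7 := (Nat.prime_dvd_prime_iff_eq h5.2.1 hp).1 hdvd
    have h8 : 1 + M * j ≤ fol b (1 + M * j) n := by
      unfold fol
      have : 1 ≤ b ^ n := Nat.one_le_pow _ _ (by omega)
      nlinarith
    omega
  have hFR := famRA hb hw 1
  constructor
  · intro n
    have h5 := hone w Z Y y (by omega) hyY1 (1 * b ^ n + R b n) (P w * b ^ n)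
      (fun p hp hwp => hFR.unit n p hp hwp)
    have h6 := (abs_le.1 h5).2
    have h7 := hcnt ((Ioc X (2 * X)).filter (fun k => k ≡ 1 [MOD M] ∧ (fol b k n).Prime))
      ((Ioc Z (Z + Y)).filter (fun j => ∀ p ∈ pw w y, ¬ p ∣ 1 * b ^ n + R b n + P w * b ^ n * j))
      (fun k hk => by
        rw [mem_filter, mem_Ioc] at hk
        exact ⟨hk.1.1, hk.1.2, hk.2.1⟩)
      (fun j hj hk => by
        rw [mem_filter, mem_Ioc] at hk
        rw [mem_filter]
        exact ⟨hj, hbig n j hk.1.1 hk.2.2⟩)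
    refine h7.trans ?_
    have h8 : (Y : ℝ) * Vt w y ≤ 2 * ((X : ℝ) / M) * (2 * r * CV / (v * L)) :=
      mul_le_mul hY2 hVt hVt0 (by positivity)
    have h9 : X / (M * L ^ 2) ≤ (X : ℝ) / (M * v * L) := by
      apply div_le_div_of_nonneg_left hX0.le (by positivity)
      have : v * L ≤ L ^ 2 := by nlinarith
      calc (M : ℝ) * v * L = M * (v * L) := by ring
        _ ≤ M * L ^ 2 := mul_le_mul_of_nonneg_left this (by linarith)
    have h10 : 2 * ((X : ℝ) / M) * (2 * r * CV / (v * L)) = 4 * r * CV * (X / (M * v * L)) := by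
      field_simp
      ring
    have h11 : (8 * r * CV + 16 * r ^ 2 * CV ^ 2 + 2) * X / (M * v * L) =
        (8 * r * CV + 16 * r ^ 2 * CV ^ 2 + 2) * (X / (M * v * L)) := by ring
    rw [h11]
    have h12 : 0 ≤ (X : ℝ) / (M * v * L) := by positivity
    have h13 : 0 ≤ (16 * r ^ 2 * CV ^ 2 + 1) * ((X : ℝ) / (M * v * L)) := by positivity
    rw [h10] at h8
    linarith
  · intro n m hnm
    have h5 := htwo w Z Y y (by omega) hyY2 (1 * b ^ n + R b n) (P w * b ^ n) (1 * b ^ m + R b m) (P w * b ^ m)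
      b (m - n) hb (by omega) (fun p hp hwp => ⟨hFR.unit n p hp hwp, hFR.unit m p hp hwp⟩)
      (fun p j hp hwp hd1 hd2 => hFR.coll n m hnm p j hp hwp hd1 hd2)
    have h7 := hcnt ((Ioc X (2 * X)).filter (fun k => k ≡ 1 [MOD M] ∧ (fol b k n).Prime ∧ (fol b k m).Prime))
      ((Ioc Z (Z + Y)).filter (fun j => ∀ p ∈ pw w y, ¬ p ∣ 1 * b ^ n + R b n + P w * b ^ n * j ∧
        ¬ p ∣ 1 * b ^ m + R b m + P w * b ^ m * j))
      (fun k hk => by
        rw [mem_filter, mem_Ioc] at hk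
        exact ⟨hk.1.1, hk.1.2, hk.2.1⟩)
      (fun j hj hk => by
        rw [mem_filter, mem_Ioc] at hk
        rw [mem_filter]
        exact ⟨hj, fun p hp => ⟨hbig n j hk.1.1 hk.2.2.1 p hp, hbig m j hk.1.1 hk.2.2.2 p hp⟩⟩)
    refine h7.trans (h5.trans ?_)
    obtain ⟨D, hD⟩ : ∃ D, D = Dw b w (m - n) := ⟨_, rfl⟩
    have hD1 : 1 ≤ D := by rw [hD]; exact D_one_le b w (m - n)
    rw [← hD]
    have h8 : (Y : ℝ) * Vt w y ^ 2 ≤ 2 * ((X : ℝ) / M) * (2 * r * CV / (v * L)) ^ 2 :=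
      mul_le_mul hY2 (pow_le_pow_left₀ hVt0 hVt 2) (by positivity) (by positivity)
    have h9 : X / (M * L ^ 2) ≤ (X : ℝ) * D ^ 2 / (M * v ^ 2 * L ^ 2) := by
      rw [div_le_div_iff₀ (by positivity) (by positivity)]
      have e1 : v ^ 2 ≤ D ^ 2 := pow_le_pow_left₀ hVw.le (by linarith) 2
      calc (X : ℝ) * (M * v ^ 2 * L ^ 2) = (X * M * L ^ 2) * v ^ 2 := by ring
        _ ≤ (X * M * L ^ 2) * D ^ 2 := mul_le_mul_of_nonneg_left e1 (by positivity)
        _ = _ := by ring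
    have h10 : 2 * ((X : ℝ) / M) * (2 * r * CV / (v * L)) ^ 2 * D ^ 2 =
        8 * r ^ 2 * CV ^ 2 * (X * D ^ 2 / (M * v ^ 2 * L ^ 2)) := by
      field_simp
      ring
    have h11 : (8 * r * CV + 16 * r ^ 2 * CV ^ 2 + 2) * X * D ^ 2 / (M * v ^ 2 * L ^ 2) =
        (8 * r * CV + 16 * r ^ 2 * CV ^ 2 + 2) * (X * D ^ 2 / (M * v ^ 2 * L ^ 2)) := by ring
    rw [h11]
    have h12 : 0 ≤ (X : ℝ) * D ^ 2 / (M * v ^ 2 * L ^ 2) := by positivity
    have h13 : 0 ≤ (8 * r * CV + 1) * ((X : ℝ) * D ^ 2 / (M * v ^ 2 * L ^ 2)) := by positivity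
    have h14 := mul_le_mul_of_nonneg_right h8 (show 0 ≤ D ^ 2 by positivity)
    rw [h10] at h14
    linarith

end Pool.Agent.H95RU
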